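import Pool.Agent.H221.TW.StmG

/-!
# The planar lemma for ten arcs: combinatorial configuration

`Cfg D` collects what the computer generated case tree (`core`) uses of the matrix
`D i j = det (p i) (p j)` of a generic chain; `cfg_of_chain` (to be proved) is the geometric part.
-/

set_option autoImplicit false

namespace Pool.Agent.H768.PL

/-- right label of the pair of arcs `i, j` -/
def RR (D : ℕ → ℕ → ℝ) (i j : ℕ) : Prop := 0 < D i (j + 1) → D i (j + 1) < D j (j + 1)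

/-- left label of the pair of arcs `i, j` -/
def LL (D : ℕ → ℕ → ℝ) (i j : ℕ) : Prop := 0 < D i (j + 1) → D i (j + 1) < D i (i + 1)

/-- what is used of the determinants of the division points -/
structure Cfg (D : ℕ → ℕ → ℝ) : Prop where
  anti : ∀ i j, D j i = - D i j
  per : ∀ i j, D (i + 10) j = D i j
  pl : ∀ a b c d, D a c * D b d = D a b * D c d + D a d * D b c
  ne : ∀ i j, i < j → j < i + 10 → D i j ≠ 0
  /-- `0 < D i j` means `th j < th i + π` -/
  sub : ∀ i j a b, i ≤ a → a < b → b ≤ j → j < i + 10 → 0 < D i j → 0 < D a b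
  lab : ∀ i j, i + 2 ≤ j → j ≤ i + 8 → RR D i j ∨ LL D i j
  /-- label + convexity: `u = p j - p i`; `[u, p (j+1)] > 0` gives `[u, p e] > 0`, then
  `[p j - p a, p e] > 0`, then `[p b - p a, p e] > 0` -/
  fF : ∀ i j a b e, i + 2 ≤ j → RR D i j → a ≤ i → a < b → b ≤ j → j + 1 ≤ e → e < a + 10 →
    0 < D a e → D a e < D b e
  /-- a supporting functional `f` at `p a` has `f (p e) < 0`, `D a e f (p g) = D a g f (p e) - D e g`,
  and `f (p g) ≥ -3.1` -/
  fC : ∀ i j a e g, i + 2 ≤ j → RR D i j → a ≤ i → j + 1 ≤ e → e < g → g < a + 10 →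
    0 < D a g → D e g < 31 / 10 * D a e
  fG : ∀ i j c a b, i + 2 ≤ j → LL D i j → c ≤ i → i + 1 ≤ a → a < b → j + 1 ≤ b → b < c + 10 →
    0 < D c b → D c b < D c a
  fK : ∀ i j g c b, i + 2 ≤ j → LL D i j → g < c → c ≤ i → j + 1 ≤ b → b < g + 10 →
    0 < D g b → D g c < 31 / 10 * D c b
  ch : ∀ i, 0 < D i (i + 3) → 0 < D (i + 2) (i + 5) →
    D i (i + 3) < D i (i + 1) ∨ D (i + 2) (i + 5) < D (i + 4) (i + 5) ∨
    D i (i + 3) + D (i + 2) (i + 5) < 101 / 100 * D (i + 2) (i + 3) + D i (i + 5) ∨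
    D (i + 1) (i + 2) * D (i + 3) (i + 4) < 101 / 100 * (D i (i + 1) * D (i + 4) (i + 5))

/-- GEO (geometric part): to be proved by helper490 and friends -/
def S_geo : Prop := ∀ Q : Set Pool.Agent.H332.HT.V2, Convex ℝ Q → IsCompact Q →
  (0 : Pool.Agent.H332.HT.V2) ∈ interior Q →
  (∀ x ∈ Q, -((1 / (31 / 10 : ℝ)) • x) ∈ Q) → ∀ (th : ℕ → ℝ) (p : ℕ → Pool.Agent.H332.HT.V2),
  Pool.Agent.H221.TW.ChainG Q th p → Cfg (fun i j => Pool.Agent.H332.HT.det (p i) (p j))

/-- CORE (computer generated case tree, helper768) -/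
def S_core : Prop := ∀ D : ℕ → ℕ → ℝ, Cfg D → False

theorem planarG_of (h1 : S_geo) (h2 : S_core) : Pool.Agent.H221.TW.S_planarG :=
  fun Q a b c d th p hc => h2 _ (h1 Q a b c d th p hc)

end Pool.Agent.H768.PL
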