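import Pool.Agent.H768.PL.TL1

set_option autoImplicit false
set_option linter.all false

namespace Pool.Agent.H768.PL

theorem tl_11 {D : ℕ → ℕ → ℝ} (h : Cfg D)
    (hLL : ∀ i, LL D i (i + 2))
    (hNR : ∀ i, ¬ RR D i (i + 2))
    (hb : ∀ i, 0 < D i (i + 1))
    (w0_3 : 0 < D 0 3)
    (w1_4 : 0 < D 1 4)
    (w8_11 : 0 < D 8 11)
    (w9_12 : 0 < D 9 12)
    (w9_13 : 0 < D 9 13) : False :=
 (Classical.em (0 < D 5 8)).elim (fun w5_8 => (Classical.em (0 < D 6 9)).elim (fun w6_9 => (Classical.em (0 < D 2 8)).elim (fun w2_8 => tl_5 h hLL hNR w0_3 w2_8 w6_9 w8_11)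
 (fun n_ => (fun (w8_12 : 0 < D 8 12) => (Classical.em (0 < D 2 7)).elim (fun w2_7 => tl_6 h hLL hNR w0_3 w2_7 w6_9 w8_11)
 (fun n_ => (fun (w7_12 : 0 < D 7 12) => (Classical.em (0 < D 3 6)).elim (fun w3_6 => tl_7 h hLL hNR w1_4 w3_6 w5_8 w7_12 w9_12)
 (fun n_ => (fun (w6_13 : 0 < D 6 13) => tl_8 h hLL hb w6_13 w6_9) (h.flip n_ (by decide)))) (h.flip n_ (by decide)))) (h.flip n_ (by decide))))
 (fun n_ => (fun (w9_16 : 0 < D 9 16) => tl_9 h hLL hb w0_3 w9_12 w9_13 w9_16) (h.flip n_ (by decide))))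
 (fun n_ => (fun (w8_15 : 0 < D 8 15) => tl_10 h hLL hb w8_15) (h.flip n_ (by decide)))

theorem tl_15 {D : ℕ → ℕ → ℝ} (h : Cfg D)
    (hLL : ∀ i, LL D i (i + 2))
    (hNR : ∀ i, ¬ RR D i (i + 2))
    (hb : ∀ i, 0 < D i (i + 1))
    (w0_3 : 0 < D 0 3)
    (w9_12 : 0 < D 9 12) : False :=
 (Classical.em (0 < D 5 7)).elim (fun w5_7 => (Classical.em (0 < D 1 8)).elim (fun w1_8 => tl_3 h hLL hb w1_8)
 (fun n_ => (fun (w8_11 : 0 < D 8 11) => (Classical.em (0 < D 1 4)).elim (fun w1_4 => (Classical.em (0 < D 9 13)).elim (fun w9_13 => (Classical.em (0 < D 9 17)).elim (fun w9_17 => tl_4 h hLL hb w9_17)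
 (fun n_ => (fun (w7_9 : 0 < D 7 9) => tl_11 h hLL hNR hb w0_3 w1_4 w8_11 w9_12 w9_13) (h.flip2 n_ 7 (by decide))))
 (fun n_ => (fun (w3_9 : 0 < D 3 9) => tl_12 h hLL hNR hb w0_3 w1_4 w3_9 w8_11 w9_12) (h.flip2 n_ 3 (by decide))))
 (fun n_ => (fun (w4_11 : 0 < D 4 11) => tl_13 h hLL hb w4_11) (h.flip n_ (by decide)))) (h.flip n_ (by decide))))
 (fun n_ => (fun (w7_15 : 0 < D 7 15) => tl_14 h hLL hb w7_15) (h.flip n_ (by decide)))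

theorem tl_20 {D : ℕ → ℕ → ℝ} (h : Cfg D)
    (hLL : ∀ i, LL D i (i + 2))
    (hNR : ∀ i, ¬ RR D i (i + 2))
    (hb : ∀ i, 0 < D i (i + 1)) : False :=
 (Classical.em (0 < D 1 3)).elim (fun w1_3 => (Classical.em (0 < D 0 3)).elim (fun w0_3 => (Classical.em (0 < D 4 6)).elim (fun w4_6 => (Classical.em (0 < D 3 5)).elim (fun w3_5 => (Classical.em (0 < D 2 9)).elim (fun w2_9 => tl_2 h hLL hb w2_9)
 (fun n_ => (fun (w9_12 : 0 < D 9 12) => tl_15 h hLL hNR hb w0_3 w9_12) (h.flip n_ (by decide))))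
 (fun n_ => (fun (w5_13 : 0 < D 5 13) => tl_16 h hLL hb w5_13) (h.flip n_ (by decide))))
 (fun n_ => (fun (w6_14 : 0 < D 6 14) => tl_17 h hLL hb w6_14) (h.flip n_ (by decide))))
 (fun n_ => (fun (w3_10 : 0 < D 3 10) => tl_18 h hLL hb w3_10) (h.flip n_ (by decide))))
 (fun n_ => (fun (w3_11 : 0 < D 3 11) => tl_19 h hLL hb w3_11) (h.flip n_ (by decide)))

theorem tl_main {D : ℕ → ℕ → ℝ} (h : Cfg D)
    (hb : ∀ i, 0 < D i (i + 1))
    (hLL : ∀ i, LL D i (i + 2))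
    (hNR : ∀ i, ¬ RR D i (i + 2)) : False :=
 (Classical.em (0 < D 2 4)).elim (fun w2_4 => (Classical.em (0 < D 0 8)).elim (fun w0_8 => tl_1 h hLL hb w0_8)
 (fun n_ => (fun (w8_10 : 0 < D 8 10) => (Classical.em (0 < D 0 2)).elim (fun w0_2 => tl_20 h hLL hNR hb)
 (fun n_ => (fun (w2_10 : 0 < D 2 10) => tl_21 h hLL hb w2_10) (h.flip n_ (by decide)))) (h.flip n_ (by decide))))
 (fun n_ => (fun (w4_12 : 0 < D 4 12) => tl_22 h hLL hb w4_12) (h.flip n_ (by decide)))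

end Pool.Agent.H768.PL
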