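import Pool.Agent.H768.PL.Lem3

set_option autoImplicit false
set_option linter.all false

namespace Pool.Agent.H768.PL

open Real

theorem tm_540 {D : ℕ → ℕ → ℝ} (h : Cfg D)
    (h3_1 : D 1 4 + D 3 6 < 101 / 100 * D 3 4 + D 1 6)
    (hb : ∀ i, 0 < D i (i + 1))
    (iPX0_1_7_9gm2 : (lv D 9 + lv D 17) + (-2) * Real.log 2 ≤ lv D 1 + lv D 79)
    (iPY2_3_6_7gp0 : (lv D 27 + lv D 36) + (0) * Real.log 2 ≤ lv D 26 + lv D 37)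
    (l2_2 : LL D 2 4)
    (l3_2 : LL D 3 5)
    (l4_2 : LL D 4 6)
    (l5_2 : LL D 5 7)
    (l6_2 : LL D 6 8)
    (l9_2 : LL D 9 11)
    (nr2 : ¬ RR D 2 4)
    (r0_2 : RR D 0 2)
    (r1_2 : RR D 1 3)
    (w0_3 : 0 < D 0 3)
    (w0_6 : 0 < D 0 6)
    (w1_5 : 0 < D 1 5)
    (w1_6 : 0 < D 1 6)
    (w3_8 : 0 < D 3 8)
    (w3_9 : 0 < D 3 9)
    (w7_12 : 0 < D 7 12) : False := by
  have e1 : Real.exp (lv D 15 + lv D 36) = Real.exp (lv D 13 + lv D 56) + Real.exp (lv D 16 + lv D 35) :=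
    h.PX 1 3 5 6 (h.sgp w1_5 1 5 0 0 (by decide)) (h.sgp w3_8 3 6 0 0 (by decide)) (h.sgp w1_5 1 3 0 0 (by decide)) (h.sgb hb 5) (h.sgp w1_6 1 6 0 0 (by decide)) (h.sgp w3_8 3 5 0 0 (by decide)) rfl
  have f1 := eH e1
  have f2 : lv D 34 < lv D 49 + 11317 / 10000 :=
    h.lK 5 2 0 3 4 9 l5_2 (by decide) w3_9
  have e2 : Real.exp (lv D 14 + lv D 35) = Real.exp (lv D 13 + lv D 45) + Real.exp (lv D 15 + lv D 34) :=
    h.PX 1 3 4 5 (h.sgp w1_5 1 4 0 0 (by decide)) (h.sgp w3_8 3 5 0 0 (by decide)) (h.sgp w1_5 1 3 0 0 (by decide)) (h.sgb hb 4) (h.sgp w1_5 1 5 0 0 (by decide)) (h.sgb hb 3) rfl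
  have f3 := eH e2
  have e3 : Real.exp (lv D 25 + lv D 36) = Real.exp (lv D 23 + lv D 56) + Real.exp (lv D 26 + lv D 35) :=
    h.PX 2 3 5 6 (h.sgp w1_5 2 5 0 0 (by decide)) (h.sgp w3_8 3 6 0 0 (by decide)) (h.sgb hb 2) (h.sgb hb 5) (h.sgp w1_6 2 6 0 0 (by decide)) (h.sgp w3_8 3 5 0 0 (by decide)) rfl
  have f4 := eH e3
  have f5 : lv D 13 + lv D 46 + lv D 14 + lv D 36 < 4 * lv D 34 - 269 / 100 :=
    h.lgz 1 h3_1 r1_2 (h.llsh 3 0 l3_2) (h.pos_of w1_5 1 4 0 0 (by decide)) (h.pos_of w3_8 3 6 0 0 (by decide))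
  have f6 : lv D 3 < lv D 13 :=
    h.lF 0 2 0 0 1 3 r0_2 (by decide) w0_3
  have e4 : Real.exp (lv D 24 + lv D 36) = Real.exp (lv D 23 + lv D 46) + Real.exp (lv D 26 + lv D 34) :=
    h.PX 2 3 4 6 (h.sgp w1_5 2 4 0 0 (by decide)) (h.sgp w3_8 3 6 0 0 (by decide)) (h.sgb hb 2) (h.sgp w3_8 4 6 0 0 (by decide)) (h.sgp w1_6 2 6 0 0 (by decide)) (h.sgb hb 3) rfl
  have f7 := eM e4
  have e5 : Real.exp (lv D 23 + lv D 67) = Real.exp (lv D 26 + lv D 37) + Real.exp (lv D 27 + lv D 36) :=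
    h.PY 2 3 6 7 (h.sgp w1_6 2 6 0 0 (by decide)) (h.sgp w3_8 3 7 0 0 (by decide)) (h.sgb hb 2) (h.sgb hb 6) (h.sgn w7_12 2 7 0 0 (by decide)) (h.sgp w3_8 3 6 0 0 (by decide)) rfl
  have f8 := ugp0 e5 iPY2_3_6_7gp0
  have e6 : Real.exp (lv D 36 + lv D 47) = Real.exp (lv D 34 + lv D 67) + Real.exp (lv D 37 + lv D 46) :=
    h.PX 3 4 6 7 (h.sgp w3_8 3 6 0 0 (by decide)) (h.sgp w3_8 4 7 0 0 (by decide)) (h.sgb hb 3) (h.sgb hb 6) (h.sgp w3_8 3 7 0 0 (by decide)) (h.sgp w3_8 4 6 0 0 (by decide)) rfl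
  have f9 := eH e6
  have f10 : lv D 25 < lv D 23 :=
    h.lG 2 2 0 2 3 5 l2_2 (by decide) (h.pos_of w1_5 2 5 0 0 (by decide))
  have f11 : lv D 34 < lv D 3 + 11317 / 10000 :=
    h.lC 0 2 0 0 3 4 r0_2 (by decide) (h.pos_of w0_6 0 4 0 0 (by decide))
  have f12 : lv D 45 ≤ lv D 25 :=
    h.lN 2 nr2
  have f13 : lv D 47 < lv D 45 :=
    h.lG 4 2 0 4 5 7 l4_2 (by decide) (h.pos_of w3_8 4 7 0 0 (by decide))
  have e7 : Real.exp (lv D 29 + lv D 47) = Real.exp (lv D 27 + lv D 49) + Real.exp (lv D 24 + lv D 79) :=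
    h.PZ 2 4 7 9 (h.sgn w7_12 2 7 0 0 (by decide)) (h.sgp w3_9 4 9 0 0 (by decide)) (h.sgp w1_5 2 4 0 0 (by decide)) (h.sgp w3_9 7 9 0 0 (by decide)) (h.sgn w7_12 2 9 0 0 (by decide)) (h.sgp w3_8 4 7 0 0 (by decide)) rfl
  have f14 := eN e7
  have e8 : Real.exp (lv D 46 + lv D 59) = Real.exp (lv D 45 + lv D 69) + Real.exp (lv D 49 + lv D 56) :=
    h.PX 4 5 6 9 (h.sgp w3_8 4 6 0 0 (by decide)) (h.sgp w3_9 5 9 0 0 (by decide)) (h.sgb hb 4) (h.sgp w3_9 6 9 0 0 (by decide)) (h.sgp w3_9 4 9 0 0 (by decide)) (h.sgb hb 5) rfl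
  have f15 := eH e8
  have f16 : lv D 29 < lv D 19 :=
    h.lG 9 2 0 9 11 12 l9_2 (by decide) (h.pos_of w7_12 9 12 0 0 (by decide))
  have e9 : Real.exp (lv D 7 + lv D 16) = Real.exp (lv D 6 + lv D 17) + Real.exp (lv D 1 + lv D 67) :=
    h.PZ 0 1 6 7 (h.sgp w0_6 0 6 0 0 (by decide)) (h.sgn w7_12 1 7 0 0 (by decide)) (h.sgb hb 0) (h.sgb hb 6) (h.sgn w7_12 0 7 0 0 (by decide)) (h.sgp w1_6 1 6 0 0 (by decide)) rfl
  have f17 := eN e9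
  have f18 : lv D 69 < lv D 67 :=
    h.lG 6 2 0 6 7 9 l6_2 (by decide) (h.pos_of w3_9 6 9 0 0 (by decide))
  have e10 : Real.exp (lv D 7 + lv D 19) = Real.exp (lv D 1 + lv D 79) + Real.exp (lv D 9 + lv D 17) :=
    h.PX 0 1 7 9 (h.sgn w7_12 0 7 0 0 (by decide)) (h.sgn w7_12 1 9 0 0 (by decide)) (h.sgb hb 0) (h.sgp w3_9 7 9 0 0 (by decide)) (h.sgbn hb) (h.sgn w7_12 1 7 0 0 (by decide)) rfl
  have f19 := ugm2 e10 iPX0_1_7_9gm2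
  have f20 : lv D 59 < lv D 56 :=
    h.lG 5 2 0 5 6 9 l5_2 (by decide) (h.pos_of w3_9 5 9 0 0 (by decide))
  have f21 : lv D 36 < lv D 69 + 11317 / 10000 :=
    h.lK 6 2 0 3 6 9 l6_2 (by decide) w3_9
  linarith [f1, f2, f3, f4, f5, f6, f7, f8, f9, f10, f11, f12, f13, f14, f15, f16, f17, f18, f19, f20, f21, hl2a, hl2b]

theorem tm_541 {D : ℕ → ℕ → ℝ} (h : Cfg D)
    (h3_1 : D 1 4 + D 3 6 < 101 / 100 * D 3 4 + D 1 6)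
    (hb : ∀ i, 0 < D i (i + 1))
    (iPX1_2_3_6gm1 : (lv D 16 + lv D 23) + (-1) * Real.log 2 ≤ lv D 12 + lv D 36)
    (iPY2_3_6_7gp0 : (lv D 27 + lv D 36) + (0) * Real.log 2 ≤ lv D 26 + lv D 37)
    (l2_2 : LL D 2 4)
    (l3_2 : LL D 3 5)
    (l4_2 : LL D 4 6)
    (l5_2 : LL D 5 7)
    (l6_2 : LL D 6 8)
    (r0_2 : RR D 0 2)
    (r1_2 : RR D 1 3)
    (r8_2 : RR D 8 10)
    (w0_6 : 0 < D 0 6)
    (w3_8 : 0 < D 3 8)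
    (w3_9 : 0 < D 3 9)
    (w4_9 : 0 < D 4 9)
    (w7_12 : 0 < D 7 12) : False := by
  have e1 : Real.exp (lv D 4 + lv D 35) = Real.exp (lv D 3 + lv D 45) + Real.exp (lv D 5 + lv D 34) :=
    h.PX 0 3 4 5 (h.sgp w0_6 0 4 0 0 (by decide)) (h.sgp w0_6 3 5 0 0 (by decide)) (h.sgp w0_6 0 3 0 0 (by decide)) (h.sgb hb 4) (h.sgp w0_6 0 5 0 0 (by decide)) (h.sgb hb 3) rfl
  have f1 := eH e1
  have e2 : Real.exp (lv D 13 + lv D 26) = Real.exp (lv D 12 + lv D 36) + Real.exp (lv D 16 + lv D 23) :=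
    h.PX 1 2 3 6 (h.sgp w0_6 1 3 0 0 (by decide)) (h.sgp w0_6 2 6 0 0 (by decide)) (h.sgb hb 1) (h.sgp w0_6 3 6 0 0 (by decide)) (h.sgp w0_6 1 6 0 0 (by decide)) (h.sgb hb 2) rfl
  have f2 := ugm1 e2 iPX1_2_3_6gm1
  have e3 : Real.exp (lv D 23 + lv D 67) = Real.exp (lv D 26 + lv D 37) + Real.exp (lv D 27 + lv D 36) :=
    h.PY 2 3 6 7 (h.sgp w0_6 2 6 0 0 (by decide)) (h.sgp w3_8 3 7 0 0 (by decide)) (h.sgb hb 2) (h.sgb hb 6) (h.sgn w7_12 2 7 0 0 (by decide)) (h.sgp w3_8 3 6 0 0 (by decide)) rfl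
  have f3 := ugp0 e3 iPY2_3_6_7gp0
  have e4 : Real.exp (lv D 5 + lv D 36) = Real.exp (lv D 3 + lv D 56) + Real.exp (lv D 6 + lv D 35) :=
    h.PX 0 3 5 6 (h.sgp w0_6 0 5 0 0 (by decide)) (h.sgp w3_8 3 6 0 0 (by decide)) (h.sgp w0_6 0 3 0 0 (by decide)) (h.sgb hb 5) (h.sgp w0_6 0 6 0 0 (by decide)) (h.sgp w3_8 3 5 0 0 (by decide)) rfl
  have f4 := eM e4
  have f5 : lv D 47 < lv D 45 :=
    h.lG 4 2 0 4 5 7 l4_2 (by decide) (h.pos_of w3_8 4 7 0 0 (by decide))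
  have f6 : lv D 69 < lv D 68 :=
    h.lG 6 2 0 6 8 9 l6_2 (by decide) (h.pos_of w4_9 6 9 0 0 (by decide))
  have f7 : lv D 69 < lv D 67 :=
    h.lG 6 2 0 6 7 9 l6_2 (by decide) (h.pos_of w4_9 6 9 0 0 (by decide))
  have f8 : lv D 13 + lv D 46 + lv D 14 + lv D 36 < 4 * lv D 34 - 269 / 100 :=
    h.lgz 1 h3_1 r1_2 (h.llsh 3 0 l3_2) (h.pos_of w0_6 1 4 0 0 (by decide)) (h.pos_of w3_8 3 6 0 0 (by decide))
  have f9 : lv D 58 < lv D 56 :=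
    h.lG 5 2 0 5 6 8 l5_2 (by decide) (h.pos_of w4_9 5 8 0 0 (by decide))
  have e5 : Real.exp (lv D 25 + lv D 36) = Real.exp (lv D 23 + lv D 56) + Real.exp (lv D 26 + lv D 35) :=
    h.PX 2 3 5 6 (h.sgp w0_6 2 5 0 0 (by decide)) (h.sgp w3_8 3 6 0 0 (by decide)) (h.sgb hb 2) (h.sgb hb 5) (h.sgp w0_6 2 6 0 0 (by decide)) (h.sgp w3_8 3 5 0 0 (by decide)) rfl
  have f10 := eH e5
  have f11 : lv D 17 < lv D 1 :=
    h.lF 8 2 0 7 10 11 r8_2 (by decide) (h.pos_of w7_12 7 11 0 0 (by decide))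
  have f12 : lv D 3 < lv D 13 :=
    h.lF 0 2 0 0 1 3 r0_2 (by decide) (h.pos_of w0_6 0 3 0 0 (by decide))
  have e6 : Real.exp (lv D 2 + lv D 17) = Real.exp (lv D 1 + lv D 27) + Real.exp (lv D 7 + lv D 12) :=
    h.PX 0 1 2 7 (h.sgp w0_6 0 2 0 0 (by decide)) (h.sgn w7_12 1 7 0 0 (by decide)) (h.sgb hb 0) (h.sgn w7_12 2 7 0 0 (by decide)) (h.sgn w7_12 0 7 0 0 (by decide)) (h.sgb hb 1) rfl
  have f13 := eN e6
  have e7 : Real.exp (lv D 35 + lv D 46) = Real.exp (lv D 34 + lv D 56) + Real.exp (lv D 36 + lv D 45) :=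
    h.PX 3 4 5 6 (h.sgp w3_8 3 5 0 0 (by decide)) (h.sgp w4_9 4 6 0 0 (by decide)) (h.sgb hb 3) (h.sgb hb 5) (h.sgp w3_8 3 6 0 0 (by decide)) (h.sgb hb 4) rfl
  have f14 := eH e7
  have e8 : Real.exp (lv D 3 + lv D 14) = Real.exp (lv D 1 + lv D 34) + Real.exp (lv D 4 + lv D 13) :=
    h.PX 0 1 3 4 (h.sgp w0_6 0 3 0 0 (by decide)) (h.sgp w0_6 1 4 0 0 (by decide)) (h.sgb hb 0) (h.sgb hb 3) (h.sgp w0_6 0 4 0 0 (by decide)) (h.sgp w0_6 1 3 0 0 (by decide)) rfl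
  have f15 := eH e8
  have f16 : lv D 46 < lv D 69 + 11317 / 10000 :=
    h.lK 6 2 0 4 6 9 l6_2 (by decide) w4_9
  have f17 : lv D 34 < lv D 3 + 11317 / 10000 :=
    h.lC 0 2 0 0 3 4 r0_2 (by decide) (h.pos_of w0_6 0 4 0 0 (by decide))
  have e9 : Real.exp (lv D 36 + lv D 58) = Real.exp (lv D 35 + lv D 68) + Real.exp (lv D 38 + lv D 56) :=
    h.PX 3 5 6 8 (h.sgp w3_8 3 6 0 0 (by decide)) (h.sgp w4_9 5 8 0 0 (by decide)) (h.sgp w3_8 3 5 0 0 (by decide)) (h.sgp w4_9 6 8 0 0 (by decide)) (h.sgp w3_8 3 8 0 0 (by decide)) (h.sgb hb 5) rfl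
  have f18 := eM e9
  have f19 : lv D 25 < lv D 23 :=
    h.lG 2 2 0 2 3 5 l2_2 (by decide) (h.pos_of w0_6 2 5 0 0 (by decide))
  have f20 : lv D 36 < lv D 69 + 11317 / 10000 :=
    h.lK 6 2 0 3 6 9 l6_2 (by decide) w3_9
  have e10 : Real.exp (lv D 36 + lv D 47) = Real.exp (lv D 34 + lv D 67) + Real.exp (lv D 37 + lv D 46) :=
    h.PX 3 4 6 7 (h.sgp w3_8 3 6 0 0 (by decide)) (h.sgp w4_9 4 7 0 0 (by decide)) (h.sgb hb 3) (h.sgb hb 6) (h.sgp w3_8 3 7 0 0 (by decide)) (h.sgp w4_9 4 6 0 0 (by decide)) rfl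
  have f21 := eH e10
  have e11 : Real.exp (lv D 7 + lv D 26) = Real.exp (lv D 6 + lv D 27) + Real.exp (lv D 2 + lv D 67) :=
    h.PZ 0 2 6 7 (h.sgp w0_6 0 6 0 0 (by decide)) (h.sgn w7_12 2 7 0 0 (by decide)) (h.sgp w0_6 0 2 0 0 (by decide)) (h.sgb hb 6) (h.sgn w7_12 0 7 0 0 (by decide)) (h.sgp w0_6 2 6 0 0 (by decide)) rfl
  have f22 := eN e11
  linarith [f1, f2, f3, f4, f5, f6, f7, f8, f9, f10, f11, f12, f13, f14, f15, f16, f17, f18, f19, f20, f21, f22, hl2a, hl2b]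

theorem tm_542 {D : ℕ → ℕ → ℝ} (h : Cfg D)
    (h3_1 : D 1 4 + D 3 6 < 101 / 100 * D 3 4 + D 1 6)
    (hb : ∀ i, 0 < D i (i + 1))
    (iPX1_2_3_6gm1 : (lv D 16 + lv D 23) + (-1) * Real.log 2 ≤ lv D 12 + lv D 36)
    (iPY2_3_6_7gp0 : (lv D 27 + lv D 36) + (0) * Real.log 2 ≤ lv D 26 + lv D 37)
    (l2_2 : LL D 2 4)
    (l3_2 : LL D 3 5)
    (l4_2 : LL D 4 6)
    (l5_2 : LL D 5 7)
    (l6_2 : LL D 6 8)
    (l8_2 : LL D 8 10)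
    (l9_2 : LL D 9 11)
    (nr2 : ¬ RR D 2 4)
    (r0_2 : RR D 0 2)
    (r1_2 : RR D 1 3)
    (w0_6 : 0 < D 0 6)
    (w1_4 : 0 < D 1 4)
    (w3_8 : 0 < D 3 8)
    (w3_9 : 0 < D 3 9)
    (w4_9 : 0 < D 4 9)
    (w7_12 : 0 < D 7 12)
    (w8_11 : 0 < D 8 11)
    (w8_12 : 0 < D 8 12) : False := by
  have f1 : lv D 69 < lv D 68 :=
    h.lG 6 2 0 6 8 9 l6_2 (by decide) (h.pos_of w4_9 6 9 0 0 (by decide))
  have e1 : Real.exp (lv D 36 + lv D 47) = Real.exp (lv D 34 + lv D 67) + Real.exp (lv D 37 + lv D 46) :=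
    h.PX 3 4 6 7 (h.sgp w3_8 3 6 0 0 (by decide)) (h.sgp w4_9 4 7 0 0 (by decide)) (h.sgb hb 3) (h.sgb hb 6) (h.sgp w3_8 3 7 0 0 (by decide)) (h.sgp w4_9 4 6 0 0 (by decide)) rfl
  have f2 := eH e1
  have f3 : lv D 13 + lv D 46 + lv D 36 < 3 * lv D 34 - 1366 / 1000 :=
    h.lgy 1 h3_1 r1_2 (h.llsh 3 0 l3_2) w1_4 (h.pos_of w3_8 3 6 0 0 (by decide))
  have e2 : Real.exp (lv D 3 + lv D 69) = Real.exp (lv D 6 + lv D 39) + Real.exp (lv D 9 + lv D 36) :=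
    h.PY 0 3 6 9 (h.sgp w0_6 0 6 0 0 (by decide)) (h.sgp w3_9 3 9 0 0 (by decide)) (h.sgp w0_6 0 3 0 0 (by decide)) (h.sgp w4_9 6 9 0 0 (by decide)) (h.sgbn hb) (h.sgp w3_8 3 6 0 0 (by decide)) rfl
  have f4 := eN e2
  have f5 : lv D 18 < lv D 89 :=
    h.lG 8 2 0 8 9 11 l8_2 (by decide) w8_11
  have f6 : lv D 45 ≤ lv D 25 :=
    h.lN 2 nr2
  have e3 : Real.exp (lv D 46 + lv D 58) = Real.exp (lv D 45 + lv D 68) + Real.exp (lv D 48 + lv D 56) :=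
    h.PX 4 5 6 8 (h.sgp w4_9 4 6 0 0 (by decide)) (h.sgp w4_9 5 8 0 0 (by decide)) (h.sgb hb 4) (h.sgp w4_9 6 8 0 0 (by decide)) (h.sgp w4_9 4 8 0 0 (by decide)) (h.sgb hb 5) rfl
  have f7 := eH e3
  have e4 : Real.exp (lv D 18 + lv D 26) = Real.exp (lv D 16 + lv D 28) + Real.exp (lv D 12 + lv D 68) :=
    h.PZ 1 2 6 8 (h.sgp w0_6 1 6 0 0 (by decide)) (h.sgn w8_12 2 8 0 0 (by decide)) (h.sgb hb 1) (h.sgp w4_9 6 8 0 0 (by decide)) (h.sgn w8_11 1 8 0 0 (by decide)) (h.sgp w0_6 2 6 0 0 (by decide)) rfl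
  have f8 := eN e4
  have f9 : lv D 29 < lv D 9 :=
    h.lG 9 2 0 9 10 12 l9_2 (by decide) (h.pos_of w8_12 9 12 0 0 (by decide))
  have e5 : Real.exp (lv D 29 + lv D 38) = Real.exp (lv D 28 + lv D 39) + Real.exp (lv D 23 + lv D 89) :=
    h.PZ 2 3 8 9 (h.sgn w8_12 2 8 0 0 (by decide)) (h.sgp w3_9 3 9 0 0 (by decide)) (h.sgb hb 2) (h.sgb hb 8) (h.sgn w8_12 2 9 0 0 (by decide)) (h.sgp w3_8 3 8 0 0 (by decide)) rfl
  have f10 := eN e5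
  have e6 : Real.exp (lv D 36 + lv D 48) = Real.exp (lv D 34 + lv D 68) + Real.exp (lv D 38 + lv D 46) :=
    h.PX 3 4 6 8 (h.sgp w3_8 3 6 0 0 (by decide)) (h.sgp w4_9 4 8 0 0 (by decide)) (h.sgb hb 3) (h.sgp w4_9 6 8 0 0 (by decide)) (h.sgp w3_8 3 8 0 0 (by decide)) (h.sgp w4_9 4 6 0 0 (by decide)) rfl
  have f11 := eH e6
  have f12 : lv D 69 < lv D 67 :=
    h.lG 6 2 0 6 7 9 l6_2 (by decide) (h.pos_of w4_9 6 9 0 0 (by decide))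
  have f13 : lv D 48 < lv D 47 :=
    h.lG 4 2 0 4 7 8 l4_2 (by decide) (h.pos_of w4_9 4 8 0 0 (by decide))
  have f14 : lv D 3 < lv D 13 :=
    h.lF 0 2 0 0 1 3 r0_2 (by decide) (h.pos_of w0_6 0 3 0 0 (by decide))
  have e7 : Real.exp (lv D 25 + lv D 46) = Real.exp (lv D 24 + lv D 56) + Real.exp (lv D 26 + lv D 45) :=
    h.PX 2 4 5 6 (h.sgp w0_6 2 5 0 0 (by decide)) (h.sgp w4_9 4 6 0 0 (by decide)) (h.sgp w1_4 2 4 0 0 (by decide)) (h.sgb hb 5) (h.sgp w0_6 2 6 0 0 (by decide)) (h.sgb hb 4) rfl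
  have f15 := eH e7
  have f16 : lv D 46 < lv D 69 + 11317 / 10000 :=
    h.lK 6 2 0 4 6 9 l6_2 (by decide) w4_9
  have f17 : lv D 47 < lv D 45 :=
    h.lG 4 2 0 4 5 7 l4_2 (by decide) (h.pos_of w4_9 4 7 0 0 (by decide))
  have f18 : lv D 36 < lv D 69 + 11317 / 10000 :=
    h.lK 6 2 0 3 6 9 l6_2 (by decide) w3_9
  have e8 : Real.exp (lv D 13 + lv D 26) = Real.exp (lv D 12 + lv D 36) + Real.exp (lv D 16 + lv D 23) :=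
    h.PX 1 2 3 6 (h.sgp w1_4 1 3 0 0 (by decide)) (h.sgp w0_6 2 6 0 0 (by decide)) (h.sgb hb 1) (h.sgp w3_8 3 6 0 0 (by decide)) (h.sgp w0_6 1 6 0 0 (by decide)) (h.sgb hb 2) rfl
  have f19 := ugm1 e8 iPX1_2_3_6gm1
  have f20 : lv D 58 < lv D 56 :=
    h.lG 5 2 0 5 6 8 l5_2 (by decide) (h.pos_of w4_9 5 8 0 0 (by decide))
  have f21 : lv D 34 < lv D 3 + 11317 / 10000 :=
    h.lC 0 2 0 0 3 4 r0_2 (by decide) (h.pos_of w0_6 0 4 0 0 (by decide))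
  have e9 : Real.exp (lv D 24 + lv D 35) = Real.exp (lv D 23 + lv D 45) + Real.exp (lv D 25 + lv D 34) :=
    h.PX 2 3 4 5 (h.sgp w1_4 2 4 0 0 (by decide)) (h.sgp w3_8 3 5 0 0 (by decide)) (h.sgb hb 2) (h.sgb hb 4) (h.sgp w0_6 2 5 0 0 (by decide)) (h.sgb hb 3) rfl
  have f22 := eH e9
  have f23 : lv D 25 < lv D 23 :=
    h.lG 2 2 0 2 3 5 l2_2 (by decide) (h.pos_of w0_6 2 5 0 0 (by decide))
  have e10 : Real.exp (lv D 23 + lv D 67) = Real.exp (lv D 26 + lv D 37) + Real.exp (lv D 27 + lv D 36) :=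
    h.PY 2 3 6 7 (h.sgp w0_6 2 6 0 0 (by decide)) (h.sgp w3_8 3 7 0 0 (by decide)) (h.sgb hb 2) (h.sgb hb 6) (h.sgn w7_12 2 7 0 0 (by decide)) (h.sgp w3_8 3 6 0 0 (by decide)) rfl
  have f24 := ugp0 e10 iPY2_3_6_7gp0
  have e11 : Real.exp (lv D 25 + lv D 36) = Real.exp (lv D 23 + lv D 56) + Real.exp (lv D 26 + lv D 35) :=
    h.PX 2 3 5 6 (h.sgp w0_6 2 5 0 0 (by decide)) (h.sgp w3_8 3 6 0 0 (by decide)) (h.sgb hb 2) (h.sgb hb 5) (h.sgp w0_6 2 6 0 0 (by decide)) (h.sgp w3_8 3 5 0 0 (by decide)) rfl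
  have f25 := eH e11
  linarith [f1, f2, f3, f4, f5, f6, f7, f8, f9, f10, f11, f12, f13, f14, f15, f16, f17, f18, f19, f20, f21, f22, f23, f24, f25, hl2a, hl2b]

theorem tm_543 {D : ℕ → ℕ → ℝ} (h : Cfg D)
    (h3_1 : D 1 4 + D 3 6 < 101 / 100 * D 3 4 + D 1 6)
    (hb : ∀ i, 0 < D i (i + 1))
    (iPX1_2_3_6lm1 : lv D 12 + lv D 36 ≤ (lv D 16 + lv D 23) + (-1) * Real.log 2)
    (iPY2_3_6_7gp0 : (lv D 27 + lv D 36) + (0) * Real.log 2 ≤ lv D 26 + lv D 37)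
    (l2_2 : LL D 2 4)
    (l3_2 : LL D 3 5)
    (l4_2 : LL D 4 6)
    (l5_2 : LL D 5 7)
    (l6_2 : LL D 6 8)
    (r0_2 : RR D 0 2)
    (r1_2 : RR D 1 3)
    (w0_3 : 0 < D 0 3)
    (w0_6 : 0 < D 0 6)
    (w1_3 : 0 < D 1 3)
    (w1_6 : 0 < D 1 6)
    (w2_6 : 0 < D 2 6)
    (w3_8 : 0 < D 3 8)
    (w3_9 : 0 < D 3 9)
    (w4_9 : 0 < D 4 9)
    (w7_12 : 0 < D 7 12) : False := by
  have e1 : Real.exp (lv D 13 + lv D 26) = Real.exp (lv D 12 + lv D 36) + Real.exp (lv D 16 + lv D 23) :=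
    h.PX 1 2 3 6 (h.sgp w1_3 1 3 0 0 (by decide)) (h.sgp w2_6 2 6 0 0 (by decide)) (h.sgb hb 1) (h.sgp w2_6 3 6 0 0 (by decide)) (h.sgp w1_6 1 6 0 0 (by decide)) (h.sgb hb 2) rfl
  have f1 := ulm1 e1 iPX1_2_3_6lm1
  have e2 : Real.exp (lv D 25 + lv D 36) = Real.exp (lv D 23 + lv D 56) + Real.exp (lv D 26 + lv D 35) :=
    h.PX 2 3 5 6 (h.sgp w2_6 2 5 0 0 (by decide)) (h.sgp w2_6 3 6 0 0 (by decide)) (h.sgb hb 2) (h.sgb hb 5) (h.sgp w2_6 2 6 0 0 (by decide)) (h.sgp w2_6 3 5 0 0 (by decide)) rfl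
  have f2 := eH e2
  have f3 : lv D 25 < lv D 23 :=
    h.lG 2 2 0 2 3 5 l2_2 (by decide) (h.pos_of w2_6 2 5 0 0 (by decide))
  have f4 : lv D 3 < lv D 13 :=
    h.lF 0 2 0 0 1 3 r0_2 (by decide) w0_3
  have e3 : Real.exp (lv D 35 + lv D 46) = Real.exp (lv D 34 + lv D 56) + Real.exp (lv D 36 + lv D 45) :=
    h.PX 3 4 5 6 (h.sgp w2_6 3 5 0 0 (by decide)) (h.sgp w2_6 4 6 0 0 (by decide)) (h.sgb hb 3) (h.sgb hb 5) (h.sgp w2_6 3 6 0 0 (by decide)) (h.sgb hb 4) rfl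
  have f5 := eH e3
  have e4 : Real.exp (lv D 36 + lv D 47) = Real.exp (lv D 34 + lv D 67) + Real.exp (lv D 37 + lv D 46) :=
    h.PX 3 4 6 7 (h.sgp w2_6 3 6 0 0 (by decide)) (h.sgp w4_9 4 7 0 0 (by decide)) (h.sgb hb 3) (h.sgb hb 6) (h.sgp w3_8 3 7 0 0 (by decide)) (h.sgp w4_9 4 6 0 0 (by decide)) rfl
  have f6 := eH e4
  have f7 : lv D 46 < lv D 69 + 11317 / 10000 :=
    h.lK 6 2 0 4 6 9 l6_2 (by decide) w4_9
  have e5 : Real.exp (lv D 14 + lv D 36) = Real.exp (lv D 13 + lv D 46) + Real.exp (lv D 16 + lv D 34) :=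
    h.PX 1 3 4 6 (h.sgp w1_6 1 4 0 0 (by decide)) (h.sgp w3_8 3 6 0 0 (by decide)) (h.sgp w1_3 1 3 0 0 (by decide)) (h.sgp w4_9 4 6 0 0 (by decide)) (h.sgp w1_6 1 6 0 0 (by decide)) (h.sgb hb 3) rfl
  have f8 := eH e5
  have f9 : lv D 35 < lv D 58 + 11317 / 10000 :=
    h.lK 5 2 0 3 5 8 l5_2 (by decide) w3_8
  have f10 : lv D 13 + lv D 46 + lv D 14 + lv D 36 < 4 * lv D 34 - 269 / 100 :=
    h.lgz 1 h3_1 r1_2 (h.llsh 3 0 l3_2) (h.pos_of w1_6 1 4 0 0 (by decide)) (h.pos_of w3_8 3 6 0 0 (by decide))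
  have f11 : lv D 36 < lv D 69 + 11317 / 10000 :=
    h.lK 6 2 0 3 6 9 l6_2 (by decide) w3_9
  have e6 : Real.exp (lv D 23 + lv D 67) = Real.exp (lv D 26 + lv D 37) + Real.exp (lv D 27 + lv D 36) :=
    h.PY 2 3 6 7 (h.sgp w2_6 2 6 0 0 (by decide)) (h.sgp w3_8 3 7 0 0 (by decide)) (h.sgb hb 2) (h.sgb hb 6) (h.sgn w7_12 2 7 0 0 (by decide)) (h.sgp w3_8 3 6 0 0 (by decide)) rfl
  have f12 := ugp0 e6 iPY2_3_6_7gp0
  have f13 : lv D 34 < lv D 3 + 11317 / 10000 :=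
    h.lC 0 2 0 0 3 4 r0_2 (by decide) (h.pos_of w0_6 0 4 0 0 (by decide))
  have f14 : lv D 47 < lv D 45 :=
    h.lG 4 2 0 4 5 7 l4_2 (by decide) (h.pos_of w4_9 4 7 0 0 (by decide))
  have f15 : lv D 58 < lv D 56 :=
    h.lG 5 2 0 5 6 8 l5_2 (by decide) (h.pos_of w4_9 5 8 0 0 (by decide))
  have f16 : lv D 35 < lv D 3 + 11317 / 10000 :=
    h.lC 0 2 0 0 3 5 r0_2 (by decide) (h.pos_of w0_6 0 5 0 0 (by decide))
  have f17 : lv D 69 < lv D 67 :=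
    h.lG 6 2 0 6 7 9 l6_2 (by decide) (h.pos_of w4_9 6 9 0 0 (by decide))
  linarith [f1, f2, f3, f4, f5, f6, f7, f8, f9, f10, f11, f12, f13, f14, f15, f16, f17, hl2a, hl2b]

theorem tm_544 {D : ℕ → ℕ → ℝ} (h : Cfg D)
    (h3_1 : D 1 4 + D 3 6 < 101 / 100 * D 3 4 + D 1 6)
    (hb : ∀ i, 0 < D i (i + 1))
    (iPY2_3_6_7lp0 : lv D 26 + lv D 37 ≤ (lv D 27 + lv D 36) + (0) * Real.log 2)
    (l2_2 : LL D 2 4)
    (l3_2 : LL D 3 5)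
    (l4_2 : LL D 4 6)
    (l5_2 : LL D 5 7)
    (l6_2 : LL D 6 8)
    (r0_2 : RR D 0 2)
    (r1_2 : RR D 1 3)
    (r7_2 : RR D 7 9)
    (r7_4 : RR D 7 11)
    (r8_2 : RR D 8 10)
    (w0_6 : 0 < D 0 6)
    (w3_9 : 0 < D 3 9)
    (w4_9 : 0 < D 4 9)
    (w7_12 : 0 < D 7 12) : False := by
  have f1 : lv D 58 < lv D 56 :=
    h.lG 5 2 0 5 6 8 l5_2 (by decide) (h.pos_of w4_9 5 8 0 0 (by decide))
  have e1 : Real.exp (lv D 4 + lv D 15) = Real.exp (lv D 1 + lv D 45) + Real.exp (lv D 5 + lv D 14) :=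
    h.PX 0 1 4 5 (h.sgp w0_6 0 4 0 0 (by decide)) (h.sgp w0_6 1 5 0 0 (by decide)) (h.sgb hb 0) (h.sgb hb 4) (h.sgp w0_6 0 5 0 0 (by decide)) (h.sgp w0_6 1 4 0 0 (by decide)) rfl
  have f2 := eH e1
  have f3 : lv D 69 < lv D 67 :=
    h.lG 6 2 0 6 7 9 l6_2 (by decide) (h.pos_of w4_9 6 9 0 0 (by decide))
  have f4 : lv D 25 < lv D 23 :=
    h.lG 2 2 0 2 3 5 l2_2 (by decide) (h.pos_of w0_6 2 5 0 0 (by decide))
  have f5 : lv D 46 < lv D 69 + 11317 / 10000 :=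
    h.lK 6 2 0 4 6 9 l6_2 (by decide) w4_9
  have e2 : Real.exp (lv D 46 + lv D 58) = Real.exp (lv D 45 + lv D 68) + Real.exp (lv D 48 + lv D 56) :=
    h.PX 4 5 6 8 (h.sgp w4_9 4 6 0 0 (by decide)) (h.sgp w4_9 5 8 0 0 (by decide)) (h.sgb hb 4) (h.sgp w4_9 6 8 0 0 (by decide)) (h.sgp w4_9 4 8 0 0 (by decide)) (h.sgb hb 5) rfl
  have f6 := eH e2
  have e3 : Real.exp (lv D 3 + lv D 69) = Real.exp (lv D 6 + lv D 39) + Real.exp (lv D 9 + lv D 36) :=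
    h.PY 0 3 6 9 (h.sgp w0_6 0 6 0 0 (by decide)) (h.sgp w3_9 3 9 0 0 (by decide)) (h.sgp w0_6 0 3 0 0 (by decide)) (h.sgp w4_9 6 9 0 0 (by decide)) (h.sgbn hb) (h.sgp w3_9 3 6 0 0 (by decide)) rfl
  have f7 := eN e3
  have e4 : Real.exp (lv D 3 + lv D 25) = Real.exp (lv D 2 + lv D 35) + Real.exp (lv D 5 + lv D 23) :=
    h.PX 0 2 3 5 (h.sgp w0_6 0 3 0 0 (by decide)) (h.sgp w0_6 2 5 0 0 (by decide)) (h.sgp w0_6 0 2 0 0 (by decide)) (h.sgp w3_9 3 5 0 0 (by decide)) (h.sgp w0_6 0 5 0 0 (by decide)) (h.sgb hb 2) rfl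
  have f8 := eH e4
  have e5 : Real.exp (lv D 23 + lv D 67) = Real.exp (lv D 26 + lv D 37) + Real.exp (lv D 27 + lv D 36) :=
    h.PY 2 3 6 7 (h.sgp w0_6 2 6 0 0 (by decide)) (h.sgp w3_9 3 7 0 0 (by decide)) (h.sgb hb 2) (h.sgb hb 6) (h.sgn w7_12 2 7 0 0 (by decide)) (h.sgp w3_9 3 6 0 0 (by decide)) rfl
  have f9 := ulp0 e5 iPY2_3_6_7lp0
  have f10 : lv D 13 + lv D 46 + lv D 14 + lv D 36 < 4 * lv D 34 - 269 / 100 :=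
    h.lgz 1 h3_1 r1_2 (h.llsh 3 0 l3_2) (h.pos_of w0_6 1 4 0 0 (by decide)) (h.pos_of w3_9 3 6 0 0 (by decide))
  have e6 : Real.exp (lv D 5 + lv D 46) = Real.exp (lv D 4 + lv D 56) + Real.exp (lv D 6 + lv D 45) :=
    h.PX 0 4 5 6 (h.sgp w0_6 0 5 0 0 (by decide)) (h.sgp w4_9 4 6 0 0 (by decide)) (h.sgp w0_6 0 4 0 0 (by decide)) (h.sgb hb 5) (h.sgp w0_6 0 6 0 0 (by decide)) (h.sgb hb 4) rfl
  have f11 := eM e6
  have f12 : lv D 34 < lv D 3 + 11317 / 10000 :=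
    h.lC 0 2 0 0 3 4 r0_2 (by decide) (h.pos_of w0_6 0 4 0 0 (by decide))
  have e7 : Real.exp (lv D 18 + lv D 25) = Real.exp (lv D 15 + lv D 28) + Real.exp (lv D 12 + lv D 58) :=
    h.PZ 1 2 5 8 (h.sgp w0_6 1 5 0 0 (by decide)) (h.sgn w7_12 2 8 0 0 (by decide)) (h.sgb hb 1) (h.sgp w4_9 5 8 0 0 (by decide)) (h.sgn w7_12 1 8 0 0 (by decide)) (h.sgp w0_6 2 5 0 0 (by decide)) rfl
  have f13 := eH e7
  have f14 : lv D 3 < lv D 13 :=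
    h.lF 0 2 0 0 1 3 r0_2 (by decide) (h.pos_of w0_6 0 3 0 0 (by decide))
  have f15 : lv D 34 < lv D 48 + 11317 / 10000 :=
    h.lK 5 2 0 3 4 8 l5_2 (by decide) (h.pos_of w3_9 3 8 0 0 (by decide))
  have f16 : lv D 36 < lv D 69 + 11317 / 10000 :=
    h.lK 6 2 0 3 6 9 l6_2 (by decide) w3_9
  have e8 : Real.exp (lv D 4 + lv D 35) = Real.exp (lv D 3 + lv D 45) + Real.exp (lv D 5 + lv D 34) :=
    h.PX 0 3 4 5 (h.sgp w0_6 0 4 0 0 (by decide)) (h.sgp w3_9 3 5 0 0 (by decide)) (h.sgp w0_6 0 3 0 0 (by decide)) (h.sgb hb 4) (h.sgp w0_6 0 5 0 0 (by decide)) (h.sgb hb 3) rfl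
  have f17 := eH e8
  have f18 : lv D 27 < lv D 28 :=
    h.lF 7 2 0 7 8 12 r7_2 (by decide) w7_12
  have f19 : lv D 47 < lv D 45 :=
    h.lG 4 2 0 4 5 7 l4_2 (by decide) (h.pos_of w4_9 4 7 0 0 (by decide))
  have f20 : lv D 18 < lv D 1 :=
    h.lF 8 2 0 8 10 11 r8_2 (by decide) (h.pos_of w7_12 8 11 0 0 (by decide))
  have e9 : Real.exp (lv D 36 + lv D 47) = Real.exp (lv D 34 + lv D 67) + Real.exp (lv D 37 + lv D 46) :=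
    h.PX 3 4 6 7 (h.sgp w3_9 3 6 0 0 (by decide)) (h.sgp w4_9 4 7 0 0 (by decide)) (h.sgb hb 3) (h.sgb hb 6) (h.sgp w3_9 3 7 0 0 (by decide)) (h.sgp w4_9 4 6 0 0 (by decide)) rfl
  have f21 := eM e9
  have e10 : Real.exp (lv D 2 + lv D 15) = Real.exp (lv D 1 + lv D 25) + Real.exp (lv D 5 + lv D 12) :=
    h.PX 0 1 2 5 (h.sgp w0_6 0 2 0 0 (by decide)) (h.sgp w0_6 1 5 0 0 (by decide)) (h.sgb hb 0) (h.sgp w0_6 2 5 0 0 (by decide)) (h.sgp w0_6 0 5 0 0 (by decide)) (h.sgb hb 1) rfl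
  have f22 := eH e10
  have e11 : Real.exp (lv D 9 + lv D 16) = Real.exp (lv D 6 + lv D 19) + Real.exp (lv D 1 + lv D 69) :=
    h.PZ 0 1 6 9 (h.sgp w0_6 0 6 0 0 (by decide)) (h.sgn w7_12 1 9 0 0 (by decide)) (h.sgb hb 0) (h.sgp w4_9 6 9 0 0 (by decide)) (h.sgbn hb) (h.sgp w0_6 1 6 0 0 (by decide)) rfl
  have f23 := eN e11
  have e12 : Real.exp (lv D 47 + lv D 68) = Real.exp (lv D 46 + lv D 78) + Real.exp (lv D 48 + lv D 67) :=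
    h.PX 4 6 7 8 (h.sgp w4_9 4 7 0 0 (by decide)) (h.sgp w4_9 6 8 0 0 (by decide)) (h.sgp w4_9 4 6 0 0 (by decide)) (h.sgb hb 7) (h.sgp w4_9 4 8 0 0 (by decide)) (h.sgb hb 6) rfl
  have f24 := eN e12
  have f25 : lv D 27 < lv D 12 :=
    h.lF 7 4 0 7 11 12 r7_4 (by decide) w7_12
  have e13 : Real.exp (lv D 14 + lv D 36) = Real.exp (lv D 13 + lv D 46) + Real.exp (lv D 16 + lv D 34) :=
    h.PX 1 3 4 6 (h.sgp w0_6 1 4 0 0 (by decide)) (h.sgp w3_9 3 6 0 0 (by decide)) (h.sgp w0_6 1 3 0 0 (by decide)) (h.sgp w4_9 4 6 0 0 (by decide)) (h.sgp w0_6 1 6 0 0 (by decide)) (h.sgb hb 3) rfl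
  have f26 := eH e13
  have e14 : Real.exp (lv D 2 + lv D 13) = Real.exp (lv D 1 + lv D 23) + Real.exp (lv D 3 + lv D 12) :=
    h.PX 0 1 2 3 (h.sgp w0_6 0 2 0 0 (by decide)) (h.sgp w0_6 1 3 0 0 (by decide)) (h.sgb hb 0) (h.sgb hb 2) (h.sgp w0_6 0 3 0 0 (by decide)) (h.sgb hb 1) rfl
  have f27 := eH e14
  linarith [f1, f2, f3, f4, f5, f6, f7, f8, f9, f10, f11, f12, f13, f14, f15, f16, f17, f18, f19, f20, f21, f22, f23, f24, f25, f26, f27, hl2a, hl2b]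

theorem tm_545 {D : ℕ → ℕ → ℝ} (h : Cfg D)
    (hb : ∀ i, 0 < D i (i + 1))
    (iPY2_3_6_7lp0 : lv D 26 + lv D 37 ≤ (lv D 27 + lv D 36) + (0) * Real.log 2)
    (l7_4 : LL D 7 11)
    (r0_2 : RR D 0 2)
    (r8_2 : RR D 8 10)
    (w0_6 : 0 < D 0 6)
    (w3_8 : 0 < D 3 8)
    (w3_9 : 0 < D 3 9)
    (w7_10 : 0 < D 7 10)
    (w7_12 : 0 < D 7 12) : False := by
  have e1 : Real.exp (lv D 3 + lv D 67) = Real.exp (lv D 6 + lv D 37) + Real.exp (lv D 7 + lv D 36) :=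
    h.PY 0 3 6 7 (h.sgp w0_6 0 6 0 0 (by decide)) (h.sgp w3_8 3 7 0 0 (by decide)) (h.sgp w0_6 0 3 0 0 (by decide)) (h.sgb hb 6) (h.sgn w7_10 0 7 0 0 (by decide)) (h.sgp w3_8 3 6 0 0 (by decide)) rfl
  have f1 := eN e1
  have f2 : lv D 27 < lv D 78 :=
    h.lG 7 4 0 7 8 12 l7_4 (by decide) w7_12
  have f3 : lv D 28 < lv D 2 :=
    h.lF 8 2 0 8 10 12 r8_2 (by decide) (h.pos_of w7_12 8 12 0 0 (by decide))
  have f4 : lv D 3 < lv D 23 :=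
    h.lF 0 2 0 0 2 3 r0_2 (by decide) (h.pos_of w0_6 0 3 0 0 (by decide))
  have e2 : Real.exp (lv D 23 + lv D 67) = Real.exp (lv D 26 + lv D 37) + Real.exp (lv D 27 + lv D 36) :=
    h.PY 2 3 6 7 (h.sgp w0_6 2 6 0 0 (by decide)) (h.sgp w3_8 3 7 0 0 (by decide)) (h.sgb hb 2) (h.sgb hb 6) (h.sgn w7_12 2 7 0 0 (by decide)) (h.sgp w3_8 3 6 0 0 (by decide)) rfl
  have e3 : Real.exp (lv D 29 + lv D 37) = Real.exp (lv D 27 + lv D 39) + Real.exp (lv D 23 + lv D 79) :=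
    h.PZ 2 3 7 9 (h.sgn w7_12 2 7 0 0 (by decide)) (h.sgp w3_9 3 9 0 0 (by decide)) (h.sgb hb 2) (h.sgp w3_9 7 9 0 0 (by decide)) (h.sgn w7_12 2 9 0 0 (by decide)) (h.sgp w3_8 3 7 0 0 (by decide)) rfl
  have f5 := eN e3
  have e4 : Real.exp (lv D 7 + lv D 26) = Real.exp (lv D 6 + lv D 27) + Real.exp (lv D 2 + lv D 67) :=
    h.PZ 0 2 6 7 (h.sgp w0_6 0 6 0 0 (by decide)) (h.sgn w7_12 2 7 0 0 (by decide)) (h.sgp w0_6 0 2 0 0 (by decide)) (h.sgb hb 6) (h.sgn w7_10 0 7 0 0 (by decide)) (h.sgp w0_6 2 6 0 0 (by decide)) rfl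
  have f6 := eN e4
  have e5 : Real.exp (lv D 28 + lv D 79) = Real.exp (lv D 27 + lv D 89) + Real.exp (lv D 29 + lv D 78) :=
    h.PX 2 7 8 9 (h.sgn w7_12 2 8 0 0 (by decide)) (h.sgp w3_9 7 9 0 0 (by decide)) (h.sgn w7_12 2 7 0 0 (by decide)) (h.sgb hb 8) (h.sgn w7_12 2 9 0 0 (by decide)) (h.sgb hb 7) rfl
  have f7 := eN e5
  linarith [f1, f2, f3, f4, iPY2_3_6_7lp0, f5, f6, f7, hl2a, hl2b]

theorem tm_546 {D : ℕ → ℕ → ℝ} (h : Cfg D)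
    (h3_1 : D 1 4 + D 3 6 < 101 / 100 * D 3 4 + D 1 6)
    (hb : ∀ i, 0 < D i (i + 1))
    (iPY2_3_6_7lp0 : lv D 26 + lv D 37 ≤ (lv D 27 + lv D 36) + (0) * Real.log 2)
    (l2_2 : LL D 2 4)
    (l3_2 : LL D 3 5)
    (l4_2 : LL D 4 6)
    (l5_2 : LL D 5 7)
    (l6_2 : LL D 6 8)
    (l8_2 : LL D 8 10)
    (l9_2 : LL D 9 11)
    (nr2 : ¬ RR D 2 4)
    (r0_2 : RR D 0 2)
    (r1_2 : RR D 1 3)
    (w0_6 : 0 < D 0 6)
    (w1_4 : 0 < D 1 4)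
    (w3_8 : 0 < D 3 8)
    (w3_9 : 0 < D 3 9)
    (w7_12 : 0 < D 7 12)
    (w8_12 : 0 < D 8 12) : False := by
  have f1 : lv D 35 < lv D 58 + 11317 / 10000 :=
    h.lK 5 2 0 3 5 8 l5_2 (by decide) w3_8
  have f2 : lv D 13 + lv D 46 + lv D 14 + lv D 36 < 4 * lv D 34 - 269 / 100 :=
    h.lgz 1 h3_1 r1_2 (h.llsh 3 0 l3_2) w1_4 (h.pos_of w3_8 3 6 0 0 (by decide))
  have f3 : lv D 47 < lv D 45 :=
    h.lG 4 2 0 4 5 7 l4_2 (by decide) (h.pos_of w3_8 4 7 0 0 (by decide))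
  have f4 : lv D 34 < lv D 49 + 11317 / 10000 :=
    h.lK 6 2 0 3 4 9 l6_2 (by decide) w3_9
  have f5 : lv D 35 < lv D 3 + 11317 / 10000 :=
    h.lC 0 2 0 0 3 5 r0_2 (by decide) (h.pos_of w0_6 0 5 0 0 (by decide))
  have f6 : lv D 3 < lv D 13 :=
    h.lF 0 2 0 0 1 3 r0_2 (by decide) (h.pos_of w0_6 0 3 0 0 (by decide))
  have e1 : Real.exp (lv D 28 + lv D 79) = Real.exp (lv D 27 + lv D 89) + Real.exp (lv D 29 + lv D 78) :=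
    h.PX 2 7 8 9 (h.sgn w8_12 2 8 0 0 (by decide)) (h.sgp w3_9 7 9 0 0 (by decide)) (h.sgn w7_12 2 7 0 0 (by decide)) (h.sgb hb 8) (h.sgn w8_12 2 9 0 0 (by decide)) (h.sgb hb 7) rfl
  have f7 := eM e1
  have f8 : lv D 29 < lv D 19 :=
    h.lG 9 2 0 9 11 12 l9_2 (by decide) (h.pos_of w8_12 9 12 0 0 (by decide))
  have f9 : lv D 25 < lv D 23 :=
    h.lG 2 2 0 2 3 5 l2_2 (by decide) (h.pos_of w0_6 2 5 0 0 (by decide))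
  have f10 : lv D 45 ≤ lv D 25 :=
    h.lN 2 nr2
  have e2 : Real.exp (lv D 18 + lv D 29) = Real.exp (lv D 12 + lv D 89) + Real.exp (lv D 19 + lv D 28) :=
    h.PX 1 2 8 9 (h.sgn w8_12 1 8 0 0 (by decide)) (h.sgn w8_12 2 9 0 0 (by decide)) (h.sgb hb 1) (h.sgb hb 8) (h.sgn w8_12 1 9 0 0 (by decide)) (h.sgn w8_12 2 8 0 0 (by decide)) rfl
  have f11 := eN e2
  have e3 : Real.exp (lv D 14 + lv D 36) = Real.exp (lv D 13 + lv D 46) + Real.exp (lv D 16 + lv D 34) :=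
    h.PX 1 3 4 6 (h.sgp w1_4 1 4 0 0 (by decide)) (h.sgp w3_8 3 6 0 0 (by decide)) (h.sgp w1_4 1 3 0 0 (by decide)) (h.sgp w3_8 4 6 0 0 (by decide)) (h.sgp w0_6 1 6 0 0 (by decide)) (h.sgb hb 3) rfl
  have f12 := eM e3
  have f13 : lv D 69 < lv D 67 :=
    h.lG 6 2 0 6 7 9 l6_2 (by decide) (h.pos_of w3_9 6 9 0 0 (by decide))
  have e4 : Real.exp (lv D 23 + lv D 67) = Real.exp (lv D 26 + lv D 37) + Real.exp (lv D 27 + lv D 36) :=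
    h.PY 2 3 6 7 (h.sgp w0_6 2 6 0 0 (by decide)) (h.sgp w3_8 3 7 0 0 (by decide)) (h.sgb hb 2) (h.sgb hb 6) (h.sgn w7_12 2 7 0 0 (by decide)) (h.sgp w3_8 3 6 0 0 (by decide)) rfl
  have f14 := ulp0 e4 iPY2_3_6_7lp0
  have e5 : Real.exp (lv D 35 + lv D 46) = Real.exp (lv D 34 + lv D 56) + Real.exp (lv D 36 + lv D 45) :=
    h.PX 3 4 5 6 (h.sgp w3_8 3 5 0 0 (by decide)) (h.sgp w3_8 4 6 0 0 (by decide)) (h.sgb hb 3) (h.sgb hb 5) (h.sgp w3_8 3 6 0 0 (by decide)) (h.sgb hb 4) rfl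
  have f15 := eH e5
  have f16 : lv D 58 < lv D 56 :=
    h.lG 5 2 0 5 6 8 l5_2 (by decide) (h.pos_of w3_8 5 8 0 0 (by decide))
  have e6 : Real.exp (lv D 47 + lv D 69) = Real.exp (lv D 46 + lv D 79) + Real.exp (lv D 49 + lv D 67) :=
    h.PX 4 6 7 9 (h.sgp w3_8 4 7 0 0 (by decide)) (h.sgp w3_9 6 9 0 0 (by decide)) (h.sgp w3_8 4 6 0 0 (by decide)) (h.sgp w3_9 7 9 0 0 (by decide)) (h.sgp w3_9 4 9 0 0 (by decide)) (h.sgb hb 6) rfl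
  have f17 := eH e6
  have f18 : lv D 18 < lv D 89 :=
    h.lG 8 2 0 8 9 11 l8_2 (by decide) (h.pos_of w8_12 8 11 0 0 (by decide))
  linarith [f1, f2, f3, f4, f5, f6, f7, f8, f9, f10, f11, f12, f13, f14, f15, f16, f17, f18, hl2a, hl2b]

theorem tm_548 {D : ℕ → ℕ → ℝ} (h : Cfg D)
    (l2_2 : LL D 2 4)
    (l4_2 : LL D 4 6)
    (l7_2 : LL D 7 9)
    (l9_2 : LL D 9 11)
    (nr2 : ¬ RR D 2 4)
    (nr7 : ¬ RR D 7 9)
    (w2_5 : 0 < D 2 5)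
    (w4_9 : 0 < D 4 9)
    (w7_10 : 0 < D 7 10)
    (w7_12 : 0 < D 7 12) : False := by
  have f1 : lv D 47 < lv D 45 :=
    h.lG 4 2 0 4 5 7 l4_2 (by decide) (h.pos_of w4_9 4 7 0 0 (by decide))
  have f2 : lv D 25 < lv D 24 :=
    h.lG 2 2 0 2 4 5 l2_2 (by decide) w2_5
  have f3 : lv D 7 < lv D 79 :=
    h.lG 7 2 0 7 9 10 l7_2 (by decide) w7_10
  have f4 : lv D 45 ≤ lv D 25 :=
    h.lN 2 nr2
  have e1 : Real.exp (lv D 29 + lv D 47) = Real.exp (lv D 27 + lv D 49) + Real.exp (lv D 24 + lv D 79) :=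
    h.PZ 2 4 7 9 (h.sgn w7_12 2 7 0 0 (by decide)) (h.sgp w4_9 4 9 0 0 (by decide)) (h.sgp w2_5 2 4 0 0 (by decide)) (h.sgp w4_9 7 9 0 0 (by decide)) (h.sgn w7_12 2 9 0 0 (by decide)) (h.sgp w4_9 4 7 0 0 (by decide)) rfl
  have f5 := eN e1
  have f6 : lv D 9 ≤ lv D 7 :=
    h.lN 7 nr7
  have f7 : lv D 29 < lv D 9 :=
    h.lG 9 2 0 9 10 12 l9_2 (by decide) (h.pos_of w7_12 9 12 0 0 (by decide))
  linarith [f1, f2, f3, f4, f5, f6, f7, hl2a, hl2b]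

theorem tm_550 {D : ℕ → ℕ → ℝ} (h : Cfg D)
    (h4_1 : D 2 3 * D 4 5 < 101 / 100 * (D 1 2 * D 5 6))
    (hb : ∀ i, 0 < D i (i + 1))
    (l2_2 : LL D 2 4)
    (l4_2 : LL D 4 6)
    (l6_2 : LL D 6 8)
    (nr4 : ¬ RR D 4 6)
    (nr9 : ¬ RR D 9 11)
    (r1_2 : RR D 1 3)
    (w1_4 : 0 < D 1 4)
    (w1_6 : 0 < D 1 6)
    (w2_5 : 0 < D 2 5)
    (w2_6 : 0 < D 2 6)
    (w3_9 : 0 < D 3 9)
    (w4_9 : 0 < D 4 9)
    (w9_11 : 0 < D 9 11)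
    (w9_12 : 0 < D 9 12) : False := by
  have f1 : lv D 25 < lv D 23 :=
    h.lG 2 2 0 2 3 5 l2_2 (by decide) w2_5
  have f2 : lv D 12 ≤ lv D 29 :=
    h.lN 9 nr9
  have e1 : Real.exp (lv D 25 + lv D 46) = Real.exp (lv D 24 + lv D 56) + Real.exp (lv D 26 + lv D 45) :=
    h.PX 2 4 5 6 (h.sgp w2_5 2 5 0 0 (by decide)) (h.sgp w4_9 4 6 0 0 (by decide)) (h.sgp w2_5 2 4 0 0 (by decide)) (h.sgb hb 5) (h.sgp w2_6 2 6 0 0 (by decide)) (h.sgb hb 4) rfl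
  have f3 := eM e1
  have f4 : lv D 14 < lv D 34 :=
    h.lF 1 2 0 1 3 4 r1_2 (by decide) w1_4
  have f5 : lv D 47 < lv D 45 :=
    h.lG 4 2 0 4 5 7 l4_2 (by decide) (h.pos_of w4_9 4 7 0 0 (by decide))
  have e2 : Real.exp (lv D 14 + lv D 69) = Real.exp (lv D 16 + lv D 49) + Real.exp (lv D 19 + lv D 46) :=
    h.PY 1 4 6 9 (h.sgp w1_6 1 6 0 0 (by decide)) (h.sgp w4_9 4 9 0 0 (by decide)) (h.sgp w1_4 1 4 0 0 (by decide)) (h.sgp w4_9 6 9 0 0 (by decide)) (h.sgn w9_11 1 9 0 0 (by decide)) (h.sgp w4_9 4 6 0 0 (by decide)) rfl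
  have f6 := eN e2
  have f7 : lv D 67 ≤ lv D 47 :=
    h.lN 4 nr4
  have f8 : lv D 23 + lv D 45 < lv D 12 + lv D 56 + 1 / 100 :=
    h.lH4 1 h4_1 (hb 1) (hb 2) (hb 4) (hb 5)
  have f9 : lv D 69 < lv D 67 :=
    h.lG 6 2 0 6 7 9 l6_2 (by decide) (h.pos_of w4_9 6 9 0 0 (by decide))
  have e3 : Real.exp (lv D 19 + lv D 24) = Real.exp (lv D 14 + lv D 29) + Real.exp (lv D 12 + lv D 49) :=
    h.PZ 1 2 4 9 (h.sgp w1_4 1 4 0 0 (by decide)) (h.sgn w9_12 2 9 0 0 (by decide)) (h.sgb hb 1) (h.sgp w4_9 4 9 0 0 (by decide)) (h.sgn w9_11 1 9 0 0 (by decide)) (h.sgp w2_5 2 4 0 0 (by decide)) rfl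
  have f10 := eH e3
  have f11 : lv D 34 < lv D 49 + 11317 / 10000 :=
    h.lK 4 2 0 3 4 9 l4_2 (by decide) w3_9
  linarith [f1, f2, f3, f4, f5, f6, f7, f8, f9, f10, f11, hl2a, hl2b]

theorem tm_552 {D : ℕ → ℕ → ℝ} (h : Cfg D)
    (hb : ∀ i, 0 < D i (i + 1))
    (l1_2 : LL D 1 3)
    (r2_2 : RR D 2 4)
    (w0_7 : 0 < D 0 7) : False := by
  have f1 : lv D 4 < lv D 2 :=
    h.lG 1 2 0 0 2 4 l1_2 (by decide) (h.pos_of w0_7 0 4 0 0 (by decide))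
  have f2 : lv D 25 < lv D 45 :=
    h.lF 2 2 0 2 4 5 r2_2 (by decide) (h.pos_of w0_7 2 5 0 0 (by decide))
  have e1 : Real.exp (lv D 4 + lv D 25) = Real.exp (lv D 2 + lv D 45) + Real.exp (lv D 5 + lv D 24) :=
    h.PX 0 2 4 5 (h.sgp w0_7 0 4 0 0 (by decide)) (h.sgp w0_7 2 5 0 0 (by decide)) (h.sgp w0_7 0 2 0 0 (by decide)) (h.sgb hb 4) (h.sgp w0_7 0 5 0 0 (by decide)) (h.sgp w0_7 2 4 0 0 (by decide)) rfl
  have f3 := eM e1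
  linarith [f1, f2, f3, hl2a, hl2b]

theorem tm_553 {D : ℕ → ℕ → ℝ} (h : Cfg D)
    (h3_1 : D 1 4 + D 3 6 < 101 / 100 * D 3 4 + D 1 6)
    (hb : ∀ i, 0 < D i (i + 1))
    (l3_2 : LL D 3 5)
    (l4_2 : LL D 4 6)
    (l5_2 : LL D 5 7)
    (l6_2 : LL D 6 8)
    (r0_2 : RR D 0 2)
    (r1_2 : RR D 1 3)
    (r2_2 : RR D 2 4)
    (w0_7 : 0 < D 0 7)
    (w3_9 : 0 < D 3 9)
    (w4_9 : 0 < D 4 9) : False := by
  have e1 : Real.exp (lv D 4 + lv D 36) = Real.exp (lv D 3 + lv D 46) + Real.exp (lv D 6 + lv D 34) :=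
    h.PX 0 3 4 6 (h.sgp w0_7 0 4 0 0 (by decide)) (h.sgp w0_7 3 6 0 0 (by decide)) (h.sgp w0_7 0 3 0 0 (by decide)) (h.sgp w0_7 4 6 0 0 (by decide)) (h.sgp w0_7 0 6 0 0 (by decide)) (h.sgb hb 3) rfl
  have f1 := eH e1
  have f2 : lv D 59 < lv D 56 :=
    h.lG 5 2 0 5 6 9 l5_2 (by decide) (h.pos_of w4_9 5 9 0 0 (by decide))
  have f3 : lv D 13 + lv D 46 + lv D 14 + lv D 36 < 4 * lv D 34 - 269 / 100 :=
    h.lgz 1 h3_1 r1_2 (h.llsh 3 0 l3_2) (h.pos_of w0_7 1 4 0 0 (by decide)) (h.pos_of w0_7 3 6 0 0 (by decide))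
  have f4 : lv D 36 < lv D 69 + 11317 / 10000 :=
    h.lK 6 2 0 3 6 9 l6_2 (by decide) w3_9
  have e2 : Real.exp (lv D 46 + lv D 59) = Real.exp (lv D 45 + lv D 69) + Real.exp (lv D 49 + lv D 56) :=
    h.PX 4 5 6 9 (h.sgp w4_9 4 6 0 0 (by decide)) (h.sgp w4_9 5 9 0 0 (by decide)) (h.sgb hb 4) (h.sgp w4_9 6 9 0 0 (by decide)) (h.sgp w4_9 4 9 0 0 (by decide)) (h.sgb hb 5) rfl
  have f5 := eM e2
  have f6 : lv D 47 < lv D 46 :=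
    h.lG 4 2 0 4 6 7 l4_2 (by decide) (h.pos_of w4_9 4 7 0 0 (by decide))
  have f7 : lv D 4 < lv D 14 :=
    h.lF 0 2 0 0 1 4 r0_2 (by decide) (h.pos_of w0_7 0 4 0 0 (by decide))
  have e3 : Real.exp (lv D 6 + lv D 57) = Real.exp (lv D 5 + lv D 67) + Real.exp (lv D 7 + lv D 56) :=
    h.PX 0 5 6 7 (h.sgp w0_7 0 6 0 0 (by decide)) (h.sgp w4_9 5 7 0 0 (by decide)) (h.sgp w0_7 0 5 0 0 (by decide)) (h.sgb hb 6) (h.sgp w0_7 0 7 0 0 (by decide)) (h.sgb hb 5) rfl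
  have f8 := eM e3
  have f9 : lv D 69 < lv D 67 :=
    h.lG 6 2 0 6 7 9 l6_2 (by decide) (h.pos_of w4_9 6 9 0 0 (by decide))
  have e4 : Real.exp (lv D 5 + lv D 47) = Real.exp (lv D 4 + lv D 57) + Real.exp (lv D 7 + lv D 45) :=
    h.PX 0 4 5 7 (h.sgp w0_7 0 5 0 0 (by decide)) (h.sgp w4_9 4 7 0 0 (by decide)) (h.sgp w0_7 0 4 0 0 (by decide)) (h.sgp w4_9 5 7 0 0 (by decide)) (h.sgp w0_7 0 7 0 0 (by decide)) (h.sgb hb 4) rfl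
  have f10 := eM e4
  have f11 : lv D 5 < lv D 45 :=
    h.lF 2 2 0 0 4 5 r2_2 (by decide) (h.pos_of w0_7 0 5 0 0 (by decide))
  have f12 : lv D 34 < lv D 3 + 11317 / 10000 :=
    h.lC 0 2 0 0 3 4 r0_2 (by decide) (h.pos_of w0_7 0 4 0 0 (by decide))
  have e5 : Real.exp (lv D 5 + lv D 46) = Real.exp (lv D 4 + lv D 56) + Real.exp (lv D 6 + lv D 45) :=
    h.PX 0 4 5 6 (h.sgp w0_7 0 5 0 0 (by decide)) (h.sgp w4_9 4 6 0 0 (by decide)) (h.sgp w0_7 0 4 0 0 (by decide)) (h.sgb hb 5) (h.sgp w0_7 0 6 0 0 (by decide)) (h.sgb hb 4) rfl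
  have f13 := eH e5
  have f14 : lv D 3 < lv D 13 :=
    h.lF 0 2 0 0 1 3 r0_2 (by decide) (h.pos_of w0_7 0 3 0 0 (by decide))
  linarith [f1, f2, f3, f4, f5, f6, f7, f8, f9, f10, f11, f12, f13, f14, hl2a, hl2b]

theorem tm_554 {D : ℕ → ℕ → ℝ} (h : Cfg D)
    (h4_1 : D 2 3 * D 4 5 < 101 / 100 * (D 1 2 * D 5 6))
    (hb : ∀ i, 0 < D i (i + 1))
    (l3_2 : LL D 3 5)
    (l6_2 : LL D 6 8)
    (r0_2 : RR D 0 2)
    (r1_2 : RR D 1 3)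
    (r2_2 : RR D 2 4)
    (w0_7 : 0 < D 0 7)
    (w4_9 : 0 < D 4 9) : False := by
  have f1 : lv D 69 < lv D 67 :=
    h.lG 6 2 0 6 7 9 l6_2 (by decide) (h.pos_of w4_9 6 9 0 0 (by decide))
  have e1 : Real.exp (lv D 6 + lv D 27) = Real.exp (lv D 2 + lv D 67) + Real.exp (lv D 7 + lv D 26) :=
    h.PX 0 2 6 7 (h.sgp w0_7 0 6 0 0 (by decide)) (h.sgp w0_7 2 7 0 0 (by decide)) (h.sgp w0_7 0 2 0 0 (by decide)) (h.sgb hb 6) (h.sgp w0_7 0 7 0 0 (by decide)) (h.sgp w0_7 2 6 0 0 (by decide)) rfl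
  have f2 := eM e1
  have e2 : Real.exp (lv D 26 + lv D 37) = Real.exp (lv D 23 + lv D 67) + Real.exp (lv D 27 + lv D 36) :=
    h.PX 2 3 6 7 (h.sgp w0_7 2 6 0 0 (by decide)) (h.sgp w0_7 3 7 0 0 (by decide)) (h.sgb hb 2) (h.sgb hb 6) (h.sgp w0_7 2 7 0 0 (by decide)) (h.sgp w0_7 3 6 0 0 (by decide)) rfl
  have f3 := eN e2
  have e3 : Real.exp (lv D 2 + lv D 14) = Real.exp (lv D 1 + lv D 24) + Real.exp (lv D 4 + lv D 12) :=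
    h.PX 0 1 2 4 (h.sgp w0_7 0 2 0 0 (by decide)) (h.sgp w0_7 1 4 0 0 (by decide)) (h.sgb hb 0) (h.sgp w0_7 2 4 0 0 (by decide)) (h.sgp w0_7 0 4 0 0 (by decide)) (h.sgb hb 1) rfl
  have f4 := eN e3
  have f5 : lv D 14 < lv D 34 :=
    h.lF 1 2 0 1 3 4 r1_2 (by decide) (h.pos_of w0_7 1 4 0 0 (by decide))
  have f6 : lv D 3 < lv D 23 :=
    h.lF 0 2 0 0 2 3 r0_2 (by decide) (h.pos_of w0_7 0 3 0 0 (by decide))
  have e4 : Real.exp (lv D 25 + lv D 36) = Real.exp (lv D 23 + lv D 56) + Real.exp (lv D 26 + lv D 35) :=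
    h.PX 2 3 5 6 (h.sgp w0_7 2 5 0 0 (by decide)) (h.sgp w0_7 3 6 0 0 (by decide)) (h.sgb hb 2) (h.sgb hb 5) (h.sgp w0_7 2 6 0 0 (by decide)) (h.sgp w0_7 3 5 0 0 (by decide)) rfl
  have f7 := eN e4
  have f8 : lv D 37 < lv D 34 :=
    h.lG 3 2 0 3 4 7 l3_2 (by decide) (h.pos_of w0_7 3 7 0 0 (by decide))
  have e5 : Real.exp (lv D 35 + lv D 46) = Real.exp (lv D 34 + lv D 56) + Real.exp (lv D 36 + lv D 45) :=
    h.PX 3 4 5 6 (h.sgp w0_7 3 5 0 0 (by decide)) (h.sgp w4_9 4 6 0 0 (by decide)) (h.sgb hb 3) (h.sgb hb 5) (h.sgp w0_7 3 6 0 0 (by decide)) (h.sgb hb 4) rfl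
  have f9 := eH e5
  have f10 : lv D 46 < lv D 4 + 11317 / 10000 :=
    h.lC 1 2 0 0 4 6 r1_2 (by decide) (h.pos_of w0_7 0 6 0 0 (by decide))
  have f11 : lv D 34 < lv D 3 + 11317 / 10000 :=
    h.lC 0 2 0 0 3 4 r0_2 (by decide) (h.pos_of w0_7 0 4 0 0 (by decide))
  have e6 : Real.exp (lv D 3 + lv D 25) = Real.exp (lv D 2 + lv D 35) + Real.exp (lv D 5 + lv D 23) :=
    h.PX 0 2 3 5 (h.sgp w0_7 0 3 0 0 (by decide)) (h.sgp w0_7 2 5 0 0 (by decide)) (h.sgp w0_7 0 2 0 0 (by decide)) (h.sgp w0_7 3 5 0 0 (by decide)) (h.sgp w0_7 0 5 0 0 (by decide)) (h.sgb hb 2) rfl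
  have f12 := eH e6
  have f13 : lv D 23 + lv D 45 < lv D 12 + lv D 56 + 1 / 100 :=
    h.lH4 1 h4_1 (hb 1) (hb 2) (hb 4) (hb 5)
  have f14 : lv D 25 < lv D 45 :=
    h.lF 2 2 0 2 4 5 r2_2 (by decide) (h.pos_of w0_7 2 5 0 0 (by decide))
  have e7 : Real.exp (lv D 5 + lv D 36) = Real.exp (lv D 3 + lv D 56) + Real.exp (lv D 6 + lv D 35) :=
    h.PX 0 3 5 6 (h.sgp w0_7 0 5 0 0 (by decide)) (h.sgp w0_7 3 6 0 0 (by decide)) (h.sgp w0_7 0 3 0 0 (by decide)) (h.sgb hb 5) (h.sgp w0_7 0 6 0 0 (by decide)) (h.sgp w0_7 3 5 0 0 (by decide)) rfl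
  have f15 := eH e7
  have f16 : lv D 46 < lv D 69 + 11317 / 10000 :=
    h.lK 6 2 0 4 6 9 l6_2 (by decide) w4_9
  linarith [f1, f2, f3, f4, f5, f6, f7, f8, f9, f10, f11, f12, f13, f14, f15, f16, hl2a, hl2b]

theorem tm_555 {D : ℕ → ℕ → ℝ} (h : Cfg D)
    (hb : ∀ i, 0 < D i (i + 1))
    (l2_2 : LL D 2 4)
    (l3_2 : LL D 3 5)
    (l4_2 : LL D 4 6)
    (l5_2 : LL D 5 7)
    (l6_2 : LL D 6 8)
    (w0_7 : 0 < D 0 7)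
    (w2_6 : 0 < D 2 6)
    (w3_8 : 0 < D 3 8)
    (w3_9 : 0 < D 3 9) : False := by
  have f1 : lv D 36 < lv D 34 :=
    h.lG 3 2 0 3 4 6 l3_2 (by decide) (h.pos_of w3_8 3 6 0 0 (by decide))
  have e1 : Real.exp (lv D 26 + lv D 47) = Real.exp (lv D 24 + lv D 67) + Real.exp (lv D 27 + lv D 46) :=
    h.PX 2 4 6 7 (h.sgp w2_6 2 6 0 0 (by decide)) (h.sgp w3_8 4 7 0 0 (by decide)) (h.sgp w2_6 2 4 0 0 (by decide)) (h.sgb hb 6) (h.sgp w0_7 2 7 0 0 (by decide)) (h.sgp w3_8 4 6 0 0 (by decide)) rfl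
  have f2 := eM e1
  have f3 : lv D 36 < lv D 69 + 11317 / 10000 :=
    h.lK 6 2 0 3 6 9 l6_2 (by decide) w3_9
  have f4 : lv D 46 < lv D 69 + 11317 / 10000 :=
    h.lK 6 2 0 4 6 9 l6_2 (by decide) (h.pos_of w3_9 4 9 0 0 (by decide))
  have f5 : lv D 47 < lv D 45 :=
    h.lG 4 2 0 4 5 7 l4_2 (by decide) (h.pos_of w3_8 4 7 0 0 (by decide))
  have f6 : lv D 25 < lv D 23 :=
    h.lG 2 2 0 2 3 5 l2_2 (by decide) (h.pos_of w2_6 2 5 0 0 (by decide))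
  have f7 : lv D 69 < lv D 67 :=
    h.lG 6 2 0 6 7 9 l6_2 (by decide) (h.pos_of w3_9 6 9 0 0 (by decide))
  have e2 : Real.exp (lv D 25 + lv D 36) = Real.exp (lv D 23 + lv D 56) + Real.exp (lv D 26 + lv D 35) :=
    h.PX 2 3 5 6 (h.sgp w2_6 2 5 0 0 (by decide)) (h.sgp w3_8 3 6 0 0 (by decide)) (h.sgb hb 2) (h.sgb hb 5) (h.sgp w2_6 2 6 0 0 (by decide)) (h.sgp w3_8 3 5 0 0 (by decide)) rfl
  have f8 := eH e2
  have e3 : Real.exp (lv D 25 + lv D 46) = Real.exp (lv D 24 + lv D 56) + Real.exp (lv D 26 + lv D 45) :=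
    h.PX 2 4 5 6 (h.sgp w2_6 2 5 0 0 (by decide)) (h.sgp w3_8 4 6 0 0 (by decide)) (h.sgp w2_6 2 4 0 0 (by decide)) (h.sgb hb 5) (h.sgp w2_6 2 6 0 0 (by decide)) (h.sgb hb 4) rfl
  have f9 := eH e3
  have f10 : lv D 35 < lv D 59 + 11317 / 10000 :=
    h.lK 5 2 0 3 5 9 l5_2 (by decide) w3_9
  have f11 : lv D 59 < lv D 56 :=
    h.lG 5 2 0 5 6 9 l5_2 (by decide) (h.pos_of w3_9 5 9 0 0 (by decide))
  have f12 : lv D 36 < lv D 35 :=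
    h.lG 3 2 0 3 5 6 l3_2 (by decide) (h.pos_of w3_8 3 6 0 0 (by decide))
  have e4 : Real.exp (lv D 24 + lv D 35) = Real.exp (lv D 23 + lv D 45) + Real.exp (lv D 25 + lv D 34) :=
    h.PX 2 3 4 5 (h.sgp w2_6 2 4 0 0 (by decide)) (h.sgp w3_8 3 5 0 0 (by decide)) (h.sgb hb 2) (h.sgb hb 4) (h.sgp w2_6 2 5 0 0 (by decide)) (h.sgb hb 3) rfl
  have f13 := eH e4
  linarith [f1, f2, f3, f4, f5, f6, f7, f8, f9, f10, f11, f12, f13, hl2a, hl2b]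

theorem tm_556 {D : ℕ → ℕ → ℝ} (h : Cfg D)
    (hb : ∀ i, 0 < D i (i + 1))
    (l1_2 : LL D 1 3)
    (r2_2 : RR D 2 4)
    (w1_4 : 0 < D 1 4)
    (w1_5 : 0 < D 1 5)
    (w2_5 : 0 < D 2 5) : False := by
  have e1 : Real.exp (lv D 14 + lv D 25) = Real.exp (lv D 12 + lv D 45) + Real.exp (lv D 15 + lv D 24) :=
    h.PX 1 2 4 5 (h.sgp w1_4 1 4 0 0 (by decide)) (h.sgp w2_5 2 5 0 0 (by decide)) (h.sgb hb 1) (h.sgb hb 4) (h.sgp w1_5 1 5 0 0 (by decide)) (h.sgp w2_5 2 4 0 0 (by decide)) rfl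
  have f1 := eM e1
  have f2 : lv D 14 < lv D 12 :=
    h.lG 1 2 0 1 2 4 l1_2 (by decide) w1_4
  have f3 : lv D 25 < lv D 45 :=
    h.lF 2 2 0 2 4 5 r2_2 (by decide) w2_5
  linarith [f1, f2, f3, hl2a, hl2b]

theorem tm_557 {D : ℕ → ℕ → ℝ} (h : Cfg D)
    (hb : ∀ i, 0 < D i (i + 1))
    (l2_2 : LL D 2 4)
    (l3_2 : LL D 3 5)
    (l4_2 : LL D 4 6)
    (l5_2 : LL D 5 7)
    (l6_2 : LL D 6 8)
    (w2_5 : 0 < D 2 5)
    (w2_7 : 0 < D 2 7)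
    (w3_8 : 0 < D 3 8)
    (w3_9 : 0 < D 3 9)
    (w4_9 : 0 < D 4 9) : False := by
  have f1 : lv D 36 < lv D 34 :=
    h.lG 3 2 0 3 4 6 l3_2 (by decide) (h.pos_of w3_8 3 6 0 0 (by decide))
  have e1 : Real.exp (lv D 46 + lv D 57) = Real.exp (lv D 45 + lv D 67) + Real.exp (lv D 47 + lv D 56) :=
    h.PX 4 5 6 7 (h.sgp w3_8 4 6 0 0 (by decide)) (h.sgp w3_8 5 7 0 0 (by decide)) (h.sgb hb 4) (h.sgb hb 6) (h.sgp w3_8 4 7 0 0 (by decide)) (h.sgb hb 5) rfl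
  have f2 := eH e1
  have e2 : Real.exp (lv D 36 + lv D 47) = Real.exp (lv D 34 + lv D 67) + Real.exp (lv D 37 + lv D 46) :=
    h.PX 3 4 6 7 (h.sgp w3_8 3 6 0 0 (by decide)) (h.sgp w3_8 4 7 0 0 (by decide)) (h.sgb hb 3) (h.sgb hb 6) (h.sgp w3_8 3 7 0 0 (by decide)) (h.sgp w3_8 4 6 0 0 (by decide)) rfl
  have f3 := eH e2
  have e3 : Real.exp (lv D 36 + lv D 59) = Real.exp (lv D 35 + lv D 69) + Real.exp (lv D 39 + lv D 56) :=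
    h.PX 3 5 6 9 (h.sgp w3_8 3 6 0 0 (by decide)) (h.sgp w4_9 5 9 0 0 (by decide)) (h.sgp w3_8 3 5 0 0 (by decide)) (h.sgp w4_9 6 9 0 0 (by decide)) (h.sgp w3_9 3 9 0 0 (by decide)) (h.sgb hb 5) rfl
  have f4 := eM e3
  have f5 : lv D 25 < lv D 23 :=
    h.lG 2 2 0 2 3 5 l2_2 (by decide) w2_5
  have f6 : lv D 69 < lv D 67 :=
    h.lG 6 2 0 6 7 9 l6_2 (by decide) (h.pos_of w4_9 6 9 0 0 (by decide))
  have e4 : Real.exp (lv D 25 + lv D 37) = Real.exp (lv D 23 + lv D 57) + Real.exp (lv D 27 + lv D 35) :=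
    h.PX 2 3 5 7 (h.sgp w2_5 2 5 0 0 (by decide)) (h.sgp w3_8 3 7 0 0 (by decide)) (h.sgb hb 2) (h.sgp w4_9 5 7 0 0 (by decide)) (h.sgp w2_7 2 7 0 0 (by decide)) (h.sgp w3_8 3 5 0 0 (by decide)) rfl
  have f7 := eM e4
  have f8 : lv D 46 < lv D 69 + 11317 / 10000 :=
    h.lK 6 2 0 4 6 9 l6_2 (by decide) w4_9
  have e5 : Real.exp (lv D 35 + lv D 47) = Real.exp (lv D 34 + lv D 57) + Real.exp (lv D 37 + lv D 45) :=
    h.PX 3 4 5 7 (h.sgp w3_8 3 5 0 0 (by decide)) (h.sgp w4_9 4 7 0 0 (by decide)) (h.sgb hb 3) (h.sgp w4_9 5 7 0 0 (by decide)) (h.sgp w3_8 3 7 0 0 (by decide)) (h.sgb hb 4) rfl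
  have f9 := eH e5
  have f10 : lv D 47 < lv D 45 :=
    h.lG 4 2 0 4 5 7 l4_2 (by decide) (h.pos_of w4_9 4 7 0 0 (by decide))
  have f11 : lv D 37 < lv D 36 :=
    h.lG 3 2 0 3 6 7 l3_2 (by decide) (h.pos_of w3_8 3 7 0 0 (by decide))
  have f12 : lv D 59 < lv D 56 :=
    h.lG 5 2 0 5 6 9 l5_2 (by decide) (h.pos_of w4_9 5 9 0 0 (by decide))
  have f13 : lv D 36 < lv D 69 + 11317 / 10000 :=
    h.lK 6 2 0 3 6 9 l6_2 (by decide) w3_9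
  linarith [f1, f2, f3, f4, f5, f6, f7, f8, f9, f10, f11, f12, f13, hl2a, hl2b]

theorem tm_558 {D : ℕ → ℕ → ℝ} (h : Cfg D)
    (hb : ∀ i, 0 < D i (i + 1))
    (l1_2 : LL D 1 3)
    (l3_2 : LL D 3 5)
    (l5_2 : LL D 5 7)
    (l9_2 : LL D 9 11)
    (nr9 : ¬ RR D 9 11)
    (w1_4 : 0 < D 1 4)
    (w1_6 : 0 < D 1 6)
    (w3_5 : 0 < D 3 5)
    (w3_9 : 0 < D 3 9)
    (w4_9 : 0 < D 4 9)
    (w7_12 : 0 < D 7 12) : False := by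
  have e1 : Real.exp (lv D 35 + lv D 49) = Real.exp (lv D 34 + lv D 59) + Real.exp (lv D 39 + lv D 45) :=
    h.PX 3 4 5 9 (h.sgp w3_5 3 5 0 0 (by decide)) (h.sgp w4_9 4 9 0 0 (by decide)) (h.sgb hb 3) (h.sgp w4_9 5 9 0 0 (by decide)) (h.sgp w3_9 3 9 0 0 (by decide)) (h.sgb hb 4) rfl
  have f1 := eM e1
  have f2 : lv D 29 < lv D 19 :=
    h.lG 9 2 0 9 11 12 l9_2 (by decide) (h.pos_of w7_12 9 12 0 0 (by decide))
  have f3 : lv D 36 < lv D 34 :=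
    h.lG 3 2 0 3 4 6 l3_2 (by decide) (h.pos_of w3_9 3 6 0 0 (by decide))
  have f4 : lv D 49 < lv D 46 :=
    h.lG 5 2 0 4 6 9 l5_2 (by decide) w4_9
  have f5 : lv D 12 ≤ lv D 29 :=
    h.lN 9 nr9
  have f6 : lv D 14 < lv D 12 :=
    h.lG 1 2 0 1 2 4 l1_2 (by decide) w1_4
  have e2 : Real.exp (lv D 14 + lv D 36) = Real.exp (lv D 13 + lv D 46) + Real.exp (lv D 16 + lv D 34) :=
    h.PX 1 3 4 6 (h.sgp w1_4 1 4 0 0 (by decide)) (h.sgp w3_9 3 6 0 0 (by decide)) (h.sgp w1_4 1 3 0 0 (by decide)) (h.sgp w4_9 4 6 0 0 (by decide)) (h.sgp w1_6 1 6 0 0 (by decide)) (h.sgb hb 3) rfl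
  have f7 := eM e2
  have e3 : Real.exp (lv D 13 + lv D 59) = Real.exp (lv D 15 + lv D 39) + Real.exp (lv D 19 + lv D 35) :=
    h.PY 1 3 5 9 (h.sgp w1_6 1 5 0 0 (by decide)) (h.sgp w3_9 3 9 0 0 (by decide)) (h.sgp w1_4 1 3 0 0 (by decide)) (h.sgp w4_9 5 9 0 0 (by decide)) (h.sgn w7_12 1 9 0 0 (by decide)) (h.sgp w3_5 3 5 0 0 (by decide)) rfl
  have f8 := eN e3
  linarith [f1, f2, f3, f4, f5, f6, f7, f8, hl2a, hl2b]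

theorem tm_560 {D : ℕ → ℕ → ℝ} (h : Cfg D)
    (hb : ∀ i, 0 < D i (i + 1))
    (l6_2 : LL D 6 8)
    (r8_2 : RR D 8 10)
    (w6_11 : 0 < D 6 11) : False := by
  have e1 : Real.exp (lv D 6 + lv D 19) = Real.exp (lv D 1 + lv D 69) + Real.exp (lv D 9 + lv D 16) :=
    h.PX 0 1 6 9 (h.sgn w6_11 0 6 0 0 (by decide)) (h.sgn w6_11 1 9 0 0 (by decide)) (h.sgb hb 0) (h.sgp w6_11 6 9 0 0 (by decide)) (h.sgbn hb) (h.sgn w6_11 1 6 0 0 (by decide)) rfl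
  have f1 := eM e1
  have e2 : Real.exp (lv D 18 + lv D 69) = Real.exp (lv D 16 + lv D 89) + Real.exp (lv D 19 + lv D 68) :=
    h.PX 1 6 8 9 (h.sgn w6_11 1 8 0 0 (by decide)) (h.sgp w6_11 6 9 0 0 (by decide)) (h.sgn w6_11 1 6 0 0 (by decide)) (h.sgb hb 8) (h.sgn w6_11 1 9 0 0 (by decide)) (h.sgp w6_11 6 8 0 0 (by decide)) rfl
  have f2 := eN e2
  have f3 : lv D 18 < lv D 1 :=
    h.lF 8 2 0 8 10 11 r8_2 (by decide) (h.pos_of w6_11 8 11 0 0 (by decide))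
  have f4 : lv D 6 < lv D 68 :=
    h.lG 6 2 0 6 8 10 l6_2 (by decide) (h.pos_of w6_11 6 10 0 0 (by decide))
  linarith [f1, f2, f3, f4, hl2a, hl2b]

theorem tm_561 {D : ℕ → ℕ → ℝ} (h : Cfg D)
    (hb : ∀ i, 0 < D i (i + 1))
    (l6_2 : LL D 6 8)
    (r7_2 : RR D 7 9)
    (w6_11 : 0 < D 6 11) : False := by
  have e1 : Real.exp (lv D 7 + lv D 69) = Real.exp (lv D 6 + lv D 79) + Real.exp (lv D 9 + lv D 67) :=
    h.PX 0 6 7 9 (h.sgn w6_11 0 7 0 0 (by decide)) (h.sgp w6_11 6 9 0 0 (by decide)) (h.sgn w6_11 0 6 0 0 (by decide)) (h.sgp w6_11 7 9 0 0 (by decide)) (h.sgbn hb) (h.sgb hb 6) rfl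
  have f1 := eN e1
  have f2 : lv D 69 < lv D 67 :=
    h.lG 6 2 0 6 7 9 l6_2 (by decide) (h.pos_of w6_11 6 9 0 0 (by decide))
  have f3 : lv D 7 < lv D 9 :=
    h.lF 7 2 0 7 9 10 r7_2 (by decide) (h.pos_of w6_11 7 10 0 0 (by decide))
  linarith [f1, f2, f3, hl2a, hl2b]

theorem tm_562 {D : ℕ → ℕ → ℝ} (h : Cfg D)
    (hb : ∀ i, 0 < D i (i + 1))
    (l3_2 : LL D 3 5)
    (l4_2 : LL D 4 6)
    (l5_2 : LL D 5 7)
    (l6_2 : LL D 6 8)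
    (l8_2 : LL D 8 10)
    (r0_2 : RR D 0 2)
    (w0_5 : 0 < D 0 5)
    (w1_3 : 0 < D 1 3)
    (w3_8 : 0 < D 3 8)
    (w3_9 : 0 < D 3 9)
    (w4_9 : 0 < D 4 9)
    (w6_11 : 0 < D 6 11) : False := by
  have e1 : Real.exp (lv D 18 + lv D 36) = Real.exp (lv D 16 + lv D 38) + Real.exp (lv D 13 + lv D 68) :=
    h.PZ 1 3 6 8 (h.sgn w6_11 1 6 0 0 (by decide)) (h.sgp w3_8 3 8 0 0 (by decide)) (h.sgp w1_3 1 3 0 0 (by decide)) (h.sgp w3_8 6 8 0 0 (by decide)) (h.sgn w6_11 1 8 0 0 (by decide)) (h.sgp w3_8 3 6 0 0 (by decide)) rfl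
  have f1 := eN e1
  have f2 : lv D 35 < lv D 3 + 11317 / 10000 :=
    h.lC 0 2 0 0 3 5 r0_2 (by decide) w0_5
  have f3 : lv D 48 < lv D 47 :=
    h.lG 5 2 0 4 7 8 l5_2 (by decide) (h.pos_of w3_8 4 8 0 0 (by decide))
  have f4 : lv D 69 < lv D 68 :=
    h.lG 6 2 0 6 8 9 l6_2 (by decide) (h.pos_of w6_11 6 9 0 0 (by decide))
  have f5 : lv D 36 < lv D 34 :=
    h.lG 3 2 0 3 4 6 l3_2 (by decide) (h.pos_of w3_8 3 6 0 0 (by decide))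
  have e2 : Real.exp (lv D 35 + lv D 49) = Real.exp (lv D 34 + lv D 59) + Real.exp (lv D 39 + lv D 45) :=
    h.PX 3 4 5 9 (h.sgp w3_8 3 5 0 0 (by decide)) (h.sgp w4_9 4 9 0 0 (by decide)) (h.sgb hb 3) (h.sgp w4_9 5 9 0 0 (by decide)) (h.sgp w3_9 3 9 0 0 (by decide)) (h.sgb hb 4) rfl
  have f6 := eM e2
  have f7 : lv D 58 < lv D 56 :=
    h.lG 5 2 0 5 6 8 l5_2 (by decide) (h.pos_of w4_9 5 8 0 0 (by decide))
  have f8 : lv D 36 < lv D 35 :=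
    h.lG 3 2 0 3 5 6 l3_2 (by decide) (h.pos_of w3_8 3 6 0 0 (by decide))
  have f9 : lv D 47 < lv D 45 :=
    h.lG 4 2 0 4 5 7 l4_2 (by decide) (h.pos_of w4_9 4 7 0 0 (by decide))
  have e3 : Real.exp (lv D 46 + lv D 59) = Real.exp (lv D 45 + lv D 69) + Real.exp (lv D 49 + lv D 56) :=
    h.PX 4 5 6 9 (h.sgp w4_9 4 6 0 0 (by decide)) (h.sgp w4_9 5 9 0 0 (by decide)) (h.sgb hb 4) (h.sgp w4_9 6 9 0 0 (by decide)) (h.sgp w4_9 4 9 0 0 (by decide)) (h.sgb hb 5) rfl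
  have f10 := eH e3
  have f11 : lv D 3 < lv D 13 :=
    h.lF 0 2 0 0 1 3 r0_2 (by decide) (h.pos_of w0_5 0 3 0 0 (by decide))
  have e4 : Real.exp (lv D 36 + lv D 48) = Real.exp (lv D 34 + lv D 68) + Real.exp (lv D 38 + lv D 46) :=
    h.PX 3 4 6 8 (h.sgp w3_8 3 6 0 0 (by decide)) (h.sgp w4_9 4 8 0 0 (by decide)) (h.sgb hb 3) (h.sgp w4_9 6 8 0 0 (by decide)) (h.sgp w3_8 3 8 0 0 (by decide)) (h.sgp w4_9 4 6 0 0 (by decide)) rfl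
  have f12 := eH e4
  have f13 : lv D 18 < lv D 89 :=
    h.lG 8 2 0 8 9 11 l8_2 (by decide) (h.pos_of w6_11 8 11 0 0 (by decide))
  have f14 : lv D 46 < lv D 69 + 11317 / 10000 :=
    h.lK 6 2 0 4 6 9 l6_2 (by decide) w4_9
  have e5 : Real.exp (lv D 38 + lv D 69) = Real.exp (lv D 36 + lv D 89) + Real.exp (lv D 39 + lv D 68) :=
    h.PX 3 6 8 9 (h.sgp w3_8 3 8 0 0 (by decide)) (h.sgp w4_9 6 9 0 0 (by decide)) (h.sgp w3_8 3 6 0 0 (by decide)) (h.sgb hb 8) (h.sgp w3_9 3 9 0 0 (by decide)) (h.sgp w4_9 6 8 0 0 (by decide)) rfl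
  have f15 := eM e5
  have e6 : Real.exp (lv D 58 + lv D 69) = Real.exp (lv D 56 + lv D 89) + Real.exp (lv D 59 + lv D 68) :=
    h.PX 5 6 8 9 (h.sgp w4_9 5 8 0 0 (by decide)) (h.sgp w4_9 6 9 0 0 (by decide)) (h.sgb hb 5) (h.sgb hb 8) (h.sgp w4_9 5 9 0 0 (by decide)) (h.sgp w4_9 6 8 0 0 (by decide)) rfl
  have f16 := eH e6
  linarith [f1, f2, f3, f4, f5, f6, f7, f8, f9, f10, f11, f12, f13, f14, f15, f16, hl2a, hl2b]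

theorem tm_563 {D : ℕ → ℕ → ℝ} (h : Cfg D)
    (hb : ∀ i, 0 < D i (i + 1))
    (l3_2 : LL D 3 5)
    (l4_2 : LL D 4 6)
    (l5_2 : LL D 5 7)
    (l6_2 : LL D 6 8)
    (l7_2 : LL D 7 9)
    (l8_2 : LL D 8 10)
    (w3_8 : 0 < D 3 8)
    (w3_9 : 0 < D 3 9)
    (w4_9 : 0 < D 4 9)
    (w5_10 : 0 < D 5 10)
    (w6_11 : 0 < D 6 11) : False := by
  have e1 : Real.exp (lv D 47 + lv D 68) = Real.exp (lv D 46 + lv D 78) + Real.exp (lv D 48 + lv D 67) :=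
    h.PX 4 6 7 8 (h.sgp w4_9 4 7 0 0 (by decide)) (h.sgp w4_9 6 8 0 0 (by decide)) (h.sgp w4_9 4 6 0 0 (by decide)) (h.sgb hb 7) (h.sgp w4_9 4 8 0 0 (by decide)) (h.sgb hb 6) rfl
  have f1 := eH e1
  have f2 : lv D 69 < lv D 67 :=
    h.lG 6 2 0 6 7 9 l6_2 (by decide) (h.pos_of w4_9 6 9 0 0 (by decide))
  have f3 : lv D 36 < lv D 34 :=
    h.lG 3 2 0 3 4 6 l3_2 (by decide) (h.pos_of w3_8 3 6 0 0 (by decide))
  have f4 : lv D 46 < lv D 69 + 11317 / 10000 :=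
    h.lK 6 2 0 4 6 9 l6_2 (by decide) w4_9
  have f5 : lv D 68 < lv D 18 + 11317 / 10000 :=
    h.lK 8 2 0 6 8 11 l8_2 (by decide) w6_11
  have f6 : lv D 56 < lv D 6 + 11317 / 10000 :=
    h.lK 7 2 0 5 6 10 l7_2 (by decide) w5_10
  have f7 : lv D 7 < lv D 78 :=
    h.lG 7 2 0 7 8 10 l7_2 (by decide) (h.pos_of w6_11 7 10 0 0 (by decide))
  have e2 : Real.exp (lv D 48 + lv D 59) = Real.exp (lv D 45 + lv D 89) + Real.exp (lv D 49 + lv D 58) :=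
    h.PX 4 5 8 9 (h.sgp w4_9 4 8 0 0 (by decide)) (h.sgp w4_9 5 9 0 0 (by decide)) (h.sgb hb 4) (h.sgb hb 8) (h.sgp w4_9 4 9 0 0 (by decide)) (h.sgp w4_9 5 8 0 0 (by decide)) rfl
  have f8 := eH e2
  have e3 : Real.exp (lv D 7 + lv D 68) = Real.exp (lv D 6 + lv D 78) + Real.exp (lv D 8 + lv D 67) :=
    h.PX 0 6 7 8 (h.sgn w6_11 0 7 0 0 (by decide)) (h.sgp w4_9 6 8 0 0 (by decide)) (h.sgn w6_11 0 6 0 0 (by decide)) (h.sgb hb 7) (h.sgn w6_11 0 8 0 0 (by decide)) (h.sgb hb 6) rfl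
  have f9 := eH e3
  have f10 : lv D 18 < lv D 89 :=
    h.lG 8 2 0 8 9 11 l8_2 (by decide) (h.pos_of w6_11 8 11 0 0 (by decide))
  have f11 : lv D 47 < lv D 45 :=
    h.lG 4 2 0 4 5 7 l4_2 (by decide) (h.pos_of w4_9 4 7 0 0 (by decide))
  have e4 : Real.exp (lv D 46 + lv D 58) = Real.exp (lv D 45 + lv D 68) + Real.exp (lv D 48 + lv D 56) :=
    h.PX 4 5 6 8 (h.sgp w4_9 4 6 0 0 (by decide)) (h.sgp w4_9 5 8 0 0 (by decide)) (h.sgb hb 4) (h.sgp w4_9 6 8 0 0 (by decide)) (h.sgp w4_9 4 8 0 0 (by decide)) (h.sgb hb 5) rfl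
  have f12 := eH e4
  have e5 : Real.exp (lv D 8 + lv D 69) = Real.exp (lv D 6 + lv D 89) + Real.exp (lv D 9 + lv D 68) :=
    h.PX 0 6 8 9 (h.sgn w6_11 0 8 0 0 (by decide)) (h.sgp w4_9 6 9 0 0 (by decide)) (h.sgn w6_11 0 6 0 0 (by decide)) (h.sgb hb 8) (h.sgbn hb) (h.sgp w4_9 6 8 0 0 (by decide)) rfl
  have f13 := eM e5
  have e6 : Real.exp (lv D 36 + lv D 49) = Real.exp (lv D 34 + lv D 69) + Real.exp (lv D 39 + lv D 46) :=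
    h.PX 3 4 6 9 (h.sgp w3_8 3 6 0 0 (by decide)) (h.sgp w4_9 4 9 0 0 (by decide)) (h.sgb hb 3) (h.sgp w4_9 6 9 0 0 (by decide)) (h.sgp w3_9 3 9 0 0 (by decide)) (h.sgp w4_9 4 6 0 0 (by decide)) rfl
  have f14 := eM e6
  have e7 : Real.exp (lv D 58 + lv D 69) = Real.exp (lv D 56 + lv D 89) + Real.exp (lv D 59 + lv D 68) :=
    h.PX 5 6 8 9 (h.sgp w4_9 5 8 0 0 (by decide)) (h.sgp w4_9 6 9 0 0 (by decide)) (h.sgb hb 5) (h.sgb hb 8) (h.sgp w4_9 5 9 0 0 (by decide)) (h.sgp w4_9 6 8 0 0 (by decide)) rfl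
  have f15 := eH e7
  have f16 : lv D 69 < lv D 68 :=
    h.lG 6 2 0 6 8 9 l6_2 (by decide) (h.pos_of w4_9 6 9 0 0 (by decide))
  have f17 : lv D 58 < lv D 56 :=
    h.lG 5 2 0 5 6 8 l5_2 (by decide) (h.pos_of w4_9 5 8 0 0 (by decide))
  linarith [f1, f2, f3, f4, f5, f6, f7, f8, f9, f10, f11, f12, f13, f14, f15, f16, f17, hl2a, hl2b]

theorem tm_564 {D : ℕ → ℕ → ℝ} (h : Cfg D)
    (hb : ∀ i, 0 < D i (i + 1))
    (l6_2 : LL D 6 8)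
    (r7_2 : RR D 7 9)
    (w5_11 : 0 < D 5 11) : False := by
  have f1 : lv D 7 < lv D 9 :=
    h.lF 7 2 0 7 9 10 r7_2 (by decide) (h.pos_of w5_11 7 10 0 0 (by decide))
  have e1 : Real.exp (lv D 7 + lv D 69) = Real.exp (lv D 6 + lv D 79) + Real.exp (lv D 9 + lv D 67) :=
    h.PX 0 6 7 9 (h.sgn w5_11 0 7 0 0 (by decide)) (h.sgp w5_11 6 9 0 0 (by decide)) (h.sgn w5_11 0 6 0 0 (by decide)) (h.sgp w5_11 7 9 0 0 (by decide)) (h.sgbn hb) (h.sgb hb 6) rfl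
  have f2 := eN e1
  have f3 : lv D 69 < lv D 67 :=
    h.lG 6 2 0 6 7 9 l6_2 (by decide) (h.pos_of w5_11 6 9 0 0 (by decide))
  linarith [f1, f2, f3, hl2a, hl2b]

theorem tm_565 {D : ℕ → ℕ → ℝ} (h : Cfg D)
    (hb : ∀ i, 0 < D i (i + 1))
    (l3_2 : LL D 3 5)
    (l4_2 : LL D 4 6)
    (l5_2 : LL D 5 7)
    (l6_2 : LL D 6 8)
    (l7_2 : LL D 7 9)
    (w3_8 : 0 < D 3 8)
    (w3_9 : 0 < D 3 9)
    (w4_9 : 0 < D 4 9)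
    (w5_11 : 0 < D 5 11) : False := by
  have e1 : Real.exp (lv D 36 + lv D 47) = Real.exp (lv D 34 + lv D 67) + Real.exp (lv D 37 + lv D 46) :=
    h.PX 3 4 6 7 (h.sgp w3_8 3 6 0 0 (by decide)) (h.sgp w3_8 4 7 0 0 (by decide)) (h.sgb hb 3) (h.sgb hb 6) (h.sgp w3_8 3 7 0 0 (by decide)) (h.sgp w3_8 4 6 0 0 (by decide)) rfl
  have f1 := eH e1
  have f2 : lv D 59 < lv D 56 :=
    h.lG 5 2 0 5 6 9 l5_2 (by decide) (h.pos_of w4_9 5 9 0 0 (by decide))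
  have f3 : lv D 47 < lv D 46 :=
    h.lG 4 2 0 4 6 7 l4_2 (by decide) (h.pos_of w4_9 4 7 0 0 (by decide))
  have e2 : Real.exp (lv D 37 + lv D 49) = Real.exp (lv D 34 + lv D 79) + Real.exp (lv D 39 + lv D 47) :=
    h.PX 3 4 7 9 (h.sgp w3_8 3 7 0 0 (by decide)) (h.sgp w4_9 4 9 0 0 (by decide)) (h.sgb hb 3) (h.sgp w4_9 7 9 0 0 (by decide)) (h.sgp w3_9 3 9 0 0 (by decide)) (h.sgp w4_9 4 7 0 0 (by decide)) rfl
  have f4 := eM e2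
  have e3 : Real.exp (lv D 37 + lv D 59) = Real.exp (lv D 35 + lv D 79) + Real.exp (lv D 39 + lv D 57) :=
    h.PX 3 5 7 9 (h.sgp w3_8 3 7 0 0 (by decide)) (h.sgp w4_9 5 9 0 0 (by decide)) (h.sgp w3_8 3 5 0 0 (by decide)) (h.sgp w4_9 7 9 0 0 (by decide)) (h.sgp w3_9 3 9 0 0 (by decide)) (h.sgp w4_9 5 7 0 0 (by decide)) rfl
  have f5 := eM e3
  have f6 : lv D 47 < lv D 45 :=
    h.lG 4 2 0 4 5 7 l4_2 (by decide) (h.pos_of w4_9 4 7 0 0 (by decide))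
  have f7 : lv D 57 < lv D 17 + 11317 / 10000 :=
    h.lK 7 2 0 5 7 11 l7_2 (by decide) w5_11
  have f8 : lv D 17 < lv D 7 :=
    h.lG 7 2 0 7 10 11 l7_2 (by decide) (h.pos_of w5_11 7 11 0 0 (by decide))
  have f9 : lv D 36 < lv D 34 :=
    h.lG 3 2 0 3 4 6 l3_2 (by decide) (h.pos_of w3_8 3 6 0 0 (by decide))
  have e4 : Real.exp (lv D 47 + lv D 69) = Real.exp (lv D 46 + lv D 79) + Real.exp (lv D 49 + lv D 67) :=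
    h.PX 4 6 7 9 (h.sgp w4_9 4 7 0 0 (by decide)) (h.sgp w4_9 6 9 0 0 (by decide)) (h.sgp w4_9 4 6 0 0 (by decide)) (h.sgp w4_9 7 9 0 0 (by decide)) (h.sgp w4_9 4 9 0 0 (by decide)) (h.sgb hb 6) rfl
  have f10 := eH e4
  have e5 : Real.exp (lv D 46 + lv D 57) = Real.exp (lv D 45 + lv D 67) + Real.exp (lv D 47 + lv D 56) :=
    h.PX 4 5 6 7 (h.sgp w4_9 4 6 0 0 (by decide)) (h.sgp w4_9 5 7 0 0 (by decide)) (h.sgb hb 4) (h.sgb hb 6) (h.sgp w4_9 4 7 0 0 (by decide)) (h.sgb hb 5) rfl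
  have f11 := eH e5
  have f12 : lv D 7 < lv D 79 :=
    h.lG 7 2 0 7 9 10 l7_2 (by decide) (h.pos_of w5_11 7 10 0 0 (by decide))
  have e6 : Real.exp (lv D 35 + lv D 47) = Real.exp (lv D 34 + lv D 57) + Real.exp (lv D 37 + lv D 45) :=
    h.PX 3 4 5 7 (h.sgp w3_8 3 5 0 0 (by decide)) (h.sgp w4_9 4 7 0 0 (by decide)) (h.sgb hb 3) (h.sgp w4_9 5 7 0 0 (by decide)) (h.sgp w3_8 3 7 0 0 (by decide)) (h.sgb hb 4) rfl
  have f13 := eH e6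
  have f14 : lv D 46 < lv D 69 + 11317 / 10000 :=
    h.lK 6 2 0 4 6 9 l6_2 (by decide) w4_9
  have f15 : lv D 69 < lv D 67 :=
    h.lG 6 2 0 6 7 9 l6_2 (by decide) (h.pos_of w4_9 6 9 0 0 (by decide))
  linarith [f1, f2, f3, f4, f5, f6, f7, f8, f9, f10, f11, f12, f13, f14, f15, hl2a, hl2b]

theorem tm_567 {D : ℕ → ℕ → ℝ} (h : Cfg D)
    (l4_2 : LL D 4 6)
    (r7_2 : RR D 7 9)
    (w4_11 : 0 < D 4 11)
    (w4_9 : 0 < D 4 9) : False := by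
  have f1 : lv D 49 < lv D 46 :=
    h.lG 4 2 0 4 6 9 l4_2 (by decide) w4_9
  have e1 : Real.exp (lv D 16 + lv D 49) = Real.exp (lv D 14 + lv D 69) + Real.exp (lv D 19 + lv D 46) :=
    h.PX 1 4 6 9 (h.sgn w4_11 1 6 0 0 (by decide)) (h.sgp w4_9 4 9 0 0 (by decide)) (h.sgn w4_11 1 4 0 0 (by decide)) (h.sgp w4_9 6 9 0 0 (by decide)) (h.sgn w4_11 1 9 0 0 (by decide)) (h.sgp w4_9 4 6 0 0 (by decide)) rfl
  have f2 := eN e1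
  have f3 : lv D 16 < lv D 19 :=
    h.lF 7 2 0 6 9 11 r7_2 (by decide) (h.pos_of w4_11 6 11 0 0 (by decide))
  linarith [f1, f2, f3, hl2a, hl2b]

theorem tm_568 {D : ℕ → ℕ → ℝ} (h : Cfg D)
    (hb : ∀ i, 0 < D i (i + 1))
    (l3_2 : LL D 3 5)
    (l4_2 : LL D 4 6)
    (l5_2 : LL D 5 7)
    (l6_2 : LL D 6 8)
    (l7_2 : LL D 7 9)
    (w3_8 : 0 < D 3 8)
    (w3_9 : 0 < D 3 9)
    (w4_11 : 0 < D 4 11)
    (w4_9 : 0 < D 4 9) : False := by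
  have f1 : lv D 69 < lv D 67 :=
    h.lG 6 2 0 6 7 9 l6_2 (by decide) (h.pos_of w4_9 6 9 0 0 (by decide))
  have f2 : lv D 47 < lv D 45 :=
    h.lG 4 2 0 4 5 7 l4_2 (by decide) (h.pos_of w4_9 4 7 0 0 (by decide))
  have f3 : lv D 37 < lv D 36 :=
    h.lG 4 2 0 3 6 7 l4_2 (by decide) (h.pos_of w3_8 3 7 0 0 (by decide))
  have f4 : lv D 47 < lv D 17 + 11317 / 10000 :=
    h.lK 7 2 0 4 7 11 l7_2 (by decide) w4_11
  have e1 : Real.exp (lv D 37 + lv D 69) = Real.exp (lv D 36 + lv D 79) + Real.exp (lv D 39 + lv D 67) :=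
    h.PX 3 6 7 9 (h.sgp w3_8 3 7 0 0 (by decide)) (h.sgp w4_9 6 9 0 0 (by decide)) (h.sgp w3_8 3 6 0 0 (by decide)) (h.sgp w4_9 7 9 0 0 (by decide)) (h.sgp w3_9 3 9 0 0 (by decide)) (h.sgb hb 6) rfl
  have f5 := eM e1
  have f6 : lv D 59 < lv D 56 :=
    h.lG 5 2 0 5 6 9 l5_2 (by decide) (h.pos_of w4_9 5 9 0 0 (by decide))
  have f7 : lv D 17 < lv D 7 :=
    h.lG 7 2 0 7 10 11 l7_2 (by decide) (h.pos_of w4_11 7 11 0 0 (by decide))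
  have e2 : Real.exp (lv D 36 + lv D 59) = Real.exp (lv D 35 + lv D 69) + Real.exp (lv D 39 + lv D 56) :=
    h.PX 3 5 6 9 (h.sgp w3_8 3 6 0 0 (by decide)) (h.sgp w4_9 5 9 0 0 (by decide)) (h.sgp w3_8 3 5 0 0 (by decide)) (h.sgp w4_9 6 9 0 0 (by decide)) (h.sgp w3_9 3 9 0 0 (by decide)) (h.sgb hb 5) rfl
  have f8 := eM e2
  have f9 : lv D 7 < lv D 79 :=
    h.lG 7 2 0 7 9 10 l7_2 (by decide) (h.pos_of w4_11 7 10 0 0 (by decide))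
  have f10 : lv D 57 < lv D 17 + 11317 / 10000 :=
    h.lK 7 2 0 5 7 11 l7_2 (by decide) (h.pos_of w4_11 5 11 0 0 (by decide))
  have e3 : Real.exp (lv D 36 + lv D 57) = Real.exp (lv D 35 + lv D 67) + Real.exp (lv D 37 + lv D 56) :=
    h.PX 3 5 6 7 (h.sgp w3_8 3 6 0 0 (by decide)) (h.sgp w4_9 5 7 0 0 (by decide)) (h.sgp w3_8 3 5 0 0 (by decide)) (h.sgb hb 6) (h.sgp w3_8 3 7 0 0 (by decide)) (h.sgb hb 5) rfl
  have f11 := eH e3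
  have e4 : Real.exp (lv D 35 + lv D 46) = Real.exp (lv D 34 + lv D 56) + Real.exp (lv D 36 + lv D 45) :=
    h.PX 3 4 5 6 (h.sgp w3_8 3 5 0 0 (by decide)) (h.sgp w4_9 4 6 0 0 (by decide)) (h.sgb hb 3) (h.sgb hb 5) (h.sgp w3_8 3 6 0 0 (by decide)) (h.sgb hb 4) rfl
  have f12 := eH e4
  have e5 : Real.exp (lv D 36 + lv D 47) = Real.exp (lv D 34 + lv D 67) + Real.exp (lv D 37 + lv D 46) :=
    h.PX 3 4 6 7 (h.sgp w3_8 3 6 0 0 (by decide)) (h.sgp w4_9 4 7 0 0 (by decide)) (h.sgb hb 3) (h.sgb hb 6) (h.sgp w3_8 3 7 0 0 (by decide)) (h.sgp w4_9 4 6 0 0 (by decide)) rfl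
  have f13 := eH e5
  have f14 : lv D 36 < lv D 34 :=
    h.lG 3 2 0 3 4 6 l3_2 (by decide) (h.pos_of w3_8 3 6 0 0 (by decide))
  linarith [f1, f2, f3, f4, f5, f6, f7, f8, f9, f10, f11, f12, f13, f14, hl2a, hl2b]

theorem tm_569 {D : ℕ → ℕ → ℝ} (h : Cfg D)
    (hb : ∀ i, 0 < D i (i + 1))
    (l6_2 : LL D 6 8)
    (r8_2 : RR D 8 10)
    (w4_9 : 0 < D 4 9)
    (w6_12 : 0 < D 6 12) : False := by
  have f1 : lv D 69 < lv D 67 :=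
    h.lG 6 2 0 6 7 9 l6_2 (by decide) (h.pos_of w4_9 6 9 0 0 (by decide))
  have f2 : lv D 27 < lv D 29 :=
    h.lF 8 2 0 7 9 12 r8_2 (by decide) (h.pos_of w6_12 7 12 0 0 (by decide))
  have e1 : Real.exp (lv D 27 + lv D 69) = Real.exp (lv D 26 + lv D 79) + Real.exp (lv D 29 + lv D 67) :=
    h.PX 2 6 7 9 (h.sgn w6_12 2 7 0 0 (by decide)) (h.sgp w4_9 6 9 0 0 (by decide)) (h.sgn w6_12 2 6 0 0 (by decide)) (h.sgp w4_9 7 9 0 0 (by decide)) (h.sgn w6_12 2 9 0 0 (by decide)) (h.sgb hb 6) rfl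
  have f3 := eN e1
  linarith [f1, f2, f3, hl2a, hl2b]

theorem tm_570 {D : ℕ → ℕ → ℝ} (h : Cfg D)
    (hb : ∀ i, 0 < D i (i + 1))
    (l6_2 : LL D 6 8)
    (r7_2 : RR D 7 9)
    (w6_12 : 0 < D 6 12) : False := by
  have e1 : Real.exp (lv D 17 + lv D 69) = Real.exp (lv D 16 + lv D 79) + Real.exp (lv D 19 + lv D 67) :=
    h.PX 1 6 7 9 (h.sgn w6_12 1 7 0 0 (by decide)) (h.sgp w6_12 6 9 0 0 (by decide)) (h.sgn w6_12 1 6 0 0 (by decide)) (h.sgp w6_12 7 9 0 0 (by decide)) (h.sgn w6_12 1 9 0 0 (by decide)) (h.sgb hb 6) rfl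
  have f1 := eN e1
  have f2 : lv D 69 < lv D 67 :=
    h.lG 6 2 0 6 7 9 l6_2 (by decide) (h.pos_of w6_12 6 9 0 0 (by decide))
  have f3 : lv D 17 < lv D 19 :=
    h.lF 7 2 0 7 9 11 r7_2 (by decide) (h.pos_of w6_12 7 11 0 0 (by decide))
  linarith [f1, f2, f3, hl2a, hl2b]

theorem tm_571 {D : ℕ → ℕ → ℝ} (h : Cfg D)
    (hb : ∀ i, 0 < D i (i + 1))
    (l3_2 : LL D 3 5)
    (l4_2 : LL D 4 6)
    (l5_2 : LL D 5 7)
    (l6_2 : LL D 6 8)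
    (l8_2 : LL D 8 10)
    (l9_2 : LL D 9 11)
    (r0_2 : RR D 0 2)
    (w0_3 : 0 < D 0 3)
    (w0_5 : 0 < D 0 5)
    (w3_8 : 0 < D 3 8)
    (w3_9 : 0 < D 3 9)
    (w4_9 : 0 < D 4 9)
    (w6_12 : 0 < D 6 12) : False := by
  have f1 : lv D 58 < lv D 56 :=
    h.lG 5 2 0 5 6 8 l5_2 (by decide) (h.pos_of w4_9 5 8 0 0 (by decide))
  have f2 : lv D 69 < lv D 68 :=
    h.lG 6 2 0 6 8 9 l6_2 (by decide) (h.pos_of w4_9 6 9 0 0 (by decide))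
  have f3 : lv D 36 < lv D 34 :=
    h.lG 3 2 0 3 4 6 l3_2 (by decide) (h.pos_of w3_8 3 6 0 0 (by decide))
  have e1 : Real.exp (lv D 35 + lv D 49) = Real.exp (lv D 34 + lv D 59) + Real.exp (lv D 39 + lv D 45) :=
    h.PX 3 4 5 9 (h.sgp w3_8 3 5 0 0 (by decide)) (h.sgp w4_9 4 9 0 0 (by decide)) (h.sgb hb 3) (h.sgp w4_9 5 9 0 0 (by decide)) (h.sgp w3_9 3 9 0 0 (by decide)) (h.sgb hb 4) rfl
  have f4 := eM e1
  have f5 : lv D 69 < lv D 29 + 11317 / 10000 :=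
    h.lK 9 2 0 6 9 12 l9_2 (by decide) w6_12
  have e2 : Real.exp (lv D 35 + lv D 46) = Real.exp (lv D 34 + lv D 56) + Real.exp (lv D 36 + lv D 45) :=
    h.PX 3 4 5 6 (h.sgp w3_8 3 5 0 0 (by decide)) (h.sgp w4_9 4 6 0 0 (by decide)) (h.sgb hb 3) (h.sgb hb 5) (h.sgp w3_8 3 6 0 0 (by decide)) (h.sgb hb 4) rfl
  have f6 := eH e2
  have f7 : lv D 46 < lv D 69 + 11317 / 10000 :=
    h.lK 6 2 0 4 6 9 l6_2 (by decide) w4_9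
  have e3 : Real.exp (lv D 36 + lv D 58) = Real.exp (lv D 35 + lv D 68) + Real.exp (lv D 38 + lv D 56) :=
    h.PX 3 5 6 8 (h.sgp w3_8 3 6 0 0 (by decide)) (h.sgp w4_9 5 8 0 0 (by decide)) (h.sgp w3_8 3 5 0 0 (by decide)) (h.sgp w4_9 6 8 0 0 (by decide)) (h.sgp w3_8 3 8 0 0 (by decide)) (h.sgb hb 5) rfl
  have f8 := eH e3
  have f9 : lv D 28 < lv D 89 :=
    h.lG 8 2 0 8 9 12 l8_2 (by decide) (h.pos_of w6_12 8 12 0 0 (by decide))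
  have f10 : lv D 48 < lv D 45 :=
    h.lG 4 2 0 4 5 8 l4_2 (by decide) (h.pos_of w4_9 4 8 0 0 (by decide))
  have e4 : Real.exp (lv D 29 + lv D 38) = Real.exp (lv D 28 + lv D 39) + Real.exp (lv D 23 + lv D 89) :=
    h.PZ 2 3 8 9 (h.sgn w6_12 2 8 0 0 (by decide)) (h.sgp w3_9 3 9 0 0 (by decide)) (h.sgb hb 2) (h.sgb hb 8) (h.sgn w6_12 2 9 0 0 (by decide)) (h.sgp w3_8 3 8 0 0 (by decide)) rfl
  have f11 := eN e4
  have f12 : lv D 3 < lv D 23 :=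
    h.lF 0 2 0 0 2 3 r0_2 (by decide) w0_3
  have e5 : Real.exp (lv D 46 + lv D 59) = Real.exp (lv D 45 + lv D 69) + Real.exp (lv D 49 + lv D 56) :=
    h.PX 4 5 6 9 (h.sgp w4_9 4 6 0 0 (by decide)) (h.sgp w4_9 5 9 0 0 (by decide)) (h.sgb hb 4) (h.sgp w4_9 6 9 0 0 (by decide)) (h.sgp w4_9 4 9 0 0 (by decide)) (h.sgb hb 5) rfl
  have f13 := eH e5
  have f14 : lv D 35 < lv D 3 + 11317 / 10000 :=
    h.lC 0 2 0 0 3 5 r0_2 (by decide) w0_5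
  have e6 : Real.exp (lv D 28 + lv D 69) = Real.exp (lv D 26 + lv D 89) + Real.exp (lv D 29 + lv D 68) :=
    h.PX 2 6 8 9 (h.sgn w6_12 2 8 0 0 (by decide)) (h.sgp w4_9 6 9 0 0 (by decide)) (h.sgn w6_12 2 6 0 0 (by decide)) (h.sgb hb 8) (h.sgn w6_12 2 9 0 0 (by decide)) (h.sgp w4_9 6 8 0 0 (by decide)) rfl
  have f15 := eN e6
  have e7 : Real.exp (lv D 48 + lv D 69) = Real.exp (lv D 46 + lv D 89) + Real.exp (lv D 49 + lv D 68) :=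
    h.PX 4 6 8 9 (h.sgp w4_9 4 8 0 0 (by decide)) (h.sgp w4_9 6 9 0 0 (by decide)) (h.sgp w4_9 4 6 0 0 (by decide)) (h.sgb hb 8) (h.sgp w4_9 4 9 0 0 (by decide)) (h.sgp w4_9 6 8 0 0 (by decide)) rfl
  have f16 := eH e7
  linarith [f1, f2, f3, f4, f5, f6, f7, f8, f9, f10, f11, f12, f13, f14, f15, f16, hl2a, hl2b]

theorem tm_572 {D : ℕ → ℕ → ℝ} (h : Cfg D)
    (hb : ∀ i, 0 < D i (i + 1))
    (l3_2 : LL D 3 5)
    (l4_2 : LL D 4 6)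
    (l5_2 : LL D 5 7)
    (l6_2 : LL D 6 8)
    (l7_2 : LL D 7 9)
    (l8_2 : LL D 8 10)
    (l9_2 : LL D 9 11)
    (w2_5 : 0 < D 2 5)
    (w3_9 : 0 < D 3 9)
    (w4_9 : 0 < D 4 9)
    (w5_10 : 0 < D 5 10)
    (w6_12 : 0 < D 6 12) : False := by
  have e1 : Real.exp (lv D 46 + lv D 57) = Real.exp (lv D 45 + lv D 67) + Real.exp (lv D 47 + lv D 56) :=
    h.PX 4 5 6 7 (h.sgp w4_9 4 6 0 0 (by decide)) (h.sgp w4_9 5 7 0 0 (by decide)) (h.sgb hb 4) (h.sgb hb 6) (h.sgp w4_9 4 7 0 0 (by decide)) (h.sgb hb 5) rfl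
  have f1 := eH e1
  have e2 : Real.exp (lv D 58 + lv D 69) = Real.exp (lv D 56 + lv D 89) + Real.exp (lv D 59 + lv D 68) :=
    h.PX 5 6 8 9 (h.sgp w4_9 5 8 0 0 (by decide)) (h.sgp w4_9 6 9 0 0 (by decide)) (h.sgb hb 5) (h.sgb hb 8) (h.sgp w4_9 5 9 0 0 (by decide)) (h.sgp w4_9 6 8 0 0 (by decide)) rfl
  have f2 := eH e2
  have e3 : Real.exp (lv D 18 + lv D 69) = Real.exp (lv D 16 + lv D 89) + Real.exp (lv D 19 + lv D 68) :=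
    h.PX 1 6 8 9 (h.sgn w6_12 1 8 0 0 (by decide)) (h.sgp w4_9 6 9 0 0 (by decide)) (h.sgn w6_12 1 6 0 0 (by decide)) (h.sgb hb 8) (h.sgn w6_12 1 9 0 0 (by decide)) (h.sgp w4_9 6 8 0 0 (by decide)) rfl
  have f3 := eN e3
  have e4 : Real.exp (lv D 57 + lv D 69) = Real.exp (lv D 56 + lv D 79) + Real.exp (lv D 59 + lv D 67) :=
    h.PX 5 6 7 9 (h.sgp w4_9 5 7 0 0 (by decide)) (h.sgp w4_9 6 9 0 0 (by decide)) (h.sgb hb 5) (h.sgp w4_9 7 9 0 0 (by decide)) (h.sgp w4_9 5 9 0 0 (by decide)) (h.sgb hb 6) rfl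
  have f4 := eN e4
  have e5 : Real.exp (lv D 29 + lv D 38) = Real.exp (lv D 28 + lv D 39) + Real.exp (lv D 23 + lv D 89) :=
    h.PZ 2 3 8 9 (h.sgn w6_12 2 8 0 0 (by decide)) (h.sgp w3_9 3 9 0 0 (by decide)) (h.sgb hb 2) (h.sgb hb 8) (h.sgn w6_12 2 9 0 0 (by decide)) (h.sgp w3_9 3 8 0 0 (by decide)) rfl
  have f5 := eN e5
  have f6 : lv D 7 < lv D 78 :=
    h.lG 7 2 0 7 8 10 l7_2 (by decide) (h.pos_of w6_12 7 10 0 0 (by decide))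
  have e6 : Real.exp (lv D 23 + lv D 59) = Real.exp (lv D 25 + lv D 39) + Real.exp (lv D 29 + lv D 35) :=
    h.PY 2 3 5 9 (h.sgp w2_5 2 5 0 0 (by decide)) (h.sgp w3_9 3 9 0 0 (by decide)) (h.sgb hb 2) (h.sgp w4_9 5 9 0 0 (by decide)) (h.sgn w6_12 2 9 0 0 (by decide)) (h.sgp w3_9 3 5 0 0 (by decide)) rfl
  have f7 := eN e6
  have e7 : Real.exp (lv D 29 + lv D 37) = Real.exp (lv D 27 + lv D 39) + Real.exp (lv D 23 + lv D 79) :=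
    h.PZ 2 3 7 9 (h.sgn w6_12 2 7 0 0 (by decide)) (h.sgp w3_9 3 9 0 0 (by decide)) (h.sgb hb 2) (h.sgp w4_9 7 9 0 0 (by decide)) (h.sgn w6_12 2 9 0 0 (by decide)) (h.sgp w3_9 3 7 0 0 (by decide)) rfl
  have f8 := eN e7
  have f9 : lv D 45 < lv D 59 + 11317 / 10000 :=
    h.lK 6 2 0 4 5 9 l6_2 (by decide) w4_9
  have e8 : Real.exp (lv D 35 + lv D 48) = Real.exp (lv D 34 + lv D 58) + Real.exp (lv D 38 + lv D 45) :=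
    h.PX 3 4 5 8 (h.sgp w3_9 3 5 0 0 (by decide)) (h.sgp w4_9 4 8 0 0 (by decide)) (h.sgb hb 3) (h.sgp w4_9 5 8 0 0 (by decide)) (h.sgp w3_9 3 8 0 0 (by decide)) (h.sgb hb 4) rfl
  have f10 := eH e8
  have f11 : lv D 57 < lv D 7 + 11317 / 10000 :=
    h.lK 7 2 0 5 7 10 l7_2 (by decide) w5_10
  have f12 : lv D 58 < lv D 56 :=
    h.lG 5 2 0 5 6 8 l5_2 (by decide) (h.pos_of w4_9 5 8 0 0 (by decide))
  have f13 : lv D 47 < lv D 45 :=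
    h.lG 4 2 0 4 5 7 l4_2 (by decide) (h.pos_of w4_9 4 7 0 0 (by decide))
  have e9 : Real.exp (lv D 47 + lv D 68) = Real.exp (lv D 46 + lv D 78) + Real.exp (lv D 48 + lv D 67) :=
    h.PX 4 6 7 8 (h.sgp w4_9 4 7 0 0 (by decide)) (h.sgp w4_9 6 8 0 0 (by decide)) (h.sgp w4_9 4 6 0 0 (by decide)) (h.sgb hb 7) (h.sgp w4_9 4 8 0 0 (by decide)) (h.sgb hb 6) rfl
  have f14 := eH e9
  have f15 : lv D 37 < lv D 34 :=
    h.lG 3 2 0 3 4 7 l3_2 (by decide) (h.pos_of w3_9 3 7 0 0 (by decide))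
  have f16 : lv D 69 < lv D 67 :=
    h.lG 6 2 0 6 7 9 l6_2 (by decide) (h.pos_of w4_9 6 9 0 0 (by decide))
  have f17 : lv D 69 < lv D 29 + 11317 / 10000 :=
    h.lK 9 2 0 6 9 12 l9_2 (by decide) w6_12
  have f18 : lv D 18 < lv D 89 :=
    h.lG 8 2 0 8 9 11 l8_2 (by decide) (h.pos_of w6_12 8 11 0 0 (by decide))
  have e10 : Real.exp (lv D 18 + lv D 79) = Real.exp (lv D 17 + lv D 89) + Real.exp (lv D 19 + lv D 78) :=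
    h.PX 1 7 8 9 (h.sgn w6_12 1 8 0 0 (by decide)) (h.sgp w4_9 7 9 0 0 (by decide)) (h.sgn w6_12 1 7 0 0 (by decide)) (h.sgb hb 8) (h.sgn w6_12 1 9 0 0 (by decide)) (h.sgb hb 7) rfl
  have f19 := eN e10
  have f20 : lv D 29 < lv D 19 :=
    h.lG 9 2 0 9 11 12 l9_2 (by decide) (h.pos_of w6_12 9 12 0 0 (by decide))
  linarith [f1, f2, f3, f4, f5, f6, f7, f8, f9, f10, f11, f12, f13, f14, f15, f16, f17, f18, f19, f20, hl2a, hl2b]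

theorem tm_574 {D : ℕ → ℕ → ℝ} (h : Cfg D)
    (hb : ∀ i, 0 < D i (i + 1))
    (l3_2 : LL D 3 5)
    (r7_2 : RR D 7 9)
    (w3_10 : 0 < D 3 10) : False := by
  have f1 : lv D 4 < lv D 6 :=
    h.lF 7 2 0 4 6 10 r7_2 (by decide) (h.pos_of w3_10 4 10 0 0 (by decide))
  have f2 : lv D 36 < lv D 34 :=
    h.lG 3 2 0 3 4 6 l3_2 (by decide) (h.pos_of w3_10 3 6 0 0 (by decide))
  have e1 : Real.exp (lv D 4 + lv D 36) = Real.exp (lv D 3 + lv D 46) + Real.exp (lv D 6 + lv D 34) :=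
    h.PX 0 3 4 6 (h.sgn w3_10 0 4 0 0 (by decide)) (h.sgp w3_10 3 6 0 0 (by decide)) (h.sgn w3_10 0 3 0 0 (by decide)) (h.sgp w3_10 4 6 0 0 (by decide)) (h.sgn w3_10 0 6 0 0 (by decide)) (h.sgb hb 3) rfl
  have f3 := eN e1
  linarith [f1, f2, f3, hl2a, hl2b]

theorem tm_575 {D : ℕ → ℕ → ℝ} (h : Cfg D)
    (hb : ∀ i, 0 < D i (i + 1))
    (l3_2 : LL D 3 5)
    (l4_2 : LL D 4 6)
    (l6_2 : LL D 6 8)
    (l7_2 : LL D 7 9)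
    (w3_10 : 0 < D 3 10)
    (w4_9 : 0 < D 4 9) : False := by
  have f1 : lv D 47 < lv D 46 :=
    h.lG 4 2 0 4 6 7 l4_2 (by decide) (h.pos_of w4_9 4 7 0 0 (by decide))
  have e1 : Real.exp (lv D 4 + lv D 36) = Real.exp (lv D 3 + lv D 46) + Real.exp (lv D 6 + lv D 34) :=
    h.PX 0 3 4 6 (h.sgn w3_10 0 4 0 0 (by decide)) (h.sgp w3_10 3 6 0 0 (by decide)) (h.sgn w3_10 0 3 0 0 (by decide)) (h.sgp w4_9 4 6 0 0 (by decide)) (h.sgn w3_10 0 6 0 0 (by decide)) (h.sgb hb 3) rfl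
  have f2 := eN e1
  have e2 : Real.exp (lv D 6 + lv D 47) = Real.exp (lv D 4 + lv D 67) + Real.exp (lv D 7 + lv D 46) :=
    h.PX 0 4 6 7 (h.sgn w3_10 0 6 0 0 (by decide)) (h.sgp w4_9 4 7 0 0 (by decide)) (h.sgn w3_10 0 4 0 0 (by decide)) (h.sgb hb 6) (h.sgn w3_10 0 7 0 0 (by decide)) (h.sgp w4_9 4 6 0 0 (by decide)) rfl
  have f3 := eH e2
  have f4 : lv D 47 < lv D 7 + 11317 / 10000 :=
    h.lK 7 2 0 4 7 10 l7_2 (by decide) (h.pos_of w3_10 4 10 0 0 (by decide))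
  have f5 : lv D 36 < lv D 34 :=
    h.lG 3 2 0 3 4 6 l3_2 (by decide) (h.pos_of w3_10 3 6 0 0 (by decide))
  have f6 : lv D 6 < lv D 67 :=
    h.lG 6 2 0 6 7 10 l6_2 (by decide) (h.pos_of w3_10 6 10 0 0 (by decide))
  linarith [f1, f2, f3, f4, f5, f6, hl2a, hl2b]

theorem tm_577 {D : ℕ → ℕ → ℝ} (h : Cfg D)
    (l4_2 : LL D 4 6)
    (r7_2 : RR D 7 9)
    (w3_11 : 0 < D 3 11) : False := by
  have e1 : Real.exp (lv D 16 + lv D 38) = Real.exp (lv D 13 + lv D 68) + Real.exp (lv D 18 + lv D 36) :=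
    h.PX 1 3 6 8 (h.sgn w3_11 1 6 0 0 (by decide)) (h.sgp w3_11 3 8 0 0 (by decide)) (h.sgn w3_11 1 3 0 0 (by decide)) (h.sgp w3_11 6 8 0 0 (by decide)) (h.sgn w3_11 1 8 0 0 (by decide)) (h.sgp w3_11 3 6 0 0 (by decide)) rfl
  have f1 := eN e1
  have f2 : lv D 38 < lv D 36 :=
    h.lG 4 2 0 3 6 8 l4_2 (by decide) (h.pos_of w3_11 3 8 0 0 (by decide))
  have f3 : lv D 16 < lv D 18 :=
    h.lF 7 2 0 6 8 11 r7_2 (by decide) (h.pos_of w3_11 6 11 0 0 (by decide))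
  linarith [f1, f2, f3, hl2a, hl2b]

theorem tm_578 {D : ℕ → ℕ → ℝ} (h : Cfg D)
    (hb : ∀ i, 0 < D i (i + 1))
    (l3_2 : LL D 3 5)
    (l4_2 : LL D 4 6)
    (l6_2 : LL D 6 8)
    (l7_2 : LL D 7 9)
    (w3_11 : 0 < D 3 11)
    (w3_8 : 0 < D 3 8)
    (w4_9 : 0 < D 4 9) : False := by
  have f1 : lv D 47 < lv D 46 :=
    h.lG 4 2 0 4 6 7 l4_2 (by decide) (h.pos_of w4_9 4 7 0 0 (by decide))
  have f2 : lv D 36 < lv D 34 :=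
    h.lG 3 2 0 3 4 6 l3_2 (by decide) (h.pos_of w3_8 3 6 0 0 (by decide))
  have e1 : Real.exp (lv D 6 + lv D 47) = Real.exp (lv D 4 + lv D 67) + Real.exp (lv D 7 + lv D 46) :=
    h.PX 0 4 6 7 (h.sgn w3_11 0 6 0 0 (by decide)) (h.sgp w4_9 4 7 0 0 (by decide)) (h.sgn w3_11 0 4 0 0 (by decide)) (h.sgb hb 6) (h.sgn w3_11 0 7 0 0 (by decide)) (h.sgp w4_9 4 6 0 0 (by decide)) rfl
  have f3 := eH e1
  have f4 : lv D 6 < lv D 67 :=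
    h.lG 6 2 0 6 7 10 l6_2 (by decide) (h.pos_of w3_11 6 10 0 0 (by decide))
  have e2 : Real.exp (lv D 4 + lv D 36) = Real.exp (lv D 3 + lv D 46) + Real.exp (lv D 6 + lv D 34) :=
    h.PX 0 3 4 6 (h.sgn w3_11 0 4 0 0 (by decide)) (h.sgp w3_8 3 6 0 0 (by decide)) (h.sgn w3_11 0 3 0 0 (by decide)) (h.sgp w4_9 4 6 0 0 (by decide)) (h.sgn w3_11 0 6 0 0 (by decide)) (h.sgb hb 3) rfl
  have f5 := eN e2
  have f6 : lv D 47 < lv D 7 + 11317 / 10000 :=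
    h.lK 7 2 0 4 7 10 l7_2 (by decide) (h.pos_of w3_11 4 10 0 0 (by decide))
  linarith [f1, f2, f3, f4, f5, f6, hl2a, hl2b]

theorem tm_579 {D : ℕ → ℕ → ℝ} (h : Cfg D)
    (hb : ∀ i, 0 < D i (i + 1))
    (l5_2 : LL D 5 7)
    (r7_2 : RR D 7 9)
    (w5_12 : 0 < D 5 12) : False := by
  have f1 : lv D 6 < lv D 8 :=
    h.lF 7 2 0 6 8 10 r7_2 (by decide) (h.pos_of w5_12 6 10 0 0 (by decide))
  have f2 : lv D 58 < lv D 56 :=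
    h.lG 5 2 0 5 6 8 l5_2 (by decide) (h.pos_of w5_12 5 8 0 0 (by decide))
  have e1 : Real.exp (lv D 6 + lv D 58) = Real.exp (lv D 5 + lv D 68) + Real.exp (lv D 8 + lv D 56) :=
    h.PX 0 5 6 8 (h.sgn w5_12 0 6 0 0 (by decide)) (h.sgp w5_12 5 8 0 0 (by decide)) (h.sgn w5_12 0 5 0 0 (by decide)) (h.sgp w5_12 6 8 0 0 (by decide)) (h.sgn w5_12 0 8 0 0 (by decide)) (h.sgb hb 5) rfl
  have f3 := eN e1
  linarith [f1, f2, f3, hl2a, hl2b]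

theorem tm_580 {D : ℕ → ℕ → ℝ} (h : Cfg D)
    (hb : ∀ i, 0 < D i (i + 1))
    (l3_2 : LL D 3 5)
    (l4_2 : LL D 4 6)
    (l5_2 : LL D 5 7)
    (l6_2 : LL D 6 8)
    (l7_2 : LL D 7 9)
    (l9_2 : LL D 9 11)
    (w3_8 : 0 < D 3 8)
    (w3_9 : 0 < D 3 9)
    (w4_9 : 0 < D 4 9)
    (w5_12 : 0 < D 5 12) : False := by
  have f1 : lv D 69 < lv D 67 :=
    h.lG 6 2 0 6 7 9 l6_2 (by decide) (h.pos_of w4_9 6 9 0 0 (by decide))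
  have e1 : Real.exp (lv D 37 + lv D 59) = Real.exp (lv D 35 + lv D 79) + Real.exp (lv D 39 + lv D 57) :=
    h.PX 3 5 7 9 (h.sgp w3_8 3 7 0 0 (by decide)) (h.sgp w4_9 5 9 0 0 (by decide)) (h.sgp w3_8 3 5 0 0 (by decide)) (h.sgp w4_9 7 9 0 0 (by decide)) (h.sgp w3_9 3 9 0 0 (by decide)) (h.sgp w4_9 5 7 0 0 (by decide)) rfl
  have f2 := eM e1
  have e2 : Real.exp (lv D 46 + lv D 57) = Real.exp (lv D 45 + lv D 67) + Real.exp (lv D 47 + lv D 56) :=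
    h.PX 4 5 6 7 (h.sgp w4_9 4 6 0 0 (by decide)) (h.sgp w4_9 5 7 0 0 (by decide)) (h.sgb hb 4) (h.sgb hb 6) (h.sgp w4_9 4 7 0 0 (by decide)) (h.sgb hb 5) rfl
  have f3 := eH e2
  have e3 : Real.exp (lv D 58 + lv D 69) = Real.exp (lv D 56 + lv D 89) + Real.exp (lv D 59 + lv D 68) :=
    h.PX 5 6 8 9 (h.sgp w4_9 5 8 0 0 (by decide)) (h.sgp w4_9 6 9 0 0 (by decide)) (h.sgb hb 5) (h.sgb hb 8) (h.sgp w4_9 5 9 0 0 (by decide)) (h.sgp w4_9 6 8 0 0 (by decide)) rfl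
  have f4 := eN e3
  have f5 : lv D 47 < lv D 45 :=
    h.lG 4 2 0 4 5 7 l4_2 (by decide) (h.pos_of w4_9 4 7 0 0 (by decide))
  have f6 : lv D 57 < lv D 27 + 11317 / 10000 :=
    h.lK 9 2 0 5 7 12 l9_2 (by decide) w5_12
  have f7 : lv D 36 < lv D 34 :=
    h.lG 3 2 0 3 4 6 l3_2 (by decide) (h.pos_of w3_8 3 6 0 0 (by decide))
  have f8 : lv D 46 < lv D 69 + 11317 / 10000 :=
    h.lK 6 2 0 4 6 9 l6_2 (by decide) w4_9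
  have f9 : lv D 7 < lv D 79 :=
    h.lG 7 2 0 7 9 10 l7_2 (by decide) (h.pos_of w5_12 7 10 0 0 (by decide))
  have f10 : lv D 36 < lv D 35 :=
    h.lG 3 2 0 3 5 6 l3_2 (by decide) (h.pos_of w3_8 3 6 0 0 (by decide))
  have f11 : lv D 7 < lv D 78 :=
    h.lG 7 2 0 7 8 10 l7_2 (by decide) (h.pos_of w5_12 7 10 0 0 (by decide))
  have e4 : Real.exp (lv D 57 + lv D 68) = Real.exp (lv D 56 + lv D 78) + Real.exp (lv D 58 + lv D 67) :=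
    h.PX 5 6 7 8 (h.sgp w4_9 5 7 0 0 (by decide)) (h.sgp w4_9 6 8 0 0 (by decide)) (h.sgb hb 5) (h.sgb hb 7) (h.sgp w4_9 5 8 0 0 (by decide)) (h.sgb hb 6) rfl
  have f12 := eH e4
  have e5 : Real.exp (lv D 37 + lv D 58) = Real.exp (lv D 35 + lv D 78) + Real.exp (lv D 38 + lv D 57) :=
    h.PX 3 5 7 8 (h.sgp w3_8 3 7 0 0 (by decide)) (h.sgp w4_9 5 8 0 0 (by decide)) (h.sgp w3_8 3 5 0 0 (by decide)) (h.sgb hb 7) (h.sgp w3_8 3 8 0 0 (by decide)) (h.sgp w4_9 5 7 0 0 (by decide)) rfl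
  have f13 := eM e5
  have f14 : lv D 58 < lv D 56 :=
    h.lG 5 2 0 5 6 8 l5_2 (by decide) (h.pos_of w4_9 5 8 0 0 (by decide))
  have e6 : Real.exp (lv D 36 + lv D 59) = Real.exp (lv D 35 + lv D 69) + Real.exp (lv D 39 + lv D 56) :=
    h.PX 3 5 6 9 (h.sgp w3_8 3 6 0 0 (by decide)) (h.sgp w4_9 5 9 0 0 (by decide)) (h.sgp w3_8 3 5 0 0 (by decide)) (h.sgp w4_9 6 9 0 0 (by decide)) (h.sgp w3_9 3 9 0 0 (by decide)) (h.sgb hb 5) rfl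
  have f15 := eM e6
  have e7 : Real.exp (lv D 35 + lv D 47) = Real.exp (lv D 34 + lv D 57) + Real.exp (lv D 37 + lv D 45) :=
    h.PX 3 4 5 7 (h.sgp w3_8 3 5 0 0 (by decide)) (h.sgp w4_9 4 7 0 0 (by decide)) (h.sgb hb 3) (h.sgp w4_9 5 7 0 0 (by decide)) (h.sgp w3_8 3 7 0 0 (by decide)) (h.sgb hb 4) rfl
  have f16 := eH e7
  have f17 : lv D 27 < lv D 7 :=
    h.lG 7 2 0 7 10 12 l7_2 (by decide) (h.pos_of w5_12 7 12 0 0 (by decide))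
  linarith [f1, f2, f3, f4, f5, f6, f7, f8, f9, f10, f11, f12, f13, f14, f15, f16, f17, hl2a, hl2b]

theorem tm_581 {D : ℕ → ℕ → ℝ} (h : Cfg D)
    (l5_2 : LL D 5 7)
    (r7_2 : RR D 7 9)
    (w4_12 : 0 < D 4 12) : False := by
  have e1 : Real.exp (lv D 26 + lv D 48) = Real.exp (lv D 24 + lv D 68) + Real.exp (lv D 28 + lv D 46) :=
    h.PX 2 4 6 8 (h.sgn w4_12 2 6 0 0 (by decide)) (h.sgp w4_12 4 8 0 0 (by decide)) (h.sgn w4_12 2 4 0 0 (by decide)) (h.sgp w4_12 6 8 0 0 (by decide)) (h.sgn w4_12 2 8 0 0 (by decide)) (h.sgp w4_12 4 6 0 0 (by decide)) rfl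
  have f1 := eN e1
  have f2 : lv D 26 < lv D 28 :=
    h.lF 7 2 0 6 8 12 r7_2 (by decide) (h.pos_of w4_12 6 12 0 0 (by decide))
  have f3 : lv D 48 < lv D 46 :=
    h.lG 5 2 0 4 6 8 l5_2 (by decide) (h.pos_of w4_12 4 8 0 0 (by decide))
  linarith [f1, f2, f3, hl2a, hl2b]

theorem tm_582 {D : ℕ → ℕ → ℝ} (h : Cfg D)
    (hb : ∀ i, 0 < D i (i + 1))
    (l4_2 : LL D 4 6)
    (l5_2 : LL D 5 7)
    (l6_2 : LL D 6 8)
    (l7_2 : LL D 7 9)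
    (l9_2 : LL D 9 11)
    (w4_12 : 0 < D 4 12)
    (w4_9 : 0 < D 4 9) : False := by
  have f1 : lv D 47 < lv D 45 :=
    h.lG 4 2 0 4 5 7 l4_2 (by decide) (h.pos_of w4_9 4 7 0 0 (by decide))
  have f2 : lv D 7 < lv D 79 :=
    h.lG 7 2 0 7 9 10 l7_2 (by decide) (h.pos_of w4_12 7 10 0 0 (by decide))
  have f3 : lv D 59 < lv D 56 :=
    h.lG 5 2 0 5 6 9 l5_2 (by decide) (h.pos_of w4_9 5 9 0 0 (by decide))
  have f4 : lv D 69 < lv D 67 :=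
    h.lG 6 2 0 6 7 9 l6_2 (by decide) (h.pos_of w4_9 6 9 0 0 (by decide))
  have f5 : lv D 67 < lv D 27 + 11317 / 10000 :=
    h.lK 7 2 0 6 7 12 l7_2 (by decide) (h.pos_of w4_12 6 12 0 0 (by decide))
  have f6 : lv D 27 < lv D 7 :=
    h.lG 7 2 0 7 10 12 l7_2 (by decide) (h.pos_of w4_12 7 12 0 0 (by decide))
  have e1 : Real.exp (lv D 25 + lv D 47) = Real.exp (lv D 24 + lv D 57) + Real.exp (lv D 27 + lv D 45) :=
    h.PX 2 4 5 7 (h.sgn w4_12 2 5 0 0 (by decide)) (h.sgp w4_9 4 7 0 0 (by decide)) (h.sgn w4_12 2 4 0 0 (by decide)) (h.sgp w4_9 5 7 0 0 (by decide)) (h.sgn w4_12 2 7 0 0 (by decide)) (h.sgb hb 4) rfl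
  have f7 := eN e1
  have e2 : Real.exp (lv D 27 + lv D 59) = Real.exp (lv D 25 + lv D 79) + Real.exp (lv D 29 + lv D 57) :=
    h.PX 2 5 7 9 (h.sgn w4_12 2 7 0 0 (by decide)) (h.sgp w4_9 5 9 0 0 (by decide)) (h.sgn w4_12 2 5 0 0 (by decide)) (h.sgp w4_9 7 9 0 0 (by decide)) (h.sgn w4_12 2 9 0 0 (by decide)) (h.sgp w4_9 5 7 0 0 (by decide)) rfl
  have f8 := eH e2
  have f9 : lv D 59 < lv D 29 + 11317 / 10000 :=
    h.lK 9 2 0 5 9 12 l9_2 (by decide) (h.pos_of w4_12 5 12 0 0 (by decide))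
  have e3 : Real.exp (lv D 57 + lv D 69) = Real.exp (lv D 56 + lv D 79) + Real.exp (lv D 59 + lv D 67) :=
    h.PX 5 6 7 9 (h.sgp w4_9 5 7 0 0 (by decide)) (h.sgp w4_9 6 9 0 0 (by decide)) (h.sgb hb 5) (h.sgp w4_9 7 9 0 0 (by decide)) (h.sgp w4_9 5 9 0 0 (by decide)) (h.sgb hb 6) rfl
  have f10 := eH e3
  linarith [f1, f2, f3, f4, f5, f6, f7, f8, f9, f10, hl2a, hl2b]

theorem tm_586 {D : ℕ → ℕ → ℝ} (h : Cfg D)
    (hb : ∀ i, 0 < D i (i + 1))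
    (l9_2 : LL D 9 11)
    (r0_2 : RR D 0 2)
    (w8_13 : 0 < D 8 13) : False := by
  have f1 : lv D 3 < lv D 23 :=
    h.lF 0 2 0 0 2 3 r0_2 (by decide) (h.pos_of w8_13 0 3 0 1 (by decide))
  have e1 : Real.exp (lv D 3 + lv D 28) = Real.exp (lv D 2 + lv D 38) + Real.exp (lv D 8 + lv D 23) :=
    h.PX 0 2 3 8 (h.sgp w8_13 0 3 0 1 (by decide)) (h.sgn w8_13 2 8 0 0 (by decide)) (h.sgp w8_13 0 2 0 1 (by decide)) (h.sgn w8_13 3 8 0 0 (by decide)) (h.sgn w8_13 0 8 0 0 (by decide)) (h.sgb hb 2) rfl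
  have f2 := eN e1
  have f3 : lv D 28 < lv D 8 :=
    h.lG 9 2 0 8 10 12 l9_2 (by decide) (h.pos_of w8_13 8 12 0 0 (by decide))
  linarith [f1, f2, f3, hl2a, hl2b]

theorem tm_587 {D : ℕ → ℕ → ℝ} (h : Cfg D)
    (hb : ∀ i, 0 < D i (i + 1))
    (l9_2 : LL D 9 11)
    (r0_2 : RR D 0 2)
    (w9_14 : 0 < D 9 14) : False := by
  have f1 : lv D 3 < lv D 23 :=
    h.lF 0 2 0 0 2 3 r0_2 (by decide) (h.pos_of w9_14 0 3 0 1 (by decide))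
  have f2 : lv D 29 < lv D 9 :=
    h.lG 9 2 0 9 10 12 l9_2 (by decide) (h.pos_of w9_14 9 12 0 0 (by decide))
  have e1 : Real.exp (lv D 3 + lv D 29) = Real.exp (lv D 2 + lv D 39) + Real.exp (lv D 9 + lv D 23) :=
    h.PX 0 2 3 9 (h.sgp w9_14 0 3 0 1 (by decide)) (h.sgn w9_14 2 9 0 0 (by decide)) (h.sgp w9_14 0 2 0 1 (by decide)) (h.sgn w9_14 3 9 0 0 (by decide)) (h.sgbn hb) (h.sgb hb 2) rfl
  have f3 := eN e1
  linarith [f1, f2, f3, hl2a, hl2b]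

theorem tm_588 {D : ℕ → ℕ → ℝ} (h : Cfg D)
    (hb : ∀ i, 0 < D i (i + 1))
    (l9_2 : LL D 9 11)
    (r0_2 : RR D 0 2)
    (w9_17 : 0 < D 9 17) : False := by
  have e1 : Real.exp (lv D 6 + lv D 29) = Real.exp (lv D 2 + lv D 69) + Real.exp (lv D 9 + lv D 26) :=
    h.PX 0 2 6 9 (h.sgp w9_17 0 6 0 1 (by decide)) (h.sgn w9_17 2 9 0 0 (by decide)) (h.sgp w9_17 0 2 0 1 (by decide)) (h.sgn w9_17 6 9 0 0 (by decide)) (h.sgbn hb) (h.sgp w9_17 2 6 0 1 (by decide)) rfl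
  have f1 := eN e1
  have f2 : lv D 29 < lv D 9 :=
    h.lG 9 2 0 9 10 12 l9_2 (by decide) (h.pos_of w9_17 9 12 0 0 (by decide))
  have f3 : lv D 6 < lv D 26 :=
    h.lF 0 2 0 0 2 6 r0_2 (by decide) (h.pos_of w9_17 0 6 0 1 (by decide))
  linarith [f1, f2, f3, hl2a, hl2b]

theorem tm_590 {D : ℕ → ℕ → ℝ} (h : Cfg D)
    (hb : ∀ i, 0 < D i (i + 1))
    (l9_2 : LL D 9 11)
    (r0_2 : RR D 0 2)
    (w5_13 : 0 < D 5 13) : False := by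
  have f1 : lv D 28 < lv D 8 :=
    h.lG 9 2 0 8 10 12 l9_2 (by decide) (h.pos_of w5_13 8 12 0 0 (by decide))
  have e1 : Real.exp (lv D 3 + lv D 28) = Real.exp (lv D 2 + lv D 38) + Real.exp (lv D 8 + lv D 23) :=
    h.PX 0 2 3 8 (h.sgp w5_13 0 3 0 1 (by decide)) (h.sgn w5_13 2 8 0 0 (by decide)) (h.sgp w5_13 0 2 0 1 (by decide)) (h.sgn w5_13 3 8 0 0 (by decide)) (h.sgn w5_13 0 8 0 0 (by decide)) (h.sgb hb 2) rfl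
  have f2 := eN e1
  have f3 : lv D 3 < lv D 23 :=
    h.lF 0 2 0 0 2 3 r0_2 (by decide) (h.pos_of w5_13 0 3 0 1 (by decide))
  linarith [f1, f2, f3, hl2a, hl2b]

theorem tm_591 {D : ℕ → ℕ → ℝ} (h : Cfg D)
    (hb : ∀ i, 0 < D i (i + 1))
    (l9_2 : LL D 9 11)
    (r0_2 : RR D 0 2)
    (w7_15 : 0 < D 7 15) : False := by
  have f1 : lv D 29 < lv D 9 :=
    h.lG 9 2 0 9 10 12 l9_2 (by decide) (h.pos_of w7_15 9 12 0 0 (by decide))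
  have f2 : lv D 5 < lv D 25 :=
    h.lF 0 2 0 0 2 5 r0_2 (by decide) (h.pos_of w7_15 0 5 0 1 (by decide))
  have e1 : Real.exp (lv D 5 + lv D 29) = Real.exp (lv D 2 + lv D 59) + Real.exp (lv D 9 + lv D 25) :=
    h.PX 0 2 5 9 (h.sgp w7_15 0 5 0 1 (by decide)) (h.sgn w7_15 2 9 0 0 (by decide)) (h.sgp w7_15 0 2 0 1 (by decide)) (h.sgn w7_15 5 9 0 0 (by decide)) (h.sgbn hb) (h.sgp w7_15 2 5 0 1 (by decide)) rfl
  have f3 := eN e1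
  linarith [f1, f2, f3, hl2a, hl2b]

end Pool.Agent.H768.PL
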