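import Pool.Agent.H768.PL.TM1
import Pool.Agent.H768.PL.TM2
import Pool.Agent.H768.PL.TM3
import Pool.Agent.H768.PL.TM4
import Pool.Agent.H768.PL.TM5
import Pool.Agent.H768.PL.TM6
import Pool.Agent.H768.PL.TM7
import Pool.Agent.H768.PL.TM8
import Pool.Agent.H768.PL.TM9
import Pool.Agent.H768.PL.TM10
import Pool.Agent.H768.PL.TM11
import Pool.Agent.H768.PL.TM12

set_option autoImplicit false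
set_option linter.all false

namespace Pool.Agent.H768.PL

theorem tm_13 {D : ℕ → ℕ → ℝ} (h : Cfg D)
    (hb : ∀ i, 0 < D i (i + 1))
    (l5_2 : LL D 5 7)
    (l6_2 : LL D 6 8)
    (r0_2 : RR D 0 2)
    (r1_2 : RR D 1 3)
    (r2_2 : RR D 2 4)
    (w0_8 : 0 < D 0 8)
    (w3_8 : 0 < D 3 8)
    (w3_9 : 0 < D 3 9)
    (w4_9 : 0 < D 4 9) : False :=
 (Classical.em (RR D 3 5)).elim (fun r3_2 => (Classical.em (RR D 4 6)).elim (fun r4_2 => tm_6 h hb r0_2 r1_2 r3_2 r4_2 w0_8 w4_9)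
 (fun nr4 => (fun (l4_2 : LL D 4 6) => (h.ch 2 (h.pos_of w0_8 2 5 0 0 (by decide)) (h.pos_of w0_8 4 7 0 0 (by decide))).elim (fun q_ => (fun (l2_2 : LL D 2 4) => tm_7 h hb l2_2 r3_2 w0_8) (fun _ => q_))
 (fun o1 => o1.elim (fun q_ => nr4 (h.rrsh 4 0 (fun _ => q_)))
 (fun o2 => o2.elim (fun h3_2 => tm_8 h h3_2 hb l4_2 l5_2 l6_2 r0_2 r1_2 r2_2 r3_2 w0_8 w4_9)
 (fun h4_2 => tm_9 h h4_2 hb r0_2 r1_2 r2_2 r3_2 w0_8)))) (h.labL 4 nr4)))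
 (fun nr3 => (fun (l3_2 : LL D 3 5) => (h.ch 1 (h.pos_of w0_8 1 4 0 0 (by decide)) (h.pos_of w0_8 3 6 0 0 (by decide))).elim (fun q_ => (fun (l1_2 : LL D 1 3) => tm_10 h hb l1_2 r2_2 w0_8) (fun _ => q_))
 (fun o1 => o1.elim (fun q_ => nr3 (h.rrsh 3 0 (fun _ => q_)))
 (fun o2 => o2.elim (fun h3_1 => tm_11 h h3_1 hb l3_2 l5_2 l6_2 r0_2 r1_2 r2_2 w0_8 w3_9 w4_9)
 (fun h4_1 => tm_12 h h4_1 hb l3_2 l6_2 r0_2 r1_2 r2_2 w0_8 w3_8 w4_9)))) (h.labL 3 nr3))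

theorem tm_17 {D : ℕ → ℕ → ℝ} (h : Cfg D)
    (hb : ∀ i, 0 < D i (i + 1))
    (r0_2 : RR D 0 2)
    (w0_8 : 0 < D 0 8)
    (w3_8 : 0 < D 3 8)
    (w3_9 : 0 < D 3 9)
    (w4_9 : 0 < D 4 9) : False :=
 (Classical.em (RR D 5 7)).elim (fun r5_2 => (Classical.em (RR D 3 5)).elim (fun r3_2 => (Classical.em (RR D 1 3)).elim (fun r1_2 => tm_2 h hb r0_2 r1_2 r3_2 r5_2 w0_8 w3_8)
 (fun nr1 => (fun (l1_2 : LL D 1 3) => tm_3 h hb l1_2 r3_2 w0_8) (h.labL 1 nr1)))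
 (fun nr3 => (fun (l3_2 : LL D 3 5) => tm_4 h hb l3_2 r5_2 w0_8 w4_9) (h.labL 3 nr3)))
 (fun nr5 => (fun (l5_2 : LL D 5 7) => (Classical.em (RR D 6 8)).elim (fun r6_2 => tm_5 h hb l5_2 r6_2 w3_8 w3_9 w4_9)
 (fun nr6 => (fun (l6_2 : LL D 6 8) => (Classical.em (RR D 2 4)).elim (fun r2_2 => (Classical.em (RR D 1 3)).elim (fun r1_2 => tm_13 h hb l5_2 l6_2 r0_2 r1_2 r2_2 w0_8 w3_8 w3_9 w4_9)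
 (fun nr1 => (fun (l1_2 : LL D 1 3) => tm_14 h hb l1_2 r2_2 w0_8) (h.labL 1 nr1)))
 (fun nr2 => (fun (l2_2 : LL D 2 4) => (Classical.em (RR D 3 5)).elim (fun r3_2 => tm_15 h hb l2_2 r3_2 w0_8 w3_8)
 (fun nr3 => (fun (l3_2 : LL D 3 5) => tm_16 h hb l2_2 l3_2 l5_2 l6_2 w0_8 w3_8 w3_9) (h.labL 3 nr3))) (h.labL 2 nr2))) (h.labL 6 nr6))) (h.labL 5 nr5))

theorem tm_31 {D : ℕ → ℕ → ℝ} (h : Cfg D)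
    (hb : ∀ i, 0 < D i (i + 1))
    (l9_2 : LL D 9 11)
    (r3_2 : RR D 3 5)
    (r4_2 : RR D 4 6)
    (r5_2 : RR D 5 7)
    (r6_2 : RR D 6 8)
    (w3_11 : 0 < D 3 11)
    (w3_8 : 0 < D 3 8)
    (w4_9 : 0 < D 4 9)
    (w7_10 : 0 < D 7 10)
    (w8_10 : 0 < D 8 10) : False :=
 (Classical.em (RR D 7 9)).elim (fun r7_2 => tm_25 h hb r3_2 r4_2 r6_2 r7_2 w3_11 w4_9 w7_10)
 (fun nr7 => (fun (l7_2 : LL D 7 9) => (h.ch 5 (h.pos_of w4_9 5 8 0 0 (by decide)) w7_10).elim (fun q_ => (fun (l5_2 : LL D 5 7) => tm_26 h hb l5_2 r6_2 w3_11 w4_9) (fun _ => q_))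
 (fun o1 => o1.elim (fun q_ => nr7 (h.rrsh 7 0 (fun _ => q_)))
 (fun o2 => o2.elim (fun h3_5 => (Classical.em (0 < D 8 12)).elim (fun w8_12 => tm_27 h h3_5 hb l7_2 l9_2 r3_2 r4_2 r5_2 r6_2 w3_11 w4_9 w8_12)
 (fun n_ => (fun (w2_8 : 0 < D 2 8) => (Classical.em (RR D 2 4)).elim (fun r2_2 => tm_28 h hb r2_2 r3_2 r5_2 r6_2 w2_8 w3_11 w3_8)
 (fun nr2 => (fun (l2_2 : LL D 2 4) => tm_29 h hb l2_2 r5_2 w2_8 w3_8) (h.labL 2 nr2))) (h.flip2 n_ 2 (by decide))))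
 (fun h4_5 => tm_30 h h4_5 hb r3_2 r4_2 r5_2 r6_2 w3_11 w4_9 w8_10)))) (h.labL 7 nr7))

theorem tm_43 {D : ℕ → ℕ → ℝ} (h : Cfg D)
    (hb : ∀ i, 0 < D i (i + 1))
    (l9_2 : LL D 9 11)
    (nr9 : ¬ RR D 9 11)
    (r0_2 : RR D 0 2)
    (r3_2 : RR D 3 5)
    (r4_2 : RR D 4 6)
    (r5_2 : RR D 5 7)
    (r6_2 : RR D 6 8)
    (r7_2 : RR D 7 9)
    (r8_2 : RR D 8 10)
    (w0_5 : 0 < D 0 5)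
    (w1_3 : 0 < D 1 3)
    (w3_8 : 0 < D 3 8)
    (w3_9 : 0 < D 3 9)
    (w4_9 : 0 < D 4 9)
    (w5_7 : 0 < D 5 7)
    (w6_10 : 0 < D 6 10)
    (w6_11 : 0 < D 6 11)
    (w7_10 : 0 < D 7 10)
    (w7_11 : 0 < D 7 11)
    (w8_11 : 0 < D 8 11)
    (w9_12 : 0 < D 9 12) : False :=
 (Classical.em (RR D 2 4)).elim (fun r2_2 => tm_37 h hb r0_2 r2_2 r4_2 r5_2 r6_2 r8_2 w0_5 w3_8 w4_9 w6_11 w8_11)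
 (fun nr2 => (fun (l2_2 : LL D 2 4) => (Classical.em (0 < D 6 12)).elim (fun w6_12 => (Classical.em (RR D 1 3)).elim (fun r1_2 => tm_38 h hb r0_2 r1_2 r4_2 r6_2 r8_2 w0_5 w1_3 w3_9 w4_9 w6_11 w7_11)
 (fun nr1 => (fun (l1_2 : LL D 1 3) => (h.ch 7 w7_10 w9_12).elim (fun q_ => (fun (l7_2 : LL D 7 9) => tm_39 h hb l7_2 r8_2 w6_10 w6_11 w8_11) (fun _ => q_))
 (fun o1 => o1.elim (fun q_ => nr9 (h.rrsh 9 0 (fun _ => q_)))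
 (fun o2 => o2.elim (fun h3_7 => tm_40 h h3_7 hb l1_2 l2_2 l9_2 r3_2 r4_2 r5_2 r6_2 r7_2 r8_2 w0_5 w3_8 w3_9 w4_9 w5_7 w6_12 w7_11 w9_12)
 (fun h4_7 => tm_41 h h4_7 hb r3_2 r4_2 r6_2 r8_2 w3_9 w4_9 w6_11 w6_12 w7_11)))) (h.labL 1 nr1)))
 (fun n_ => (fun (w2_6 : 0 < D 2 6) => tm_42 h hb l2_2 r3_2 w0_5 w2_6 w3_8) (h.flip2 n_ 2 (by decide)))) (h.labL 2 nr2))

theorem tm_60 {D : ℕ → ℕ → ℝ} (h : Cfg D)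
    (h3_6 : D 6 9 + D 8 11 < 101 / 100 * D 8 9 + D 6 11)
    (hb : ∀ i, 0 < D i (i + 1))
    (iPZ0_5_6_9lp0 : lv D 6 + lv D 59 ≤ (lv D 5 + lv D 69) + (0) * Real.log 2)
    (l8_2 : LL D 8 10)
    (l9_2 : LL D 9 11)
    (r3_2 : RR D 3 5)
    (r4_2 : RR D 4 6)
    (r5_2 : RR D 5 7)
    (r6_2 : RR D 6 8)
    (r7_2 : RR D 7 9)
    (w0_4 : 0 < D 0 4)
    (w0_5 : 0 < D 0 5)
    (w1_3 : 0 < D 1 3)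
    (w1_5 : 0 < D 1 5)
    (w2_5 : 0 < D 2 5)
    (w3_8 : 0 < D 3 8)
    (w3_9 : 0 < D 3 9)
    (w4_9 : 0 < D 4 9)
    (w6_10 : 0 < D 6 10)
    (w6_11 : 0 < D 6 11)
    (w6_12 : 0 < D 6 12)
    (w7_10 : 0 < D 7 10)
    (w7_11 : 0 < D 7 11)
    (w8_11 : 0 < D 8 11)
    (w9_11 : 0 < D 9 11)
    (w9_12 : 0 < D 9 12) : False :=
 (Classical.em (RR D 1 3)).elim (fun r1_2 => (le_total ((lv D 16 + lv D 34) + (3) * Real.log 2) (lv D 14 + lv D 36)).elim (fun iPY1_3_4_6gp3 => tm_53 h h3_6 hb iPY1_3_4_6gp3 l8_2 l9_2 r1_2 r3_2 r4_2 r5_2 r6_2 w0_4 w3_9 w6_12)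
 (fun iPY1_3_4_6lp3 => (Classical.em (RR D 2 4)).elim (fun r2_2 => tm_54 h h3_6 hb iPY1_3_4_6lp3 iPZ0_5_6_9lp0 l8_2 l9_2 r1_2 r2_2 r3_2 r4_2 r5_2 r6_2 w0_4 w0_5 w1_5 w3_9 w4_9 w6_12)
 (fun nr2 => (fun (l2_2 : LL D 2 4) => (h.lab 0 4 (by decide) (by decide)).elim (fun r0_4 => tm_55 h h3_6 hb iPZ0_5_6_9lp0 l8_2 l9_2 r0_4 r1_2 r3_2 r4_2 r5_2 r6_2 w0_5 w3_8 w3_9 w6_12 w7_10 w7_11 w9_11)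
 (fun l0_4 => tm_56 h hb iPZ0_5_6_9lp0 l0_4 r1_2 r3_2 w0_5 w3_8 w3_9 w4_9 w6_10 w6_11)) (h.labL 2 nr2))))
 (fun nr1 => (fun (l1_2 : LL D 1 3) => (Classical.em (RR D 2 4)).elim (fun r2_2 => tm_57 h hb l1_2 r2_2 w0_4 w0_5 w2_5)
 (fun nr2 => (fun (l2_2 : LL D 2 4) => (h.lab 0 3 (by decide) (by decide)).elim (fun r0_3 => tm_58 h h3_6 hb iPZ0_5_6_9lp0 l1_2 l8_2 l9_2 r0_3 r3_2 r4_2 r5_2 r6_2 r7_2 w0_5 w1_3 w3_8 w3_9 w4_9 w6_12 w8_11 w9_12)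
 (fun l0_3 => tm_59 h h3_6 hb iPZ0_5_6_9lp0 l0_3 l1_2 l8_2 l9_2 r3_2 r4_2 r5_2 r6_2 r7_2 w0_5 w3_8 w3_9 w4_9 w6_10 w6_12 w8_11 w9_12)) (h.labL 2 nr2))) (h.labL 1 nr1))

theorem tm_61 {D : ℕ → ℕ → ℝ} (h : Cfg D)
    (h3_6 : D 6 9 + D 8 11 < 101 / 100 * D 8 9 + D 6 11)
    (hb : ∀ i, 0 < D i (i + 1))
    (l8_2 : LL D 8 10)
    (l9_2 : LL D 9 11)
    (r3_2 : RR D 3 5)
    (r4_2 : RR D 4 6)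
    (r5_2 : RR D 5 7)
    (r6_2 : RR D 6 8)
    (r7_2 : RR D 7 9)
    (w0_4 : 0 < D 0 4)
    (w0_5 : 0 < D 0 5)
    (w1_3 : 0 < D 1 3)
    (w1_5 : 0 < D 1 5)
    (w2_4 : 0 < D 2 4)
    (w2_5 : 0 < D 2 5)
    (w3_5 : 0 < D 3 5)
    (w3_8 : 0 < D 3 8)
    (w3_9 : 0 < D 3 9)
    (w4_9 : 0 < D 4 9)
    (w6_10 : 0 < D 6 10)
    (w6_11 : 0 < D 6 11)
    (w7_10 : 0 < D 7 10)
    (w7_11 : 0 < D 7 11)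
    (w7_9 : 0 < D 7 9)
    (w8_11 : 0 < D 8 11)
    (w9_11 : 0 < D 9 11)
    (w9_12 : 0 < D 9 12) : False :=
 (Classical.em (0 < D 2 6)).elim (fun w2_6 => (Classical.em (RR D 2 4)).elim (fun r2_2 => (Classical.em (0 < D 2 7)).elim (fun w2_7 => tm_46 h hb r2_2 r3_2 r4_2 r5_2 r6_2 w2_6 w2_7 w3_8 w3_9 w4_9)
 (fun n_ => (fun (w7_12 : 0 < D 7 12) => tm_47 h h3_6 hb l8_2 l9_2 r2_2 r3_2 r4_2 r5_2 r6_2 w2_4 w2_5 w2_6 w3_8 w3_9 w4_9 w6_11 w7_12 w7_9 w8_11 w9_12) (h.flip n_ (by decide))))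
 (fun nr2 => (fun (l2_2 : LL D 2 4) => tm_48 h hb l2_2 r3_2 w2_5 w2_6 w3_8) (h.labL 2 nr2)))
 (fun n_ => (fun (w6_12 : 0 < D 6 12) => (le_total ((lv D 5 + lv D 69) + (0) * Real.log 2) (lv D 6 + lv D 59)).elim (fun iPZ0_5_6_9gp0 => (le_total ((lv D 17 + lv D 34) + (2) * Real.log 2) (lv D 14 + lv D 37)).elim (fun iPY1_3_4_7gp2 => (Classical.em (RR D 1 3)).elim (fun r1_2 => tm_49 h hb iPY1_3_4_7gp2 l8_2 r1_2 r3_2 r4_2 w1_5 w3_8 w6_11 w7_11)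
 (fun nr1 => (fun (l1_2 : LL D 1 3) => (le_total ((lv D 14 + lv D 69) + (-2) * Real.log 2) (lv D 16 + lv D 49)).elim (fun iPZ1_4_6_9gm2 => tm_50 h h3_6 hb iPZ0_5_6_9gp0 iPZ1_4_6_9gm2 l8_2 l9_2 r3_2 r4_2 r5_2 r6_2 r7_2 w0_5 w1_5 w3_8 w3_9 w4_9 w6_11 w6_12 w8_11)
 (fun iPZ1_4_6_9lm2 => tm_51 h h3_6 hb iPZ0_5_6_9gp0 iPZ1_4_6_9lm2 l1_2 l8_2 l9_2 r3_2 r4_2 r5_2 r6_2 r7_2 w0_5 w3_8 w3_9 w4_9 w6_10 w6_12)) (h.labL 1 nr1)))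
 (fun iPY1_3_4_7lp2 => tm_52 h h3_6 hb iPY1_3_4_7lp2 iPZ0_5_6_9gp0 l8_2 l9_2 r3_2 r4_2 r5_2 r6_2 r7_2 w0_5 w3_5 w3_9 w4_9 w6_10 w6_12 w7_11 w8_11))
 (fun iPZ0_5_6_9lp0 => tm_60 h h3_6 hb iPZ0_5_6_9lp0 l8_2 l9_2 r3_2 r4_2 r5_2 r6_2 r7_2 w0_4 w0_5 w1_3 w1_5 w2_5 w3_8 w3_9 w4_9 w6_10 w6_11 w6_12 w7_10 w7_11 w8_11 w9_11 w9_12)) (h.flip n_ (by decide)))

theorem tm_66 {D : ℕ → ℕ → ℝ} (h : Cfg D)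
    (hb : ∀ i, 0 < D i (i + 1))
    (l8_2 : LL D 8 10)
    (l9_2 : LL D 9 11)
    (nr8 : ¬ RR D 8 10)
    (r3_2 : RR D 3 5)
    (r4_2 : RR D 4 6)
    (r5_2 : RR D 5 7)
    (r6_2 : RR D 6 8)
    (r7_2 : RR D 7 9)
    (w0_2 : 0 < D 0 2)
    (w0_4 : 0 < D 0 4)
    (w0_5 : 0 < D 0 5)
    (w1_3 : 0 < D 1 3)
    (w1_5 : 0 < D 1 5)
    (w2_4 : 0 < D 2 4)
    (w2_5 : 0 < D 2 5)
    (w3_5 : 0 < D 3 5)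
    (w3_8 : 0 < D 3 8)
    (w3_9 : 0 < D 3 9)
    (w4_9 : 0 < D 4 9)
    (w5_7 : 0 < D 5 7)
    (w6_10 : 0 < D 6 10)
    (w6_11 : 0 < D 6 11)
    (w7_10 : 0 < D 7 10)
    (w7_11 : 0 < D 7 11)
    (w7_9 : 0 < D 7 9)
    (w8_10 : 0 < D 8 10)
    (w8_11 : 0 < D 8 11)
    (w9_11 : 0 < D 9 11)
    (w9_12 : 0 < D 9 12) : False :=
 (h.ch 6 (h.pos_of w4_9 6 9 0 0 (by decide)) w8_11).elim (fun q_ => (fun (l6_2 : LL D 6 8) => tm_45 h hb l6_2 r7_2 w4_9 w6_10 w7_10) (fun _ => q_))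
 (fun o1 => o1.elim (fun q_ => nr8 (h.rrsh 8 0 (fun _ => q_)))
 (fun o2 => o2.elim (fun h3_6 => tm_61 h h3_6 hb l8_2 l9_2 r3_2 r4_2 r5_2 r6_2 r7_2 w0_4 w0_5 w1_3 w1_5 w2_4 w2_5 w3_5 w3_8 w3_9 w4_9 w6_10 w6_11 w7_10 w7_11 w7_9 w8_11 w9_11 w9_12)
 (fun h4_6 => (Classical.em (RR D 2 4)).elim (fun r2_2 => tm_62 h h4_6 hb l8_2 r2_2 r3_2 r5_2 r6_2 r7_2 w0_5 w3_8 w3_9 w5_7 w6_10 w6_11 w7_11)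
 (fun nr2 => (fun (l2_2 : LL D 2 4) => (Classical.em (0 < D 2 6)).elim (fun w2_6 => tm_63 h hb l2_2 r3_2 w2_5 w2_6 w3_8)
 (fun n_ => (fun (w6_12 : 0 < D 6 12) => (Classical.em (RR D 1 3)).elim (fun r1_2 => tm_64 h h4_6 hb l8_2 r1_2 r3_2 r5_2 r6_2 r7_2 w0_5 w1_5 w3_8 w3_9 w6_11)
 (fun nr1 => (fun (l1_2 : LL D 1 3) => tm_65 h h4_6 hb l1_2 l8_2 l9_2 r4_2 r5_2 r6_2 r7_2 w0_2 w0_4 w1_5 w3_9 w6_12 w8_10 w8_11 w9_11) (h.labL 1 nr1))) (h.flip n_ (by decide)))) (h.labL 2 nr2)))))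

theorem tm_77 {D : ℕ → ℕ → ℝ} (h : Cfg D)
    (h3_5 : D 5 8 + D 7 10 < 101 / 100 * D 7 8 + D 5 10)
    (hb : ∀ i, 0 < D i (i + 1))
    (l7_2 : LL D 7 9)
    (l8_2 : LL D 8 10)
    (l9_2 : LL D 9 11)
    (nr8 : ¬ RR D 8 10)
    (r0_2 : RR D 0 2)
    (r3_2 : RR D 3 5)
    (r4_2 : RR D 4 6)
    (r5_2 : RR D 5 7)
    (r6_2 : RR D 6 8)
    (w3_8 : 0 < D 3 8)
    (w3_9 : 0 < D 3 9)
    (w4_9 : 0 < D 4 9)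
    (w6_10 : 0 < D 6 10)
    (w6_11 : 0 < D 6 11)
    (w6_12 : 0 < D 6 12)
    (w7_10 : 0 < D 7 10)
    (w7_11 : 0 < D 7 11)
    (w8_11 : 0 < D 8 11)
    (w9_11 : 0 < D 9 11)
    (w9_12 : 0 < D 9 12) : False :=
 (Classical.em (0 < D 5 10)).elim (fun w5_10 => tm_71 h h3_5 hb l7_2 l9_2 r3_2 r4_2 r5_2 r6_2 w3_8 w3_9 w4_9 w5_10 w6_12 w9_12)
 (fun n_ => (fun (w0_5 : 0 < D 0 5) => (le_total ((lv D 5 + lv D 69) + (-1) * Real.log 2) (lv D 6 + lv D 59)).elim (fun iPZ0_5_6_9gm1 => tm_72 h h3_5 hb iPZ0_5_6_9gm1 l7_2 l9_2 r3_2 r4_2 r5_2 r6_2 w0_5 w3_8 w3_9 w4_9 w6_12)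
 (fun iPZ0_5_6_9lm1 => (Classical.em (RR D 1 3)).elim (fun r1_2 => tm_73 h h3_5 hb iPZ0_5_6_9lm1 l7_2 l9_2 r1_2 r3_2 r4_2 r5_2 r6_2 w0_5 w3_9 w4_9 w6_10 w6_12 w7_10 w9_11 w9_12)
 (fun nr1 => (fun (l1_2 : LL D 1 3) => (h.ch 6 (h.pos_of w4_9 6 9 0 0 (by decide)) w8_11).elim (fun q_ => (fun (l6_2 : LL D 6 8) => tm_74 h h3_5 hb iPZ0_5_6_9lm1 l1_2 l6_2 l7_2 l8_2 l9_2 r3_2 r5_2 w0_5 w3_8 w3_9 w4_9 w6_10 w6_11 w6_12 w7_11 w9_12) (fun _ => q_))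
 (fun o1 => o1.elim (fun q_ => nr8 (h.rrsh 8 0 (fun _ => q_)))
 (fun o2 => o2.elim (fun h3_6 => tm_75 h h3_5 h3_6 hb iPZ0_5_6_9lm1 l1_2 l7_2 l8_2 l9_2 r0_2 r3_2 r4_2 r5_2 r6_2 w0_5 w3_8 w4_9 w6_11 w6_12 w9_12)
 (fun h4_6 => tm_76 h h3_5 h4_6 hb iPZ0_5_6_9lm1 l1_2 l8_2 l9_2 r4_2 r5_2 r6_2 w0_5 w3_8 w3_9 w6_10 w6_11 w6_12 w7_11)))) (h.labL 1 nr1)))) (h.flip2 n_ 0 (by decide)))

theorem tm_84 {D : ℕ → ℕ → ℝ} (h : Cfg D)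
    (h3_5 : D 5 8 + D 7 10 < 101 / 100 * D 7 8 + D 5 10)
    (hb : ∀ i, 0 < D i (i + 1))
    (l7_2 : LL D 7 9)
    (l8_2 : LL D 8 10)
    (l9_2 : LL D 9 11)
    (nr8 : ¬ RR D 8 10)
    (r0_2 : RR D 0 2)
    (r3_2 : RR D 3 5)
    (r4_2 : RR D 4 6)
    (r5_2 : RR D 5 7)
    (r6_2 : RR D 6 8)
    (w2_5 : 0 < D 2 5)
    (w3_8 : 0 < D 3 8)
    (w3_9 : 0 < D 3 9)
    (w4_9 : 0 < D 4 9)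
    (w6_10 : 0 < D 6 10)
    (w6_11 : 0 < D 6 11)
    (w7_10 : 0 < D 7 10)
    (w7_11 : 0 < D 7 11)
    (w8_10 : 0 < D 8 10)
    (w8_11 : 0 < D 8 11)
    (w9_11 : 0 < D 9 11)
    (w9_12 : 0 < D 9 12) : False :=
 (Classical.em (0 < D 6 12)).elim (fun w6_12 => (Classical.em (0 < D 0 3)).elim (fun w0_3 => tm_77 h h3_5 hb l7_2 l8_2 l9_2 nr8 r0_2 r3_2 r4_2 r5_2 r6_2 w3_8 w3_9 w4_9 w6_10 w6_11 w6_12 w7_10 w7_11 w8_11 w9_11 w9_12)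
 (fun n_ => (fun (w3_10 : 0 < D 3 10) => tm_78 h h3_5 hb l7_2 l9_2 r3_2 r4_2 r5_2 r6_2 w3_10 w3_8 w6_12 w9_12) (h.flip n_ (by decide))))
 (fun n_ => (fun (w2_6 : 0 < D 2 6) => (Classical.em (RR D 2 4)).elim (fun r2_2 => (Classical.em (0 < D 7 12)).elim (fun w7_12 => (Classical.em (0 < D 0 5)).elim (fun w0_5 => (Classical.em (RR D 1 3)).elim (fun r1_2 => tm_79 h h3_5 hb l7_2 l9_2 r1_2 r2_2 r3_2 r4_2 r5_2 r6_2 w0_5 w2_5 w2_6 w3_8 w3_9 w4_9 w6_11 w7_11 w7_12 w8_11)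
 (fun nr1 => (fun (l1_2 : LL D 1 3) => tm_80 h hb l1_2 r2_2 w0_5) (h.labL 1 nr1)))
 (fun n_ => (fun (w5_10 : 0 < D 5 10) => tm_81 h h3_5 hb l7_2 l9_2 r3_2 r4_2 r5_2 r6_2 w2_6 w3_9 w4_9 w5_10 w7_12 w8_10 w9_12) (h.flip n_ (by decide))))
 (fun n_ => (fun (w2_7 : 0 < D 2 7) => tm_82 h h3_5 hb l7_2 l8_2 r2_2 r3_2 r4_2 r5_2 r6_2 w2_7 w3_8 w4_9 w7_10 w7_11 w8_11) (h.flip2 n_ 2 (by decide))))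
 (fun nr2 => (fun (l2_2 : LL D 2 4) => tm_83 h hb l2_2 r3_2 w2_5 w2_6 w3_8) (h.labL 2 nr2))) (h.flip2 n_ 2 (by decide)))

theorem tm_94 {D : ℕ → ℕ → ℝ} (h : Cfg D)
    (h4_5 : D 6 7 * D 8 9 < 101 / 100 * (D 5 6 * D 9 10))
    (hb : ∀ i, 0 < D i (i + 1))
    (l6_2 : LL D 6 8)
    (l7_2 : LL D 7 9)
    (l8_2 : LL D 8 10)
    (l9_2 : LL D 9 11)
    (r0_2 : RR D 0 2)
    (r3_2 : RR D 3 5)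
    (r4_2 : RR D 4 6)
    (r5_2 : RR D 5 7)
    (r6_2 : RR D 6 8)
    (w0_2 : 0 < D 0 2)
    (w0_4 : 0 < D 0 4)
    (w0_5 : 0 < D 0 5)
    (w1_3 : 0 < D 1 3)
    (w2_5 : 0 < D 2 5)
    (w3_8 : 0 < D 3 8)
    (w3_9 : 0 < D 3 9)
    (w4_9 : 0 < D 4 9)
    (w6_10 : 0 < D 6 10)
    (w7_10 : 0 < D 7 10)
    (w7_12 : 0 < D 7 12)
    (w8_10 : 0 < D 8 10)
    (w8_11 : 0 < D 8 11)
    (w8_12 : 0 < D 8 12) : False :=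
 (Classical.em (0 < D 2 6)).elim (fun w2_6 => (Classical.em (RR D 2 4)).elim (fun r2_2 => tm_88 h h4_5 hb r0_2 r2_2 r3_2 r4_2 r5_2 r6_2 w0_5 w2_6 w3_9 w6_10 w8_10)
 (fun nr2 => (fun (l2_2 : LL D 2 4) => tm_89 h hb l2_2 r3_2 w2_5 w2_6 w3_8) (h.labL 2 nr2)))
 (fun n_ => (fun (w6_12 : 0 < D 6 12) => (le_total ((lv D 2 + lv D 59) + (-1) * Real.log 2) (lv D 5 + lv D 29)).elim (fun iPZ0_2_5_9gm1 => (le_total ((lv D 5 + lv D 69) + (-2) * Real.log 2) (lv D 6 + lv D 59)).elim (fun iPZ0_5_6_9gm2 => tm_90 h h4_5 hb iPZ0_5_6_9gm2 l6_2 l7_2 r3_2 r4_2 r5_2 r6_2 w0_5 w3_8 w3_9 w4_9 w6_10 w7_10)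
 (fun iPZ0_5_6_9lm2 => (Classical.em (RR D 1 3)).elim (fun r1_2 => tm_91 h h4_5 hb iPZ0_5_6_9lm2 l6_2 l8_2 l9_2 r1_2 r4_2 r5_2 r6_2 w0_4 w0_5 w1_3 w3_9 w4_9 w6_10 w6_12 w7_12 w8_11 w8_12)
 (fun nr1 => (fun (l1_2 : LL D 1 3) => tm_92 h h4_5 hb iPZ0_5_6_9lm2 l1_2 l6_2 l7_2 l8_2 l9_2 w0_2 w0_4 w0_5 w4_9 w6_12 w7_10 w7_12 w8_12) (h.labL 1 nr1))))
 (fun iPZ0_2_5_9lm1 => tm_93 h h4_5 hb iPZ0_2_5_9lm1 l6_2 l7_2 l8_2 l9_2 r5_2 w0_5 w4_9 w6_12 w8_10)) (h.flip n_ (by decide)))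

theorem tm_101 {D : ℕ → ℕ → ℝ} (h : Cfg D)
    (h4_5 : D 6 7 * D 8 9 < 101 / 100 * (D 5 6 * D 9 10))
    (hb : ∀ i, 0 < D i (i + 1))
    (l7_2 : LL D 7 9)
    (l8_2 : LL D 8 10)
    (l9_2 : LL D 9 11)
    (nr7 : ¬ RR D 7 9)
    (nr8 : ¬ RR D 8 10)
    (r0_2 : RR D 0 2)
    (r3_2 : RR D 3 5)
    (r4_2 : RR D 4 6)
    (r5_2 : RR D 5 7)
    (r6_2 : RR D 6 8)
    (w0_2 : 0 < D 0 2)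
    (w0_4 : 0 < D 0 4)
    (w0_5 : 0 < D 0 5)
    (w1_3 : 0 < D 1 3)
    (w2_5 : 0 < D 2 5)
    (w3_5 : 0 < D 3 5)
    (w3_8 : 0 < D 3 8)
    (w3_9 : 0 < D 3 9)
    (w4_9 : 0 < D 4 9)
    (w6_10 : 0 < D 6 10)
    (w6_11 : 0 < D 6 11)
    (w7_10 : 0 < D 7 10)
    (w8_10 : 0 < D 8 10)
    (w8_11 : 0 < D 8 11)
    (w9_12 : 0 < D 9 12) : False :=
 (h.ch 6 (h.pos_of w4_9 6 9 0 0 (by decide)) w8_11).elim (fun q_ => (fun (l6_2 : LL D 6 8) => (Classical.em (0 < D 2 8)).elim (fun w2_8 => (Classical.em (RR D 2 4)).elim (fun r2_2 => tm_86 h h4_5 hb r0_2 r2_2 r4_2 r5_2 r6_2 w0_5 w2_5 w2_8 w4_9 w9_12)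
 (fun nr2 => (fun (l2_2 : LL D 2 4) => tm_87 h hb l2_2 r4_2 w2_5 w2_8 w3_8) (h.labL 2 nr2)))
 (fun n_ => (fun (w8_12 : 0 < D 8 12) => (Classical.em (0 < D 7 12)).elim (fun w7_12 => tm_94 h h4_5 hb l6_2 l7_2 l8_2 l9_2 r0_2 r3_2 r4_2 r5_2 r6_2 w0_2 w0_4 w0_5 w1_3 w2_5 w3_8 w3_9 w4_9 w6_10 w7_10 w7_12 w8_10 w8_11 w8_12)
 (fun n_ => (fun (w2_7 : 0 < D 2 7) => (Classical.em (RR D 2 4)).elim (fun r2_2 => tm_95 h h4_5 hb r0_2 r2_2 r4_2 r6_2 w0_5 w2_5 w2_7 w3_8 w3_9 w4_9)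
 (fun nr2 => (fun (l2_2 : LL D 2 4) => tm_96 h hb l2_2 r4_2 w2_7) (h.labL 2 nr2))) (h.flip2 n_ 2 (by decide)))) (h.flip n_ (by decide)))) (fun _ => q_))
 (fun o1 => o1.elim (fun q_ => nr8 (h.rrsh 8 0 (fun _ => q_)))
 (fun o2 => o2.elim (fun h3_6 => (Classical.em (0 < D 6 12)).elim (fun w6_12 => tm_97 h h3_6 h4_5 hb l7_2 l8_2 l9_2 nr7 r3_2 r4_2 r5_2 r6_2 w3_9 w6_12)
 (fun n_ => (fun (w2_6 : 0 < D 2 6) => (Classical.em (RR D 2 4)).elim (fun r2_2 => tm_98 h h4_5 hb r0_2 r2_2 r3_2 r4_2 r5_2 r6_2 w0_5 w2_6 w3_5 w3_8 w3_9 w4_9)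
 (fun nr2 => (fun (l2_2 : LL D 2 4) => tm_99 h hb l2_2 r3_2 w2_5 w2_6 w3_8) (h.labL 2 nr2))) (h.flip2 n_ 2 (by decide))))
 (fun h4_6 => tm_100 h h4_5 h4_6 hb l7_2 l8_2 r4_2 r5_2 r6_2 w0_5 w1_3 w3_8 w4_9 w6_11)))

theorem tm_103 {D : ℕ → ℕ → ℝ} (h : Cfg D)
    (hb : ∀ i, 0 < D i (i + 1))
    (l8_2 : LL D 8 10)
    (l9_2 : LL D 9 11)
    (nr8 : ¬ RR D 8 10)
    (r0_2 : RR D 0 2)
    (r3_2 : RR D 3 5)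
    (r4_2 : RR D 4 6)
    (r5_2 : RR D 5 7)
    (r6_2 : RR D 6 8)
    (w0_2 : 0 < D 0 2)
    (w1_3 : 0 < D 1 3)
    (w2_4 : 0 < D 2 4)
    (w2_5 : 0 < D 2 5)
    (w3_5 : 0 < D 3 5)
    (w3_8 : 0 < D 3 8)
    (w3_9 : 0 < D 3 9)
    (w4_9 : 0 < D 4 9)
    (w5_7 : 0 < D 5 7)
    (w6_10 : 0 < D 6 10)
    (w6_11 : 0 < D 6 11)
    (w7_10 : 0 < D 7 10)
    (w7_11 : 0 < D 7 11)
    (w7_9 : 0 < D 7 9)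
    (w8_10 : 0 < D 8 10)
    (w8_11 : 0 < D 8 11)
    (w9_11 : 0 < D 9 11)
    (w9_12 : 0 < D 9 12) : False :=
 (Classical.em (RR D 7 9)).elim (fun r7_2 => (Classical.em (0 < D 1 5)).elim (fun w1_5 => (Classical.em (0 < D 0 4)).elim (fun w0_4 => (Classical.em (0 < D 0 5)).elim (fun w0_5 => tm_66 h hb l8_2 l9_2 nr8 r3_2 r4_2 r5_2 r6_2 r7_2 w0_2 w0_4 w0_5 w1_3 w1_5 w2_4 w2_5 w3_5 w3_8 w3_9 w4_9 w5_7 w6_10 w6_11 w7_10 w7_11 w7_9 w8_10 w8_11 w9_11 w9_12)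
 (fun n_ => (fun (w5_10 : 0 < D 5 10) => tm_67 h hb r3_2 r4_2 r5_2 r6_2 r7_2 w3_8 w3_9 w4_9 w5_10 w6_10) (h.flip n_ (by decide))))
 (fun n_ => (fun (w4_10 : 0 < D 4 10) => tm_68 h hb r3_2 r4_2 r5_2 r6_2 r7_2 w3_8 w3_9 w4_10 w4_9 w6_10 w7_10) (h.flip n_ (by decide))))
 (fun n_ => (fun (w5_11 : 0 < D 5 11) => tm_69 h hb r3_2 r4_2 r5_2 r6_2 r7_2 w3_8 w3_9 w4_9 w5_11 w6_11 w7_11) (h.flip n_ (by decide))))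
 (fun nr7 => (fun (l7_2 : LL D 7 9) => (h.ch 5 (h.pos_of w4_9 5 8 0 0 (by decide)) w7_10).elim (fun q_ => (fun (l5_2 : LL D 5 7) => tm_70 h hb l5_2 r6_2 w4_9) (fun _ => q_))
 (fun o1 => o1.elim (fun q_ => nr7 (h.rrsh 7 0 (fun _ => q_)))
 (fun o2 => o2.elim (fun h3_5 => tm_84 h h3_5 hb l7_2 l8_2 l9_2 nr8 r0_2 r3_2 r4_2 r5_2 r6_2 w2_5 w3_8 w3_9 w4_9 w6_10 w6_11 w7_10 w7_11 w8_10 w8_11 w9_11 w9_12)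
 (fun h4_5 => (Classical.em (0 < D 4 10)).elim (fun w4_10 => tm_85 h h4_5 hb l7_2 r3_2 r4_2 r5_2 r6_2 w3_8 w4_10 w4_9 w6_10)
 (fun n_ => (fun (w0_4 : 0 < D 0 4) => (Classical.em (0 < D 0 5)).elim (fun w0_5 => tm_101 h h4_5 hb l7_2 l8_2 l9_2 nr7 nr8 r0_2 r3_2 r4_2 r5_2 r6_2 w0_2 w0_4 w0_5 w1_3 w2_5 w3_5 w3_8 w3_9 w4_9 w6_10 w6_11 w7_10 w8_10 w8_11 w9_12)
 (fun n_ => (fun (w5_10 : 0 < D 5 10) => tm_102 h h4_5 hb l7_2 r3_2 r4_2 r5_2 r6_2 w3_8 w3_9 w4_9 w5_10 w5_7 w7_10 w8_10) (h.flip n_ (by decide)))) (h.flip2 n_ 0 (by decide))))))) (h.labL 7 nr7))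

theorem tm_108 {D : ℕ → ℕ → ℝ} (h : Cfg D)
    (hb : ∀ i, 0 < D i (i + 1))
    (l9_2 : LL D 9 11)
    (nr9 : ¬ RR D 9 11)
    (r0_2 : RR D 0 2)
    (r3_2 : RR D 3 5)
    (r4_2 : RR D 4 6)
    (r5_2 : RR D 5 7)
    (r6_2 : RR D 6 8)
    (w0_2 : 0 < D 0 2)
    (w1_3 : 0 < D 1 3)
    (w2_4 : 0 < D 2 4)
    (w3_5 : 0 < D 3 5)
    (w3_8 : 0 < D 3 8)
    (w3_9 : 0 < D 3 9)
    (w4_9 : 0 < D 4 9)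
    (w5_7 : 0 < D 5 7)
    (w6_10 : 0 < D 6 10)
    (w6_11 : 0 < D 6 11)
    (w7_10 : 0 < D 7 10)
    (w7_11 : 0 < D 7 11)
    (w7_9 : 0 < D 7 9)
    (w8_10 : 0 < D 8 10)
    (w8_11 : 0 < D 8 11)
    (w9_11 : 0 < D 9 11)
    (w9_12 : 0 < D 9 12) : False :=
 (Classical.em (RR D 8 10)).elim (fun r8_2 => (Classical.em (RR D 7 9)).elim (fun r7_2 => (Classical.em (0 < D 5 10)).elim (fun w5_10 => tm_36 h hb r3_2 r4_2 r5_2 r6_2 r7_2 w3_8 w3_9 w4_9 w5_10 w6_10)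
 (fun n_ => (fun (w0_5 : 0 < D 0 5) => tm_43 h hb l9_2 nr9 r0_2 r3_2 r4_2 r5_2 r6_2 r7_2 r8_2 w0_5 w1_3 w3_8 w3_9 w4_9 w5_7 w6_10 w6_11 w7_10 w7_11 w8_11 w9_12) (h.flip2 n_ 0 (by decide))))
 (fun nr7 => (fun (l7_2 : LL D 7 9) => tm_44 h hb l7_2 r8_2 w6_10 w6_11 w8_11) (h.labL 7 nr7)))
 (fun nr8 => (fun (l8_2 : LL D 8 10) => (Classical.em (0 < D 2 5)).elim (fun w2_5 => tm_103 h hb l8_2 l9_2 nr8 r0_2 r3_2 r4_2 r5_2 r6_2 w0_2 w1_3 w2_4 w2_5 w3_5 w3_8 w3_9 w4_9 w5_7 w6_10 w6_11 w7_10 w7_11 w7_9 w8_10 w8_11 w9_11 w9_12)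
 (fun n_ => (fun (w5_12 : 0 < D 5 12) => (Classical.em (RR D 7 9)).elim (fun r7_2 => tm_104 h hb r3_2 r4_2 r5_2 r6_2 r7_2 w3_8 w3_9 w5_12 w6_10)
 (fun nr7 => (fun (l7_2 : LL D 7 9) => (h.ch 5 (h.pos_of w4_9 5 8 0 0 (by decide)) w7_10).elim (fun q_ => (fun (l5_2 : LL D 5 7) => tm_105 h hb l5_2 r6_2 w4_9 w5_12 w6_10 w6_11 w8_11) (fun _ => q_))
 (fun o1 => o1.elim (fun q_ => nr7 (h.rrsh 7 0 (fun _ => q_)))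
 (fun o2 => o2.elim (fun h3_5 => tm_106 h h3_5 hb l7_2 l9_2 r3_2 r4_2 r5_2 r6_2 w3_8 w3_9 w5_12)
 (fun h4_5 => tm_107 h h4_5 hb l7_2 r3_2 r4_2 r5_2 r6_2 w3_8 w3_9 w5_12)))) (h.labL 7 nr7))) (h.flip n_ (by decide)))) (h.labL 8 nr8))

theorem tm_111 {D : ℕ → ℕ → ℝ} (h : Cfg D)
    (hb : ∀ i, 0 < D i (i + 1))
    (l9_2 : LL D 9 11)
    (nr9 : ¬ RR D 9 11)
    (r0_2 : RR D 0 2)
    (r3_2 : RR D 3 5)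
    (r4_2 : RR D 4 6)
    (r5_2 : RR D 5 7)
    (r6_2 : RR D 6 8)
    (w0_2 : 0 < D 0 2)
    (w1_3 : 0 < D 1 3)
    (w2_4 : 0 < D 2 4)
    (w3_5 : 0 < D 3 5)
    (w3_8 : 0 < D 3 8)
    (w3_9 : 0 < D 3 9)
    (w4_9 : 0 < D 4 9)
    (w5_7 : 0 < D 5 7)
    (w6_10 : 0 < D 6 10)
    (w7_10 : 0 < D 7 10)
    (w7_9 : 0 < D 7 9)
    (w8_10 : 0 < D 8 10)
    (w8_11 : 0 < D 8 11)
    (w9_11 : 0 < D 9 11)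
    (w9_12 : 0 < D 9 12) : False :=
 (Classical.em (0 < D 7 11)).elim (fun w7_11 => (Classical.em (0 < D 1 6)).elim (fun w1_6 => (Classical.em (RR D 1 3)).elim (fun r1_2 => (Classical.em (RR D 2 4)).elim (fun r2_2 => (Classical.em (0 < D 2 7)).elim (fun w2_7 => tm_32 h hb r1_2 r2_2 r3_2 r4_2 r5_2 r6_2 w1_6 w2_7 w3_8 w3_9 w4_9 w7_11)
 (fun n_ => (fun (w7_12 : 0 < D 7 12) => tm_33 h hb l9_2 r1_2 r2_2 r3_2 r4_2 r5_2 r6_2 w1_6 w3_8 w3_9 w4_9 w7_12 w9_12) (h.flip n_ (by decide))))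
 (fun nr2 => (fun (l2_2 : LL D 2 4) => tm_34 h hb l2_2 r3_2 w1_6 w3_8) (h.labL 2 nr2)))
 (fun nr1 => (fun (l1_2 : LL D 1 3) => tm_35 h hb l1_2 r3_2 w1_6) (h.labL 1 nr1)))
 (fun n_ => (fun (w6_11 : 0 < D 6 11) => tm_108 h hb l9_2 nr9 r0_2 r3_2 r4_2 r5_2 r6_2 w0_2 w1_3 w2_4 w3_5 w3_8 w3_9 w4_9 w5_7 w6_10 w6_11 w7_10 w7_11 w7_9 w8_10 w8_11 w9_11 w9_12) (h.flip n_ (by decide))))
 (fun n_ => (fun (w1_7 : 0 < D 1 7) => (Classical.em (RR D 1 3)).elim (fun r1_2 => tm_109 h hb r1_2 r3_2 r4_2 r6_2 w1_7 w3_8 w3_9 w4_9)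
 (fun nr1 => (fun (l1_2 : LL D 1 3) => tm_110 h hb l1_2 r4_2 w1_7) (h.labL 1 nr1))) (h.flip2 n_ 1 (by decide)))

theorem tm_118 {D : ℕ → ℕ → ℝ} (h : Cfg D)
    (hb : ∀ i, 0 < D i (i + 1))
    (l9_2 : LL D 9 11)
    (nr9 : ¬ RR D 9 11)
    (r0_2 : RR D 0 2)
    (r3_2 : RR D 3 5)
    (r4_2 : RR D 4 6)
    (r5_2 : RR D 5 7)
    (r6_2 : RR D 6 8)
    (w0_2 : 0 < D 0 2)
    (w1_3 : 0 < D 1 3)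
    (w2_4 : 0 < D 2 4)
    (w3_5 : 0 < D 3 5)
    (w3_8 : 0 < D 3 8)
    (w3_9 : 0 < D 3 9)
    (w4_9 : 0 < D 4 9)
    (w5_7 : 0 < D 5 7)
    (w7_10 : 0 < D 7 10)
    (w7_9 : 0 < D 7 9)
    (w8_10 : 0 < D 8 10)
    (w9_11 : 0 < D 9 11)
    (w9_12 : 0 < D 9 12) : False :=
 (Classical.em (0 < D 6 10)).elim (fun w6_10 => (Classical.em (0 < D 8 11)).elim (fun w8_11 => tm_111 h hb l9_2 nr9 r0_2 r3_2 r4_2 r5_2 r6_2 w0_2 w1_3 w2_4 w3_5 w3_8 w3_9 w4_9 w5_7 w6_10 w7_10 w7_9 w8_10 w8_11 w9_11 w9_12)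
 (fun n_ => (fun (w1_8 : 0 < D 1 8) => (Classical.em (RR D 1 3)).elim (fun r1_2 => tm_112 h hb r1_2 r3_2 r4_2 r6_2 w1_8 w3_8 w3_9 w4_9)
 (fun nr1 => (fun (l1_2 : LL D 1 3) => tm_113 h hb l1_2 r4_2 w1_8) (h.labL 1 nr1))) (h.flip2 n_ 1 (by decide))))
 (fun n_ => (fun (w0_6 : 0 < D 0 6) => (Classical.em (RR D 1 3)).elim (fun r1_2 => (Classical.em (RR D 2 4)).elim (fun r2_2 => (Classical.em (0 < D 2 7)).elim (fun w2_7 => tm_114 h hb r1_2 r2_2 r3_2 r4_2 r6_2 w0_6 w2_7 w3_8 w3_9 w4_9)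
 (fun n_ => (fun (w7_12 : 0 < D 7 12) => tm_115 h hb l9_2 r1_2 r2_2 r3_2 r4_2 r5_2 r6_2 w0_6 w3_8 w3_9 w4_9 w7_12) (h.flip n_ (by decide))))
 (fun nr2 => (fun (l2_2 : LL D 2 4) => tm_116 h hb l2_2 r3_2 w0_6) (h.labL 2 nr2)))
 (fun nr1 => (fun (l1_2 : LL D 1 3) => tm_117 h l1_2 r3_2 w0_6) (h.labL 1 nr1))) (h.flip2 n_ 0 (by decide)))

theorem tm_121 {D : ℕ → ℕ → ℝ} (h : Cfg D)
    (hb : ∀ i, 0 < D i (i + 1))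
    (l9_2 : LL D 9 11)
    (nr9 : ¬ RR D 9 11)
    (r0_2 : RR D 0 2)
    (r3_2 : RR D 3 5)
    (r4_2 : RR D 4 6)
    (r5_2 : RR D 5 7)
    (r6_2 : RR D 6 8)
    (w2_4 : 0 < D 2 4)
    (w3_5 : 0 < D 3 5)
    (w3_8 : 0 < D 3 8)
    (w3_9 : 0 < D 3 9)
    (w4_9 : 0 < D 4 9)
    (w5_7 : 0 < D 5 7)
    (w7_10 : 0 < D 7 10)
    (w7_9 : 0 < D 7 9)
    (w8_10 : 0 < D 8 10)
    (w9_11 : 0 < D 9 11) : False :=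
 (Classical.em (0 < D 2 10)).elim (fun w2_10 => (Classical.em (RR D 2 4)).elim (fun r2_2 => tm_22 h hb r2_2 r3_2 r5_2 r6_2 w2_10)
 (fun nr2 => (fun (l2_2 : LL D 2 4) => tm_23 h hb l2_2 r6_2 w2_10) (h.labL 2 nr2)))
 (fun n_ => (fun (w0_2 : 0 < D 0 2) => (Classical.em (0 < D 3 11)).elim (fun w3_11 => (Classical.em (RR D 8 10)).elim (fun r8_2 => tm_24 h hb r3_2 r4_2 r5_2 r6_2 r8_2 w3_11)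
 (fun nr8 => (fun (l8_2 : LL D 8 10) => tm_31 h hb l9_2 r3_2 r4_2 r5_2 r6_2 w3_11 w3_8 w4_9 w7_10 w8_10) (h.labL 8 nr8)))
 (fun n_ => (fun (w1_3 : 0 < D 1 3) => (Classical.em (0 < D 9 12)).elim (fun w9_12 => tm_118 h hb l9_2 nr9 r0_2 r3_2 r4_2 r5_2 r6_2 w0_2 w1_3 w2_4 w3_5 w3_8 w3_9 w4_9 w5_7 w7_10 w7_9 w8_10 w9_11 w9_12)
 (fun n_ => (fun (w2_9 : 0 < D 2 9) => (Classical.em (RR D 2 4)).elim (fun r2_2 => tm_119 h hb r2_2 r3_2 r4_2 r5_2 r6_2 w2_9)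
 (fun nr2 => (fun (l2_2 : LL D 2 4) => tm_120 h hb l2_2 r3_2 w2_9) (h.labL 2 nr2))) (h.flip2 n_ 2 (by decide)))) (h.flip2 n_ 1 (by decide)))) (h.flip2 n_ 0 (by decide)))

theorem tm_126 {D : ℕ → ℕ → ℝ} (h : Cfg D)
    (hb : ∀ i, 0 < D i (i + 1))
    (l9_2 : LL D 9 11)
    (nr9 : ¬ RR D 9 11)
    (r0_2 : RR D 0 2)
    (r3_2 : RR D 3 5)
    (r4_2 : RR D 4 6)
    (r5_2 : RR D 5 7)
    (r6_2 : RR D 6 8)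
    (w3_5 : 0 < D 3 5)
    (w3_8 : 0 < D 3 8)
    (w3_9 : 0 < D 3 9)
    (w4_9 : 0 < D 4 9)
    (w5_7 : 0 < D 5 7)
    (w7_9 : 0 < D 7 9)
    (w8_10 : 0 < D 8 10) : False :=
 (Classical.em (0 < D 2 4)).elim (fun w2_4 => (Classical.em (0 < D 0 7)).elim (fun w0_7 => (Classical.em (RR D 1 3)).elim (fun r1_2 => tm_18 h hb r0_2 r1_2 r3_2 r4_2 r6_2 w0_7 w3_9 w4_9)
 (fun nr1 => (fun (l1_2 : LL D 1 3) => tm_19 h hb l1_2 r3_2 w0_7) (h.labL 1 nr1)))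
 (fun n_ => (fun (w7_10 : 0 < D 7 10) => (Classical.em (0 < D 1 9)).elim (fun w1_9 => (Classical.em (RR D 1 3)).elim (fun r1_2 => tm_20 h hb r1_2 r3_2 r4_2 r6_2 w1_9)
 (fun nr1 => (fun (l1_2 : LL D 1 3) => tm_21 h l1_2 r6_2 w1_9) (h.labL 1 nr1)))
 (fun n_ => (fun (w9_11 : 0 < D 9 11) => tm_121 h hb l9_2 nr9 r0_2 r3_2 r4_2 r5_2 r6_2 w2_4 w3_5 w3_8 w3_9 w4_9 w5_7 w7_10 w7_9 w8_10 w9_11) (h.flip n_ (by decide)))) (h.flip n_ (by decide))))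
 (fun n_ => (fun (w4_12 : 0 < D 4 12) => (Classical.em (RR D 7 9)).elim (fun r7_2 => tm_122 h hb r3_2 r4_2 r6_2 r7_2 w3_9 w4_12)
 (fun nr7 => (fun (l7_2 : LL D 7 9) => (h.ch 5 (h.pos_of w4_9 5 8 0 0 (by decide)) (h.pos_of w4_12 7 10 0 0 (by decide))).elim (fun q_ => (fun (l5_2 : LL D 5 7) => tm_123 h hb l5_2 r6_2 w4_9) (fun _ => q_))
 (fun o1 => o1.elim (fun q_ => nr7 (h.rrsh 7 0 (fun _ => q_)))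
 (fun o2 => o2.elim (fun h3_5 => tm_124 h h3_5 hb l7_2 l9_2 r3_2 r4_2 r5_2 r6_2 w3_8 w4_12 w4_9)
 (fun h4_5 => tm_125 h h4_5 hb l7_2 r3_2 r4_2 r5_2 r6_2 w3_8 w4_12)))) (h.labL 7 nr7))) (h.flip n_ (by decide)))

theorem tm_142 {D : ℕ → ℕ → ℝ} (h : Cfg D)
    (hb : ∀ i, 0 < D i (i + 1))
    (l6_2 : LL D 6 8)
    (l9_2 : LL D 9 11)
    (r0_2 : RR D 0 2)
    (r2_2 : RR D 2 4)
    (r3_2 : RR D 3 5)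
    (r4_2 : RR D 4 6)
    (r5_2 : RR D 5 7)
    (r8_2 : RR D 8 10)
    (w2_5 : 0 < D 2 5)
    (w3_8 : 0 < D 3 8)
    (w3_9 : 0 < D 3 9)
    (w4_9 : 0 < D 4 9)
    (w7_10 : 0 < D 7 10)
    (w7_11 : 0 < D 7 11) : False :=
 (Classical.em (0 < D 1 6)).elim (fun w1_6 => (Classical.em (RR D 1 3)).elim (fun r1_2 => (Classical.em (0 < D 7 12)).elim (fun w7_12 => (Classical.em (0 < D 6 10)).elim (fun w6_10 => (Classical.em (RR D 7 9)).elim (fun r7_2 => tm_136 h hb l6_2 r7_2 w4_9 w6_10 w7_10)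
 (fun nr7 => (fun (l7_2 : LL D 7 9) => tm_137 h hb l7_2 r8_2 w7_11) (h.labL 7 nr7)))
 (fun n_ => (fun (w0_6 : 0 < D 0 6) => tm_138 h hb l6_2 l9_2 r0_2 r1_2 r2_2 r3_2 r4_2 r5_2 r8_2 w0_6 w3_8 w3_9 w4_9 w7_12) (h.flip2 n_ 0 (by decide))))
 (fun n_ => (fun (w2_7 : 0 < D 2 7) => tm_139 h hb r1_2 r2_2 r3_2 r4_2 r5_2 w1_6 w2_5 w2_7 w3_8 w3_9 w4_9 w7_11) (h.flip2 n_ 2 (by decide))))
 (fun nr1 => (fun (l1_2 : LL D 1 3) => tm_140 h hb l1_2 r2_2 w1_6) (h.labL 1 nr1)))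
 (fun n_ => (fun (w6_11 : 0 < D 6 11) => tm_141 h hb l6_2 r8_2 w6_11) (h.flip n_ (by decide)))

theorem tm_164 {D : ℕ → ℕ → ℝ} (h : Cfg D)
    (h3_4 : D 4 7 + D 6 9 < 101 / 100 * D 6 7 + D 4 9)
    (hb : ∀ i, 0 < D i (i + 1))
    (iPZ0_5_6_9lp0 : lv D 6 + lv D 59 ≤ (lv D 5 + lv D 69) + (0) * Real.log 2)
    (l6_2 : LL D 6 8)
    (l7_2 : LL D 7 9)
    (l8_2 : LL D 8 10)
    (l9_2 : LL D 9 11)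
    (nr7 : ¬ RR D 7 9)
    (r0_2 : RR D 0 2)
    (r3_2 : RR D 3 5)
    (r4_2 : RR D 4 6)
    (r5_2 : RR D 5 7)
    (w0_4 : 0 < D 0 4)
    (w0_5 : 0 < D 0 5)
    (w1_5 : 0 < D 1 5)
    (w2_5 : 0 < D 2 5)
    (w3_8 : 0 < D 3 8)
    (w3_9 : 0 < D 3 9)
    (w4_9 : 0 < D 4 9)
    (w6_11 : 0 < D 6 11)
    (w6_12 : 0 < D 6 12)
    (w7_10 : 0 < D 7 10)
    (w7_11 : 0 < D 7 11) : False :=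
 (Classical.em (RR D 1 3)).elim (fun r1_2 => (h.ch 5 (h.pos_of w4_9 5 8 0 0 (by decide)) w7_10).elim (fun q_ => (fun (l5_2 : LL D 5 7) => (Classical.em (RR D 2 4)).elim (fun r2_2 => tm_156 h h3_4 hb iPZ0_5_6_9lp0 l5_2 l6_2 l7_2 l8_2 l9_2 r0_2 r1_2 r2_2 r3_2 r4_2 w0_5 w2_5 w3_8 w3_9 w4_9 w6_12 w7_11)
 (fun nr2 => (fun (l2_2 : LL D 2 4) => (h.lab 0 4 (by decide) (by decide)).elim (fun r0_4 => tm_157 h h3_4 hb iPZ0_5_6_9lp0 l5_2 l6_2 l7_2 l8_2 l9_2 r0_4 r1_2 r3_2 r4_2 r5_2 w0_5 w3_9 w4_9 w6_12)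
 (fun l0_4 => tm_158 h hb iPZ0_5_6_9lp0 l0_4 r1_2 r3_2 w0_4 w0_5 w1_5 w3_9 w6_11)) (h.labL 2 nr2))) (fun _ => q_))
 (fun o1 => o1.elim (fun q_ => nr7 (h.rrsh 7 0 (fun _ => q_)))
 (fun o2 => o2.elim (fun h3_5 => tm_159 h h3_4 h3_5 hb iPZ0_5_6_9lp0 l6_2 l7_2 l8_2 l9_2 r1_2 r3_2 r4_2 w0_5 w3_8 w3_9 w4_9 w6_12)
 (fun h4_5 => tm_160 h h3_4 h4_5 hb iPZ0_5_6_9lp0 l6_2 l8_2 l9_2 r0_2 r1_2 r3_2 r4_2 r5_2 w0_4 w0_5 w1_5 w3_8 w3_9 w6_12))))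
 (fun nr1 => (fun (l1_2 : LL D 1 3) => (Classical.em (RR D 2 4)).elim (fun r2_2 => tm_161 h hb iPZ0_5_6_9lp0 l1_2 r2_2 r3_2 w0_5 w3_8 w3_9 w4_9 w6_11 w6_12)
 (fun nr2 => (fun (l2_2 : LL D 2 4) => (h.lab 0 3 (by decide) (by decide)).elim (fun r0_3 => tm_162 h h3_4 hb iPZ0_5_6_9lp0 l1_2 l6_2 l7_2 l8_2 l9_2 r0_3 r3_2 r4_2 w0_5 w3_8 w3_9 w4_9 w6_11 w6_12)
 (fun l0_3 => tm_163 h h3_4 hb iPZ0_5_6_9lp0 l0_3 l1_2 l6_2 l7_2 l8_2 l9_2 r3_2 r4_2 w0_5 w3_8 w3_9 w4_9 w6_12)) (h.labL 2 nr2))) (h.labL 1 nr1))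

theorem tm_165 {D : ℕ → ℕ → ℝ} (h : Cfg D)
    (h3_4 : D 4 7 + D 6 9 < 101 / 100 * D 6 7 + D 4 9)
    (hb : ∀ i, 0 < D i (i + 1))
    (l6_2 : LL D 6 8)
    (l7_2 : LL D 7 9)
    (l8_2 : LL D 8 10)
    (l9_2 : LL D 9 11)
    (nr7 : ¬ RR D 7 9)
    (r0_2 : RR D 0 2)
    (r3_2 : RR D 3 5)
    (r4_2 : RR D 4 6)
    (r5_2 : RR D 5 7)
    (w0_4 : 0 < D 0 4)
    (w0_5 : 0 < D 0 5)
    (w1_5 : 0 < D 1 5)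
    (w2_5 : 0 < D 2 5)
    (w3_8 : 0 < D 3 8)
    (w3_9 : 0 < D 3 9)
    (w4_9 : 0 < D 4 9)
    (w6_11 : 0 < D 6 11)
    (w6_12 : 0 < D 6 12)
    (w7_10 : 0 < D 7 10)
    (w7_11 : 0 < D 7 11) : False :=
 (le_total ((lv D 5 + lv D 69) + (0) * Real.log 2) (lv D 6 + lv D 59)).elim (fun iPZ0_5_6_9gp0 => (h.ch 5 (h.pos_of w4_9 5 8 0 0 (by decide)) w7_10).elim (fun q_ => (fun (l5_2 : LL D 5 7) => (le_total ((lv D 14 + lv D 69) + (-3) * Real.log 2) (lv D 16 + lv D 49)).elim (fun iPZ1_4_6_9gm3 => tm_151 h h3_4 hb iPZ0_5_6_9gp0 iPZ1_4_6_9gm3 l5_2 l6_2 l7_2 l8_2 l9_2 r3_2 r4_2 w0_5 w3_8 w4_9 w6_11 w6_12)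
 (fun iPZ1_4_6_9lm3 => (Classical.em (RR D 1 3)).elim (fun r1_2 => tm_152 h h3_4 hb iPZ0_5_6_9gp0 iPZ1_4_6_9lm3 l6_2 l7_2 l8_2 l9_2 r1_2 r3_2 r4_2 r5_2 w0_5 w1_5 w3_8 w3_9 w4_9 w6_11 w6_12)
 (fun nr1 => (fun (l1_2 : LL D 1 3) => tm_153 h hb iPZ1_4_6_9lm3 l1_2 l6_2 l7_2 l8_2 l9_2 r3_2 w0_5 w1_5 w3_8 w4_9 w6_11 w6_12 w7_10 w7_11) (h.labL 1 nr1)))) (fun _ => q_))
 (fun o1 => o1.elim (fun q_ => nr7 (h.rrsh 7 0 (fun _ => q_)))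
 (fun o2 => o2.elim (fun h3_5 => tm_154 h h3_5 hb iPZ0_5_6_9gp0 l6_2 l8_2 l9_2 r3_2 w0_5 w3_8 w4_9 w6_11 w6_12 w7_10 w7_11)
 (fun h4_5 => tm_155 h h3_4 h4_5 hb iPZ0_5_6_9gp0 l6_2 l7_2 l8_2 l9_2 r3_2 r4_2 r5_2 w0_5 w3_8 w4_9 w6_12 w7_10))))
 (fun iPZ0_5_6_9lp0 => tm_164 h h3_4 hb iPZ0_5_6_9lp0 l6_2 l7_2 l8_2 l9_2 nr7 r0_2 r3_2 r4_2 r5_2 w0_4 w0_5 w1_5 w2_5 w3_8 w3_9 w4_9 w6_11 w6_12 w7_10 w7_11)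

theorem tm_169 {D : ℕ → ℕ → ℝ} (h : Cfg D)
    (h3_4 : D 4 7 + D 6 9 < 101 / 100 * D 6 7 + D 4 9)
    (hb : ∀ i, 0 < D i (i + 1))
    (l6_2 : LL D 6 8)
    (l7_2 : LL D 7 9)
    (l8_2 : LL D 8 10)
    (l9_2 : LL D 9 11)
    (nr7 : ¬ RR D 7 9)
    (r0_2 : RR D 0 2)
    (r3_2 : RR D 3 5)
    (r4_2 : RR D 4 6)
    (r5_2 : RR D 5 7)
    (w2_5 : 0 < D 2 5)
    (w3_8 : 0 < D 3 8)
    (w3_9 : 0 < D 3 9)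
    (w4_9 : 0 < D 4 9)
    (w6_11 : 0 < D 6 11)
    (w6_12 : 0 < D 6 12)
    (w7_10 : 0 < D 7 10)
    (w7_11 : 0 < D 7 11) : False :=
 (Classical.em (0 < D 5 11)).elim (fun w5_11 => tm_149 h h3_4 hb l6_2 l8_2 l9_2 r3_2 r4_2 r5_2 w3_8 w4_9 w5_11 w6_11 w6_12 w7_11)
 (fun n_ => (fun (w1_5 : 0 < D 1 5) => (Classical.em (0 < D 4 10)).elim (fun w4_10 => tm_150 h h3_4 hb l6_2 l7_2 l8_2 l9_2 r3_2 r4_2 w3_8 w4_10 w4_9 w6_12)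
 (fun n_ => (fun (w0_4 : 0 < D 0 4) => (Classical.em (0 < D 0 5)).elim (fun w0_5 => tm_165 h h3_4 hb l6_2 l7_2 l8_2 l9_2 nr7 r0_2 r3_2 r4_2 r5_2 w0_4 w0_5 w1_5 w2_5 w3_8 w3_9 w4_9 w6_11 w6_12 w7_10 w7_11)
 (fun n_ => (fun (w5_10 : 0 < D 5 10) => (h.ch 5 (h.pos_of w4_9 5 8 0 0 (by decide)) w7_10).elim (fun q_ => (fun (l5_2 : LL D 5 7) => tm_166 h hb l5_2 l6_2 l7_2 l8_2 l9_2 w4_9 w5_10 w6_12) (fun _ => q_))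
 (fun o1 => o1.elim (fun q_ => nr7 (h.rrsh 7 0 (fun _ => q_)))
 (fun o2 => o2.elim (fun h3_5 => tm_167 h h3_5 hb l6_2 l7_2 l8_2 l9_2 r3_2 r5_2 w3_8 w3_9 w5_10 w6_12)
 (fun h4_5 => tm_168 h h3_4 h4_5 hb l6_2 l7_2 l8_2 r3_2 r4_2 r5_2 w3_8 w4_9 w5_10 w6_11 w7_11)))) (h.flip n_ (by decide)))) (h.flip2 n_ 0 (by decide)))) (h.flip2 n_ 1 (by decide)))

theorem tm_176 {D : ℕ → ℕ → ℝ} (h : Cfg D)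
    (h3_4 : D 4 7 + D 6 9 < 101 / 100 * D 6 7 + D 4 9)
    (hb : ∀ i, 0 < D i (i + 1))
    (l6_2 : LL D 6 8)
    (l7_2 : LL D 7 9)
    (l8_2 : LL D 8 10)
    (l9_2 : LL D 9 11)
    (nr7 : ¬ RR D 7 9)
    (r0_2 : RR D 0 2)
    (r2_2 : RR D 2 4)
    (r3_2 : RR D 3 5)
    (r4_2 : RR D 4 6)
    (r5_2 : RR D 5 7)
    (w2_5 : 0 < D 2 5)
    (w2_6 : 0 < D 2 6)
    (w3_8 : 0 < D 3 8)
    (w3_9 : 0 < D 3 9)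
    (w4_9 : 0 < D 4 9)
    (w6_11 : 0 < D 6 11)
    (w7_10 : 0 < D 7 10)
    (w7_11 : 0 < D 7 11) : False :=
 (Classical.em (0 < D 7 12)).elim (fun w7_12 => (h.ch 5 (h.pos_of w4_9 5 8 0 0 (by decide)) w7_10).elim (fun q_ => (fun (l5_2 : LL D 5 7) => (Classical.em (0 < D 5 10)).elim (fun w5_10 => tm_170 h hb l5_2 l6_2 l7_2 l8_2 l9_2 w4_9 w5_10 w6_11 w7_12)
 (fun n_ => (fun (w0_5 : 0 < D 0 5) => (Classical.em (RR D 1 3)).elim (fun r1_2 => tm_171 h h3_4 hb l5_2 l6_2 l7_2 l8_2 l9_2 r0_2 r1_2 r2_2 r3_2 r4_2 r5_2 w0_5 w2_5 w2_6 w3_9 w4_9 w6_11 w7_11 w7_12)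
 (fun nr1 => (fun (l1_2 : LL D 1 3) => tm_172 h hb l1_2 r2_2 w0_5 w2_5) (h.labL 1 nr1))) (h.flip2 n_ 0 (by decide)))) (fun _ => q_))
 (fun o1 => o1.elim (fun q_ => nr7 (h.rrsh 7 0 (fun _ => q_)))
 (fun o2 => o2.elim (fun h3_5 => tm_173 h h3_4 h3_5 hb l6_2 l7_2 l8_2 l9_2 r2_2 r3_2 r4_2 r5_2 w2_6 w3_8 w3_9 w4_9 w6_11 w7_12)
 (fun h4_5 => tm_174 h h3_4 h4_5 hb l6_2 l7_2 l8_2 l9_2 r2_2 r3_2 r4_2 r5_2 w2_5 w2_6 w3_8 w3_9 w6_11 w7_11 w7_12))))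
 (fun n_ => (fun (w2_7 : 0 < D 2 7) => tm_175 h h3_4 hb l6_2 l8_2 r2_2 r3_2 r4_2 r5_2 w2_5 w2_7 w3_9 w4_9 w6_11 w7_11) (h.flip2 n_ 2 (by decide)))

theorem tm_178 {D : ℕ → ℕ → ℝ} (h : Cfg D)
    (h3_4 : D 4 7 + D 6 9 < 101 / 100 * D 6 7 + D 4 9)
    (hb : ∀ i, 0 < D i (i + 1))
    (l6_2 : LL D 6 8)
    (l8_2 : LL D 8 10)
    (l9_2 : LL D 9 11)
    (r0_2 : RR D 0 2)
    (r3_2 : RR D 3 5)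
    (r4_2 : RR D 4 6)
    (r5_2 : RR D 5 7)
    (w2_5 : 0 < D 2 5)
    (w3_8 : 0 < D 3 8)
    (w3_9 : 0 < D 3 9)
    (w4_9 : 0 < D 4 9)
    (w7_10 : 0 < D 7 10)
    (w7_11 : 0 < D 7 11) : False :=
 (Classical.em (0 < D 1 6)).elim (fun w1_6 => (Classical.em (RR D 1 3)).elim (fun r1_2 => (Classical.em (RR D 2 4)).elim (fun r2_2 => (Classical.em (0 < D 2 7)).elim (fun w2_7 => tm_144 h h3_4 hb l6_2 l8_2 r1_2 r2_2 r3_2 r4_2 r5_2 w1_6 w2_7 w3_9 w4_9 w7_11)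
 (fun n_ => (fun (w7_12 : 0 < D 7 12) => tm_145 h h3_4 hb l6_2 l8_2 l9_2 r1_2 r2_2 r3_2 r4_2 r5_2 w1_6 w3_8 w3_9 w4_9 w7_12) (h.flip n_ (by decide))))
 (fun nr2 => (fun (l2_2 : LL D 2 4) => tm_146 h hb l2_2 r3_2 w1_6 w2_5 w3_8) (h.labL 2 nr2)))
 (fun nr1 => (fun (l1_2 : LL D 1 3) => tm_147 h hb l1_2 r3_2 w1_6) (h.labL 1 nr1)))
 (fun n_ => (fun (w6_11 : 0 < D 6 11) => (Classical.em (RR D 7 9)).elim (fun r7_2 => tm_148 h hb l6_2 r7_2 w4_9 w6_11 w7_10)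
 (fun nr7 => (fun (l7_2 : LL D 7 9) => (Classical.em (0 < D 6 12)).elim (fun w6_12 => tm_169 h h3_4 hb l6_2 l7_2 l8_2 l9_2 nr7 r0_2 r3_2 r4_2 r5_2 w2_5 w3_8 w3_9 w4_9 w6_11 w6_12 w7_10 w7_11)
 (fun n_ => (fun (w2_6 : 0 < D 2 6) => (Classical.em (RR D 2 4)).elim (fun r2_2 => tm_176 h h3_4 hb l6_2 l7_2 l8_2 l9_2 nr7 r0_2 r2_2 r3_2 r4_2 r5_2 w2_5 w2_6 w3_8 w3_9 w4_9 w6_11 w7_10 w7_11)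
 (fun nr2 => (fun (l2_2 : LL D 2 4) => tm_177 h hb l2_2 r3_2 w2_5 w2_6 w3_8) (h.labL 2 nr2))) (h.flip2 n_ 2 (by decide)))) (h.labL 7 nr7))) (h.flip n_ (by decide)))

theorem tm_182 {D : ℕ → ℕ → ℝ} (h : Cfg D)
    (h3_4 : D 4 7 + D 6 9 < 101 / 100 * D 6 7 + D 4 9)
    (hb : ∀ i, 0 < D i (i + 1))
    (l6_2 : LL D 6 8)
    (l9_2 : LL D 9 11)
    (r0_2 : RR D 0 2)
    (r3_2 : RR D 3 5)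
    (r4_2 : RR D 4 6)
    (r5_2 : RR D 5 7)
    (w2_5 : 0 < D 2 5)
    (w3_8 : 0 < D 3 8)
    (w3_9 : 0 < D 3 9)
    (w4_9 : 0 < D 4 9)
    (w7_10 : 0 < D 7 10) : False :=
 (Classical.em (0 < D 7 11)).elim (fun w7_11 => (Classical.em (RR D 8 10)).elim (fun r8_2 => (Classical.em (0 < D 6 12)).elim (fun w6_12 => tm_135 h hb l6_2 r8_2 w4_9 w6_12 w7_11)
 (fun n_ => (fun (w2_6 : 0 < D 2 6) => (Classical.em (RR D 2 4)).elim (fun r2_2 => tm_142 h hb l6_2 l9_2 r0_2 r2_2 r3_2 r4_2 r5_2 r8_2 w2_5 w3_8 w3_9 w4_9 w7_10 w7_11)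
 (fun nr2 => (fun (l2_2 : LL D 2 4) => tm_143 h hb l2_2 r3_2 w2_5 w2_6 w3_8) (h.labL 2 nr2))) (h.flip2 n_ 2 (by decide))))
 (fun nr8 => (fun (l8_2 : LL D 8 10) => tm_178 h h3_4 hb l6_2 l8_2 l9_2 r0_2 r3_2 r4_2 r5_2 w2_5 w3_8 w3_9 w4_9 w7_10 w7_11) (h.labL 8 nr8)))
 (fun n_ => (fun (w1_7 : 0 < D 1 7) => (Classical.em (RR D 1 3)).elim (fun r1_2 => (Classical.em (RR D 2 4)).elim (fun r2_2 => tm_179 h hb r1_2 r2_2 r3_2 r4_2 r5_2 w1_7 w3_8 w4_9)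
 (fun nr2 => (fun (l2_2 : LL D 2 4) => tm_180 h hb l2_2 r4_2 w1_7) (h.labL 2 nr2)))
 (fun nr1 => (fun (l1_2 : LL D 1 3) => tm_181 h hb l1_2 r3_2 w1_7 w3_8) (h.labL 1 nr1))) (h.flip2 n_ 1 (by decide)))

theorem tm_185 {D : ℕ → ℕ → ℝ} (h : Cfg D)
    (h3_4 : D 4 7 + D 6 9 < 101 / 100 * D 6 7 + D 4 9)
    (hb : ∀ i, 0 < D i (i + 1))
    (l6_2 : LL D 6 8)
    (l9_2 : LL D 9 11)
    (r0_2 : RR D 0 2)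
    (r3_2 : RR D 3 5)
    (r4_2 : RR D 4 6)
    (r5_2 : RR D 5 7)
    (w3_8 : 0 < D 3 8)
    (w3_9 : 0 < D 3 9)
    (w4_9 : 0 < D 4 9)
    (w7_10 : 0 < D 7 10) : False :=
 (Classical.em (0 < D 2 5)).elim (fun w2_5 => (Classical.em (0 < D 1 9)).elim (fun w1_9 => (Classical.em (RR D 1 3)).elim (fun r1_2 => (Classical.em (RR D 2 4)).elim (fun r2_2 => tm_132 h hb r1_2 r2_2 r4_2 r5_2 w1_9)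
 (fun nr2 => (fun (l2_2 : LL D 2 4) => tm_133 h hb l2_2 r5_2 w1_9 w2_5 w4_9) (h.labL 2 nr2)))
 (fun nr1 => (fun (l1_2 : LL D 1 3) => tm_134 h hb l1_2 r3_2 w1_9) (h.labL 1 nr1)))
 (fun n_ => (fun (w9_11 : 0 < D 9 11) => tm_182 h h3_4 hb l6_2 l9_2 r0_2 r3_2 r4_2 r5_2 w2_5 w3_8 w3_9 w4_9 w7_10) (h.flip n_ (by decide))))
 (fun n_ => (fun (w5_12 : 0 < D 5 12) => (Classical.em (RR D 8 10)).elim (fun r8_2 => tm_183 h l6_2 r8_2 w5_12)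
 (fun nr8 => (fun (l8_2 : LL D 8 10) => tm_184 h h3_4 hb l6_2 l8_2 l9_2 r3_2 r4_2 r5_2 w3_8 w4_9 w5_12) (h.labL 8 nr8))) (h.flip n_ (by decide)))

theorem tm_197 {D : ℕ → ℕ → ℝ} (h : Cfg D)
    (h4_4 : D 5 6 * D 7 8 < 101 / 100 * (D 4 5 * D 8 9))
    (hb : ∀ i, 0 < D i (i + 1))
    (l6_2 : LL D 6 8)
    (r3_2 : RR D 3 5)
    (r4_2 : RR D 4 6)
    (r5_2 : RR D 5 7)
    (w3_8 : 0 < D 3 8)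
    (w3_9 : 0 < D 3 9)
    (w4_9 : 0 < D 4 9)
    (w7_10 : 0 < D 7 10) : False :=
 (Classical.em (0 < D 6 10)).elim (fun w6_10 => (Classical.em (RR D 7 9)).elim (fun r7_2 => tm_190 h hb l6_2 r7_2 w4_9 w6_10 w7_10)
 (fun nr7 => (fun (l7_2 : LL D 7 9) => (h.ch 5 (h.pos_of w4_9 5 8 0 0 (by decide)) w7_10).elim (fun q_ => (fun (l5_2 : LL D 5 7) => tm_191 h h4_4 hb l5_2 l6_2 l7_2 r3_2 r4_2 r5_2 w3_9 w4_9 w6_10 w7_10) (fun _ => q_))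
 (fun o1 => o1.elim (fun q_ => nr7 (h.rrsh 7 0 (fun _ => q_)))
 (fun o2 => o2.elim (fun h3_5 => (Classical.em (0 < D 0 5)).elim (fun w0_5 => tm_192 h h3_5 h4_4 hb l6_2 l7_2 r3_2 r4_2 r5_2 w0_5 w3_8 w3_9 w4_9 w6_10)
 (fun n_ => (fun (w5_10 : 0 < D 5 10) => tm_193 h h3_5 h4_4 hb l6_2 l7_2 r3_2 r4_2 r5_2 w3_8 w3_9 w4_9 w5_10 w7_10) (h.flip n_ (by decide))))
 (fun h4_5 => tm_194 h h4_4 h4_5 hb l6_2 l7_2 r3_2 r4_2 r5_2 w3_8 w4_9 w6_10 w7_10)))) (h.labL 7 nr7)))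
 (fun n_ => (fun (w0_6 : 0 < D 0 6) => (Classical.em (RR D 1 3)).elim (fun r1_2 => tm_195 h h4_4 hb r1_2 r3_2 r4_2 r5_2 w0_6 w3_9 w4_9)
 (fun nr1 => (fun (l1_2 : LL D 1 3) => tm_196 h l1_2 r3_2 w0_6) (h.labL 1 nr1))) (h.flip2 n_ 0 (by decide)))

theorem tm_204 {D : ℕ → ℕ → ℝ} (h : Cfg D)
    (h4_4 : D 5 6 * D 7 8 < 101 / 100 * (D 4 5 * D 8 9))
    (hb : ∀ i, 0 < D i (i + 1))
    (l6_2 : LL D 6 8)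
    (r3_2 : RR D 3 5)
    (r4_2 : RR D 4 6)
    (r5_2 : RR D 5 7)
    (w3_8 : 0 < D 3 8)
    (w3_9 : 0 < D 3 9)
    (w4_9 : 0 < D 4 9)
    (w7_10 : 0 < D 7 10) : False :=
 (Classical.em (0 < D 9 12)).elim (fun w9_12 => (Classical.em (0 < D 8 11)).elim (fun w8_11 => (Classical.em (0 < D 7 11)).elim (fun w7_11 => tm_197 h h4_4 hb l6_2 r3_2 r4_2 r5_2 w3_8 w3_9 w4_9 w7_10)
 (fun n_ => (fun (w1_7 : 0 < D 1 7) => (Classical.em (RR D 1 3)).elim (fun r1_2 => tm_198 h h4_4 hb r1_2 r3_2 r4_2 r5_2 w1_7 w3_8 w3_9)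
 (fun nr1 => (fun (l1_2 : LL D 1 3) => tm_199 h hb l1_2 r3_2 w1_7) (h.labL 1 nr1))) (h.flip2 n_ 1 (by decide))))
 (fun n_ => (fun (w1_8 : 0 < D 1 8) => (Classical.em (RR D 1 3)).elim (fun r1_2 => tm_200 h h4_4 hb l6_2 r1_2 r3_2 r4_2 r5_2 w1_8 w4_9)
 (fun nr1 => (fun (l1_2 : LL D 1 3) => tm_201 h hb l1_2 r3_2 w1_8) (h.labL 1 nr1))) (h.flip2 n_ 1 (by decide))))
 (fun n_ => (fun (w2_9 : 0 < D 2 9) => (Classical.em (RR D 2 4)).elim (fun r2_2 => tm_202 h h4_4 hb r2_2 r3_2 r4_2 r5_2 w2_9)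
 (fun nr2 => (fun (l2_2 : LL D 2 4) => tm_203 h l2_2 r5_2 w2_9) (h.labL 2 nr2))) (h.flip2 n_ 2 (by decide)))

theorem tm_210 {D : ℕ → ℕ → ℝ} (h : Cfg D)
    (h4_4 : D 5 6 * D 7 8 < 101 / 100 * (D 4 5 * D 8 9))
    (hb : ∀ i, 0 < D i (i + 1))
    (l6_2 : LL D 6 8)
    (l9_2 : LL D 9 11)
    (r3_2 : RR D 3 5)
    (r4_2 : RR D 4 6)
    (r5_2 : RR D 5 7)
    (w3_8 : 0 < D 3 8)
    (w3_9 : 0 < D 3 9)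
    (w4_9 : 0 < D 4 9)
    (w7_10 : 0 < D 7 10) : False :=
 (Classical.em (0 < D 0 2)).elim (fun w0_2 => (Classical.em (0 < D 1 3)).elim (fun w1_3 => tm_204 h h4_4 hb l6_2 r3_2 r4_2 r5_2 w3_8 w3_9 w4_9 w7_10)
 (fun n_ => (fun (w3_11 : 0 < D 3 11) => (Classical.em (0 < D 8 12)).elim (fun w8_12 => tm_205 h h4_4 hb l6_2 l9_2 r3_2 r4_2 r5_2 w3_11 w4_9 w8_12)
 (fun n_ => (fun (w2_8 : 0 < D 2 8) => (Classical.em (RR D 2 4)).elim (fun r2_2 => tm_206 h h4_4 hb l6_2 r2_2 r3_2 r4_2 r5_2 w2_8 w3_11 w4_9)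
 (fun nr2 => (fun (l2_2 : LL D 2 4) => tm_207 h hb l2_2 r4_2 w2_8) (h.labL 2 nr2))) (h.flip2 n_ 2 (by decide)))) (h.flip n_ (by decide))))
 (fun n_ => (fun (w2_10 : 0 < D 2 10) => (Classical.em (RR D 2 4)).elim (fun r2_2 => tm_208 h h4_4 hb r2_2 r3_2 r4_2 r5_2 w2_10)
 (fun nr2 => (fun (l2_2 : LL D 2 4) => tm_209 h l2_2 r5_2 w2_10) (h.labL 2 nr2))) (h.flip n_ (by decide)))

theorem tm_212 {D : ℕ → ℕ → ℝ} (h : Cfg D)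
    (h4_4 : D 5 6 * D 7 8 < 101 / 100 * (D 4 5 * D 8 9))
    (hb : ∀ i, 0 < D i (i + 1))
    (l6_2 : LL D 6 8)
    (l9_2 : LL D 9 11)
    (r3_2 : RR D 3 5)
    (r4_2 : RR D 4 6)
    (r5_2 : RR D 5 7)
    (w3_8 : 0 < D 3 8)
    (w3_9 : 0 < D 3 9)
    (w4_9 : 0 < D 4 9) : False :=
 (Classical.em (0 < D 2 4)).elim (fun w2_4 => (Classical.em (0 < D 0 7)).elim (fun w0_7 => (Classical.em (RR D 1 3)).elim (fun r1_2 => tm_186 h h4_4 hb r1_2 r3_2 r4_2 r5_2 w0_7 w3_8 w3_9 w4_9)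
 (fun nr1 => (fun (l1_2 : LL D 1 3) => tm_187 h hb l1_2 r3_2 w0_7) (h.labL 1 nr1)))
 (fun n_ => (fun (w7_10 : 0 < D 7 10) => (Classical.em (0 < D 1 9)).elim (fun w1_9 => (Classical.em (RR D 1 3)).elim (fun r1_2 => tm_188 h h4_4 hb l6_2 r1_2 r3_2 r5_2 w1_9)
 (fun nr1 => (fun (l1_2 : LL D 1 3) => tm_189 h hb l1_2 r3_2 w1_9) (h.labL 1 nr1)))
 (fun n_ => (fun (w9_11 : 0 < D 9 11) => tm_210 h h4_4 hb l6_2 l9_2 r3_2 r4_2 r5_2 w3_8 w3_9 w4_9 w7_10) (h.flip n_ (by decide)))) (h.flip n_ (by decide))))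
 (fun n_ => (fun (w4_12 : 0 < D 4 12) => tm_211 h h4_4 hb l6_2 l9_2 r3_2 r4_2 r5_2 w3_8 w4_12) (h.flip n_ (by decide)))

theorem tm_213 {D : ℕ → ℕ → ℝ} (h : Cfg D)
    (hb : ∀ i, 0 < D i (i + 1))
    (l6_2 : LL D 6 8)
    (l9_2 : LL D 9 11)
    (nr6 : ¬ RR D 6 8)
    (r0_2 : RR D 0 2)
    (r3_2 : RR D 3 5)
    (r4_2 : RR D 4 6)
    (r5_2 : RR D 5 7)
    (w3_8 : 0 < D 3 8)
    (w3_9 : 0 < D 3 9)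
    (w4_9 : 0 < D 4 9) : False :=
 (h.ch 4 (h.pos_of w4_9 4 7 0 0 (by decide)) (h.pos_of w4_9 6 9 0 0 (by decide))).elim (fun q_ => (fun (l4_2 : LL D 4 6) => tm_127 h hb l4_2 r5_2 w4_9) (fun _ => q_))
 (fun o1 => o1.elim (fun q_ => nr6 (h.rrsh 6 0 (fun _ => q_)))
 (fun o2 => o2.elim (fun h3_4 => (Classical.em (0 < D 4 12)).elim (fun w4_12 => (Classical.em (RR D 8 10)).elim (fun r8_2 => tm_128 h l6_2 r8_2 w4_12)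
 (fun nr8 => (fun (l8_2 : LL D 8 10) => tm_129 h h3_4 hb l6_2 l8_2 l9_2 r3_2 r4_2 r5_2 w3_8 w3_9 w4_12 w4_9) (h.labL 8 nr8)))
 (fun n_ => (fun (w2_4 : 0 < D 2 4) => (Classical.em (0 < D 0 7)).elim (fun w0_7 => (Classical.em (RR D 1 3)).elim (fun r1_2 => tm_130 h hb r0_2 r1_2 r3_2 r4_2 w0_7)
 (fun nr1 => (fun (l1_2 : LL D 1 3) => tm_131 h l1_2 r3_2 w0_7 w3_8) (h.labL 1 nr1)))
 (fun n_ => (fun (w7_10 : 0 < D 7 10) => tm_185 h h3_4 hb l6_2 l9_2 r0_2 r3_2 r4_2 r5_2 w3_8 w3_9 w4_9 w7_10) (h.flip n_ (by decide)))) (h.flip2 n_ 2 (by decide))))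
 (fun h4_4 => tm_212 h h4_4 hb l6_2 l9_2 r3_2 r4_2 r5_2 w3_8 w3_9 w4_9)))

theorem tm_228 {D : ℕ → ℕ → ℝ} (h : Cfg D)
    (hb : ∀ i, 0 < D i (i + 1))
    (l5_2 : LL D 5 7)
    (l6_2 : LL D 6 8)
    (l8_2 : LL D 8 10)
    (l9_2 : LL D 9 11)
    (nr6 : ¬ RR D 6 8)
    (r3_2 : RR D 3 5)
    (r4_2 : RR D 4 6)
    (w2_5 : 0 < D 2 5)
    (w3_8 : 0 < D 3 8)
    (w4_11 : 0 < D 4 11)
    (w4_9 : 0 < D 4 9) : False :=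
 (Classical.em (RR D 7 9)).elim (fun r7_2 => tm_222 h hb l5_2 r7_2 w4_11)
 (fun nr7 => (fun (l7_2 : LL D 7 9) => (h.ch 4 (h.pos_of w4_9 4 7 0 0 (by decide)) (h.pos_of w4_9 6 9 0 0 (by decide))).elim (fun q_ => (fun (l4_2 : LL D 4 6) => tm_223 h hb l4_2 l5_2 l7_2 l8_2 w4_11) (fun _ => q_))
 (fun o1 => o1.elim (fun q_ => nr6 (h.rrsh 6 0 (fun _ => q_)))
 (fun o2 => o2.elim (fun h3_4 => (Classical.em (0 < D 7 12)).elim (fun w7_12 => tm_224 h h3_4 hb l6_2 l7_2 l8_2 l9_2 r3_2 r4_2 w3_8 w4_11 w4_9 w7_12)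
 (fun n_ => (fun (w2_7 : 0 < D 2 7) => (Classical.em (RR D 2 4)).elim (fun r2_2 => tm_225 h h3_4 hb l5_2 l6_2 l7_2 l8_2 nr6 r2_2 r4_2 w2_5 w2_7 w4_11)
 (fun nr2 => (fun (l2_2 : LL D 2 4) => tm_226 h hb l2_2 r4_2 w2_5 w2_7 w4_9) (h.labL 2 nr2))) (h.flip2 n_ 2 (by decide))))
 (fun h4_4 => tm_227 h h4_4 hb l5_2 l6_2 l7_2 l8_2 w4_11 w4_9)))) (h.labL 7 nr7))

theorem tm_235 {D : ℕ → ℕ → ℝ} (h : Cfg D)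
    (hb : ∀ i, 0 < D i (i + 1))
    (l5_2 : LL D 5 7)
    (l6_2 : LL D 6 8)
    (nr5 : ¬ RR D 5 7)
    (r0_2 : RR D 0 2)
    (r1_2 : RR D 1 3)
    (r3_2 : RR D 3 5)
    (r4_2 : RR D 4 6)
    (w1_9 : 0 < D 1 9)
    (w3_8 : 0 < D 3 8) : False :=
 (Classical.em (RR D 2 4)).elim (fun r2_2 => (h.ch 3 (h.pos_of w3_8 3 6 0 0 (by decide)) (h.pos_of w3_8 5 8 0 0 (by decide))).elim (fun q_ => (fun (l3_2 : LL D 3 5) => tm_229 h hb l3_2 r4_2 w1_9) (fun _ => q_))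
 (fun o1 => o1.elim (fun q_ => nr5 (h.rrsh 5 0 (fun _ => q_)))
 (fun o2 => o2.elim (fun h3_3 => (Classical.em (0 < D 5 10)).elim (fun w5_10 => (Classical.em (RR D 7 9)).elim (fun r7_2 => tm_230 h hb l5_2 r7_2 w5_10)
 (fun nr7 => (fun (l7_2 : LL D 7 9) => tm_231 h h3_3 hb l5_2 l6_2 l7_2 r1_2 r2_2 r3_2 r4_2 w1_9 w5_10) (h.labL 7 nr7)))
 (fun n_ => (fun (w0_5 : 0 < D 0 5) => tm_232 h h3_3 hb l5_2 l6_2 r0_2 r1_2 r2_2 r3_2 r4_2 w0_5 w1_9) (h.flip2 n_ 0 (by decide))))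
 (fun h4_3 => tm_233 h h4_3 hb r1_2 r2_2 r3_2 r4_2 w1_9))))
 (fun nr2 => (fun (l2_2 : LL D 2 4) => tm_234 h hb l2_2 r4_2 w1_9) (h.labL 2 nr2))

theorem tm_243 {D : ℕ → ℕ → ℝ} (h : Cfg D)
    (hb : ∀ i, 0 < D i (i + 1))
    (l5_2 : LL D 5 7)
    (nr5 : ¬ RR D 5 7)
    (r0_2 : RR D 0 2)
    (r1_2 : RR D 1 3)
    (r3_2 : RR D 3 5)
    (r4_2 : RR D 4 6)
    (w1_5 : 0 < D 1 5)
    (w1_7 : 0 < D 1 7)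
    (w2_5 : 0 < D 2 5)
    (w3_5 : 0 < D 3 5)
    (w3_8 : 0 < D 3 8)
    (w3_9 : 0 < D 3 9)
    (w4_9 : 0 < D 4 9) : False :=
 (Classical.em (RR D 2 4)).elim (fun r2_2 => (h.ch 3 (h.pos_of w3_8 3 6 0 0 (by decide)) (h.pos_of w3_8 5 8 0 0 (by decide))).elim (fun q_ => (fun (l3_2 : LL D 3 5) => tm_237 h hb l3_2 r4_2 w1_7) (fun _ => q_))
 (fun o1 => o1.elim (fun q_ => nr5 (h.rrsh 5 0 (fun _ => q_)))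
 (fun o2 => o2.elim (fun h3_3 => (Classical.em (0 < D 5 10)).elim (fun w5_10 => (Classical.em (RR D 7 9)).elim (fun r7_2 => tm_238 h hb l5_2 r7_2 w4_9 w5_10)
 (fun nr7 => (fun (l7_2 : LL D 7 9) => tm_239 h h3_3 hb l5_2 l7_2 r1_2 r2_2 r3_2 r4_2 w1_7 w2_5 w3_5 w3_8 w3_9 w4_9 w5_10) (h.labL 7 nr7)))
 (fun n_ => (fun (w0_5 : 0 < D 0 5) => tm_240 h hb r0_2 r1_2 r2_2 r3_2 r4_2 w0_5 w1_7 w3_5 w3_8 w4_9) (h.flip2 n_ 0 (by decide))))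
 (fun h4_3 => tm_241 h h4_3 hb l5_2 r1_2 r2_2 r3_2 r4_2 w1_5 w1_7 w3_8 w4_9))))
 (fun nr2 => (fun (l2_2 : LL D 2 4) => tm_242 h hb l2_2 r4_2 w1_5 w1_7 w4_9) (h.labL 2 nr2))

theorem tm_255 {D : ℕ → ℕ → ℝ} (h : Cfg D)
    (h3_3 : D 3 6 + D 5 8 < 101 / 100 * D 5 6 + D 3 8)
    (hb : ∀ i, 0 < D i (i + 1))
    (iPY1_3_6_8gm3 : (lv D 18 + lv D 36) + (-3) * Real.log 2 ≤ lv D 16 + lv D 38)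
    (iPZ2_6_7_9gp0 : (lv D 26 + lv D 79) + (0) * Real.log 2 ≤ lv D 27 + lv D 69)
    (l4_3 : LL D 4 7)
    (l4_4 : LL D 4 8)
    (l5_2 : LL D 5 7)
    (l6_2 : LL D 6 8)
    (l9_2 : LL D 9 11)
    (r0_2 : RR D 0 2)
    (r1_2 : RR D 1 3)
    (r2_2 : RR D 2 4)
    (r3_2 : RR D 3 5)
    (r4_2 : RR D 4 6)
    (r7_2 : RR D 7 9)
    (r8_2 : RR D 8 10)
    (w0_4 : 0 < D 0 4)
    (w0_6 : 0 < D 0 6)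
    (w1_4 : 0 < D 1 4)
    (w1_5 : 0 < D 1 5)
    (w2_5 : 0 < D 2 5)
    (w3_5 : 0 < D 3 5)
    (w3_8 : 0 < D 3 8)
    (w3_9 : 0 < D 3 9)
    (w4_9 : 0 < D 4 9)
    (w7_11 : 0 < D 7 11)
    (w7_12 : 0 < D 7 12) : False :=
 (h.lab 3 7 (by decide) (by decide)).elim (fun r3_4 => tm_249 h h3_3 hb iPY1_3_6_8gm3 l5_2 l6_2 l9_2 r0_2 r1_2 r2_2 r3_2 r3_4 r4_2 r7_2 r8_2 w0_4 w0_6 w1_4 w1_5 w3_5 w3_8 w3_9 w4_9 w7_11 w7_12)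
 (fun l3_4 => (le_total ((lv D 39 + lv D 58) + (1) * Real.log 2) (lv D 35 + lv D 89)).elim (fun iPX3_5_8_9gp1 => (h.lab 7 11 (by decide) (by decide)).elim (fun r7_4 => tm_250 h h3_3 hb iPX3_5_8_9gp1 iPZ2_6_7_9gp0 l5_2 l6_2 l9_2 r0_2 r1_2 r2_2 r3_2 r7_2 r7_4 r8_2 w0_6 w2_5 w3_8 w3_9 w4_9 w7_12)
 (fun l7_4 => tm_251 h h3_3 hb iPX3_5_8_9gp1 iPY1_3_6_8gm3 iPZ2_6_7_9gp0 l5_2 l6_2 l7_4 r0_2 r1_2 r2_2 r3_2 r4_2 r8_2 w0_6 w3_9 w4_9 w7_12))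
 (fun iPX3_5_8_9lp1 => (le_total ((lv D 2 + lv D 37) + (0) * Real.log 2) (lv D 3 + lv D 27)).elim (fun iPZ0_2_3_7gp0 => (h.lab 7 11 (by decide) (by decide)).elim (fun r7_4 => tm_252 h h3_3 hb iPZ0_2_3_7gp0 l4_3 l4_4 l5_2 l6_2 r0_2 r1_2 r2_2 r3_2 r7_4 r8_2 w0_6 w2_5 w3_9 w4_9 w7_12)
 (fun l7_4 => tm_253 h hb iPZ0_2_3_7gp0 l7_4 r0_2 r2_2 r8_2 w0_4 w0_6 w1_5 w3_8 w7_12))
 (fun iPZ0_2_3_7lp0 => tm_254 h h3_3 hb iPY1_3_6_8gm3 iPZ0_2_3_7lp0 l5_2 l6_2 r0_2 r1_2 r2_2 r3_2 r4_2 w0_6 w3_8 w4_9 w7_12)))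

theorem tm_259 {D : ℕ → ℕ → ℝ} (h : Cfg D)
    (h3_3 : D 3 6 + D 5 8 < 101 / 100 * D 5 6 + D 3 8)
    (hb : ∀ i, 0 < D i (i + 1))
    (iPZ2_6_7_9gp0 : (lv D 26 + lv D 79) + (0) * Real.log 2 ≤ lv D 27 + lv D 69)
    (l5_2 : LL D 5 7)
    (l6_2 : LL D 6 8)
    (l9_2 : LL D 9 11)
    (r0_2 : RR D 0 2)
    (r1_2 : RR D 1 3)
    (r2_2 : RR D 2 4)
    (r3_2 : RR D 3 5)
    (r4_2 : RR D 4 6)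
    (r7_2 : RR D 7 9)
    (w0_4 : 0 < D 0 4)
    (w0_6 : 0 < D 0 6)
    (w1_4 : 0 < D 1 4)
    (w1_5 : 0 < D 1 5)
    (w2_5 : 0 < D 2 5)
    (w3_5 : 0 < D 3 5)
    (w3_8 : 0 < D 3 8)
    (w3_9 : 0 < D 3 9)
    (w4_9 : 0 < D 4 9)
    (w7_11 : 0 < D 7 11)
    (w7_12 : 0 < D 7 12) : False :=
 (Classical.em (RR D 8 10)).elim (fun r8_2 => (le_total ((lv D 18 + lv D 36) + (-3) * Real.log 2) (lv D 16 + lv D 38)).elim (fun iPY1_3_6_8gm3 => (h.lab 4 7 (by decide) (by decide)).elim (fun r4_3 => tm_247 h hb iPZ2_6_7_9gp0 r1_2 r3_2 r4_3 r7_2 r8_2 w0_4 w0_6 w1_4 w3_8 w3_9 w4_9 w7_11 w7_12)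
 (fun l4_3 => (h.lab 4 8 (by decide) (by decide)).elim (fun r4_4 => tm_248 h hb iPZ2_6_7_9gp0 r0_2 r1_2 r3_2 r4_4 r7_2 r8_2 w0_6 w3_9 w4_9 w7_12)
 (fun l4_4 => tm_255 h h3_3 hb iPY1_3_6_8gm3 iPZ2_6_7_9gp0 l4_3 l4_4 l5_2 l6_2 l9_2 r0_2 r1_2 r2_2 r3_2 r4_2 r7_2 r8_2 w0_4 w0_6 w1_4 w1_5 w2_5 w3_5 w3_8 w3_9 w4_9 w7_11 w7_12)))
 (fun iPY1_3_6_8lm3 => tm_256 h h3_3 hb iPY1_3_6_8lm3 l5_2 l6_2 r0_2 r1_2 r2_2 r3_2 r8_2 w0_6 w3_8 w4_9 w7_11))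
 (fun nr8 => (fun (l8_2 : LL D 8 10) => (h.lab 7 11 (by decide) (by decide)).elim (fun r7_4 => tm_257 h hb iPZ2_6_7_9gp0 l6_2 l8_2 r7_4 w0_6 w4_9 w7_12)
 (fun l7_4 => tm_258 h h3_3 hb iPZ2_6_7_9gp0 l5_2 l6_2 l7_4 l8_2 r0_2 r1_2 r2_2 r3_2 r4_2 w0_4 w0_6 w3_9 w7_12)) (h.labL 8 nr8))

theorem tm_266 {D : ℕ → ℕ → ℝ} (h : Cfg D)
    (hb : ∀ i, 0 < D i (i + 1))
    (l5_2 : LL D 5 7)
    (l6_2 : LL D 6 8)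
    (l9_2 : LL D 9 11)
    (nr5 : ¬ RR D 5 7)
    (r0_2 : RR D 0 2)
    (r1_2 : RR D 1 3)
    (r2_2 : RR D 2 4)
    (r3_2 : RR D 3 5)
    (r4_2 : RR D 4 6)
    (r7_2 : RR D 7 9)
    (w0_4 : 0 < D 0 4)
    (w0_6 : 0 < D 0 6)
    (w1_4 : 0 < D 1 4)
    (w1_5 : 0 < D 1 5)
    (w2_5 : 0 < D 2 5)
    (w3_5 : 0 < D 3 5)
    (w3_8 : 0 < D 3 8)
    (w3_9 : 0 < D 3 9)
    (w4_9 : 0 < D 4 9)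
    (w7_11 : 0 < D 7 11)
    (w7_12 : 0 < D 7 12) : False :=
 (h.ch 3 (h.pos_of w3_8 3 6 0 0 (by decide)) (h.pos_of w3_8 5 8 0 0 (by decide))).elim (fun q_ => (fun (l3_2 : LL D 3 5) => tm_246 h hb l3_2 r4_2 w3_8) (fun _ => q_))
 (fun o1 => o1.elim (fun q_ => nr5 (h.rrsh 5 0 (fun _ => q_)))
 (fun o2 => o2.elim (fun h3_3 => (le_total ((lv D 26 + lv D 79) + (0) * Real.log 2) (lv D 27 + lv D 69)).elim (fun iPZ2_6_7_9gp0 => tm_259 h h3_3 hb iPZ2_6_7_9gp0 l5_2 l6_2 l9_2 r0_2 r1_2 r2_2 r3_2 r4_2 r7_2 w0_4 w0_6 w1_4 w1_5 w2_5 w3_5 w3_8 w3_9 w4_9 w7_11 w7_12)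
 (fun iPZ2_6_7_9lp0 => (le_total ((lv D 16 + lv D 89) + (4) * Real.log 2) (lv D 18 + lv D 69)).elim (fun iPZ1_6_8_9gp4 => (le_total ((lv D 28 + lv D 36) + (-1) * Real.log 2) (lv D 26 + lv D 38)).elim (fun iPY2_3_6_8gm1 => tm_260 h h3_3 hb iPY2_3_6_8gm1 iPZ2_6_7_9lp0 l5_2 l6_2 r0_2 r1_2 r2_2 r3_2 r4_2 w0_6 w3_9 w7_12)
 (fun iPY2_3_6_8lm1 => (Classical.em (RR D 8 10)).elim (fun r8_2 => tm_261 h h3_3 hb iPY2_3_6_8lm1 l5_2 l6_2 l9_2 r0_2 r1_2 r2_2 r3_2 r8_2 w0_4 w0_6 w1_4 w1_5 w3_8 w4_9 w7_12)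
 (fun nr8 => (fun (l8_2 : LL D 8 10) => tm_262 h h3_3 hb iPZ1_6_8_9gp4 l5_2 l6_2 l8_2 r0_2 r1_2 r2_2 r3_2 r4_2 w0_4 w0_6 w2_5 w3_8 w3_9 w4_9 w7_11 w7_12) (h.labL 8 nr8))))
 (fun iPZ1_6_8_9lp4 => tm_263 h h3_3 hb iPZ1_6_8_9lp4 iPZ2_6_7_9lp0 l5_2 l6_2 r0_2 r1_2 r2_2 r3_2 r4_2 w0_6 w3_9 w4_9 w7_12)))
 (fun h4_3 => (Classical.em (RR D 8 10)).elim (fun r8_2 => tm_264 h h4_3 hb r0_2 r2_2 r3_2 r4_2 r8_2 w0_4 w0_6 w1_4 w1_5 w3_9 w7_11)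
 (fun nr8 => (fun (l8_2 : LL D 8 10) => tm_265 h h4_3 hb l5_2 l8_2 r0_2 r1_2 r2_2 r3_2 r4_2 w0_6 w3_8 w3_9 w4_9 w7_11) (h.labL 8 nr8)))))

theorem tm_277 {D : ℕ → ℕ → ℝ} (h : Cfg D)
    (h3_3 : D 3 6 + D 5 8 < 101 / 100 * D 5 6 + D 3 8)
    (hb : ∀ i, 0 < D i (i + 1))
    (l5_2 : LL D 5 7)
    (l6_2 : LL D 6 8)
    (l7_2 : LL D 7 9)
    (l8_2 : LL D 8 10)
    (l9_2 : LL D 9 11)
    (nr6 : ¬ RR D 6 8)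
    (r0_2 : RR D 0 2)
    (r1_2 : RR D 1 3)
    (r2_2 : RR D 2 4)
    (r3_2 : RR D 3 5)
    (r4_2 : RR D 4 6)
    (w0_4 : 0 < D 0 4)
    (w1_4 : 0 < D 1 4)
    (w1_5 : 0 < D 1 5)
    (w2_5 : 0 < D 2 5)
    (w2_6 : 0 < D 2 6)
    (w3_5 : 0 < D 3 5)
    (w3_8 : 0 < D 3 8)
    (w3_9 : 0 < D 3 9)
    (w4_9 : 0 < D 4 9)
    (w6_10 : 0 < D 6 10)
    (w7_11 : 0 < D 7 11)
    (w7_12 : 0 < D 7 12)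
    (w9_11 : 0 < D 9 11) : False :=
 (Classical.em (0 < D 5 10)).elim (fun w5_10 => (Classical.em (0 < D 1 6)).elim (fun w1_6 => tm_271 h h3_3 hb l5_2 l6_2 l7_2 r1_2 r2_2 r3_2 r4_2 w0_4 w1_6 w3_9 w4_9 w5_10 w6_10)
 (fun n_ => (fun (w6_11 : 0 < D 6 11) => tm_272 h h3_3 hb l5_2 l6_2 l7_2 l8_2 l9_2 r2_2 r3_2 w2_6 w3_8 w3_9 w4_9 w5_10 w6_11 w7_12) (h.flip n_ (by decide))))
 (fun n_ => (fun (w0_5 : 0 < D 0 5) => (Classical.em (0 < D 6 11)).elim (fun w6_11 => (h.ch 4 (h.pos_of w4_9 4 7 0 0 (by decide)) (h.pos_of w4_9 6 9 0 0 (by decide))).elim (fun q_ => (fun (l4_2 : LL D 4 6) => tm_273 h h3_3 hb l4_2 l5_2 l6_2 l7_2 l8_2 r0_2 r1_2 r2_2 r3_2 r4_2 w0_4 w0_5 w1_5 w2_6 w3_9 w6_11 w7_11 w7_12 w9_11) (fun _ => q_))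
 (fun o1 => o1.elim (fun q_ => nr6 (h.rrsh 6 0 (fun _ => q_)))
 (fun o2 => o2.elim (fun h3_4 => tm_274 h h3_3 h3_4 hb l5_2 l6_2 l7_2 l8_2 l9_2 r1_2 r2_2 r3_2 r4_2 w0_5 w1_4 w2_5 w2_6 w3_8 w3_9 w4_9 w6_11 w7_12)
 (fun h4_4 => tm_275 h h3_3 h4_4 hb l5_2 l7_2 l8_2 r0_2 r1_2 r2_2 r3_2 r4_2 w0_4 w0_5 w1_5 w2_6 w3_5 w3_8 w3_9 w4_9 w6_11 w9_11))))
 (fun n_ => (fun (w1_6 : 0 < D 1 6) => tm_276 h h3_3 hb l5_2 l6_2 l7_2 l8_2 r0_2 r1_2 r2_2 r3_2 r4_2 w0_5 w1_6 w2_6 w3_9 w4_9 w6_10 w7_12) (h.flip2 n_ 1 (by decide)))) (h.flip2 n_ 0 (by decide)))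

theorem tm_292 {D : ℕ → ℕ → ℝ} (h : Cfg D)
    (h3_4 : D 4 7 + D 6 9 < 101 / 100 * D 6 7 + D 4 9)
    (hb : ∀ i, 0 < D i (i + 1))
    (iPY0_3_5_6gp0 : (lv D 6 + lv D 35) + (0) * Real.log 2 ≤ lv D 5 + lv D 36)
    (l5_2 : LL D 5 7)
    (l6_2 : LL D 6 8)
    (l7_2 : LL D 7 9)
    (l8_2 : LL D 8 10)
    (l9_2 : LL D 9 11)
    (nr5 : ¬ RR D 5 7)
    (r0_2 : RR D 0 2)
    (r3_2 : RR D 3 5)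
    (r4_2 : RR D 4 6)
    (w0_4 : 0 < D 0 4)
    (w0_5 : 0 < D 0 5)
    (w1_4 : 0 < D 1 4)
    (w1_5 : 0 < D 1 5)
    (w2_5 : 0 < D 2 5)
    (w3_8 : 0 < D 3 8)
    (w3_9 : 0 < D 3 9)
    (w4_9 : 0 < D 4 9)
    (w6_10 : 0 < D 6 10)
    (w6_12 : 0 < D 6 12)
    (w7_11 : 0 < D 7 11)
    (w7_12 : 0 < D 7 12)
    (w9_11 : 0 < D 9 11) : False :=
 (le_total ((lv D 5 + lv D 68) + (0) * Real.log 2) (lv D 6 + lv D 58)).elim (fun iPZ0_5_6_8gp0 => (le_total ((lv D 15 + lv D 79) + (0) * Real.log 2) (lv D 17 + lv D 59)).elim (fun iPZ1_5_7_9gp0 => (le_total ((lv D 4 + lv D 69) + (-2) * Real.log 2) (lv D 6 + lv D 49)).elim (fun iPZ0_4_6_9gm2 => tm_283 h h3_4 hb iPZ0_4_6_9gm2 iPZ1_5_7_9gp0 l5_2 l6_2 l7_2 l8_2 l9_2 r3_2 r4_2 w0_4 w1_5 w3_8 w4_9 w6_12 w7_11 w7_12)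
 (fun iPZ0_4_6_9lm2 => (Classical.em (RR D 1 3)).elim (fun r1_2 => tm_284 h h3_4 hb iPZ0_4_6_9lm2 iPZ0_5_6_8gp0 l5_2 l6_2 l7_2 l8_2 l9_2 r1_2 r3_2 r4_2 w0_4 w0_5 w3_8 w3_9 w4_9 w6_10 w6_12)
 (fun nr1 => (fun (l1_2 : LL D 1 3) => tm_285 h h3_4 hb iPZ0_4_6_9lm2 l1_2 l6_2 l7_2 l8_2 l9_2 r0_2 r3_2 r4_2 w0_4 w0_5 w1_4 w2_5 w3_8 w3_9 w4_9 w6_12 w7_12) (h.labL 1 nr1))))
 (fun iPZ1_5_7_9lp0 => (Classical.em (RR D 1 3)).elim (fun r1_2 => tm_286 h h3_4 hb iPY0_3_5_6gp0 iPZ0_5_6_8gp0 iPZ1_5_7_9lp0 l5_2 l6_2 l7_2 l8_2 l9_2 r0_2 r1_2 r3_2 r4_2 w0_5 w1_5 w3_8 w3_9 w4_9 w6_10 w6_12 w7_12)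
 (fun nr1 => (fun (l1_2 : LL D 1 3) => tm_287 h h3_4 hb iPZ1_5_7_9lp0 l1_2 l5_2 l6_2 l7_2 l8_2 l9_2 nr5 r3_2 r4_2 w1_5 w3_8 w3_9 w6_12 w7_12) (h.labL 1 nr1))))
 (fun iPZ0_5_6_8lp0 => (Classical.em (RR D 1 3)).elim (fun r1_2 => (Classical.em (RR D 2 4)).elim (fun r2_2 => tm_288 h h3_4 hb iPZ0_5_6_8lp0 l5_2 l6_2 l7_2 l8_2 l9_2 r1_2 r2_2 r3_2 r4_2 w0_4 w0_5 w1_5 w3_9 w4_9 w6_12 w7_12)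
 (fun nr2 => (fun (l2_2 : LL D 2 4) => (h.lab 0 4 (by decide) (by decide)).elim (fun r0_4 => tm_289 h h3_4 hb iPZ0_5_6_8lp0 l5_2 l6_2 l7_2 l8_2 l9_2 r0_4 r1_2 r3_2 r4_2 w0_5 w1_4 w3_9 w4_9 w6_10 w6_12 w9_11)
 (fun l0_4 => tm_290 h hb iPZ0_5_6_8lp0 l0_4 r1_2 r3_2 w0_5 w2_5 w3_9 w6_12 w7_12)) (h.labL 2 nr2)))
 (fun nr1 => (fun (l1_2 : LL D 1 3) => tm_291 h h3_4 hb iPZ0_5_6_8lp0 l1_2 l5_2 l6_2 l7_2 l8_2 l9_2 nr5 r3_2 r4_2 w0_5 w3_8 w3_9 w4_9 w6_10 w6_12) (h.labL 1 nr1)))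

theorem tm_300 {D : ℕ → ℕ → ℝ} (h : Cfg D)
    (hb : ∀ i, 0 < D i (i + 1))
    (iPY0_3_5_6gp0 : (lv D 6 + lv D 35) + (0) * Real.log 2 ≤ lv D 5 + lv D 36)
    (iPZ0_4_6_9lm3 : lv D 6 + lv D 49 ≤ (lv D 4 + lv D 69) + (-3) * Real.log 2)
    (l5_2 : LL D 5 7)
    (l6_2 : LL D 6 8)
    (l7_2 : LL D 7 9)
    (l8_2 : LL D 8 10)
    (l9_2 : LL D 9 11)
    (nr6 : ¬ RR D 6 8)
    (r0_2 : RR D 0 2)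
    (r3_2 : RR D 3 5)
    (r4_2 : RR D 4 6)
    (w0_4 : 0 < D 0 4)
    (w0_5 : 0 < D 0 5)
    (w1_5 : 0 < D 1 5)
    (w2_5 : 0 < D 2 5)
    (w3_8 : 0 < D 3 8)
    (w3_9 : 0 < D 3 9)
    (w4_9 : 0 < D 4 9)
    (w6_10 : 0 < D 6 10)
    (w6_12 : 0 < D 6 12)
    (w7_11 : 0 < D 7 11)
    (w7_12 : 0 < D 7 12)
    (w8_10 : 0 < D 8 10)
    (w9_11 : 0 < D 9 11) : False :=
 (Classical.em (RR D 1 3)).elim (fun r1_2 => (h.ch 4 (h.pos_of w4_9 4 7 0 0 (by decide)) (h.pos_of w4_9 6 9 0 0 (by decide))).elim (fun q_ => (fun (l4_2 : LL D 4 6) => tm_294 h hb iPZ0_4_6_9lm3 l4_2 l5_2 l6_2 l7_2 l8_2 r0_2 r1_2 r4_2 w0_5 w3_8 w3_9 w4_9 w6_12) (fun _ => q_))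
 (fun o1 => o1.elim (fun q_ => nr6 (h.rrsh 6 0 (fun _ => q_)))
 (fun o2 => o2.elim (fun h3_4 => (Classical.em (RR D 2 4)).elim (fun r2_2 => tm_295 h h3_4 hb iPY0_3_5_6gp0 iPZ0_4_6_9lm3 l5_2 l6_2 l7_2 l8_2 l9_2 r1_2 r2_2 r3_2 r4_2 w0_4 w0_5 w1_5 w2_5 w3_8 w3_9 w4_9 w6_10 w6_12 w7_12 w9_11)
 (fun nr2 => (fun (l2_2 : LL D 2 4) => (h.lab 0 4 (by decide) (by decide)).elim (fun r0_4 => tm_296 h h3_4 hb iPY0_3_5_6gp0 iPZ0_4_6_9lm3 l5_2 l6_2 l7_2 l8_2 l9_2 r0_4 r1_2 r3_2 r4_2 w0_5 w3_9 w6_12)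
 (fun l0_4 => tm_297 h hb iPY0_3_5_6gp0 l0_4 r1_2 r3_2 w0_5 w3_8 w3_9 w4_9 w6_12)) (h.labL 2 nr2)))
 (fun h4_4 => tm_298 h h4_4 hb l5_2 l6_2 l7_2 l8_2 l9_2 r1_2 r3_2 r4_2 w0_4 w0_5 w3_8 w3_9 w4_9 w6_12 w7_12 w8_10))))
 (fun nr1 => (fun (l1_2 : LL D 1 3) => tm_299 h hb iPZ0_4_6_9lm3 l1_2 l6_2 l7_2 l8_2 l9_2 r3_2 w0_4 w3_8 w3_9 w4_9 w6_12 w7_11 w7_12) (h.labL 1 nr1))

theorem tm_309 {D : ℕ → ℕ → ℝ} (h : Cfg D)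
    (hb : ∀ i, 0 < D i (i + 1))
    (iPY0_3_5_6lp0 : lv D 5 + lv D 36 ≤ (lv D 6 + lv D 35) + (0) * Real.log 2)
    (l5_2 : LL D 5 7)
    (l6_2 : LL D 6 8)
    (l7_2 : LL D 7 9)
    (l8_2 : LL D 8 10)
    (l9_2 : LL D 9 11)
    (nr5 : ¬ RR D 5 7)
    (nr6 : ¬ RR D 6 8)
    (nr7 : ¬ RR D 7 9)
    (r0_2 : RR D 0 2)
    (r3_2 : RR D 3 5)
    (r4_2 : RR D 4 6)
    (w0_4 : 0 < D 0 4)
    (w0_5 : 0 < D 0 5)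
    (w1_4 : 0 < D 1 4)
    (w3_8 : 0 < D 3 8)
    (w3_9 : 0 < D 3 9)
    (w4_9 : 0 < D 4 9)
    (w6_10 : 0 < D 6 10)
    (w6_12 : 0 < D 6 12)
    (w7_10 : 0 < D 7 10)
    (w7_11 : 0 < D 7 11)
    (w7_12 : 0 < D 7 12) : False :=
 (h.ch 4 (h.pos_of w4_9 4 7 0 0 (by decide)) (h.pos_of w4_9 6 9 0 0 (by decide))).elim (fun q_ => (fun (l4_2 : LL D 4 6) => (Classical.em (RR D 1 3)).elim (fun r1_2 => tm_301 h hb iPY0_3_5_6lp0 l4_2 l5_2 l6_2 l7_2 l8_2 r0_2 r1_2 r3_2 r4_2 w0_4 w0_5 w3_8 w3_9 w4_9 w6_10 w6_12 w7_10)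
 (fun nr1 => (fun (l1_2 : LL D 1 3) => tm_302 h hb l1_2 l4_2 l6_2 l7_2 l8_2 l9_2 r0_2 r3_2 r4_2 w0_5 w1_4 w3_8 w3_9 w4_9 w6_12 w7_11) (h.labL 1 nr1))) (fun _ => q_))
 (fun o1 => o1.elim (fun q_ => nr6 (h.rrsh 6 0 (fun _ => q_)))
 (fun o2 => o2.elim (fun h3_4 => (le_total ((lv D 3 + lv D 12) + (0) * Real.log 2) (lv D 1 + lv D 23)).elim (fun iPX0_1_2_3gp0 => (le_total ((lv D 2 + lv D 49) + (1) * Real.log 2) (lv D 4 + lv D 29)).elim (fun iPZ0_2_4_9gp1 => (le_total ((lv D 49 + lv D 56) + (-1) * Real.log 2) (lv D 45 + lv D 69)).elim (fun iPX4_5_6_9gm1 => (Classical.em (RR D 1 3)).elim (fun r1_2 => tm_303 h h3_4 hb iPX4_5_6_9gm1 iPY0_3_5_6lp0 l5_2 l6_2 l7_2 l8_2 l9_2 r1_2 r3_2 r4_2 w0_4 w0_5 w3_8 w3_9 w4_9 w6_12)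
 (fun nr1 => (fun (l1_2 : LL D 1 3) => tm_304 h h3_4 hb iPX0_1_2_3gp0 iPZ0_2_4_9gp1 l1_2 l5_2 l6_2 l7_2 l8_2 l9_2 nr5 r3_2 r4_2 w0_4 w0_5 w1_4 w3_8 w4_9 w6_12 w7_10 w7_12) (h.labL 1 nr1)))
 (fun iPX4_5_6_9lm1 => tm_305 h h3_4 hb iPX4_5_6_9lm1 iPY0_3_5_6lp0 l5_2 l6_2 l7_2 l8_2 l9_2 r3_2 r4_2 w0_5 w3_8 w3_9 w4_9 w6_10 w6_12 w7_12))
 (fun iPZ0_2_4_9lp1 => tm_306 h h3_4 hb iPY0_3_5_6lp0 iPZ0_2_4_9lp1 l5_2 l6_2 l7_2 l8_2 l9_2 r3_2 r4_2 w0_5 w3_8 w3_9 w6_12))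
 (fun iPX0_1_2_3lp0 => tm_307 h h3_4 hb iPX0_1_2_3lp0 iPY0_3_5_6lp0 l5_2 l6_2 l7_2 l8_2 l9_2 r3_2 r4_2 w0_5 w3_8 w3_9 w4_9 w6_10 w6_12 w7_11))
 (fun h4_4 => tm_308 h h4_4 hb iPY0_3_5_6lp0 l5_2 l7_2 l9_2 nr7 r4_2 w0_5 w3_8 w3_9 w4_9 w6_10 w6_12 w7_10 w7_12)))

theorem tm_310 {D : ℕ → ℕ → ℝ} (h : Cfg D)
    (hb : ∀ i, 0 < D i (i + 1))
    (l5_2 : LL D 5 7)
    (l6_2 : LL D 6 8)
    (l7_2 : LL D 7 9)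
    (l8_2 : LL D 8 10)
    (l9_2 : LL D 9 11)
    (nr5 : ¬ RR D 5 7)
    (nr6 : ¬ RR D 6 8)
    (nr7 : ¬ RR D 7 9)
    (r0_2 : RR D 0 2)
    (r3_2 : RR D 3 5)
    (r4_2 : RR D 4 6)
    (w0_4 : 0 < D 0 4)
    (w0_5 : 0 < D 0 5)
    (w1_4 : 0 < D 1 4)
    (w1_5 : 0 < D 1 5)
    (w2_5 : 0 < D 2 5)
    (w3_5 : 0 < D 3 5)
    (w3_8 : 0 < D 3 8)
    (w3_9 : 0 < D 3 9)
    (w4_9 : 0 < D 4 9)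
    (w6_10 : 0 < D 6 10)
    (w6_12 : 0 < D 6 12)
    (w7_10 : 0 < D 7 10)
    (w7_11 : 0 < D 7 11)
    (w7_12 : 0 < D 7 12)
    (w7_9 : 0 < D 7 9)
    (w8_10 : 0 < D 8 10)
    (w9_11 : 0 < D 9 11) : False :=
 (le_total ((lv D 6 + lv D 35) + (0) * Real.log 2) (lv D 5 + lv D 36)).elim (fun iPY0_3_5_6gp0 => (le_total ((lv D 4 + lv D 69) + (-3) * Real.log 2) (lv D 6 + lv D 49)).elim (fun iPZ0_4_6_9gm3 => (h.ch 4 (h.pos_of w4_9 4 7 0 0 (by decide)) (h.pos_of w4_9 6 9 0 0 (by decide))).elim (fun q_ => (fun (l4_2 : LL D 4 6) => (Classical.em (RR D 1 3)).elim (fun r1_2 => tm_281 h hb iPZ0_4_6_9gm3 l4_2 l5_2 l6_2 l7_2 l8_2 r0_2 r1_2 r3_2 r4_2 w0_4 w0_5 w3_8 w3_9 w6_10 w6_12 w7_12 w7_9)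
 (fun nr1 => (fun (l1_2 : LL D 1 3) => tm_282 h hb iPY0_3_5_6gp0 l1_2 l4_2 l6_2 l8_2 w0_5 w3_5 w3_8 w4_9 w6_10 w6_12 w7_12) (h.labL 1 nr1))) (fun _ => q_))
 (fun o1 => o1.elim (fun q_ => nr6 (h.rrsh 6 0 (fun _ => q_)))
 (fun o2 => o2.elim (fun h3_4 => tm_292 h h3_4 hb iPY0_3_5_6gp0 l5_2 l6_2 l7_2 l8_2 l9_2 nr5 r0_2 r3_2 r4_2 w0_4 w0_5 w1_4 w1_5 w2_5 w3_8 w3_9 w4_9 w6_10 w6_12 w7_11 w7_12 w9_11)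
 (fun h4_4 => tm_293 h h4_4 hb iPZ0_4_6_9gm3 l5_2 l6_2 l7_2 l8_2 l9_2 r4_2 w0_4 w0_5 w4_9 w6_10 w6_12 w7_10))))
 (fun iPZ0_4_6_9lm3 => tm_300 h hb iPY0_3_5_6gp0 iPZ0_4_6_9lm3 l5_2 l6_2 l7_2 l8_2 l9_2 nr6 r0_2 r3_2 r4_2 w0_4 w0_5 w1_5 w2_5 w3_8 w3_9 w4_9 w6_10 w6_12 w7_11 w7_12 w8_10 w9_11))
 (fun iPY0_3_5_6lp0 => tm_309 h hb iPY0_3_5_6lp0 l5_2 l6_2 l7_2 l8_2 l9_2 nr5 nr6 nr7 r0_2 r3_2 r4_2 w0_4 w0_5 w1_4 w3_8 w3_9 w4_9 w6_10 w6_12 w7_10 w7_11 w7_12)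

theorem tm_312 {D : ℕ → ℕ → ℝ} (h : Cfg D)
    (hb : ∀ i, 0 < D i (i + 1))
    (l5_2 : LL D 5 7)
    (l6_2 : LL D 6 8)
    (l7_2 : LL D 7 9)
    (l8_2 : LL D 8 10)
    (l9_2 : LL D 9 11)
    (nr5 : ¬ RR D 5 7)
    (nr6 : ¬ RR D 6 8)
    (nr7 : ¬ RR D 7 9)
    (r0_2 : RR D 0 2)
    (r3_2 : RR D 3 5)
    (r4_2 : RR D 4 6)
    (w0_4 : 0 < D 0 4)
    (w1_4 : 0 < D 1 4)
    (w1_5 : 0 < D 1 5)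
    (w2_5 : 0 < D 2 5)
    (w3_5 : 0 < D 3 5)
    (w3_8 : 0 < D 3 8)
    (w3_9 : 0 < D 3 9)
    (w4_9 : 0 < D 4 9)
    (w6_10 : 0 < D 6 10)
    (w7_10 : 0 < D 7 10)
    (w7_11 : 0 < D 7 11)
    (w7_12 : 0 < D 7 12)
    (w7_9 : 0 < D 7 9)
    (w8_10 : 0 < D 8 10)
    (w9_11 : 0 < D 9 11) : False :=
 (Classical.em (0 < D 2 6)).elim (fun w2_6 => (Classical.em (RR D 2 4)).elim (fun r2_2 => (Classical.em (RR D 1 3)).elim (fun r1_2 => (h.ch 3 (h.pos_of w3_8 3 6 0 0 (by decide)) (h.pos_of w3_8 5 8 0 0 (by decide))).elim (fun q_ => (fun (l3_2 : LL D 3 5) => tm_270 h hb l3_2 r4_2 w3_8) (fun _ => q_))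
 (fun o1 => o1.elim (fun q_ => nr5 (h.rrsh 5 0 (fun _ => q_)))
 (fun o2 => o2.elim (fun h3_3 => tm_277 h h3_3 hb l5_2 l6_2 l7_2 l8_2 l9_2 nr6 r0_2 r1_2 r2_2 r3_2 r4_2 w0_4 w1_4 w1_5 w2_5 w2_6 w3_5 w3_8 w3_9 w4_9 w6_10 w7_11 w7_12 w9_11)
 (fun h4_3 => tm_278 h h4_3 hb l5_2 l6_2 l8_2 l9_2 r2_2 r3_2 r4_2 w0_4 w2_5 w2_6 w3_8 w3_9 w4_9 w6_10 w7_12))))
 (fun nr1 => (fun (l1_2 : LL D 1 3) => tm_279 h hb l1_2 r2_2 w1_4 w1_5 w2_5) (h.labL 1 nr1)))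
 (fun nr2 => (fun (l2_2 : LL D 2 4) => tm_280 h hb l2_2 r3_2 w2_5 w2_6 w3_8) (h.labL 2 nr2)))
 (fun n_ => (fun (w6_12 : 0 < D 6 12) => (Classical.em (0 < D 0 5)).elim (fun w0_5 => tm_310 h hb l5_2 l6_2 l7_2 l8_2 l9_2 nr5 nr6 nr7 r0_2 r3_2 r4_2 w0_4 w0_5 w1_4 w1_5 w2_5 w3_5 w3_8 w3_9 w4_9 w6_10 w6_12 w7_10 w7_11 w7_12 w7_9 w8_10 w9_11)
 (fun n_ => (fun (w5_10 : 0 < D 5 10) => tm_311 h hb l5_2 l6_2 l7_2 l8_2 l9_2 w4_9 w5_10 w6_10 w6_12 w7_12) (h.flip n_ (by decide)))) (h.flip n_ (by decide)))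

theorem tm_320 {D : ℕ → ℕ → ℝ} (h : Cfg D)
    (h3_3 : D 3 6 + D 5 8 < 101 / 100 * D 5 6 + D 3 8)
    (hb : ∀ i, 0 < D i (i + 1))
    (l5_2 : LL D 5 7)
    (l6_2 : LL D 6 8)
    (l7_2 : LL D 7 9)
    (l8_2 : LL D 8 10)
    (l9_2 : LL D 9 11)
    (nr7 : ¬ RR D 7 9)
    (r0_2 : RR D 0 2)
    (r1_2 : RR D 1 3)
    (r2_2 : RR D 2 4)
    (r3_2 : RR D 3 5)
    (r4_2 : RR D 4 6)
    (w0_4 : 0 < D 0 4)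
    (w0_6 : 0 < D 0 6)
    (w1_4 : 0 < D 1 4)
    (w2_4 : 0 < D 2 4)
    (w2_5 : 0 < D 2 5)
    (w3_5 : 0 < D 3 5)
    (w3_8 : 0 < D 3 8)
    (w3_9 : 0 < D 3 9)
    (w4_9 : 0 < D 4 9)
    (w7_10 : 0 < D 7 10)
    (w7_11 : 0 < D 7 11)
    (w7_12 : 0 < D 7 12)
    (w8_10 : 0 < D 8 10) : False :=
 (le_total ((lv D 12 + lv D 47) + (-2) * Real.log 2) (lv D 14 + lv D 27)).elim (fun iPZ1_2_4_7gm2 => (le_total ((lv D 27 + lv D 36) + (2) * Real.log 2) (lv D 26 + lv D 37)).elim (fun iPY2_3_6_7gp2 => tm_314 h h3_3 hb iPY2_3_6_7gp2 l5_2 l6_2 r0_2 r1_2 r2_2 r3_2 r4_2 w0_6 w3_8 w4_9 w7_12)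
 (fun iPY2_3_6_7lp2 => (le_total ((lv D 6 + lv D 79) + (5) * Real.log 2) (lv D 7 + lv D 69)).elim (fun iPZ0_6_7_9gp5 => tm_315 h h3_3 hb iPZ0_6_7_9gp5 l5_2 l6_2 l7_2 l8_2 r0_2 r1_2 r2_2 r3_2 r4_2 w0_6 w3_8 w3_9 w4_9 w7_11 w7_12)
 (fun iPZ0_6_7_9lp5 => (le_total ((lv D 7 + lv D 56) + (-2) * Real.log 2) (lv D 6 + lv D 57)).elim (fun iPY0_5_6_7gm2 => (le_total ((lv D 27 + lv D 36) + (0) * Real.log 2) (lv D 26 + lv D 37)).elim (fun iPY2_3_6_7gp0 => tm_316 h h3_3 hb iPY2_3_6_7gp0 l5_2 l6_2 l7_2 l8_2 l9_2 nr7 r0_2 r1_2 r2_2 r3_2 r4_2 w0_6 w3_8 w3_9 w4_9 w7_10 w7_12)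
 (fun iPY2_3_6_7lp0 => tm_317 h h3_3 hb iPY2_3_6_7lp0 l5_2 l6_2 l7_2 l8_2 r0_2 r1_2 r2_2 r3_2 r4_2 w0_6 w3_8 w3_9 w4_9 w7_10 w7_12 w8_10))
 (fun iPY0_5_6_7lm2 => tm_318 h h3_3 hb iPY0_5_6_7lm2 l5_2 l6_2 l7_2 l8_2 r0_2 r1_2 r2_2 r3_2 r4_2 w0_6 w3_5 w3_8 w3_9 w4_9 w7_12))))
 (fun iPZ1_2_4_7lm2 => tm_319 h h3_3 hb iPZ1_2_4_7lm2 l5_2 l6_2 r0_2 r1_2 r2_2 r3_2 r4_2 w0_4 w0_6 w1_4 w2_4 w2_5 w3_5 w3_8 w3_9 w4_9 w7_12)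

theorem tm_325 {D : ℕ → ℕ → ℝ} (h : Cfg D)
    (hb : ∀ i, 0 < D i (i + 1))
    (l5_2 : LL D 5 7)
    (l6_2 : LL D 6 8)
    (l7_2 : LL D 7 9)
    (l8_2 : LL D 8 10)
    (l9_2 : LL D 9 11)
    (nr5 : ¬ RR D 5 7)
    (nr7 : ¬ RR D 7 9)
    (r0_2 : RR D 0 2)
    (r3_2 : RR D 3 5)
    (r4_2 : RR D 4 6)
    (w0_4 : 0 < D 0 4)
    (w0_6 : 0 < D 0 6)
    (w1_4 : 0 < D 1 4)
    (w1_5 : 0 < D 1 5)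
    (w2_4 : 0 < D 2 4)
    (w2_5 : 0 < D 2 5)
    (w3_5 : 0 < D 3 5)
    (w3_8 : 0 < D 3 8)
    (w3_9 : 0 < D 3 9)
    (w4_9 : 0 < D 4 9)
    (w7_10 : 0 < D 7 10)
    (w7_11 : 0 < D 7 11)
    (w7_12 : 0 < D 7 12)
    (w8_10 : 0 < D 8 10) : False :=
 (Classical.em (RR D 1 3)).elim (fun r1_2 => (le_total ((lv D 16 + lv D 79) + (-1) * Real.log 2) (lv D 17 + lv D 69)).elim (fun iPZ1_6_7_9gm1 => (Classical.em (RR D 2 4)).elim (fun r2_2 => (h.ch 3 (h.pos_of w3_8 3 6 0 0 (by decide)) (h.pos_of w3_8 5 8 0 0 (by decide))).elim (fun q_ => (fun (l3_2 : LL D 3 5) => tm_313 h hb l3_2 r4_2 w3_8 w3_9 w4_9) (fun _ => q_))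
 (fun o1 => o1.elim (fun q_ => nr5 (h.rrsh 5 0 (fun _ => q_)))
 (fun o2 => o2.elim (fun h3_3 => tm_320 h h3_3 hb l5_2 l6_2 l7_2 l8_2 l9_2 nr7 r0_2 r1_2 r2_2 r3_2 r4_2 w0_4 w0_6 w1_4 w2_4 w2_5 w3_5 w3_8 w3_9 w4_9 w7_10 w7_11 w7_12 w8_10)
 (fun h4_3 => tm_321 h h4_3 hb l5_2 l6_2 l8_2 r0_2 r1_2 r2_2 r3_2 r4_2 w0_4 w0_6 w1_5 w3_8 w3_9 w4_9 w7_11))))
 (fun nr2 => (fun (l2_2 : LL D 2 4) => tm_322 h hb l2_2 r3_2 w0_6 w2_5 w3_8) (h.labL 2 nr2)))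
 (fun iPZ1_6_7_9lm1 => tm_323 h hb iPZ1_6_7_9lm1 r0_2 r1_2 r3_2 r4_2 w0_4 w0_6 w1_4 w3_8 w3_9 w7_11))
 (fun nr1 => (fun (l1_2 : LL D 1 3) => tm_324 h hb l1_2 r3_2 w0_6) (h.labL 1 nr1))

theorem tm_326 {D : ℕ → ℕ → ℝ} (h : Cfg D)
    (hb : ∀ i, 0 < D i (i + 1))
    (l5_2 : LL D 5 7)
    (l6_2 : LL D 6 8)
    (l9_2 : LL D 9 11)
    (nr5 : ¬ RR D 5 7)
    (nr6 : ¬ RR D 6 8)
    (r0_2 : RR D 0 2)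
    (r3_2 : RR D 3 5)
    (r4_2 : RR D 4 6)
    (w0_4 : 0 < D 0 4)
    (w1_4 : 0 < D 1 4)
    (w1_5 : 0 < D 1 5)
    (w2_4 : 0 < D 2 4)
    (w2_5 : 0 < D 2 5)
    (w3_5 : 0 < D 3 5)
    (w3_8 : 0 < D 3 8)
    (w3_9 : 0 < D 3 9)
    (w4_9 : 0 < D 4 9)
    (w7_10 : 0 < D 7 10)
    (w7_11 : 0 < D 7 11)
    (w7_12 : 0 < D 7 12)
    (w7_9 : 0 < D 7 9)
    (w8_10 : 0 < D 8 10)
    (w9_11 : 0 < D 9 11) : False :=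
 (Classical.em (RR D 7 9)).elim (fun r7_2 => (Classical.em (0 < D 6 10)).elim (fun w6_10 => tm_245 h hb l6_2 r7_2 w4_9 w6_10 w7_10)
 (fun n_ => (fun (w0_6 : 0 < D 0 6) => (Classical.em (RR D 1 3)).elim (fun r1_2 => (Classical.em (RR D 2 4)).elim (fun r2_2 => tm_266 h hb l5_2 l6_2 l9_2 nr5 r0_2 r1_2 r2_2 r3_2 r4_2 r7_2 w0_4 w0_6 w1_4 w1_5 w2_5 w3_5 w3_8 w3_9 w4_9 w7_11 w7_12)
 (fun nr2 => (fun (l2_2 : LL D 2 4) => tm_267 h hb l2_2 r3_2 w0_6 w2_5 w3_8) (h.labL 2 nr2)))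
 (fun nr1 => (fun (l1_2 : LL D 1 3) => tm_268 h hb l1_2 r3_2 w0_6) (h.labL 1 nr1))) (h.flip2 n_ 0 (by decide))))
 (fun nr7 => (fun (l7_2 : LL D 7 9) => (Classical.em (RR D 8 10)).elim (fun r8_2 => tm_269 h hb l7_2 r8_2 w0_4 w1_4 w3_8 w7_10 w7_11)
 (fun nr8 => (fun (l8_2 : LL D 8 10) => (Classical.em (0 < D 6 10)).elim (fun w6_10 => tm_312 h hb l5_2 l6_2 l7_2 l8_2 l9_2 nr5 nr6 nr7 r0_2 r3_2 r4_2 w0_4 w1_4 w1_5 w2_5 w3_5 w3_8 w3_9 w4_9 w6_10 w7_10 w7_11 w7_12 w7_9 w8_10 w9_11)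
 (fun n_ => (fun (w0_6 : 0 < D 0 6) => tm_325 h hb l5_2 l6_2 l7_2 l8_2 l9_2 nr5 nr7 r0_2 r3_2 r4_2 w0_4 w0_6 w1_4 w1_5 w2_4 w2_5 w3_5 w3_8 w3_9 w4_9 w7_10 w7_11 w7_12 w8_10) (h.flip2 n_ 0 (by decide)))) (h.labL 8 nr8))) (h.labL 7 nr7))

theorem tm_335 {D : ℕ → ℕ → ℝ} (h : Cfg D)
    (hb : ∀ i, 0 < D i (i + 1))
    (l5_2 : LL D 5 7)
    (l6_2 : LL D 6 8)
    (l7_2 : LL D 7 9)
    (nr5 : ¬ RR D 5 7)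
    (r0_2 : RR D 0 2)
    (r1_2 : RR D 1 3)
    (r2_2 : RR D 2 4)
    (r3_2 : RR D 3 5)
    (r4_2 : RR D 4 6)
    (w0_4 : 0 < D 0 4)
    (w1_4 : 0 < D 1 4)
    (w1_5 : 0 < D 1 5)
    (w2_7 : 0 < D 2 7)
    (w3_5 : 0 < D 3 5)
    (w3_8 : 0 < D 3 8)
    (w3_9 : 0 < D 3 9)
    (w4_9 : 0 < D 4 9)
    (w6_10 : 0 < D 6 10)
    (w7_10 : 0 < D 7 10)
    (w7_11 : 0 < D 7 11) : False :=
 (Classical.em (RR D 8 10)).elim (fun r8_2 => tm_329 h hb l7_2 r8_2 w7_10 w7_11)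
 (fun nr8 => (fun (l8_2 : LL D 8 10) => (h.ch 3 (h.pos_of w3_8 3 6 0 0 (by decide)) (h.pos_of w3_8 5 8 0 0 (by decide))).elim (fun q_ => (fun (l3_2 : LL D 3 5) => tm_330 h hb l3_2 r4_2 w3_8 w3_9 w4_9) (fun _ => q_))
 (fun o1 => o1.elim (fun q_ => nr5 (h.rrsh 5 0 (fun _ => q_)))
 (fun o2 => o2.elim (fun h3_3 => (Classical.em (0 < D 1 6)).elim (fun w1_6 => (Classical.em (0 < D 0 5)).elim (fun w0_5 => tm_331 h h3_3 hb l5_2 l6_2 l7_2 r0_2 r1_2 r2_2 r3_2 r4_2 w0_4 w0_5 w1_6 w2_7 w3_9 w4_9 w6_10)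
 (fun n_ => (fun (w5_10 : 0 < D 5 10) => tm_332 h h3_3 hb l5_2 l7_2 r1_2 r2_2 r3_2 r4_2 w0_4 w1_6 w3_8 w5_10) (h.flip n_ (by decide))))
 (fun n_ => (fun (w6_11 : 0 < D 6 11) => tm_333 h h3_3 hb l5_2 l6_2 l7_2 l8_2 r1_2 r2_2 r3_2 r4_2 w1_4 w1_5 w2_7 w3_5 w3_8 w3_9 w4_9 w6_11) (h.flip n_ (by decide))))
 (fun h4_3 => tm_334 h h4_3 hb l5_2 l8_2 r2_2 r3_2 r4_2 w2_7 w3_8 w3_9 w4_9 w7_11)))) (h.labL 8 nr8))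

theorem tm_338 {D : ℕ → ℕ → ℝ} (h : Cfg D)
    (hb : ∀ i, 0 < D i (i + 1))
    (l5_2 : LL D 5 7)
    (l6_2 : LL D 6 8)
    (l9_2 : LL D 9 11)
    (nr5 : ¬ RR D 5 7)
    (nr6 : ¬ RR D 6 8)
    (r0_2 : RR D 0 2)
    (r3_2 : RR D 3 5)
    (r4_2 : RR D 4 6)
    (w0_4 : 0 < D 0 4)
    (w1_4 : 0 < D 1 4)
    (w1_5 : 0 < D 1 5)
    (w2_4 : 0 < D 2 4)
    (w2_5 : 0 < D 2 5)
    (w3_5 : 0 < D 3 5)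
    (w3_8 : 0 < D 3 8)
    (w3_9 : 0 < D 3 9)
    (w4_9 : 0 < D 4 9)
    (w7_10 : 0 < D 7 10)
    (w7_11 : 0 < D 7 11)
    (w7_9 : 0 < D 7 9)
    (w8_10 : 0 < D 8 10)
    (w9_11 : 0 < D 9 11) : False :=
 (Classical.em (0 < D 7 12)).elim (fun w7_12 => tm_326 h hb l5_2 l6_2 l9_2 nr5 nr6 r0_2 r3_2 r4_2 w0_4 w1_4 w1_5 w2_4 w2_5 w3_5 w3_8 w3_9 w4_9 w7_10 w7_11 w7_12 w7_9 w8_10 w9_11)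
 (fun n_ => (fun (w2_7 : 0 < D 2 7) => (Classical.em (RR D 2 4)).elim (fun r2_2 => (Classical.em (RR D 1 3)).elim (fun r1_2 => (Classical.em (0 < D 0 6)).elim (fun w0_6 => tm_327 h hb r0_2 r1_2 r2_2 r3_2 r4_2 w0_6 w2_7)
 (fun n_ => (fun (w6_10 : 0 < D 6 10) => (Classical.em (RR D 7 9)).elim (fun r7_2 => tm_328 h hb l6_2 r7_2 w4_9 w6_10 w7_10)
 (fun nr7 => (fun (l7_2 : LL D 7 9) => tm_335 h hb l5_2 l6_2 l7_2 nr5 r0_2 r1_2 r2_2 r3_2 r4_2 w0_4 w1_4 w1_5 w2_7 w3_5 w3_8 w3_9 w4_9 w6_10 w7_10 w7_11) (h.labL 7 nr7))) (h.flip n_ (by decide))))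
 (fun nr1 => (fun (l1_2 : LL D 1 3) => tm_336 h hb l1_2 r2_2 w1_4 w1_5 w2_5) (h.labL 1 nr1)))
 (fun nr2 => (fun (l2_2 : LL D 2 4) => tm_337 h hb l2_2 r4_2 w2_5 w2_7 w3_8) (h.labL 2 nr2))) (h.flip2 n_ 2 (by decide)))

theorem tm_348 {D : ℕ → ℕ → ℝ} (h : Cfg D)
    (hb : ∀ i, 0 < D i (i + 1))
    (l5_2 : LL D 5 7)
    (l6_2 : LL D 6 8)
    (l7_2 : LL D 7 9)
    (l8_2 : LL D 8 10)
    (nr5 : ¬ RR D 5 7)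
    (nr6 : ¬ RR D 6 8)
    (r2_2 : RR D 2 4)
    (r3_2 : RR D 3 5)
    (r4_2 : RR D 4 6)
    (w1_4 : 0 < D 1 4)
    (w1_5 : 0 < D 1 5)
    (w2_5 : 0 < D 2 5)
    (w2_6 : 0 < D 2 6)
    (w3_8 : 0 < D 3 8)
    (w3_9 : 0 < D 3 9)
    (w4_10 : 0 < D 4 10)
    (w4_9 : 0 < D 4 9)
    (w7_10 : 0 < D 7 10)
    (w7_11 : 0 < D 7 11) : False :=
 (h.ch 3 (h.pos_of w3_8 3 6 0 0 (by decide)) (h.pos_of w3_8 5 8 0 0 (by decide))).elim (fun q_ => (fun (l3_2 : LL D 3 5) => tm_342 h hb l3_2 r4_2 w3_8) (fun _ => q_))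
 (fun o1 => o1.elim (fun q_ => nr5 (h.rrsh 5 0 (fun _ => q_)))
 (fun o2 => o2.elim (fun h3_3 => (h.ch 4 (h.pos_of w4_9 4 7 0 0 (by decide)) (h.pos_of w4_9 6 9 0 0 (by decide))).elim (fun q_ => (fun (l4_2 : LL D 4 6) => (Classical.em (RR D 1 3)).elim (fun r1_2 => tm_343 h h3_3 hb l4_2 l5_2 l6_2 l7_2 r1_2 r2_2 r3_2 w1_5 w2_6 w3_8 w3_9 w4_10 w4_9)
 (fun nr1 => (fun (l1_2 : LL D 1 3) => tm_344 h hb l1_2 r2_2 w1_4 w1_5 w2_5) (h.labL 1 nr1))) (fun _ => q_))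
 (fun o1 => o1.elim (fun q_ => nr6 (h.rrsh 6 0 (fun _ => q_)))
 (fun o2 => o2.elim (fun h3_4 => tm_345 h h3_3 h3_4 hb l5_2 l6_2 l7_2 l8_2 r2_2 r3_2 r4_2 w2_6 w3_9 w4_10 w4_9 w7_10 w7_11)
 (fun h4_4 => tm_346 h h3_3 h4_4 hb l5_2 l6_2 l7_2 r3_2 r4_2 w3_8 w3_9 w4_10))))
 (fun h4_3 => tm_347 h h4_3 hb l5_2 l6_2 l8_2 r2_2 r3_2 r4_2 w2_6 w3_8 w3_9 w4_9 w7_11)))

theorem tm_350 {D : ℕ → ℕ → ℝ} (h : Cfg D)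
    (hb : ∀ i, 0 < D i (i + 1))
    (l5_2 : LL D 5 7)
    (l6_2 : LL D 6 8)
    (l9_2 : LL D 9 11)
    (nr5 : ¬ RR D 5 7)
    (nr6 : ¬ RR D 6 8)
    (r0_2 : RR D 0 2)
    (r3_2 : RR D 3 5)
    (r4_2 : RR D 4 6)
    (w1_4 : 0 < D 1 4)
    (w1_5 : 0 < D 1 5)
    (w2_4 : 0 < D 2 4)
    (w2_5 : 0 < D 2 5)
    (w3_5 : 0 < D 3 5)
    (w3_8 : 0 < D 3 8)
    (w3_9 : 0 < D 3 9)
    (w4_9 : 0 < D 4 9)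
    (w7_10 : 0 < D 7 10)
    (w7_11 : 0 < D 7 11)
    (w7_9 : 0 < D 7 9)
    (w8_10 : 0 < D 8 10)
    (w9_11 : 0 < D 9 11) : False :=
 (Classical.em (0 < D 0 4)).elim (fun w0_4 => tm_338 h hb l5_2 l6_2 l9_2 nr5 nr6 r0_2 r3_2 r4_2 w0_4 w1_4 w1_5 w2_4 w2_5 w3_5 w3_8 w3_9 w4_9 w7_10 w7_11 w7_9 w8_10 w9_11)
 (fun n_ => (fun (w4_10 : 0 < D 4 10) => (Classical.em (RR D 7 9)).elim (fun r7_2 => tm_339 h hb l6_2 r7_2 w4_10 w4_9 w7_10)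
 (fun nr7 => (fun (l7_2 : LL D 7 9) => (Classical.em (RR D 8 10)).elim (fun r8_2 => tm_340 h hb l7_2 r8_2 w7_11)
 (fun nr8 => (fun (l8_2 : LL D 8 10) => (Classical.em (0 < D 6 12)).elim (fun w6_12 => tm_341 h hb l5_2 l6_2 l7_2 l8_2 l9_2 w4_10 w4_9 w6_12 w7_10)
 (fun n_ => (fun (w2_6 : 0 < D 2 6) => (Classical.em (RR D 2 4)).elim (fun r2_2 => tm_348 h hb l5_2 l6_2 l7_2 l8_2 nr5 nr6 r2_2 r3_2 r4_2 w1_4 w1_5 w2_5 w2_6 w3_8 w3_9 w4_10 w4_9 w7_10 w7_11)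
 (fun nr2 => (fun (l2_2 : LL D 2 4) => tm_349 h hb l2_2 r3_2 w2_5 w2_6 w3_8) (h.labL 2 nr2))) (h.flip2 n_ 2 (by decide)))) (h.labL 8 nr8))) (h.labL 7 nr7))) (h.flip n_ (by decide)))

theorem tm_359 {D : ℕ → ℕ → ℝ} (h : Cfg D)
    (hb : ∀ i, 0 < D i (i + 1))
    (l5_2 : LL D 5 7)
    (l6_2 : LL D 6 8)
    (l7_2 : LL D 7 9)
    (nr5 : ¬ RR D 5 7)
    (nr6 : ¬ RR D 6 8)
    (r1_2 : RR D 1 3)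
    (r2_2 : RR D 2 4)
    (r3_2 : RR D 3 5)
    (r4_2 : RR D 4 6)
    (w1_5 : 0 < D 1 5)
    (w2_10 : 0 < D 2 10)
    (w2_5 : 0 < D 2 5)
    (w3_8 : 0 < D 3 8)
    (w4_9 : 0 < D 4 9) : False :=
 (h.ch 4 (h.pos_of w4_9 4 7 0 0 (by decide)) (h.pos_of w4_9 6 9 0 0 (by decide))).elim (fun q_ => (fun (l4_2 : LL D 4 6) => (h.ch 3 (h.pos_of w3_8 3 6 0 0 (by decide)) (h.pos_of w3_8 5 8 0 0 (by decide))).elim (fun q_ => (fun (l3_2 : LL D 3 5) => tm_352 h l3_2 r4_2 w2_10) (fun _ => q_))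
 (fun o1 => o1.elim (fun q_ => nr5 (h.rrsh 5 0 (fun _ => q_)))
 (fun o2 => o2.elim (fun h3_3 => tm_353 h h3_3 hb l4_2 l5_2 l6_2 l7_2 r1_2 r3_2 w1_5 w2_10 w2_5 w4_9)
 (fun h4_3 => tm_354 h h4_3 hb l4_2 l5_2 l6_2 l7_2 r3_2 w2_10)))) (fun _ => q_))
 (fun o1 => o1.elim (fun q_ => nr6 (h.rrsh 6 0 (fun _ => q_)))
 (fun o2 => o2.elim (fun h3_4 => (h.ch 3 (h.pos_of w3_8 3 6 0 0 (by decide)) (h.pos_of w3_8 5 8 0 0 (by decide))).elim (fun q_ => (fun (l3_2 : LL D 3 5) => tm_355 h hb l3_2 r4_2 w3_8) (fun _ => q_))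
 (fun o1 => o1.elim (fun q_ => nr5 (h.rrsh 5 0 (fun _ => q_)))
 (fun o2 => o2.elim (fun h3_3 => tm_356 h h3_3 h3_4 hb l5_2 l6_2 l7_2 nr5 r1_2 r2_2 r3_2 r4_2 w1_5 w2_10 w3_8)
 (fun h4_3 => tm_357 h h3_4 h4_3 hb l5_2 l6_2 l7_2 r2_2 r3_2 r4_2 w2_10 w3_8))))
 (fun h4_4 => tm_358 h h4_4 hb l5_2 l6_2 l7_2 r1_2 r2_2 r3_2 r4_2 w1_5 w2_10 w4_9)))

theorem tm_362 {D : ℕ → ℕ → ℝ} (h : Cfg D)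
    (hb : ∀ i, 0 < D i (i + 1))
    (l5_2 : LL D 5 7)
    (l6_2 : LL D 6 8)
    (l9_2 : LL D 9 11)
    (nr5 : ¬ RR D 5 7)
    (nr6 : ¬ RR D 6 8)
    (r0_2 : RR D 0 2)
    (r3_2 : RR D 3 5)
    (r4_2 : RR D 4 6)
    (w1_4 : 0 < D 1 4)
    (w1_5 : 0 < D 1 5)
    (w2_4 : 0 < D 2 4)
    (w2_5 : 0 < D 2 5)
    (w3_5 : 0 < D 3 5)
    (w3_8 : 0 < D 3 8)
    (w3_9 : 0 < D 3 9)
    (w4_9 : 0 < D 4 9)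
    (w7_10 : 0 < D 7 10)
    (w7_9 : 0 < D 7 9)
    (w8_10 : 0 < D 8 10)
    (w9_11 : 0 < D 9 11) : False :=
 (Classical.em (0 < D 0 2)).elim (fun w0_2 => (Classical.em (0 < D 1 7)).elim (fun w1_7 => (Classical.em (RR D 1 3)).elim (fun r1_2 => tm_243 h hb l5_2 nr5 r0_2 r1_2 r3_2 r4_2 w1_5 w1_7 w2_5 w3_5 w3_8 w3_9 w4_9)
 (fun nr1 => (fun (l1_2 : LL D 1 3) => tm_244 h hb l1_2 r4_2 w1_5 w1_7) (h.labL 1 nr1)))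
 (fun n_ => (fun (w7_11 : 0 < D 7 11) => tm_350 h hb l5_2 l6_2 l9_2 nr5 nr6 r0_2 r3_2 r4_2 w1_4 w1_5 w2_4 w2_5 w3_5 w3_8 w3_9 w4_9 w7_10 w7_11 w7_9 w8_10 w9_11) (h.flip n_ (by decide))))
 (fun n_ => (fun (w2_10 : 0 < D 2 10) => (Classical.em (RR D 2 4)).elim (fun r2_2 => (Classical.em (RR D 7 9)).elim (fun r7_2 => tm_351 h hb l5_2 r7_2 w2_10 w4_9 w7_10)
 (fun nr7 => (fun (l7_2 : LL D 7 9) => (Classical.em (RR D 1 3)).elim (fun r1_2 => tm_359 h hb l5_2 l6_2 l7_2 nr5 nr6 r1_2 r2_2 r3_2 r4_2 w1_5 w2_10 w2_5 w3_8 w4_9)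
 (fun nr1 => (fun (l1_2 : LL D 1 3) => tm_360 h hb l1_2 r2_2 w1_4 w1_5 w2_5) (h.labL 1 nr1))) (h.labL 7 nr7)))
 (fun nr2 => (fun (l2_2 : LL D 2 4) => tm_361 h hb l2_2 r3_2 w2_10 w2_5 w3_8) (h.labL 2 nr2))) (h.flip n_ (by decide)))

theorem tm_370 {D : ℕ → ℕ → ℝ} (h : Cfg D)
    (hb : ∀ i, 0 < D i (i + 1))
    (l5_2 : LL D 5 7)
    (l6_2 : LL D 6 8)
    (l8_2 : LL D 8 10)
    (l9_2 : LL D 9 11)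
    (nr6 : ¬ RR D 6 8)
    (r3_2 : RR D 3 5)
    (r4_2 : RR D 4 6)
    (w2_5 : 0 < D 2 5)
    (w3_8 : 0 < D 3 8)
    (w3_9 : 0 < D 3 9)
    (w4_9 : 0 < D 4 9)
    (w5_11 : 0 < D 5 11)
    (w7_10 : 0 < D 7 10) : False :=
 (Classical.em (RR D 7 9)).elim (fun r7_2 => tm_364 h hb l5_2 r7_2 w4_9 w5_11 w7_10)
 (fun nr7 => (fun (l7_2 : LL D 7 9) => (h.ch 4 (h.pos_of w4_9 4 7 0 0 (by decide)) (h.pos_of w4_9 6 9 0 0 (by decide))).elim (fun q_ => (fun (l4_2 : LL D 4 6) => tm_365 h hb l4_2 l5_2 l6_2 l7_2 l8_2 w3_8 w3_9 w4_9 w5_11) (fun _ => q_))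
 (fun o1 => o1.elim (fun q_ => nr6 (h.rrsh 6 0 (fun _ => q_)))
 (fun o2 => o2.elim (fun h3_4 => (Classical.em (0 < D 7 12)).elim (fun w7_12 => tm_366 h h3_4 hb l5_2 l6_2 l7_2 l8_2 l9_2 r3_2 r4_2 w3_9 w5_11 w7_12)
 (fun n_ => (fun (w2_7 : 0 < D 2 7) => (Classical.em (RR D 2 4)).elim (fun r2_2 => tm_367 h h3_4 hb l5_2 l6_2 l7_2 l8_2 r2_2 r3_2 r4_2 w2_5 w2_7 w3_8 w3_9 w4_9 w5_11)
 (fun nr2 => (fun (l2_2 : LL D 2 4) => tm_368 h hb l2_2 r4_2 w2_7) (h.labL 2 nr2))) (h.flip2 n_ 2 (by decide))))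
 (fun h4_4 => tm_369 h h4_4 hb l5_2 l6_2 l7_2 l8_2 r4_2 w4_9 w5_11)))) (h.labL 7 nr7))

theorem tm_371 {D : ℕ → ℕ → ℝ} (h : Cfg D)
    (hb : ∀ i, 0 < D i (i + 1))
    (l5_2 : LL D 5 7)
    (l6_2 : LL D 6 8)
    (l9_2 : LL D 9 11)
    (nr5 : ¬ RR D 5 7)
    (nr6 : ¬ RR D 6 8)
    (r0_2 : RR D 0 2)
    (r3_2 : RR D 3 5)
    (r4_2 : RR D 4 6)
    (w2_4 : 0 < D 2 4)
    (w2_5 : 0 < D 2 5)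
    (w3_5 : 0 < D 3 5)
    (w3_8 : 0 < D 3 8)
    (w3_9 : 0 < D 3 9)
    (w4_9 : 0 < D 4 9)
    (w7_10 : 0 < D 7 10)
    (w7_9 : 0 < D 7 9)
    (w8_10 : 0 < D 8 10) : False :=
 (Classical.em (0 < D 4 11)).elim (fun w4_11 => (Classical.em (RR D 8 10)).elim (fun r8_2 => tm_221 h hb l5_2 r8_2 w4_11)
 (fun nr8 => (fun (l8_2 : LL D 8 10) => tm_228 h hb l5_2 l6_2 l8_2 l9_2 nr6 r3_2 r4_2 w2_5 w3_8 w4_11 w4_9) (h.labL 8 nr8)))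
 (fun n_ => (fun (w1_4 : 0 < D 1 4) => (Classical.em (0 < D 1 5)).elim (fun w1_5 => (Classical.em (0 < D 1 9)).elim (fun w1_9 => (Classical.em (RR D 1 3)).elim (fun r1_2 => tm_235 h hb l5_2 l6_2 nr5 r0_2 r1_2 r3_2 r4_2 w1_9 w3_8)
 (fun nr1 => (fun (l1_2 : LL D 1 3) => tm_236 h hb l1_2 r3_2 w1_5 w1_9) (h.labL 1 nr1)))
 (fun n_ => (fun (w9_11 : 0 < D 9 11) => tm_362 h hb l5_2 l6_2 l9_2 nr5 nr6 r0_2 r3_2 r4_2 w1_4 w1_5 w2_4 w2_5 w3_5 w3_8 w3_9 w4_9 w7_10 w7_9 w8_10 w9_11) (h.flip n_ (by decide))))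
 (fun n_ => (fun (w5_11 : 0 < D 5 11) => (Classical.em (RR D 8 10)).elim (fun r8_2 => tm_363 h hb l5_2 r8_2 w5_11)
 (fun nr8 => (fun (l8_2 : LL D 8 10) => tm_370 h hb l5_2 l6_2 l8_2 l9_2 nr6 r3_2 r4_2 w2_5 w3_8 w3_9 w4_9 w5_11 w7_10) (h.labL 8 nr8))) (h.flip n_ (by decide)))) (h.flip2 n_ 1 (by decide)))

theorem tm_382 {D : ℕ → ℕ → ℝ} (h : Cfg D)
    (hb : ∀ i, 0 < D i (i + 1))
    (l4_2 : LL D 4 6)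
    (l5_2 : LL D 5 7)
    (l6_2 : LL D 6 8)
    (l8_2 : LL D 8 10)
    (l9_2 : LL D 9 11)
    (nr5 : ¬ RR D 5 7)
    (r0_2 : RR D 0 2)
    (r3_2 : RR D 3 5)
    (w1_4 : 0 < D 1 4)
    (w3_5 : 0 < D 3 5)
    (w3_8 : 0 < D 3 8)
    (w3_9 : 0 < D 3 9)
    (w4_9 : 0 < D 4 9)
    (w6_12 : 0 < D 6 12) : False :=
 (Classical.em (RR D 7 9)).elim (fun r7_2 => tm_376 h hb l6_2 r7_2 w4_9 w6_12)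
 (fun nr7 => (fun (l7_2 : LL D 7 9) => (Classical.em (0 < D 0 5)).elim (fun w0_5 => (Classical.em (RR D 1 3)).elim (fun r1_2 => (h.ch 3 (h.pos_of w3_8 3 6 0 0 (by decide)) (h.pos_of w3_8 5 8 0 0 (by decide))).elim (fun q_ => (fun (l3_2 : LL D 3 5) => tm_377 h hb l3_2 l4_2 l5_2 l6_2 l8_2 l9_2 r0_2 w0_5 w3_5 w3_8 w3_9 w4_9 w6_12) (fun _ => q_))
 (fun o1 => o1.elim (fun q_ => nr5 (h.rrsh 5 0 (fun _ => q_)))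
 (fun o2 => o2.elim (fun h3_3 => tm_378 h h3_3 hb l4_2 l5_2 l6_2 l7_2 l8_2 r0_2 r1_2 r3_2 w0_5 w3_8 w3_9 w6_12)
 (fun h4_3 => tm_379 h h4_3 hb l4_2 l6_2 l8_2 l9_2 w0_5 w3_9 w4_9 w6_12))))
 (fun nr1 => (fun (l1_2 : LL D 1 3) => tm_380 h hb l1_2 l4_2 l6_2 l7_2 l8_2 l9_2 r0_2 r3_2 w0_5 w1_4 w3_5 w3_8 w4_9 w6_12) (h.labL 1 nr1)))
 (fun n_ => (fun (w5_10 : 0 < D 5 10) => tm_381 h hb l4_2 l5_2 l6_2 l7_2 l8_2 l9_2 w3_8 w3_9 w4_9 w5_10 w6_12) (h.flip n_ (by decide)))) (h.labL 7 nr7))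

theorem tm_392 {D : ℕ → ℕ → ℝ} (h : Cfg D)
    (h3_2 : D 2 5 + D 4 7 < 101 / 100 * D 4 5 + D 2 7)
    (hb : ∀ i, 0 < D i (i + 1))
    (l4_2 : LL D 4 6)
    (l5_2 : LL D 5 7)
    (l6_2 : LL D 6 8)
    (nr4 : ¬ RR D 4 6)
    (nr5 : ¬ RR D 5 7)
    (r0_2 : RR D 0 2)
    (r1_2 : RR D 1 3)
    (r2_2 : RR D 2 4)
    (r3_2 : RR D 3 5)
    (w0_6 : 0 < D 0 6)
    (w1_4 : 0 < D 1 4)
    (w2_5 : 0 < D 2 5)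
    (w2_6 : 0 < D 2 6)
    (w3_5 : 0 < D 3 5)
    (w3_8 : 0 < D 3 8)
    (w3_9 : 0 < D 3 9)
    (w4_9 : 0 < D 4 9)
    (w7_11 : 0 < D 7 11) : False :=
 (h.ch 3 (h.pos_of w3_8 3 6 0 0 (by decide)) (h.pos_of w3_8 5 8 0 0 (by decide))).elim (fun q_ => (fun (l3_2 : LL D 3 5) => (Classical.em (0 < D 8 12)).elim (fun w8_12 => (Classical.em (0 < D 2 7)).elim (fun w2_7 => tm_385 h h3_2 hb l3_2 l4_2 l5_2 l6_2 r0_2 r2_2 w0_6 w2_7 w3_9 w4_9)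
 (fun n_ => (fun (w7_12 : 0 < D 7 12) => (le_total ((lv D 27 + lv D 36) + (-1) * Real.log 2) (lv D 26 + lv D 37)).elim (fun iPY2_3_6_7gm1 => tm_386 h h3_2 hb iPY2_3_6_7gm1 l3_2 l4_2 l5_2 l6_2 r0_2 r2_2 w0_6 w3_8 w3_9 w4_9 w7_12)
 (fun iPY2_3_6_7lm1 => (Classical.em (RR D 8 10)).elim (fun r8_2 => tm_387 h h3_2 hb iPY2_3_6_7lm1 l4_2 l6_2 r0_2 r1_2 r2_2 r3_2 r8_2 w0_6 w1_4 w3_5 w3_8 w3_9 w4_9 w7_12)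
 (fun nr8 => (fun (l8_2 : LL D 8 10) => tm_388 h h3_2 hb iPY2_3_6_7lm1 l3_2 l4_2 l5_2 l6_2 l8_2 r0_2 r2_2 w0_6 w2_5 w2_6 w3_8 w3_9 w4_9 w7_12) (h.labL 8 nr8)))) (h.flip n_ (by decide))))
 (fun n_ => (fun (w2_8 : 0 < D 2 8) => tm_389 h h3_2 hb l3_2 l4_2 l5_2 l6_2 r0_2 r2_2 w0_6 w2_5 w2_8 w3_9 w4_9) (h.flip2 n_ 2 (by decide)))) (fun _ => q_))
 (fun o1 => o1.elim (fun q_ => nr5 (h.rrsh 5 0 (fun _ => q_)))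
 (fun o2 => o2.elim (fun h3_3 => tm_390 h h3_2 h3_3 hb l4_2 l5_2 l6_2 nr4 r0_2 r1_2 r2_2 r3_2 w0_6 w3_8 w4_9)
 (fun h4_3 => tm_391 h h3_2 h4_3 hb l4_2 l5_2 l6_2 r0_2 r1_2 r2_2 r3_2 w0_6 w3_8 w4_9 w7_11)))

theorem tm_400 {D : ℕ → ℕ → ℝ} (h : Cfg D)
    (h4_2 : D 3 4 * D 5 6 < 101 / 100 * (D 2 3 * D 6 7))
    (hb : ∀ i, 0 < D i (i + 1))
    (l4_2 : LL D 4 6)
    (l5_2 : LL D 5 7)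
    (l6_2 : LL D 6 8)
    (l9_2 : LL D 9 11)
    (nr4 : ¬ RR D 4 6)
    (nr5 : ¬ RR D 5 7)
    (r0_2 : RR D 0 2)
    (r1_2 : RR D 1 3)
    (r2_2 : RR D 2 4)
    (r3_2 : RR D 3 5)
    (w0_6 : 0 < D 0 6)
    (w1_4 : 0 < D 1 4)
    (w2_5 : 0 < D 2 5)
    (w2_6 : 0 < D 2 6)
    (w3_8 : 0 < D 3 8)
    (w3_9 : 0 < D 3 9)
    (w4_9 : 0 < D 4 9)
    (w7_10 : 0 < D 7 10) : False :=
 (h.ch 3 (h.pos_of w3_8 3 6 0 0 (by decide)) (h.pos_of w3_8 5 8 0 0 (by decide))).elim (fun q_ => (fun (l3_2 : LL D 3 5) => (Classical.em (0 < D 1 7)).elim (fun w1_7 => tm_393 h h4_2 hb l3_2 r0_2 r2_2 r3_2 w0_6 w1_7 w3_8)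
 (fun n_ => (fun (w7_11 : 0 < D 7 11) => (Classical.em (0 < D 7 12)).elim (fun w7_12 => (le_total ((lv D 27 + lv D 36) + (1) * Real.log 2) (lv D 26 + lv D 37)).elim (fun iPY2_3_6_7gp1 => tm_394 h h4_2 hb iPY2_3_6_7gp1 l3_2 l4_2 l5_2 r1_2 r2_2 r3_2 w0_6 w3_9 w7_12)
 (fun iPY2_3_6_7lp1 => (Classical.em (RR D 8 10)).elim (fun r8_2 => tm_395 h h4_2 hb iPY2_3_6_7lp1 l3_2 l5_2 l9_2 r0_2 r1_2 r2_2 r3_2 r8_2 w0_6 w2_6 w3_8 w3_9 w4_9 w7_12)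
 (fun nr8 => (fun (l8_2 : LL D 8 10) => tm_396 h h4_2 hb iPY2_3_6_7lp1 l3_2 l4_2 l5_2 l6_2 l8_2 l9_2 r0_2 r1_2 r3_2 w0_6 w3_8 w3_9 w4_9 w7_12) (h.labL 8 nr8))))
 (fun n_ => (fun (w2_7 : 0 < D 2 7) => tm_397 h h4_2 hb l3_2 l4_2 l6_2 r3_2 w2_5 w2_7 w4_9) (h.flip2 n_ 2 (by decide)))) (h.flip n_ (by decide)))) (fun _ => q_))
 (fun o1 => o1.elim (fun q_ => nr5 (h.rrsh 5 0 (fun _ => q_)))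
 (fun o2 => o2.elim (fun h3_3 => tm_398 h h3_3 h4_2 hb l4_2 l5_2 l6_2 nr4 r0_2 r1_2 r2_2 r3_2 w0_6 w1_4 w2_5 w3_8 w4_9)
 (fun h4_3 => tm_399 h h4_2 h4_3 hb l4_2 l5_2 l6_2 r2_2 r3_2 w0_6 w3_9 w4_9 w7_10)))

theorem tm_403 {D : ℕ → ℕ → ℝ} (h : Cfg D)
    (hb : ∀ i, 0 < D i (i + 1))
    (l4_2 : LL D 4 6)
    (l5_2 : LL D 5 7)
    (l6_2 : LL D 6 8)
    (l9_2 : LL D 9 11)
    (nr4 : ¬ RR D 4 6)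
    (nr5 : ¬ RR D 5 7)
    (r0_2 : RR D 0 2)
    (r2_2 : RR D 2 4)
    (r3_2 : RR D 3 5)
    (w0_6 : 0 < D 0 6)
    (w1_4 : 0 < D 1 4)
    (w2_5 : 0 < D 2 5)
    (w2_6 : 0 < D 2 6)
    (w3_5 : 0 < D 3 5)
    (w3_8 : 0 < D 3 8)
    (w3_9 : 0 < D 3 9)
    (w4_9 : 0 < D 4 9)
    (w7_10 : 0 < D 7 10) : False :=
 (Classical.em (RR D 1 3)).elim (fun r1_2 => (h.ch 2 w2_5 (h.pos_of w4_9 4 7 0 0 (by decide))).elim (fun q_ => (fun (l2_2 : LL D 2 4) => tm_383 h hb l2_2 r3_2 w0_6 w1_4 w3_8) (fun _ => q_))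
 (fun o1 => o1.elim (fun q_ => nr4 (h.rrsh 4 0 (fun _ => q_)))
 (fun o2 => o2.elim (fun h3_2 => (Classical.em (0 < D 1 7)).elim (fun w1_7 => tm_384 h h3_2 hb l4_2 l6_2 r0_2 r1_2 r2_2 r3_2 w0_6 w1_4 w1_7 w3_8 w3_9)
 (fun n_ => (fun (w7_11 : 0 < D 7 11) => tm_392 h h3_2 hb l4_2 l5_2 l6_2 nr4 nr5 r0_2 r1_2 r2_2 r3_2 w0_6 w1_4 w2_5 w2_6 w3_5 w3_8 w3_9 w4_9 w7_11) (h.flip n_ (by decide))))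
 (fun h4_2 => (Classical.em (0 < D 8 12)).elim (fun w8_12 => tm_400 h h4_2 hb l4_2 l5_2 l6_2 l9_2 nr4 nr5 r0_2 r1_2 r2_2 r3_2 w0_6 w1_4 w2_5 w2_6 w3_8 w3_9 w4_9 w7_10)
 (fun n_ => (fun (w2_8 : 0 < D 2 8) => tm_401 h h4_2 hb l4_2 r0_2 r1_2 r2_2 r3_2 w0_6 w2_8 w4_9) (h.flip2 n_ 2 (by decide)))))))
 (fun nr1 => (fun (l1_2 : LL D 1 3) => tm_402 h hb l1_2 r2_2 w0_6 w1_4 w2_5) (h.labL 1 nr1))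

theorem tm_414 {D : ℕ → ℕ → ℝ} (h : Cfg D)
    (hb : ∀ i, 0 < D i (i + 1))
    (l4_2 : LL D 4 6)
    (l5_2 : LL D 5 7)
    (l6_2 : LL D 6 8)
    (l7_2 : LL D 7 9)
    (nr4 : ¬ RR D 4 6)
    (nr5 : ¬ RR D 5 7)
    (r0_2 : RR D 0 2)
    (r1_2 : RR D 1 3)
    (r2_2 : RR D 2 4)
    (r3_2 : RR D 3 5)
    (w0_5 : 0 < D 0 5)
    (w1_3 : 0 < D 1 3)
    (w2_5 : 0 < D 2 5)
    (w2_6 : 0 < D 2 6)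
    (w3_5 : 0 < D 3 5)
    (w3_8 : 0 < D 3 8)
    (w3_9 : 0 < D 3 9)
    (w4_9 : 0 < D 4 9)
    (w6_10 : 0 < D 6 10)
    (w7_10 : 0 < D 7 10)
    (w8_11 : 0 < D 8 11) : False :=
 (Classical.em (0 < D 7 11)).elim (fun w7_11 => (Classical.em (RR D 8 10)).elim (fun r8_2 => tm_406 h hb l7_2 r8_2 w7_10 w7_11 w8_11)
 (fun nr8 => (fun (l8_2 : LL D 8 10) => (h.ch 3 (h.pos_of w3_8 3 6 0 0 (by decide)) (h.pos_of w3_8 5 8 0 0 (by decide))).elim (fun q_ => (fun (l3_2 : LL D 3 5) => tm_407 h hb l3_2 l4_2 l5_2 l6_2 l7_2 l8_2 r0_2 w0_5 w3_8 w3_9 w4_9 w6_10 w7_10 w7_11 w8_11) (fun _ => q_))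
 (fun o1 => o1.elim (fun q_ => nr5 (h.rrsh 5 0 (fun _ => q_)))
 (fun o2 => o2.elim (fun h3_3 => (Classical.em (0 < D 1 6)).elim (fun w1_6 => tm_408 h h3_3 hb l4_2 l5_2 l6_2 l7_2 l8_2 r0_2 r1_2 r3_2 w0_5 w1_6 w3_8 w3_9 w4_9 w6_10 w7_10 w7_11)
 (fun n_ => (fun (w6_11 : 0 < D 6 11) => tm_409 h h3_3 hb l4_2 l5_2 l6_2 l7_2 l8_2 r0_2 r1_2 r3_2 w0_5 w3_8 w3_9 w4_9 w6_11 w7_10) (h.flip n_ (by decide))))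
 (fun h4_3 => tm_410 h h4_3 hb l4_2 l5_2 l6_2 l8_2 w3_8 w3_9 w4_9 w7_11 w8_11)))) (h.labL 8 nr8)))
 (fun n_ => (fun (w1_7 : 0 < D 1 7) => (h.ch 2 w2_5 (h.pos_of w4_9 4 7 0 0 (by decide))).elim (fun q_ => (fun (l2_2 : LL D 2 4) => tm_411 h hb l2_2 r3_2 w1_7 w2_5 w3_8) (fun _ => q_))
 (fun o1 => o1.elim (fun q_ => nr4 (h.rrsh 4 0 (fun _ => q_)))
 (fun o2 => o2.elim (fun h3_2 => tm_412 h h3_2 hb l4_2 l6_2 r0_2 r1_2 r2_2 r3_2 w0_5 w1_3 w1_7 w2_5 w3_5 w3_8 w4_9 w6_10)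
 (fun h4_2 => tm_413 h h4_2 hb l4_2 r0_2 r1_2 r2_2 r3_2 w0_5 w1_7 w2_5 w2_6 w4_9)))) (h.flip2 n_ 1 (by decide)))

theorem tm_434 {D : ℕ → ℕ → ℝ} (h : Cfg D)
    (h3_3 : D 3 6 + D 5 8 < 101 / 100 * D 5 6 + D 3 8)
    (hb : ∀ i, 0 < D i (i + 1))
    (l4_2 : LL D 4 6)
    (l5_2 : LL D 5 7)
    (l6_2 : LL D 6 8)
    (l7_2 : LL D 7 9)
    (r2_2 : RR D 2 4)
    (r3_2 : RR D 3 5)
    (w1_4 : 0 < D 1 4)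
    (w2_5 : 0 < D 2 5)
    (w2_6 : 0 < D 2 6)
    (w2_7 : 0 < D 2 7)
    (w2_9 : 0 < D 2 9)
    (w3_5 : 0 < D 3 5)
    (w3_8 : 0 < D 3 8)
    (w3_9 : 0 < D 3 9)
    (w4_9 : 0 < D 4 9)
    (w5_10 : 0 < D 5 10)
    (w6_10 : 0 < D 6 10) : False :=
 (Classical.em (0 < D 1 8)).elim (fun w1_8 => (Classical.em (RR D 1 3)).elim (fun r1_2 => tm_428 h h3_3 hb l4_2 l5_2 l6_2 l7_2 r1_2 r2_2 r3_2 w1_8 w2_9 w3_8 w4_9 w5_10)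
 (fun nr1 => (fun (l1_2 : LL D 1 3) => tm_429 h hb l1_2 r2_2 w1_4 w1_8 w2_6) (h.labL 1 nr1)))
 (fun n_ => (fun (w8_11 : 0 < D 8 11) => (Classical.em (0 < D 5 11)).elim (fun w5_11 => (Classical.em (RR D 8 10)).elim (fun r8_2 => tm_430 h hb l6_2 r8_2 w4_9 w5_11 w8_11)
 (fun nr8 => (fun (l8_2 : LL D 8 10) => tm_431 h h3_3 hb l5_2 l6_2 l7_2 l8_2 r2_2 r3_2 w2_7 w2_9 w3_8 w5_11) (h.labL 8 nr8)))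
 (fun n_ => (fun (w1_5 : 0 < D 1 5) => (Classical.em (RR D 1 3)).elim (fun r1_2 => tm_432 h h3_3 hb l4_2 l5_2 l6_2 l7_2 r1_2 r3_2 w1_5 w3_5 w3_8 w3_9 w4_9 w5_10 w6_10)
 (fun nr1 => (fun (l1_2 : LL D 1 3) => tm_433 h hb l1_2 r2_2 w1_4 w1_5 w2_5) (h.labL 1 nr1))) (h.flip2 n_ 1 (by decide)))) (h.flip n_ (by decide)))

theorem tm_441 {D : ℕ → ℕ → ℝ} (h : Cfg D)
    (h3_3 : D 3 6 + D 5 8 < 101 / 100 * D 5 6 + D 3 8)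
    (hb : ∀ i, 0 < D i (i + 1))
    (l4_2 : LL D 4 6)
    (l5_2 : LL D 5 7)
    (l6_2 : LL D 6 8)
    (l7_2 : LL D 7 9)
    (r2_2 : RR D 2 4)
    (r3_2 : RR D 3 5)
    (w1_3 : 0 < D 1 3)
    (w1_4 : 0 < D 1 4)
    (w2_5 : 0 < D 2 5)
    (w2_6 : 0 < D 2 6)
    (w2_9 : 0 < D 2 9)
    (w3_10 : 0 < D 3 10)
    (w3_8 : 0 < D 3 8)
    (w4_9 : 0 < D 4 9)
    (w5_10 : 0 < D 5 10)
    (w6_10 : 0 < D 6 10) : False :=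
 (Classical.em (0 < D 1 8)).elim (fun w1_8 => (Classical.em (RR D 1 3)).elim (fun r1_2 => tm_435 h h3_3 hb l4_2 l5_2 l6_2 l7_2 r1_2 r3_2 w1_8 w4_9 w5_10)
 (fun nr1 => (fun (l1_2 : LL D 1 3) => tm_436 h l1_2 r3_2 w1_8) (h.labL 1 nr1)))
 (fun n_ => (fun (w8_11 : 0 < D 8 11) => (Classical.em (0 < D 5 11)).elim (fun w5_11 => (Classical.em (RR D 8 10)).elim (fun r8_2 => tm_437 h l5_2 r8_2 w5_11)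
 (fun nr8 => (fun (l8_2 : LL D 8 10) => tm_438 h h3_3 hb l4_2 l5_2 l6_2 l7_2 l8_2 r2_2 r3_2 w1_3 w2_6 w2_9 w3_10 w3_8 w5_11) (h.labL 8 nr8)))
 (fun n_ => (fun (w1_5 : 0 < D 1 5) => (Classical.em (RR D 1 3)).elim (fun r1_2 => tm_439 h h3_3 hb l4_2 l5_2 l6_2 l7_2 r1_2 r3_2 w1_5 w3_10 w3_8 w4_9 w5_10 w6_10)
 (fun nr1 => (fun (l1_2 : LL D 1 3) => tm_440 h hb l1_2 r2_2 w1_4 w1_5 w2_5) (h.labL 1 nr1))) (h.flip2 n_ 1 (by decide)))) (h.flip n_ (by decide)))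

theorem tm_445 {D : ℕ → ℕ → ℝ} (h : Cfg D)
    (h3_3 : D 3 6 + D 5 8 < 101 / 100 * D 5 6 + D 3 8)
    (hb : ∀ i, 0 < D i (i + 1))
    (l4_2 : LL D 4 6)
    (l5_2 : LL D 5 7)
    (l6_2 : LL D 6 8)
    (l7_2 : LL D 7 9)
    (l9_2 : LL D 9 11)
    (nr4 : ¬ RR D 4 6)
    (nr9 : ¬ RR D 9 11)
    (r2_2 : RR D 2 4)
    (r3_2 : RR D 3 5)
    (w1_3 : 0 < D 1 3)
    (w1_4 : 0 < D 1 4)
    (w2_5 : 0 < D 2 5)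
    (w2_6 : 0 < D 2 6)
    (w2_7 : 0 < D 2 7)
    (w3_5 : 0 < D 3 5)
    (w3_8 : 0 < D 3 8)
    (w3_9 : 0 < D 3 9)
    (w4_9 : 0 < D 4 9)
    (w5_10 : 0 < D 5 10)
    (w6_10 : 0 < D 6 10) : False :=
 (Classical.em (0 < D 0 3)).elim (fun w0_3 => (Classical.em (0 < D 9 12)).elim (fun w9_12 => (Classical.em (0 < D 1 5)).elim (fun w1_5 => (Classical.em (RR D 1 3)).elim (fun r1_2 => tm_424 h h3_3 hb l4_2 l5_2 l6_2 l7_2 r1_2 r3_2 w1_4 w1_5 w3_8 w3_9 w5_10 w6_10)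
 (fun nr1 => (fun (l1_2 : LL D 1 3) => tm_425 h hb l1_2 r2_2 w1_4 w1_5 w2_5) (h.labL 1 nr1)))
 (fun n_ => (fun (w5_11 : 0 < D 5 11) => (Classical.em (RR D 8 10)).elim (fun r8_2 => tm_426 h hb l5_2 r8_2 w5_11)
 (fun nr8 => (fun (l8_2 : LL D 8 10) => tm_427 h hb l4_2 l5_2 l6_2 l7_2 l8_2 w3_8 w3_9 w4_9 w5_10 w5_11) (h.labL 8 nr8))) (h.flip n_ (by decide))))
 (fun n_ => (fun (w2_9 : 0 < D 2 9) => tm_434 h h3_3 hb l4_2 l5_2 l6_2 l7_2 r2_2 r3_2 w1_4 w2_5 w2_6 w2_7 w2_9 w3_5 w3_8 w3_9 w4_9 w5_10 w6_10) (h.flip2 n_ 2 (by decide))))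
 (fun n_ => (fun (w3_10 : 0 < D 3 10) => (Classical.em (0 < D 2 9)).elim (fun w2_9 => tm_441 h h3_3 hb l4_2 l5_2 l6_2 l7_2 r2_2 r3_2 w1_3 w1_4 w2_5 w2_6 w2_9 w3_10 w3_8 w4_9 w5_10 w6_10)
 (fun n_ => (fun (w9_12 : 0 < D 9 12) => (Classical.em (0 < D 5 11)).elim (fun w5_11 => tm_442 h h3_3 hb l4_2 l5_2 l6_2 l7_2 l9_2 nr9 r2_2 r3_2 w1_4 w2_7 w3_10 w5_11 w9_12)
 (fun n_ => (fun (w1_5 : 0 < D 1 5) => (Classical.em (RR D 1 3)).elim (fun r1_2 => tm_443 h h3_3 hb l4_2 l5_2 l6_2 l7_2 nr4 r1_2 r3_2 w1_5 w3_10)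
 (fun nr1 => (fun (l1_2 : LL D 1 3) => tm_444 h hb l1_2 r2_2 w1_4 w1_5 w2_5) (h.labL 1 nr1))) (h.flip2 n_ 1 (by decide)))) (h.flip n_ (by decide)))) (h.flip n_ (by decide)))

theorem tm_446 {D : ℕ → ℕ → ℝ} (h : Cfg D)
    (h3_3 : D 3 6 + D 5 8 < 101 / 100 * D 5 6 + D 3 8)
    (hb : ∀ i, 0 < D i (i + 1))
    (l4_2 : LL D 4 6)
    (l5_2 : LL D 5 7)
    (l6_2 : LL D 6 8)
    (l7_2 : LL D 7 9)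
    (l9_2 : LL D 9 11)
    (nr4 : ¬ RR D 4 6)
    (nr9 : ¬ RR D 9 11)
    (r2_2 : RR D 2 4)
    (r3_2 : RR D 3 5)
    (w1_3 : 0 < D 1 3)
    (w1_4 : 0 < D 1 4)
    (w2_5 : 0 < D 2 5)
    (w2_6 : 0 < D 2 6)
    (w3_5 : 0 < D 3 5)
    (w3_8 : 0 < D 3 8)
    (w3_9 : 0 < D 3 9)
    (w4_9 : 0 < D 4 9)
    (w5_10 : 0 < D 5 10)
    (w6_10 : 0 < D 6 10)
    (w7_10 : 0 < D 7 10) : False :=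
 (Classical.em (0 < D 1 9)).elim (fun w1_9 => (Classical.em (RR D 1 3)).elim (fun r1_2 => tm_418 h h3_3 hb l4_2 l5_2 l6_2 l7_2 r1_2 r2_2 r3_2 w1_9 w5_10 w7_10)
 (fun nr1 => (fun (l1_2 : LL D 1 3) => tm_419 h l1_2 r3_2 w1_9 w3_8) (h.labL 1 nr1)))
 (fun n_ => (fun (w9_11 : 0 < D 9 11) => (Classical.em (0 < D 7 12)).elim (fun w7_12 => (Classical.em (RR D 8 10)).elim (fun r8_2 => tm_420 h hb l7_2 r8_2 w7_10 w7_12)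
 (fun nr8 => (fun (l8_2 : LL D 8 10) => (Classical.em (0 < D 1 6)).elim (fun w1_6 => (Classical.em (RR D 1 3)).elim (fun r1_2 => tm_421 h h3_3 hb l4_2 l5_2 l6_2 l7_2 l8_2 r1_2 r2_2 r3_2 w1_6 w3_9 w4_9 w5_10 w7_10 w7_12)
 (fun nr1 => (fun (l1_2 : LL D 1 3) => tm_422 h hb l1_2 r2_2 w1_4 w1_6 w2_5) (h.labL 1 nr1)))
 (fun n_ => (fun (w6_11 : 0 < D 6 11) => tm_423 h h3_3 hb l5_2 l6_2 l7_2 l8_2 l9_2 r2_2 r3_2 w2_6 w3_9 w5_10 w6_11 w7_12) (h.flip n_ (by decide)))) (h.labL 8 nr8)))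
 (fun n_ => (fun (w2_7 : 0 < D 2 7) => tm_445 h h3_3 hb l4_2 l5_2 l6_2 l7_2 l9_2 nr4 nr9 r2_2 r3_2 w1_3 w1_4 w2_5 w2_6 w2_7 w3_5 w3_8 w3_9 w4_9 w5_10 w6_10) (h.flip2 n_ 2 (by decide)))) (h.flip n_ (by decide)))

theorem tm_448 {D : ℕ → ℕ → ℝ} (h : Cfg D)
    (hb : ∀ i, 0 < D i (i + 1))
    (l4_2 : LL D 4 6)
    (l5_2 : LL D 5 7)
    (l6_2 : LL D 6 8)
    (l7_2 : LL D 7 9)
    (l9_2 : LL D 9 11)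
    (nr4 : ¬ RR D 4 6)
    (nr5 : ¬ RR D 5 7)
    (nr7 : ¬ RR D 7 9)
    (nr9 : ¬ RR D 9 11)
    (r0_2 : RR D 0 2)
    (r2_2 : RR D 2 4)
    (r3_2 : RR D 3 5)
    (w1_3 : 0 < D 1 3)
    (w1_4 : 0 < D 1 4)
    (w2_5 : 0 < D 2 5)
    (w2_6 : 0 < D 2 6)
    (w3_5 : 0 < D 3 5)
    (w3_8 : 0 < D 3 8)
    (w3_9 : 0 < D 3 9)
    (w4_9 : 0 < D 4 9)
    (w6_10 : 0 < D 6 10)
    (w7_10 : 0 < D 7 10) : False :=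
 (Classical.em (0 < D 0 5)).elim (fun w0_5 => (Classical.em (RR D 1 3)).elim (fun r1_2 => (Classical.em (0 < D 9 11)).elim (fun w9_11 => (Classical.em (0 < D 1 8)).elim (fun w1_8 => tm_405 h hb l4_2 l5_2 l6_2 l7_2 r0_2 r1_2 r2_2 r3_2 w0_5 w1_4 w1_8 w2_5 w3_8 w4_9 w6_10 w7_10)
 (fun n_ => (fun (w8_11 : 0 < D 8 11) => tm_414 h hb l4_2 l5_2 l6_2 l7_2 nr4 nr5 r0_2 r1_2 r2_2 r3_2 w0_5 w1_3 w2_5 w2_6 w3_5 w3_8 w3_9 w4_9 w6_10 w7_10 w8_11) (h.flip n_ (by decide))))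
 (fun n_ => (fun (w1_9 : 0 < D 1 9) => tm_415 h hb l4_2 l6_2 l7_2 nr7 r0_2 r1_2 r3_2 w0_5 w1_4 w1_9 w3_8 w3_9 w4_9 w6_10 w7_10) (h.flip2 n_ 1 (by decide))))
 (fun nr1 => (fun (l1_2 : LL D 1 3) => tm_416 h hb l1_2 r2_2 w0_5 w1_4 w2_5) (h.labL 1 nr1)))
 (fun n_ => (fun (w5_10 : 0 < D 5 10) => (h.ch 3 (h.pos_of w3_8 3 6 0 0 (by decide)) (h.pos_of w3_8 5 8 0 0 (by decide))).elim (fun q_ => (fun (l3_2 : LL D 3 5) => tm_417 h hb l3_2 l4_2 l5_2 l6_2 l7_2 w3_8 w3_9 w4_9 w5_10 w7_10) (fun _ => q_))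
 (fun o1 => o1.elim (fun q_ => nr5 (h.rrsh 5 0 (fun _ => q_)))
 (fun o2 => o2.elim (fun h3_3 => tm_446 h h3_3 hb l4_2 l5_2 l6_2 l7_2 l9_2 nr4 nr9 r2_2 r3_2 w1_3 w1_4 w2_5 w2_6 w3_5 w3_8 w3_9 w4_9 w5_10 w6_10 w7_10)
 (fun h4_3 => tm_447 h h4_3 hb l4_2 l5_2 l6_2 l7_2 w3_9 w4_9 w5_10)))) (h.flip n_ (by decide)))

theorem tm_450 {D : ℕ → ℕ → ℝ} (h : Cfg D)
    (hb : ∀ i, 0 < D i (i + 1))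
    (l4_2 : LL D 4 6)
    (l5_2 : LL D 5 7)
    (l6_2 : LL D 6 8)
    (l9_2 : LL D 9 11)
    (nr4 : ¬ RR D 4 6)
    (nr5 : ¬ RR D 5 7)
    (nr9 : ¬ RR D 9 11)
    (r0_2 : RR D 0 2)
    (r3_2 : RR D 3 5)
    (w1_3 : 0 < D 1 3)
    (w1_4 : 0 < D 1 4)
    (w2_5 : 0 < D 2 5)
    (w3_5 : 0 < D 3 5)
    (w3_8 : 0 < D 3 8)
    (w3_9 : 0 < D 3 9)
    (w4_9 : 0 < D 4 9)
    (w7_10 : 0 < D 7 10) : False :=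
 (Classical.em (0 < D 6 12)).elim (fun w6_12 => (Classical.em (RR D 8 10)).elim (fun r8_2 => tm_375 h hb l6_2 r8_2 w6_12)
 (fun nr8 => (fun (l8_2 : LL D 8 10) => tm_382 h hb l4_2 l5_2 l6_2 l8_2 l9_2 nr5 r0_2 r3_2 w1_4 w3_5 w3_8 w3_9 w4_9 w6_12) (h.labL 8 nr8)))
 (fun n_ => (fun (w2_6 : 0 < D 2 6) => (Classical.em (RR D 2 4)).elim (fun r2_2 => (Classical.em (0 < D 0 6)).elim (fun w0_6 => tm_403 h hb l4_2 l5_2 l6_2 l9_2 nr4 nr5 r0_2 r2_2 r3_2 w0_6 w1_4 w2_5 w2_6 w3_5 w3_8 w3_9 w4_9 w7_10)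
 (fun n_ => (fun (w6_10 : 0 < D 6 10) => (Classical.em (RR D 7 9)).elim (fun r7_2 => tm_404 h hb l6_2 r7_2 w4_9 w6_10 w7_10)
 (fun nr7 => (fun (l7_2 : LL D 7 9) => tm_448 h hb l4_2 l5_2 l6_2 l7_2 l9_2 nr4 nr5 nr7 nr9 r0_2 r2_2 r3_2 w1_3 w1_4 w2_5 w2_6 w3_5 w3_8 w3_9 w4_9 w6_10 w7_10) (h.labL 7 nr7))) (h.flip n_ (by decide))))
 (fun nr2 => (fun (l2_2 : LL D 2 4) => tm_449 h hb l2_2 r3_2 w2_5 w2_6 w3_8) (h.labL 2 nr2))) (h.flip2 n_ 2 (by decide)))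

theorem tm_459 {D : ℕ → ℕ → ℝ} (h : Cfg D)
    (h3_3 : D 3 6 + D 5 8 < 101 / 100 * D 5 6 + D 3 8)
    (hb : ∀ i, 0 < D i (i + 1))
    (l4_2 : LL D 4 6)
    (l5_2 : LL D 5 7)
    (l6_2 : LL D 6 8)
    (l7_2 : LL D 7 9)
    (r2_2 : RR D 2 4)
    (r3_2 : RR D 3 5)
    (w1_4 : 0 < D 1 4)
    (w2_10 : 0 < D 2 10)
    (w2_5 : 0 < D 2 5)
    (w3_5 : 0 < D 3 5)
    (w3_8 : 0 < D 3 8)
    (w4_9 : 0 < D 4 9) : False :=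
 (Classical.em (0 < D 8 11)).elim (fun w8_11 => (Classical.em (0 < D 1 5)).elim (fun w1_5 => (Classical.em (RR D 1 3)).elim (fun r1_2 => tm_453 h h3_3 hb l4_2 l5_2 l6_2 l7_2 r1_2 r3_2 w1_5 w2_10)
 (fun nr1 => (fun (l1_2 : LL D 1 3) => tm_454 h hb l1_2 r2_2 w1_4 w1_5 w2_5) (h.labL 1 nr1)))
 (fun n_ => (fun (w5_11 : 0 < D 5 11) => (Classical.em (RR D 8 10)).elim (fun r8_2 => tm_455 h l5_2 r8_2 w5_11)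
 (fun nr8 => (fun (l8_2 : LL D 8 10) => tm_456 h h3_3 hb l4_2 l5_2 l6_2 l7_2 l8_2 r2_2 r3_2 w2_10 w3_5 w3_8 w4_9 w5_11) (h.labL 8 nr8))) (h.flip n_ (by decide))))
 (fun n_ => (fun (w1_8 : 0 < D 1 8) => (Classical.em (RR D 1 3)).elim (fun r1_2 => tm_457 h h3_3 hb l4_2 l5_2 l6_2 l7_2 r1_2 r3_2 w1_8 w2_10)
 (fun nr1 => (fun (l1_2 : LL D 1 3) => tm_458 h hb l1_2 r3_2 w1_8) (h.labL 1 nr1))) (h.flip2 n_ 1 (by decide)))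

theorem tm_464 {D : ℕ → ℕ → ℝ} (h : Cfg D)
    (hb : ∀ i, 0 < D i (i + 1))
    (l4_2 : LL D 4 6)
    (l5_2 : LL D 5 7)
    (l6_2 : LL D 6 8)
    (l7_2 : LL D 7 9)
    (nr5 : ¬ RR D 5 7)
    (r3_2 : RR D 3 5)
    (w1_4 : 0 < D 1 4)
    (w2_10 : 0 < D 2 10)
    (w2_5 : 0 < D 2 5)
    (w3_5 : 0 < D 3 5)
    (w3_8 : 0 < D 3 8)
    (w4_9 : 0 < D 4 9) : False :=
 (h.ch 3 (h.pos_of w3_8 3 6 0 0 (by decide)) (h.pos_of w3_8 5 8 0 0 (by decide))).elim (fun q_ => (fun (l3_2 : LL D 3 5) => tm_452 h hb l3_2 l4_2 l6_2 l7_2 w2_10) (fun _ => q_))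
 (fun o1 => o1.elim (fun q_ => nr5 (h.rrsh 5 0 (fun _ => q_)))
 (fun o2 => o2.elim (fun h3_3 => (Classical.em (RR D 2 4)).elim (fun r2_2 => (Classical.em (0 < D 9 11)).elim (fun w9_11 => tm_459 h h3_3 hb l4_2 l5_2 l6_2 l7_2 r2_2 r3_2 w1_4 w2_10 w2_5 w3_5 w3_8 w4_9)
 (fun n_ => (fun (w1_9 : 0 < D 1 9) => (Classical.em (RR D 1 3)).elim (fun r1_2 => tm_460 h h3_3 hb l4_2 l5_2 l6_2 l7_2 r1_2 r3_2 w1_4 w1_9 w2_10)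
 (fun nr1 => (fun (l1_2 : LL D 1 3) => tm_461 h hb l1_2 r2_2 w1_4 w1_9 w2_10) (h.labL 1 nr1))) (h.flip2 n_ 1 (by decide))))
 (fun nr2 => (fun (l2_2 : LL D 2 4) => tm_462 h hb l2_2 r3_2 w2_10 w3_8) (h.labL 2 nr2)))
 (fun h4_3 => tm_463 h h4_3 hb l4_2 l5_2 l6_2 l7_2 w2_10)))

theorem tm_465 {D : ℕ → ℕ → ℝ} (h : Cfg D)
    (hb : ∀ i, 0 < D i (i + 1))
    (l4_2 : LL D 4 6)
    (l5_2 : LL D 5 7)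
    (l6_2 : LL D 6 8)
    (l9_2 : LL D 9 11)
    (nr4 : ¬ RR D 4 6)
    (nr5 : ¬ RR D 5 7)
    (nr9 : ¬ RR D 9 11)
    (r0_2 : RR D 0 2)
    (r3_2 : RR D 3 5)
    (w1_3 : 0 < D 1 3)
    (w2_5 : 0 < D 2 5)
    (w3_5 : 0 < D 3 5)
    (w3_8 : 0 < D 3 8)
    (w3_9 : 0 < D 3 9)
    (w4_9 : 0 < D 4 9)
    (w7_10 : 0 < D 7 10) : False :=
 (Classical.em (0 < D 4 11)).elim (fun w4_11 => (Classical.em (RR D 8 10)).elim (fun r8_2 => tm_372 h hb l4_2 r8_2 w4_11)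
 (fun nr8 => (fun (l8_2 : LL D 8 10) => (Classical.em (RR D 7 9)).elim (fun r7_2 => tm_373 h hb l6_2 r7_2 w4_11 w4_9 w7_10)
 (fun nr7 => (fun (l7_2 : LL D 7 9) => tm_374 h hb l4_2 l5_2 l7_2 l8_2 w4_11 w4_9) (h.labL 7 nr7))) (h.labL 8 nr8)))
 (fun n_ => (fun (w1_4 : 0 < D 1 4) => (Classical.em (0 < D 0 2)).elim (fun w0_2 => tm_450 h hb l4_2 l5_2 l6_2 l9_2 nr4 nr5 nr9 r0_2 r3_2 w1_3 w1_4 w2_5 w3_5 w3_8 w3_9 w4_9 w7_10)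
 (fun n_ => (fun (w2_10 : 0 < D 2 10) => (Classical.em (RR D 7 9)).elim (fun r7_2 => tm_451 h l4_2 r7_2 w2_10)
 (fun nr7 => (fun (l7_2 : LL D 7 9) => tm_464 h hb l4_2 l5_2 l6_2 l7_2 nr5 r3_2 w1_4 w2_10 w2_5 w3_5 w3_8 w4_9) (h.labL 7 nr7))) (h.flip n_ (by decide)))) (h.flip2 n_ 1 (by decide)))

theorem tm_475 {D : ℕ → ℕ → ℝ} (h : Cfg D)
    (hb : ∀ i, 0 < D i (i + 1))
    (l6_2 : LL D 6 8)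
    (r0_2 : RR D 0 2)
    (r3_2 : RR D 3 5)
    (w0_7 : 0 < D 0 7)
    (w2_5 : 0 < D 2 5)
    (w3_8 : 0 < D 3 8)
    (w4_9 : 0 < D 4 9) : False :=
 (Classical.em (RR D 1 3)).elim (fun r1_2 => (Classical.em (RR D 4 6)).elim (fun r4_2 => tm_469 h hb r0_2 r1_2 r3_2 r4_2 w0_7 w4_9)
 (fun nr4 => (fun (l4_2 : LL D 4 6) => (Classical.em (RR D 2 4)).elim (fun r2_2 => (h.ch 2 w2_5 (h.pos_of w4_9 4 7 0 0 (by decide))).elim (fun q_ => (fun (l2_2 : LL D 2 4) => tm_470 h l2_2 r3_2 w0_7) (fun _ => q_))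
 (fun o1 => o1.elim (fun q_ => nr4 (h.rrsh 4 0 (fun _ => q_)))
 (fun o2 => o2.elim (fun h3_2 => tm_471 h h3_2 hb l4_2 l6_2 r0_2 r1_2 r2_2 r3_2 w0_7 w3_8 w4_9)
 (fun h4_2 => tm_472 h h4_2 hb l4_2 r0_2 r1_2 r2_2 r3_2 w0_7 w2_5 w3_8 w4_9))))
 (fun nr2 => (fun (l2_2 : LL D 2 4) => tm_473 h hb l2_2 r3_2 w0_7 w3_8) (h.labL 2 nr2))) (h.labL 4 nr4)))
 (fun nr1 => (fun (l1_2 : LL D 1 3) => tm_474 h hb l1_2 r3_2 w0_7) (h.labL 1 nr1))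

theorem tm_476 {D : ℕ → ℕ → ℝ} (h : Cfg D)
    (hb : ∀ i, 0 < D i (i + 1))
    (l5_2 : LL D 5 7)
    (l6_2 : LL D 6 8)
    (l9_2 : LL D 9 11)
    (nr5 : ¬ RR D 5 7)
    (nr6 : ¬ RR D 6 8)
    (nr9 : ¬ RR D 9 11)
    (r0_2 : RR D 0 2)
    (r3_2 : RR D 3 5)
    (w2_4 : 0 < D 2 4)
    (w2_5 : 0 < D 2 5)
    (w3_5 : 0 < D 3 5)
    (w3_8 : 0 < D 3 8)
    (w3_9 : 0 < D 3 9)
    (w4_9 : 0 < D 4 9)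
    (w7_9 : 0 < D 7 9)
    (w8_10 : 0 < D 8 10) : False :=
 (Classical.em (0 < D 7 10)).elim (fun w7_10 => (Classical.em (RR D 4 6)).elim (fun r4_2 => tm_371 h hb l5_2 l6_2 l9_2 nr5 nr6 r0_2 r3_2 r4_2 w2_4 w2_5 w3_5 w3_8 w3_9 w4_9 w7_10 w7_9 w8_10)
 (fun nr4 => (fun (l4_2 : LL D 4 6) => (Classical.em (0 < D 1 3)).elim (fun w1_3 => tm_465 h hb l4_2 l5_2 l6_2 l9_2 nr4 nr5 nr9 r0_2 r3_2 w1_3 w2_5 w3_5 w3_8 w3_9 w4_9 w7_10)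
 (fun n_ => (fun (w3_11 : 0 < D 3 11) => (Classical.em (RR D 8 10)).elim (fun r8_2 => tm_466 h hb l5_2 r8_2 w3_11)
 (fun nr8 => (fun (l8_2 : LL D 8 10) => (Classical.em (RR D 7 9)).elim (fun r7_2 => tm_467 h hb l4_2 r7_2 w3_11)
 (fun nr7 => (fun (l7_2 : LL D 7 9) => tm_468 h hb l4_2 l5_2 l7_2 l8_2 w3_11 w3_5 w3_8 w4_9) (h.labL 7 nr7))) (h.labL 8 nr8))) (h.flip n_ (by decide)))) (h.labL 4 nr4)))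
 (fun n_ => (fun (w0_7 : 0 < D 0 7) => tm_475 h hb l6_2 r0_2 r3_2 w0_7 w2_5 w3_8 w4_9) (h.flip2 n_ 0 (by decide)))

theorem tm_486 {D : ℕ → ℕ → ℝ} (h : Cfg D)
    (hb : ∀ i, 0 < D i (i + 1))
    (l3_2 : LL D 3 5)
    (l4_2 : LL D 4 6)
    (l5_2 : LL D 5 7)
    (l6_2 : LL D 6 8)
    (nr4 : ¬ RR D 4 6)
    (r0_2 : RR D 0 2)
    (w1_9 : 0 < D 1 9)
    (w2_5 : 0 < D 2 5)
    (w3_8 : 0 < D 3 8)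
    (w3_9 : 0 < D 3 9)
    (w4_9 : 0 < D 4 9) : False :=
 (Classical.em (RR D 2 4)).elim (fun r2_2 => (h.ch 2 w2_5 (h.pos_of w4_9 4 7 0 0 (by decide))).elim (fun q_ => (fun (l2_2 : LL D 2 4) => tm_480 h hb l2_2 l3_2 l5_2 l6_2 w1_9 w2_5 w3_9) (fun _ => q_))
 (fun o1 => o1.elim (fun q_ => nr4 (h.rrsh 4 0 (fun _ => q_)))
 (fun o2 => o2.elim (fun h3_2 => (Classical.em (0 < D 4 10)).elim (fun w4_10 => (Classical.em (RR D 7 9)).elim (fun r7_2 => tm_481 h hb l5_2 r7_2 w4_10 w4_9)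
 (fun nr7 => (fun (l7_2 : LL D 7 9) => tm_482 h hb l3_2 l4_2 l5_2 l6_2 l7_2 w1_9 w4_10) (h.labL 7 nr7)))
 (fun n_ => (fun (w0_4 : 0 < D 0 4) => tm_483 h h3_2 hb l3_2 l4_2 l5_2 l6_2 r0_2 r2_2 w0_4 w1_9 w3_8 w3_9 w4_9) (h.flip2 n_ 0 (by decide))))
 (fun h4_2 => tm_484 h h4_2 hb l3_2 l4_2 l5_2 l6_2 w1_9 w3_8 w3_9 w4_9))))
 (fun nr2 => (fun (l2_2 : LL D 2 4) => tm_485 h hb l2_2 l3_2 l5_2 l6_2 w1_9 w3_8) (h.labL 2 nr2))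

theorem tm_513 {D : ℕ → ℕ → ℝ} (h : Cfg D)
    (h3_1 : D 1 4 + D 3 6 < 101 / 100 * D 3 4 + D 1 6)
    (hb : ∀ i, 0 < D i (i + 1))
    (iPY1_3_6_7gm2 : (lv D 17 + lv D 36) + (-2) * Real.log 2 ≤ lv D 16 + lv D 37)
    (l3_2 : LL D 3 5)
    (l4_2 : LL D 4 6)
    (l5_2 : LL D 5 7)
    (l6_2 : LL D 6 8)
    (nr4 : ¬ RR D 4 6)
    (r0_2 : RR D 0 2)
    (r1_2 : RR D 1 3)
    (r2_2 : RR D 2 4)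
    (w0_3 : 0 < D 0 3)
    (w0_6 : 0 < D 0 6)
    (w1_3 : 0 < D 1 3)
    (w1_4 : 0 < D 1 4)
    (w1_5 : 0 < D 1 5)
    (w1_6 : 0 < D 1 6)
    (w2_5 : 0 < D 2 5)
    (w2_6 : 0 < D 2 6)
    (w3_5 : 0 < D 3 5)
    (w3_8 : 0 < D 3 8)
    (w3_9 : 0 < D 3 9)
    (w4_9 : 0 < D 4 9)
    (w7_11 : 0 < D 7 11)
    (w7_12 : 0 < D 7 12)
    (w9_11 : 0 < D 9 11) : False :=
 (h.ch 2 w2_5 (h.pos_of w4_9 4 7 0 0 (by decide))).elim (fun q_ => (fun (l2_2 : LL D 2 4) => (le_total ((lv D 27 + lv D 36) + (0) * Real.log 2) (lv D 26 + lv D 37)).elim (fun iPY2_3_6_7gp0 => tm_506 h h3_1 hb iPY1_3_6_7gm2 iPY2_3_6_7gp0 l2_2 l3_2 l4_2 l5_2 l6_2 r0_2 r1_2 w0_6 w1_4 w1_5 w1_6 w3_5 w3_8 w3_9 w4_9 w7_12)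
 (fun iPY2_3_6_7lp0 => (Classical.em (RR D 8 10)).elim (fun r8_2 => (h.lab 7 11 (by decide) (by decide)).elim (fun r7_4 => tm_507 h h3_1 hb iPY1_3_6_7gm2 iPY2_3_6_7lp0 l2_2 l3_2 l4_2 l5_2 l6_2 r1_2 r7_4 w1_3 w1_6 w2_6 w3_8 w3_9 w4_9 w7_12)
 (fun l7_4 => tm_508 h hb iPY2_3_6_7lp0 l7_4 r0_2 r8_2 w0_3 w0_6 w2_6 w3_8 w7_12))
 (fun nr8 => (fun (l8_2 : LL D 8 10) => (h.lab 7 10 (by decide) (by decide)).elim (fun r7_3 => tm_509 h h3_1 hb iPY1_3_6_7gm2 iPY2_3_6_7lp0 l2_2 l3_2 l4_2 l5_2 l6_2 l8_2 r0_2 r1_2 r7_3 w0_3 w0_6 w1_6 w3_9 w7_12 w9_11)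
 (fun l7_3 => tm_510 h h3_1 hb iPY2_3_6_7lp0 l3_2 l4_2 l5_2 l6_2 l7_3 l8_2 r0_2 r1_2 w0_3 w0_6 w2_5 w2_6 w3_8 w3_9 w4_9 w7_12)) (h.labL 8 nr8)))) (fun _ => q_))
 (fun o1 => o1.elim (fun q_ => nr4 (h.rrsh 4 0 (fun _ => q_)))
 (fun o2 => o2.elim (fun h3_2 => tm_511 h h3_1 h3_2 hb iPY1_3_6_7gm2 l3_2 l4_2 l5_2 l6_2 r0_2 r1_2 r2_2 w0_6 w1_4 w3_8 w4_9 w7_11)
 (fun h4_2 => tm_512 h h3_1 h4_2 hb iPY1_3_6_7gm2 l3_2 l4_2 l5_2 r0_2 r1_2 r2_2 w0_3 w0_6 w1_6 w2_6 w3_8 w3_9 w4_9 w7_11)))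

theorem tm_520 {D : ℕ → ℕ → ℝ} (h : Cfg D)
    (h3_1 : D 1 4 + D 3 6 < 101 / 100 * D 3 4 + D 1 6)
    (hb : ∀ i, 0 < D i (i + 1))
    (iPY1_3_6_7lm2 : lv D 16 + lv D 37 ≤ (lv D 17 + lv D 36) + (-2) * Real.log 2)
    (l3_2 : LL D 3 5)
    (l4_2 : LL D 4 6)
    (l5_2 : LL D 5 7)
    (l6_2 : LL D 6 8)
    (nr4 : ¬ RR D 4 6)
    (r0_2 : RR D 0 2)
    (r1_2 : RR D 1 3)
    (r2_2 : RR D 2 4)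
    (w0_3 : 0 < D 0 3)
    (w0_6 : 0 < D 0 6)
    (w1_4 : 0 < D 1 4)
    (w1_6 : 0 < D 1 6)
    (w2_4 : 0 < D 2 4)
    (w2_5 : 0 < D 2 5)
    (w2_6 : 0 < D 2 6)
    (w3_8 : 0 < D 3 8)
    (w3_9 : 0 < D 3 9)
    (w4_9 : 0 < D 4 9)
    (w7_11 : 0 < D 7 11)
    (w7_12 : 0 < D 7 12)
    (w8_12 : 0 < D 8 12) : False :=
 (Classical.em (RR D 8 10)).elim (fun r8_2 => (h.ch 2 w2_5 (h.pos_of w4_9 4 7 0 0 (by decide))).elim (fun q_ => (fun (l2_2 : LL D 2 4) => (le_total ((lv D 27 + lv D 36) + (-2) * Real.log 2) (lv D 26 + lv D 37)).elim (fun iPY2_3_6_7gm2 => tm_514 h h3_1 hb iPY1_3_6_7lm2 iPY2_3_6_7gm2 l2_2 l3_2 l4_2 l5_2 l6_2 r0_2 r1_2 r8_2 w0_3 w0_6 w3_8 w3_9 w4_9 w7_12)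
 (fun iPY2_3_6_7lm2 => (h.lab 7 11 (by decide) (by decide)).elim (fun r7_4 => tm_515 h h3_1 hb iPY2_3_6_7lm2 l2_2 l3_2 l4_2 l5_2 l6_2 r0_2 r1_2 r7_4 r8_2 w0_6 w2_4 w2_5 w3_9 w4_9 w7_11 w7_12 w8_12)
 (fun l7_4 => tm_516 h hb iPY2_3_6_7lm2 l7_4 r0_2 r8_2 w0_3 w0_6 w1_6 w2_6 w3_8 w3_9 w7_12))) (fun _ => q_))
 (fun o1 => o1.elim (fun q_ => nr4 (h.rrsh 4 0 (fun _ => q_)))
 (fun o2 => o2.elim (fun h3_2 => tm_517 h h3_1 h3_2 hb iPY1_3_6_7lm2 l3_2 l4_2 l5_2 l6_2 r0_2 r1_2 r2_2 r8_2 w0_6 w3_9 w4_9 w7_11)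
 (fun h4_2 => tm_518 h h3_1 h4_2 hb iPY1_3_6_7lm2 l3_2 l4_2 l5_2 r0_2 r1_2 r2_2 r8_2 w0_6 w1_6 w3_8 w3_9 w4_9 w7_11))))
 (fun nr8 => (fun (l8_2 : LL D 8 10) => tm_519 h h3_1 hb iPY1_3_6_7lm2 l3_2 l4_2 l5_2 l6_2 l8_2 r0_2 r1_2 w0_6 w1_4 w1_6 w3_8 w3_9 w4_9 w7_11) (h.labL 8 nr8))

theorem tm_521 {D : ℕ → ℕ → ℝ} (h : Cfg D)
    (h3_1 : D 1 4 + D 3 6 < 101 / 100 * D 3 4 + D 1 6)
    (hb : ∀ i, 0 < D i (i + 1))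
    (l3_2 : LL D 3 5)
    (l4_2 : LL D 4 6)
    (l5_2 : LL D 5 7)
    (l6_2 : LL D 6 8)
    (nr4 : ¬ RR D 4 6)
    (r0_2 : RR D 0 2)
    (r1_2 : RR D 1 3)
    (r2_2 : RR D 2 4)
    (w0_3 : 0 < D 0 3)
    (w0_6 : 0 < D 0 6)
    (w1_3 : 0 < D 1 3)
    (w1_4 : 0 < D 1 4)
    (w1_5 : 0 < D 1 5)
    (w1_6 : 0 < D 1 6)
    (w2_4 : 0 < D 2 4)
    (w2_5 : 0 < D 2 5)
    (w2_6 : 0 < D 2 6)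
    (w3_5 : 0 < D 3 5)
    (w3_8 : 0 < D 3 8)
    (w3_9 : 0 < D 3 9)
    (w4_9 : 0 < D 4 9)
    (w7_10 : 0 < D 7 10)
    (w7_11 : 0 < D 7 11)
    (w7_12 : 0 < D 7 12)
    (w8_11 : 0 < D 8 11)
    (w8_12 : 0 < D 8 12)
    (w9_11 : 0 < D 9 11) : False :=
 (le_total ((lv D 9 + lv D 27) + (0) * Real.log 2) (lv D 2 + lv D 79)).elim (fun iPX0_2_7_9gp0 => (h.ch 2 w2_5 (h.pos_of w4_9 4 7 0 0 (by decide))).elim (fun q_ => (fun (l2_2 : LL D 2 4) => (le_total ((lv D 38 + lv D 57) + (-1) * Real.log 2) (lv D 35 + lv D 78)).elim (fun iPX3_5_7_8gm1 => (Classical.em (RR D 8 10)).elim (fun r8_2 => tm_501 h h3_1 hb iPX0_2_7_9gp0 iPX3_5_7_8gm1 l2_2 l3_2 l4_2 l5_2 l6_2 r0_2 r1_2 r8_2 w0_6 w3_9 w4_9 w7_10 w7_12 w8_12)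
 (fun nr8 => (fun (l8_2 : LL D 8 10) => tm_502 h h3_1 hb iPX0_2_7_9gp0 iPX3_5_7_8gm1 l2_2 l3_2 l4_2 l5_2 l6_2 l8_2 r0_2 r1_2 w0_6 w2_4 w2_6 w3_8 w3_9 w4_9 w7_10 w7_12 w8_11 w8_12) (h.labL 8 nr8)))
 (fun iPX3_5_7_8lm1 => tm_503 h h3_1 hb iPX0_2_7_9gp0 iPX3_5_7_8lm1 l2_2 l3_2 l4_2 l5_2 l6_2 r0_2 r1_2 w0_6 w1_4 w2_6 w3_8 w3_9 w7_10 w7_12 w8_12)) (fun _ => q_))
 (fun o1 => o1.elim (fun q_ => nr4 (h.rrsh 4 0 (fun _ => q_)))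
 (fun o2 => o2.elim (fun h3_2 => tm_504 h h3_1 h3_2 hb iPX0_2_7_9gp0 l3_2 l4_2 l5_2 l6_2 r0_2 r1_2 w0_3 w0_6 w2_4 w2_5 w2_6 w3_9 w4_9 w7_12)
 (fun h4_2 => tm_505 h h3_1 h4_2 hb iPX0_2_7_9gp0 l3_2 l4_2 l5_2 l6_2 r0_2 r1_2 r2_2 w0_3 w0_6 w1_4 w2_6 w3_8 w3_9 w4_9 w7_12))))
 (fun iPX0_2_7_9lp0 => (le_total ((lv D 17 + lv D 36) + (-2) * Real.log 2) (lv D 16 + lv D 37)).elim (fun iPY1_3_6_7gm2 => tm_513 h h3_1 hb iPY1_3_6_7gm2 l3_2 l4_2 l5_2 l6_2 nr4 r0_2 r1_2 r2_2 w0_3 w0_6 w1_3 w1_4 w1_5 w1_6 w2_5 w2_6 w3_5 w3_8 w3_9 w4_9 w7_11 w7_12 w9_11)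
 (fun iPY1_3_6_7lm2 => tm_520 h h3_1 hb iPY1_3_6_7lm2 l3_2 l4_2 l5_2 l6_2 nr4 r0_2 r1_2 r2_2 w0_3 w0_6 w1_4 w1_6 w2_4 w2_5 w2_6 w3_8 w3_9 w4_9 w7_11 w7_12 w8_12))

theorem tm_526 {D : ℕ → ℕ → ℝ} (h : Cfg D)
    (h3_1 : D 1 4 + D 3 6 < 101 / 100 * D 3 4 + D 1 6)
    (hb : ∀ i, 0 < D i (i + 1))
    (l3_2 : LL D 3 5)
    (l4_2 : LL D 4 6)
    (l5_2 : LL D 5 7)
    (l6_2 : LL D 6 8)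
    (nr4 : ¬ RR D 4 6)
    (r0_2 : RR D 0 2)
    (r1_2 : RR D 1 3)
    (r2_2 : RR D 2 4)
    (w0_3 : 0 < D 0 3)
    (w0_6 : 0 < D 0 6)
    (w1_3 : 0 < D 1 3)
    (w1_4 : 0 < D 1 4)
    (w1_5 : 0 < D 1 5)
    (w1_6 : 0 < D 1 6)
    (w2_4 : 0 < D 2 4)
    (w2_5 : 0 < D 2 5)
    (w2_6 : 0 < D 2 6)
    (w3_5 : 0 < D 3 5)
    (w3_8 : 0 < D 3 8)
    (w3_9 : 0 < D 3 9)
    (w4_9 : 0 < D 4 9)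
    (w7_10 : 0 < D 7 10)
    (w8_11 : 0 < D 8 11)
    (w8_12 : 0 < D 8 12)
    (w9_11 : 0 < D 9 11) : False :=
 (Classical.em (RR D 7 9)).elim (fun r7_2 => (Classical.em (0 < D 1 7)).elim (fun w1_7 => tm_500 h h3_1 hb l3_2 l4_2 l5_2 l6_2 r0_2 r1_2 r2_2 w0_6 w1_4 w1_6 w1_7 w3_8 w3_9 w4_9)
 (fun n_ => (fun (w7_11 : 0 < D 7 11) => (Classical.em (0 < D 7 12)).elim (fun w7_12 => tm_521 h h3_1 hb l3_2 l4_2 l5_2 l6_2 nr4 r0_2 r1_2 r2_2 w0_3 w0_6 w1_3 w1_4 w1_5 w1_6 w2_4 w2_5 w2_6 w3_5 w3_8 w3_9 w4_9 w7_10 w7_11 w7_12 w8_11 w8_12 w9_11)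
 (fun n_ => (fun (w2_7 : 0 < D 2 7) => (h.ch 2 w2_5 (h.pos_of w4_9 4 7 0 0 (by decide))).elim (fun q_ => (fun (l2_2 : LL D 2 4) => tm_522 h hb l2_2 l3_2 l4_2 l5_2 l6_2 w2_6 w2_7 w3_5 w3_8 w3_9 w4_9 w8_12) (fun _ => q_))
 (fun o1 => o1.elim (fun q_ => nr4 (h.rrsh 4 0 (fun _ => q_)))
 (fun o2 => o2.elim (fun h3_2 => tm_523 h h3_1 h3_2 hb l3_2 l4_2 l5_2 l6_2 r0_2 r1_2 r2_2 w0_6 w2_4 w2_5 w2_7 w3_5 w3_9 w4_9)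
 (fun h4_2 => tm_524 h h4_2 hb l3_2 l4_2 l5_2 l6_2 r2_2 w2_5 w2_6 w2_7 w3_8 w3_9 w4_9)))) (h.flip2 n_ 2 (by decide)))) (h.flip n_ (by decide))))
 (fun nr7 => (fun (l7_2 : LL D 7 9) => tm_525 h h3_1 hb l3_2 l4_2 l5_2 l6_2 l7_2 nr7 r0_2 r1_2 w0_6 w1_4 w3_8 w3_9 w4_9 w7_10) (h.labL 7 nr7))

theorem tm_530 {D : ℕ → ℕ → ℝ} (h : Cfg D)
    (hb : ∀ i, 0 < D i (i + 1))
    (l3_2 : LL D 3 5)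
    (l4_2 : LL D 4 6)
    (l5_2 : LL D 5 7)
    (l6_2 : LL D 6 8)
    (nr3 : ¬ RR D 3 5)
    (nr4 : ¬ RR D 4 6)
    (r0_2 : RR D 0 2)
    (r1_2 : RR D 1 3)
    (r2_2 : RR D 2 4)
    (w0_3 : 0 < D 0 3)
    (w0_6 : 0 < D 0 6)
    (w1_3 : 0 < D 1 3)
    (w1_4 : 0 < D 1 4)
    (w1_5 : 0 < D 1 5)
    (w1_6 : 0 < D 1 6)
    (w2_4 : 0 < D 2 4)
    (w2_5 : 0 < D 2 5)
    (w2_6 : 0 < D 2 6)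
    (w3_5 : 0 < D 3 5)
    (w3_8 : 0 < D 3 8)
    (w3_9 : 0 < D 3 9)
    (w4_9 : 0 < D 4 9)
    (w5_7 : 0 < D 5 7)
    (w7_10 : 0 < D 7 10)
    (w8_11 : 0 < D 8 11)
    (w9_11 : 0 < D 9 11) : False :=
 (h.ch 1 w1_4 (h.pos_of w3_8 3 6 0 0 (by decide))).elim (fun q_ => (fun (l1_2 : LL D 1 3) => tm_498 h hb l1_2 r2_2 w1_4 w1_6 w2_6) (fun _ => q_))
 (fun o1 => o1.elim (fun q_ => nr3 (h.rrsh 3 0 (fun _ => q_)))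
 (fun o2 => o2.elim (fun h3_1 => (Classical.em (0 < D 2 8)).elim (fun w2_8 => tm_499 h h3_1 hb l3_2 l5_2 l6_2 r0_2 r1_2 r2_2 w0_3 w0_6 w1_4 w2_5 w2_6 w2_8 w3_8 w3_9 w4_9)
 (fun n_ => (fun (w8_12 : 0 < D 8 12) => tm_526 h h3_1 hb l3_2 l4_2 l5_2 l6_2 nr4 r0_2 r1_2 r2_2 w0_3 w0_6 w1_3 w1_4 w1_5 w1_6 w2_4 w2_5 w2_6 w3_5 w3_8 w3_9 w4_9 w7_10 w8_11 w8_12 w9_11) (h.flip n_ (by decide))))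
 (fun h4_1 => (h.ch 2 w2_5 (h.pos_of w4_9 4 7 0 0 (by decide))).elim (fun q_ => (fun (l2_2 : LL D 2 4) => tm_527 h h4_1 hb l2_2 l3_2 l5_2 r2_2 w1_5 w1_6 w3_8 w4_9) (fun _ => q_))
 (fun o1 => o1.elim (fun q_ => nr4 (h.rrsh 4 0 (fun _ => q_)))
 (fun o2 => o2.elim (fun h3_2 => tm_528 h h3_2 h4_1 hb l3_2 l4_2 l6_2 r0_2 r1_2 r2_2 w0_3 w0_6 w2_5 w3_8 w4_9)
 (fun h4_2 => tm_529 h h4_1 h4_2 hb l4_2 r0_2 r1_2 r2_2 w0_6 w3_9 w4_9 w5_7))))))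

theorem tm_531 {D : ℕ → ℕ → ℝ} (h : Cfg D)
    (hb : ∀ i, 0 < D i (i + 1))
    (l3_2 : LL D 3 5)
    (l4_2 : LL D 4 6)
    (l5_2 : LL D 5 7)
    (l6_2 : LL D 6 8)
    (nr3 : ¬ RR D 3 5)
    (nr4 : ¬ RR D 4 6)
    (r0_2 : RR D 0 2)
    (r1_2 : RR D 1 3)
    (r2_2 : RR D 2 4)
    (w0_3 : 0 < D 0 3)
    (w1_3 : 0 < D 1 3)
    (w1_4 : 0 < D 1 4)
    (w1_5 : 0 < D 1 5)
    (w1_6 : 0 < D 1 6)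
    (w2_4 : 0 < D 2 4)
    (w2_5 : 0 < D 2 5)
    (w2_6 : 0 < D 2 6)
    (w3_5 : 0 < D 3 5)
    (w3_8 : 0 < D 3 8)
    (w3_9 : 0 < D 3 9)
    (w4_9 : 0 < D 4 9)
    (w5_7 : 0 < D 5 7)
    (w7_10 : 0 < D 7 10)
    (w8_11 : 0 < D 8 11)
    (w9_11 : 0 < D 9 11) : False :=
 (Classical.em (0 < D 6 10)).elim (fun w6_10 => (Classical.em (RR D 7 9)).elim (fun r7_2 => tm_493 h hb l6_2 r7_2 w4_9 w6_10 w7_10)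
 (fun nr7 => (fun (l7_2 : LL D 7 9) => (Classical.em (0 < D 5 10)).elim (fun w5_10 => tm_494 h hb l3_2 l4_2 l5_2 l6_2 l7_2 w3_8 w3_9 w4_9 w5_10)
 (fun n_ => (fun (w0_5 : 0 < D 0 5) => (h.ch 1 w1_4 (h.pos_of w3_8 3 6 0 0 (by decide))).elim (fun q_ => (fun (l1_2 : LL D 1 3) => tm_495 h hb l1_2 r2_2 w1_4 w1_5 w2_5) (fun _ => q_))
 (fun o1 => o1.elim (fun q_ => nr3 (h.rrsh 3 0 (fun _ => q_)))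
 (fun o2 => o2.elim (fun h3_1 => tm_496 h h3_1 hb l3_2 l4_2 l5_2 l6_2 l7_2 r0_2 r1_2 w0_3 w0_5 w1_4 w1_6 w3_8 w3_9 w4_9 w6_10 w7_10)
 (fun h4_1 => tm_497 h h4_1 hb l3_2 l4_2 l6_2 l7_2 r0_2 r1_2 r2_2 w0_3 w0_5 w1_4 w1_6 w2_5 w2_6 w3_8 w3_9 w4_9 w6_10 w7_10)))) (h.flip2 n_ 0 (by decide)))) (h.labL 7 nr7)))
 (fun n_ => (fun (w0_6 : 0 < D 0 6) => tm_530 h hb l3_2 l4_2 l5_2 l6_2 nr3 nr4 r0_2 r1_2 r2_2 w0_3 w0_6 w1_3 w1_4 w1_5 w1_6 w2_4 w2_5 w2_6 w3_5 w3_8 w3_9 w4_9 w5_7 w7_10 w8_11 w9_11) (h.flip2 n_ 0 (by decide)))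

theorem tm_532 {D : ℕ → ℕ → ℝ} (h : Cfg D)
    (hb : ∀ i, 0 < D i (i + 1))
    (l3_2 : LL D 3 5)
    (l4_2 : LL D 4 6)
    (l5_2 : LL D 5 7)
    (l6_2 : LL D 6 8)
    (nr3 : ¬ RR D 3 5)
    (nr4 : ¬ RR D 4 6)
    (r0_2 : RR D 0 2)
    (r1_2 : RR D 1 3)
    (r2_2 : RR D 2 4)
    (w0_3 : 0 < D 0 3)
    (w1_3 : 0 < D 1 3)
    (w1_4 : 0 < D 1 4)
    (w1_5 : 0 < D 1 5)
    (w1_6 : 0 < D 1 6)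
    (w2_4 : 0 < D 2 4)
    (w2_5 : 0 < D 2 5)
    (w2_6 : 0 < D 2 6)
    (w3_5 : 0 < D 3 5)
    (w3_8 : 0 < D 3 8)
    (w3_9 : 0 < D 3 9)
    (w4_9 : 0 < D 4 9)
    (w5_7 : 0 < D 5 7)
    (w7_10 : 0 < D 7 10)
    (w9_11 : 0 < D 9 11) : False :=
 (Classical.em (0 < D 1 8)).elim (fun w1_8 => (h.ch 2 w2_5 (h.pos_of w4_9 4 7 0 0 (by decide))).elim (fun q_ => (fun (l2_2 : LL D 2 4) => tm_488 h hb l2_2 l3_2 l5_2 l6_2 w1_5 w1_6 w1_8 w2_5 w2_6 w3_8 w3_9 w4_9) (fun _ => q_))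
 (fun o1 => o1.elim (fun q_ => nr4 (h.rrsh 4 0 (fun _ => q_)))
 (fun o2 => o2.elim (fun h3_2 => (Classical.em (0 < D 4 10)).elim (fun w4_10 => (Classical.em (RR D 7 9)).elim (fun r7_2 => tm_489 h hb l5_2 r7_2 w4_10)
 (fun nr7 => (fun (l7_2 : LL D 7 9) => tm_490 h h3_2 hb l3_2 l4_2 l5_2 l6_2 l7_2 r1_2 r2_2 w1_4 w1_8 w2_5 w3_8 w3_9 w4_10) (h.labL 7 nr7)))
 (fun n_ => (fun (w0_4 : 0 < D 0 4) => tm_491 h h3_2 hb l3_2 l4_2 l5_2 l6_2 r0_2 r1_2 r2_2 w0_4 w1_5 w1_8 w2_5 w3_8 w4_9) (h.flip2 n_ 0 (by decide))))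
 (fun h4_2 => tm_492 h h4_2 hb l3_2 l4_2 l5_2 l6_2 w1_8 w3_8 w4_9))))
 (fun n_ => (fun (w8_11 : 0 < D 8 11) => tm_531 h hb l3_2 l4_2 l5_2 l6_2 nr3 nr4 r0_2 r1_2 r2_2 w0_3 w1_3 w1_4 w1_5 w1_6 w2_4 w2_5 w2_6 w3_5 w3_8 w3_9 w4_9 w5_7 w7_10 w8_11 w9_11) (h.flip n_ (by decide)))

theorem tm_547 {D : ℕ → ℕ → ℝ} (h : Cfg D)
    (h3_1 : D 1 4 + D 3 6 < 101 / 100 * D 3 4 + D 1 6)
    (hb : ∀ i, 0 < D i (i + 1))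
    (l2_2 : LL D 2 4)
    (l3_2 : LL D 3 5)
    (l4_2 : LL D 4 6)
    (l5_2 : LL D 5 7)
    (l6_2 : LL D 6 8)
    (l9_2 : LL D 9 11)
    (nr2 : ¬ RR D 2 4)
    (r0_2 : RR D 0 2)
    (r1_2 : RR D 1 3)
    (r7_2 : RR D 7 9)
    (w0_3 : 0 < D 0 3)
    (w0_6 : 0 < D 0 6)
    (w1_3 : 0 < D 1 3)
    (w1_4 : 0 < D 1 4)
    (w1_5 : 0 < D 1 5)
    (w1_6 : 0 < D 1 6)
    (w2_6 : 0 < D 2 6)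
    (w3_8 : 0 < D 3 8)
    (w3_9 : 0 < D 3 9)
    (w4_9 : 0 < D 4 9)
    (w7_10 : 0 < D 7 10)
    (w7_12 : 0 < D 7 12)
    (w8_11 : 0 < D 8 11)
    (w8_12 : 0 < D 8 12) : False :=
 (le_total ((lv D 27 + lv D 36) + (0) * Real.log 2) (lv D 26 + lv D 37)).elim (fun iPY2_3_6_7gp0 => (le_total ((lv D 9 + lv D 17) + (-2) * Real.log 2) (lv D 1 + lv D 79)).elim (fun iPX0_1_7_9gm2 => tm_540 h h3_1 hb iPX0_1_7_9gm2 iPY2_3_6_7gp0 l2_2 l3_2 l4_2 l5_2 l6_2 l9_2 nr2 r0_2 r1_2 w0_3 w0_6 w1_5 w1_6 w3_8 w3_9 w7_12)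
 (fun iPX0_1_7_9lm2 => (le_total ((lv D 16 + lv D 23) + (-1) * Real.log 2) (lv D 12 + lv D 36)).elim (fun iPX1_2_3_6gm1 => (Classical.em (RR D 8 10)).elim (fun r8_2 => tm_541 h h3_1 hb iPX1_2_3_6gm1 iPY2_3_6_7gp0 l2_2 l3_2 l4_2 l5_2 l6_2 r0_2 r1_2 r8_2 w0_6 w3_8 w3_9 w4_9 w7_12)
 (fun nr8 => (fun (l8_2 : LL D 8 10) => tm_542 h h3_1 hb iPX1_2_3_6gm1 iPY2_3_6_7gp0 l2_2 l3_2 l4_2 l5_2 l6_2 l8_2 l9_2 nr2 r0_2 r1_2 w0_6 w1_4 w3_8 w3_9 w4_9 w7_12 w8_11 w8_12) (h.labL 8 nr8)))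
 (fun iPX1_2_3_6lm1 => tm_543 h h3_1 hb iPX1_2_3_6lm1 iPY2_3_6_7gp0 l2_2 l3_2 l4_2 l5_2 l6_2 r0_2 r1_2 w0_3 w0_6 w1_3 w1_6 w2_6 w3_8 w3_9 w4_9 w7_12)))
 (fun iPY2_3_6_7lp0 => (Classical.em (RR D 8 10)).elim (fun r8_2 => (h.lab 7 11 (by decide) (by decide)).elim (fun r7_4 => tm_544 h h3_1 hb iPY2_3_6_7lp0 l2_2 l3_2 l4_2 l5_2 l6_2 r0_2 r1_2 r7_2 r7_4 r8_2 w0_6 w3_9 w4_9 w7_12)
 (fun l7_4 => tm_545 h hb iPY2_3_6_7lp0 l7_4 r0_2 r8_2 w0_6 w3_8 w3_9 w7_10 w7_12))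
 (fun nr8 => (fun (l8_2 : LL D 8 10) => tm_546 h h3_1 hb iPY2_3_6_7lp0 l2_2 l3_2 l4_2 l5_2 l6_2 l8_2 l9_2 nr2 r0_2 r1_2 w0_6 w1_4 w3_8 w3_9 w7_12 w8_12) (h.labL 8 nr8)))

theorem tm_549 {D : ℕ → ℕ → ℝ} (h : Cfg D)
    (h3_1 : D 1 4 + D 3 6 < 101 / 100 * D 3 4 + D 1 6)
    (hb : ∀ i, 0 < D i (i + 1))
    (l2_2 : LL D 2 4)
    (l3_2 : LL D 3 5)
    (l4_2 : LL D 4 6)
    (l5_2 : LL D 5 7)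
    (l6_2 : LL D 6 8)
    (l9_2 : LL D 9 11)
    (nr2 : ¬ RR D 2 4)
    (r0_2 : RR D 0 2)
    (r1_2 : RR D 1 3)
    (w0_3 : 0 < D 0 3)
    (w1_3 : 0 < D 1 3)
    (w1_4 : 0 < D 1 4)
    (w1_5 : 0 < D 1 5)
    (w1_6 : 0 < D 1 6)
    (w2_5 : 0 < D 2 5)
    (w2_6 : 0 < D 2 6)
    (w3_8 : 0 < D 3 8)
    (w3_9 : 0 < D 3 9)
    (w4_9 : 0 < D 4 9)
    (w7_10 : 0 < D 7 10)
    (w8_11 : 0 < D 8 11) : False :=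
 (Classical.em (0 < D 2 8)).elim (fun w2_8 => tm_536 h hb l2_2 l3_2 l5_2 l6_2 w2_5 w2_8 w3_8 w3_9)
 (fun n_ => (fun (w8_12 : 0 < D 8 12) => (Classical.em (0 < D 1 7)).elim (fun w1_7 => tm_537 h hb l2_2 l3_2 l4_2 l5_2 l6_2 w1_5 w1_6 w1_7 w3_8 w3_9 w4_9)
 (fun n_ => (fun (w7_11 : 0 < D 7 11) => (Classical.em (0 < D 2 7)).elim (fun w2_7 => tm_538 h hb l2_2 l3_2 l4_2 l5_2 l6_2 w2_5 w2_6 w2_7 w3_8 w3_9)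
 (fun n_ => (fun (w7_12 : 0 < D 7 12) => (Classical.em (RR D 7 9)).elim (fun r7_2 => (Classical.em (0 < D 6 10)).elim (fun w6_10 => tm_539 h hb l6_2 r7_2 w4_9 w6_10 w7_10)
 (fun n_ => (fun (w0_6 : 0 < D 0 6) => tm_547 h h3_1 hb l2_2 l3_2 l4_2 l5_2 l6_2 l9_2 nr2 r0_2 r1_2 r7_2 w0_3 w0_6 w1_3 w1_4 w1_5 w1_6 w2_6 w3_8 w3_9 w4_9 w7_10 w7_12 w8_11 w8_12) (h.flip2 n_ 0 (by decide))))
 (fun nr7 => (fun (l7_2 : LL D 7 9) => tm_548 h l2_2 l4_2 l7_2 l9_2 nr2 nr7 w2_5 w4_9 w7_10 w7_12) (h.labL 7 nr7))) (h.flip n_ (by decide)))) (h.flip n_ (by decide)))) (h.flip n_ (by decide)))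

theorem tm_551 {D : ℕ → ℕ → ℝ} (h : Cfg D)
    (hb : ∀ i, 0 < D i (i + 1))
    (l3_2 : LL D 3 5)
    (l4_2 : LL D 4 6)
    (l5_2 : LL D 5 7)
    (l6_2 : LL D 6 8)
    (l9_2 : LL D 9 11)
    (nr3 : ¬ RR D 3 5)
    (nr4 : ¬ RR D 4 6)
    (nr9 : ¬ RR D 9 11)
    (r0_2 : RR D 0 2)
    (r1_2 : RR D 1 3)
    (w0_3 : 0 < D 0 3)
    (w1_3 : 0 < D 1 3)
    (w1_4 : 0 < D 1 4)
    (w1_5 : 0 < D 1 5)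
    (w1_6 : 0 < D 1 6)
    (w2_4 : 0 < D 2 4)
    (w2_5 : 0 < D 2 5)
    (w2_6 : 0 < D 2 6)
    (w3_5 : 0 < D 3 5)
    (w3_8 : 0 < D 3 8)
    (w3_9 : 0 < D 3 9)
    (w4_9 : 0 < D 4 9)
    (w5_7 : 0 < D 5 7)
    (w7_10 : 0 < D 7 10)
    (w9_11 : 0 < D 9 11) : False :=
 (Classical.em (RR D 2 4)).elim (fun r2_2 => tm_532 h hb l3_2 l4_2 l5_2 l6_2 nr3 nr4 r0_2 r1_2 r2_2 w0_3 w1_3 w1_4 w1_5 w1_6 w2_4 w2_5 w2_6 w3_5 w3_8 w3_9 w4_9 w5_7 w7_10 w9_11)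
 (fun nr2 => (fun (l2_2 : LL D 2 4) => (Classical.em (0 < D 1 8)).elim (fun w1_8 => tm_533 h hb l2_2 l3_2 l4_2 l5_2 l6_2 w1_8 w2_5 w2_6 w3_8 w3_9 w4_9)
 (fun n_ => (fun (w8_11 : 0 < D 8 11) => (Classical.em (0 < D 2 9)).elim (fun w2_9 => tm_534 h hb l2_2 l3_2 l5_2 l6_2 w2_5 w2_9 w3_8 w3_9 w4_9)
 (fun n_ => (fun (w9_12 : 0 < D 9 12) => (h.ch 1 w1_4 (h.pos_of w3_8 3 6 0 0 (by decide))).elim (fun q_ => (fun (l1_2 : LL D 1 3) => tm_535 h hb l1_2 l3_2 l5_2 l9_2 nr9 w1_5 w1_6 w3_9 w9_11 w9_12) (fun _ => q_))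
 (fun o1 => o1.elim (fun q_ => nr3 (h.rrsh 3 0 (fun _ => q_)))
 (fun o2 => o2.elim (fun h3_1 => tm_549 h h3_1 hb l2_2 l3_2 l4_2 l5_2 l6_2 l9_2 nr2 r0_2 r1_2 w0_3 w1_3 w1_4 w1_5 w1_6 w2_5 w2_6 w3_8 w3_9 w4_9 w7_10 w8_11)
 (fun h4_1 => tm_550 h h4_1 hb l2_2 l4_2 l6_2 nr4 nr9 r1_2 w1_4 w1_6 w2_5 w2_6 w3_9 w4_9 w9_11 w9_12)))) (h.flip n_ (by decide)))) (h.flip n_ (by decide)))) (h.labL 2 nr2))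

theorem tm_559 {D : ℕ → ℕ → ℝ} (h : Cfg D)
    (hb : ∀ i, 0 < D i (i + 1))
    (l3_2 : LL D 3 5)
    (l4_2 : LL D 4 6)
    (l5_2 : LL D 5 7)
    (l6_2 : LL D 6 8)
    (l9_2 : LL D 9 11)
    (nr3 : ¬ RR D 3 5)
    (nr4 : ¬ RR D 4 6)
    (nr9 : ¬ RR D 9 11)
    (r0_2 : RR D 0 2)
    (w0_3 : 0 < D 0 3)
    (w1_3 : 0 < D 1 3)
    (w1_4 : 0 < D 1 4)
    (w1_5 : 0 < D 1 5)
    (w1_6 : 0 < D 1 6)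
    (w2_4 : 0 < D 2 4)
    (w2_5 : 0 < D 2 5)
    (w2_6 : 0 < D 2 6)
    (w3_5 : 0 < D 3 5)
    (w3_8 : 0 < D 3 8)
    (w3_9 : 0 < D 3 9)
    (w4_9 : 0 < D 4 9)
    (w5_7 : 0 < D 5 7)
    (w9_11 : 0 < D 9 11) : False :=
 (Classical.em (RR D 1 3)).elim (fun r1_2 => (Classical.em (0 < D 7 10)).elim (fun w7_10 => tm_551 h hb l3_2 l4_2 l5_2 l6_2 l9_2 nr3 nr4 nr9 r0_2 r1_2 w0_3 w1_3 w1_4 w1_5 w1_6 w2_4 w2_5 w2_6 w3_5 w3_8 w3_9 w4_9 w5_7 w7_10 w9_11)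
 (fun n_ => (fun (w0_7 : 0 < D 0 7) => (Classical.em (RR D 2 4)).elim (fun r2_2 => (h.ch 1 w1_4 (h.pos_of w3_8 3 6 0 0 (by decide))).elim (fun q_ => (fun (l1_2 : LL D 1 3) => tm_552 h hb l1_2 r2_2 w0_7) (fun _ => q_))
 (fun o1 => o1.elim (fun q_ => nr3 (h.rrsh 3 0 (fun _ => q_)))
 (fun o2 => o2.elim (fun h3_1 => tm_553 h h3_1 hb l3_2 l4_2 l5_2 l6_2 r0_2 r1_2 r2_2 w0_7 w3_9 w4_9)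
 (fun h4_1 => tm_554 h h4_1 hb l3_2 l6_2 r0_2 r1_2 r2_2 w0_7 w4_9))))
 (fun nr2 => (fun (l2_2 : LL D 2 4) => tm_555 h hb l2_2 l3_2 l4_2 l5_2 l6_2 w0_7 w2_6 w3_8 w3_9) (h.labL 2 nr2))) (h.flip2 n_ 0 (by decide))))
 (fun nr1 => (fun (l1_2 : LL D 1 3) => (Classical.em (RR D 2 4)).elim (fun r2_2 => tm_556 h hb l1_2 r2_2 w1_4 w1_5 w2_5)
 (fun nr2 => (fun (l2_2 : LL D 2 4) => (Classical.em (0 < D 2 7)).elim (fun w2_7 => tm_557 h hb l2_2 l3_2 l4_2 l5_2 l6_2 w2_5 w2_7 w3_8 w3_9 w4_9)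
 (fun n_ => (fun (w7_12 : 0 < D 7 12) => tm_558 h hb l1_2 l3_2 l5_2 l9_2 nr9 w1_4 w1_6 w3_5 w3_9 w4_9 w7_12) (h.flip n_ (by decide)))) (h.labL 2 nr2))) (h.labL 1 nr1))

theorem tm_566 {D : ℕ → ℕ → ℝ} (h : Cfg D)
    (hb : ∀ i, 0 < D i (i + 1))
    (l3_2 : LL D 3 5)
    (l4_2 : LL D 4 6)
    (l5_2 : LL D 5 7)
    (l6_2 : LL D 6 8)
    (l9_2 : LL D 9 11)
    (nr3 : ¬ RR D 3 5)
    (nr4 : ¬ RR D 4 6)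
    (nr9 : ¬ RR D 9 11)
    (r0_2 : RR D 0 2)
    (w0_3 : 0 < D 0 3)
    (w1_3 : 0 < D 1 3)
    (w1_4 : 0 < D 1 4)
    (w2_4 : 0 < D 2 4)
    (w2_5 : 0 < D 2 5)
    (w2_6 : 0 < D 2 6)
    (w3_5 : 0 < D 3 5)
    (w3_8 : 0 < D 3 8)
    (w3_9 : 0 < D 3 9)
    (w4_9 : 0 < D 4 9)
    (w5_7 : 0 < D 5 7)
    (w9_11 : 0 < D 9 11) : False :=
 (Classical.em (0 < D 1 5)).elim (fun w1_5 => (Classical.em (0 < D 1 6)).elim (fun w1_6 => tm_559 h hb l3_2 l4_2 l5_2 l6_2 l9_2 nr3 nr4 nr9 r0_2 w0_3 w1_3 w1_4 w1_5 w1_6 w2_4 w2_5 w2_6 w3_5 w3_8 w3_9 w4_9 w5_7 w9_11)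
 (fun n_ => (fun (w6_11 : 0 < D 6 11) => (Classical.em (RR D 8 10)).elim (fun r8_2 => tm_560 h hb l6_2 r8_2 w6_11)
 (fun nr8 => (fun (l8_2 : LL D 8 10) => (Classical.em (RR D 7 9)).elim (fun r7_2 => tm_561 h hb l6_2 r7_2 w6_11)
 (fun nr7 => (fun (l7_2 : LL D 7 9) => (Classical.em (0 < D 0 5)).elim (fun w0_5 => tm_562 h hb l3_2 l4_2 l5_2 l6_2 l8_2 r0_2 w0_5 w1_3 w3_8 w3_9 w4_9 w6_11)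
 (fun n_ => (fun (w5_10 : 0 < D 5 10) => tm_563 h hb l3_2 l4_2 l5_2 l6_2 l7_2 l8_2 w3_8 w3_9 w4_9 w5_10 w6_11) (h.flip n_ (by decide)))) (h.labL 7 nr7))) (h.labL 8 nr8))) (h.flip n_ (by decide))))
 (fun n_ => (fun (w5_11 : 0 < D 5 11) => (Classical.em (RR D 7 9)).elim (fun r7_2 => tm_564 h hb l6_2 r7_2 w5_11)
 (fun nr7 => (fun (l7_2 : LL D 7 9) => tm_565 h hb l3_2 l4_2 l5_2 l6_2 l7_2 w3_8 w3_9 w4_9 w5_11) (h.labL 7 nr7))) (h.flip n_ (by decide)))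

theorem tm_573 {D : ℕ → ℕ → ℝ} (h : Cfg D)
    (hb : ∀ i, 0 < D i (i + 1))
    (l3_2 : LL D 3 5)
    (l4_2 : LL D 4 6)
    (l5_2 : LL D 5 7)
    (l6_2 : LL D 6 8)
    (l9_2 : LL D 9 11)
    (nr3 : ¬ RR D 3 5)
    (nr4 : ¬ RR D 4 6)
    (nr9 : ¬ RR D 9 11)
    (r0_2 : RR D 0 2)
    (w0_3 : 0 < D 0 3)
    (w1_3 : 0 < D 1 3)
    (w2_4 : 0 < D 2 4)
    (w2_5 : 0 < D 2 5)
    (w3_5 : 0 < D 3 5)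
    (w3_8 : 0 < D 3 8)
    (w3_9 : 0 < D 3 9)
    (w4_9 : 0 < D 4 9)
    (w5_7 : 0 < D 5 7)
    (w9_11 : 0 < D 9 11) : False :=
 (Classical.em (0 < D 2 6)).elim (fun w2_6 => (Classical.em (0 < D 1 4)).elim (fun w1_4 => tm_566 h hb l3_2 l4_2 l5_2 l6_2 l9_2 nr3 nr4 nr9 r0_2 w0_3 w1_3 w1_4 w2_4 w2_5 w2_6 w3_5 w3_8 w3_9 w4_9 w5_7 w9_11)
 (fun n_ => (fun (w4_11 : 0 < D 4 11) => (Classical.em (RR D 7 9)).elim (fun r7_2 => tm_567 h l4_2 r7_2 w4_11 w4_9)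
 (fun nr7 => (fun (l7_2 : LL D 7 9) => tm_568 h hb l3_2 l4_2 l5_2 l6_2 l7_2 w3_8 w3_9 w4_11 w4_9) (h.labL 7 nr7))) (h.flip n_ (by decide))))
 (fun n_ => (fun (w6_12 : 0 < D 6 12) => (Classical.em (RR D 8 10)).elim (fun r8_2 => tm_569 h hb l6_2 r8_2 w4_9 w6_12)
 (fun nr8 => (fun (l8_2 : LL D 8 10) => (Classical.em (RR D 7 9)).elim (fun r7_2 => tm_570 h hb l6_2 r7_2 w6_12)
 (fun nr7 => (fun (l7_2 : LL D 7 9) => (Classical.em (0 < D 0 5)).elim (fun w0_5 => tm_571 h hb l3_2 l4_2 l5_2 l6_2 l8_2 l9_2 r0_2 w0_3 w0_5 w3_8 w3_9 w4_9 w6_12)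
 (fun n_ => (fun (w5_10 : 0 < D 5 10) => tm_572 h hb l3_2 l4_2 l5_2 l6_2 l7_2 l8_2 l9_2 w2_5 w3_9 w4_9 w5_10 w6_12) (h.flip n_ (by decide)))) (h.labL 7 nr7))) (h.labL 8 nr8))) (h.flip n_ (by decide)))

theorem tm_576 {D : ℕ → ℕ → ℝ} (h : Cfg D)
    (hb : ∀ i, 0 < D i (i + 1))
    (l3_2 : LL D 3 5)
    (l4_2 : LL D 4 6)
    (l5_2 : LL D 5 7)
    (l6_2 : LL D 6 8)
    (l9_2 : LL D 9 11)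
    (nr3 : ¬ RR D 3 5)
    (nr4 : ¬ RR D 4 6)
    (nr9 : ¬ RR D 9 11)
    (r0_2 : RR D 0 2)
    (w1_3 : 0 < D 1 3)
    (w2_4 : 0 < D 2 4)
    (w2_5 : 0 < D 2 5)
    (w3_5 : 0 < D 3 5)
    (w3_8 : 0 < D 3 8)
    (w3_9 : 0 < D 3 9)
    (w4_9 : 0 < D 4 9)
    (w5_7 : 0 < D 5 7) : False :=
 (Classical.em (0 < D 2 10)).elim (fun w2_10 => (Classical.em (RR D 7 9)).elim (fun r7_2 => tm_478 h hb l5_2 r7_2 w2_10 w4_9)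
 (fun nr7 => (fun (l7_2 : LL D 7 9) => tm_479 h hb l3_2 l4_2 l5_2 l6_2 l7_2 w2_10) (h.labL 7 nr7)))
 (fun n_ => (fun (w0_2 : 0 < D 0 2) => (Classical.em (0 < D 1 9)).elim (fun w1_9 => (Classical.em (RR D 1 3)).elim (fun r1_2 => tm_486 h hb l3_2 l4_2 l5_2 l6_2 nr4 r0_2 w1_9 w2_5 w3_8 w3_9 w4_9)
 (fun nr1 => (fun (l1_2 : LL D 1 3) => tm_487 h hb l1_2 l3_2 l4_2 l6_2 w1_9) (h.labL 1 nr1)))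
 (fun n_ => (fun (w9_11 : 0 < D 9 11) => (Classical.em (0 < D 0 3)).elim (fun w0_3 => tm_573 h hb l3_2 l4_2 l5_2 l6_2 l9_2 nr3 nr4 nr9 r0_2 w0_3 w1_3 w2_4 w2_5 w3_5 w3_8 w3_9 w4_9 w5_7 w9_11)
 (fun n_ => (fun (w3_10 : 0 < D 3 10) => (Classical.em (RR D 7 9)).elim (fun r7_2 => tm_574 h hb l3_2 r7_2 w3_10)
 (fun nr7 => (fun (l7_2 : LL D 7 9) => tm_575 h hb l3_2 l4_2 l6_2 l7_2 w3_10 w4_9) (h.labL 7 nr7))) (h.flip n_ (by decide)))) (h.flip n_ (by decide)))) (h.flip2 n_ 0 (by decide)))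

theorem tm_583 {D : ℕ → ℕ → ℝ} (h : Cfg D)
    (hb : ∀ i, 0 < D i (i + 1))
    (l3_2 : LL D 3 5)
    (l4_2 : LL D 4 6)
    (l5_2 : LL D 5 7)
    (l6_2 : LL D 6 8)
    (l9_2 : LL D 9 11)
    (nr3 : ¬ RR D 3 5)
    (nr4 : ¬ RR D 4 6)
    (nr9 : ¬ RR D 9 11)
    (r0_2 : RR D 0 2)
    (w3_5 : 0 < D 3 5)
    (w3_8 : 0 < D 3 8)
    (w3_9 : 0 < D 3 9)
    (w4_9 : 0 < D 4 9)
    (w5_7 : 0 < D 5 7) : False :=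
 (Classical.em (0 < D 2 4)).elim (fun w2_4 => (Classical.em (0 < D 2 5)).elim (fun w2_5 => (Classical.em (0 < D 1 3)).elim (fun w1_3 => tm_576 h hb l3_2 l4_2 l5_2 l6_2 l9_2 nr3 nr4 nr9 r0_2 w1_3 w2_4 w2_5 w3_5 w3_8 w3_9 w4_9 w5_7)
 (fun n_ => (fun (w3_11 : 0 < D 3 11) => (Classical.em (RR D 7 9)).elim (fun r7_2 => tm_577 h l4_2 r7_2 w3_11)
 (fun nr7 => (fun (l7_2 : LL D 7 9) => tm_578 h hb l3_2 l4_2 l6_2 l7_2 w3_11 w3_8 w4_9) (h.labL 7 nr7))) (h.flip n_ (by decide))))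
 (fun n_ => (fun (w5_12 : 0 < D 5 12) => (Classical.em (RR D 7 9)).elim (fun r7_2 => tm_579 h hb l5_2 r7_2 w5_12)
 (fun nr7 => (fun (l7_2 : LL D 7 9) => tm_580 h hb l3_2 l4_2 l5_2 l6_2 l7_2 l9_2 w3_8 w3_9 w4_9 w5_12) (h.labL 7 nr7))) (h.flip n_ (by decide))))
 (fun n_ => (fun (w4_12 : 0 < D 4 12) => (Classical.em (RR D 7 9)).elim (fun r7_2 => tm_581 h l5_2 r7_2 w4_12)
 (fun nr7 => (fun (l7_2 : LL D 7 9) => tm_582 h hb l4_2 l5_2 l6_2 l7_2 l9_2 w4_12 w4_9) (h.labL 7 nr7))) (h.flip n_ (by decide)))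

theorem tm_584 {D : ℕ → ℕ → ℝ} (h : Cfg D)
    (hb : ∀ i, 0 < D i (i + 1))
    (l5_2 : LL D 5 7)
    (l6_2 : LL D 6 8)
    (l9_2 : LL D 9 11)
    (nr5 : ¬ RR D 5 7)
    (nr6 : ¬ RR D 6 8)
    (nr9 : ¬ RR D 9 11)
    (r0_2 : RR D 0 2)
    (w3_5 : 0 < D 3 5)
    (w3_8 : 0 < D 3 8)
    (w3_9 : 0 < D 3 9)
    (w4_9 : 0 < D 4 9)
    (w5_7 : 0 < D 5 7)
    (w7_9 : 0 < D 7 9)
    (w8_10 : 0 < D 8 10) : False :=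
 (Classical.em (RR D 3 5)).elim (fun r3_2 => (Classical.em (0 < D 4 12)).elim (fun w4_12 => (Classical.em (RR D 8 10)).elim (fun r8_2 => tm_217 h l6_2 r8_2 w4_12 w4_9)
 (fun nr8 => (fun (l8_2 : LL D 8 10) => tm_218 h hb l5_2 l6_2 l8_2 l9_2 w4_12) (h.labL 8 nr8)))
 (fun n_ => (fun (w2_4 : 0 < D 2 4) => (Classical.em (0 < D 5 12)).elim (fun w5_12 => (Classical.em (RR D 8 10)).elim (fun r8_2 => tm_219 h hb l6_2 r8_2 w5_12)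
 (fun nr8 => (fun (l8_2 : LL D 8 10) => tm_220 h hb l5_2 l6_2 l8_2 l9_2 w4_9 w5_12) (h.labL 8 nr8)))
 (fun n_ => (fun (w2_5 : 0 < D 2 5) => tm_476 h hb l5_2 l6_2 l9_2 nr5 nr6 nr9 r0_2 r3_2 w2_4 w2_5 w3_5 w3_8 w3_9 w4_9 w7_9 w8_10) (h.flip2 n_ 2 (by decide)))) (h.flip2 n_ 2 (by decide))))
 (fun nr3 => (fun (l3_2 : LL D 3 5) => (Classical.em (RR D 4 6)).elim (fun r4_2 => tm_477 h hb l3_2 r4_2 w3_8 w3_9 w4_9)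
 (fun nr4 => (fun (l4_2 : LL D 4 6) => tm_583 h hb l3_2 l4_2 l5_2 l6_2 l9_2 nr3 nr4 nr9 r0_2 w3_5 w3_8 w3_9 w4_9 w5_7) (h.labL 4 nr4))) (h.labL 3 nr3))

theorem tm_585 {D : ℕ → ℕ → ℝ} (h : Cfg D)
    (hb : ∀ i, 0 < D i (i + 1))
    (l9_2 : LL D 9 11)
    (nr9 : ¬ RR D 9 11)
    (r0_2 : RR D 0 2)
    (w3_5 : 0 < D 3 5)
    (w3_8 : 0 < D 3 8)
    (w3_9 : 0 < D 3 9)
    (w4_9 : 0 < D 4 9)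
    (w5_7 : 0 < D 5 7)
    (w7_9 : 0 < D 7 9)
    (w8_10 : 0 < D 8 10) : False :=
 (Classical.em (RR D 5 7)).elim (fun r5_2 => (Classical.em (RR D 4 6)).elim (fun r4_2 => (Classical.em (RR D 3 5)).elim (fun r3_2 => (Classical.em (RR D 6 8)).elim (fun r6_2 => tm_126 h hb l9_2 nr9 r0_2 r3_2 r4_2 r5_2 r6_2 w3_5 w3_8 w3_9 w4_9 w5_7 w7_9 w8_10)
 (fun nr6 => (fun (l6_2 : LL D 6 8) => tm_213 h hb l6_2 l9_2 nr6 r0_2 r3_2 r4_2 r5_2 w3_8 w3_9 w4_9) (h.labL 6 nr6)))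
 (fun nr3 => (fun (l3_2 : LL D 3 5) => tm_214 h hb l3_2 r5_2 w3_8 w3_9 w4_9) (h.labL 3 nr3)))
 (fun nr4 => (fun (l4_2 : LL D 4 6) => tm_215 h l4_2 r5_2 w3_8 w3_9 w4_9) (h.labL 4 nr4)))
 (fun nr5 => (fun (l5_2 : LL D 5 7) => (Classical.em (RR D 6 8)).elim (fun r6_2 => tm_216 h hb l5_2 r6_2 w4_9)
 (fun nr6 => (fun (l6_2 : LL D 6 8) => tm_584 h hb l5_2 l6_2 l9_2 nr5 nr6 nr9 r0_2 w3_5 w3_8 w3_9 w4_9 w5_7 w7_9 w8_10) (h.labL 6 nr6))) (h.labL 5 nr5))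

theorem tm_589 {D : ℕ → ℕ → ℝ} (h : Cfg D)
    (hb : ∀ i, 0 < D i (i + 1))
    (l9_2 : LL D 9 11)
    (nr9 : ¬ RR D 9 11)
    (r0_2 : RR D 0 2)
    (w3_5 : 0 < D 3 5)
    (w5_7 : 0 < D 5 7) : False :=
 (Classical.em (0 < D 7 9)).elim (fun w7_9 => (Classical.em (0 < D 4 9)).elim (fun w4_9 => (Classical.em (0 < D 3 8)).elim (fun w3_8 => (Classical.em (0 < D 9 13)).elim (fun w9_13 => tm_1 h hb l9_2 r0_2 w9_13)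
 (fun n_ => (fun (w3_9 : 0 < D 3 9) => (Classical.em (0 < D 0 8)).elim (fun w0_8 => tm_17 h hb r0_2 w0_8 w3_8 w3_9 w4_9)
 (fun n_ => (fun (w8_10 : 0 < D 8 10) => tm_585 h hb l9_2 nr9 r0_2 w3_5 w3_8 w3_9 w4_9 w5_7 w7_9 w8_10) (h.flip n_ (by decide)))) (h.flip2 n_ 3 (by decide))))
 (fun n_ => (fun (w8_13 : 0 < D 8 13) => tm_586 h hb l9_2 r0_2 w8_13) (h.flip n_ (by decide))))
 (fun n_ => (fun (w9_14 : 0 < D 9 14) => tm_587 h hb l9_2 r0_2 w9_14) (h.flip n_ (by decide))))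
 (fun n_ => (fun (w9_17 : 0 < D 9 17) => tm_588 h hb l9_2 r0_2 w9_17) (h.flip n_ (by decide)))

theorem tm_main {D : ℕ → ℕ → ℝ} (h : Cfg D)
    (hb : ∀ i, 0 < D i (i + 1))
    (r0_2 : RR D 0 2)
    (l9_2 : LL D 9 11)
    (nr9 : ¬ RR D 9 11) : False :=
 (Classical.em (0 < D 5 7)).elim (fun w5_7 => (Classical.em (0 < D 3 5)).elim (fun w3_5 => tm_589 h hb l9_2 nr9 r0_2 w3_5 w5_7)
 (fun n_ => (fun (w5_13 : 0 < D 5 13) => tm_590 h hb l9_2 r0_2 w5_13) (h.flip n_ (by decide))))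
 (fun n_ => (fun (w7_15 : 0 < D 7 15) => tm_591 h hb l9_2 r0_2 w7_15) (h.flip n_ (by decide)))

end Pool.Agent.H768.PL
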