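import Pool.Agent.H768.PL.TR1

set_option autoImplicit false
set_option linter.all false

namespace Pool.Agent.H768.PL

theorem tr_19 {D : ℕ → ℕ → ℝ} (h : Cfg D)
    (hRR : ∀ i, RR D i (i + 2))
    (hb : ∀ i, 0 < D i (i + 1))
    (w0_3 : 0 < D 0 3)
    (w2_5 : 0 < D 2 5)
    (w2_6 : 0 < D 2 6)
    (w3_5 : 0 < D 3 5)
    (w3_6 : 0 < D 3 6)
    (w4_7 : 0 < D 4 7)
    (w5_8 : 0 < D 5 8)
    (w6_9 : 0 < D 6 9)
    (w7_10 : 0 < D 7 10)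
    (w8_11 : 0 < D 8 11)
    (w9_11 : 0 < D 9 11)
    (w9_12 : 0 < D 9 12) : False :=
 (Classical.em (0 < D 3 9)).elim (fun w3_9 => (Classical.em (0 < D 2 8)).elim (fun w2_8 => tr_11 h hRR hb w2_8 w3_9 w5_8 w6_9)
 (fun n_ => (fun (w8_12 : 0 < D 8 12) => (Classical.em (0 < D 1 5)).elim (fun w1_5 => tr_12 h hRR hb w1_5 w3_9 w8_11 w8_12 w9_11)
 (fun n_ => (fun (w5_11 : 0 < D 5 11) => tr_13 h hRR hb w2_5 w2_6 w3_6 w3_9 w5_11) (h.flip n_ (by decide)))) (h.flip n_ (by decide))))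
 (fun n_ => (fun (w9_13 : 0 < D 9 13) => (Classical.em (0 < D 0 4)).elim (fun w0_4 => (Classical.em (0 < D 0 5)).elim (fun w0_5 => (Classical.em (0 < D 1 7)).elim (fun w1_7 => tr_14 h hRR hb w0_3 w0_5 w1_7)
 (fun n_ => (fun (w7_11 : 0 < D 7 11) => (Classical.em (0 < D 4 8)).elim (fun w4_8 => tr_15 h hRR hb w0_4 w0_5 w4_7 w4_8 w7_10 w7_11 w8_11)
 (fun n_ => (fun (w8_14 : 0 < D 8 14) => tr_16 h hRR hb w0_5 w3_5 w8_14) (h.flip n_ (by decide)))) (h.flip n_ (by decide))))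
 (fun n_ => (fun (w5_10 : 0 < D 5 10) => tr_17 h hRR hb w2_5 w2_6 w3_5 w5_10 w9_12 w9_13) (h.flip n_ (by decide))))
 (fun n_ => (fun (w4_10 : 0 < D 4 10) => tr_18 h hRR hb w0_3 w2_5 w2_6 w3_6 w4_10 w9_13) (h.flip n_ (by decide)))) (h.flip n_ (by decide)))

theorem tr_24 {D : ℕ → ℕ → ℝ} (h : Cfg D)
    (hRR : ∀ i, RR D i (i + 2))
    (hb : ∀ i, 0 < D i (i + 1))
    (w0_3 : 0 < D 0 3)
    (w1_4 : 0 < D 1 4)
    (w2_5 : 0 < D 2 5)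
    (w3_5 : 0 < D 3 5)
    (w3_6 : 0 < D 3 6)
    (w4_7 : 0 < D 4 7)
    (w5_8 : 0 < D 5 8)
    (w7_10 : 0 < D 7 10)
    (w8_11 : 0 < D 8 11)
    (w9_11 : 0 < D 9 11) : False :=
 (Classical.em (0 < D 9 12)).elim (fun w9_12 => (Classical.em (0 < D 9 16)).elim (fun w9_16 => tr_10 h hRR hb w9_16)
 (fun n_ => (fun (w6_9 : 0 < D 6 9) => (Classical.em (0 < D 2 6)).elim (fun w2_6 => tr_19 h hRR hb w0_3 w2_5 w2_6 w3_5 w3_6 w4_7 w5_8 w6_9 w7_10 w8_11 w9_11 w9_12)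
 (fun n_ => (fun (w6_12 : 0 < D 6 12) => (Classical.em (0 < D 3 7)).elim (fun w3_7 => (Classical.em (0 < D 0 4)).elim (fun w0_4 => tr_20 h hRR hb w0_3 w0_4 w3_6 w3_7 w4_7 w6_12)
 (fun n_ => (fun (w4_10 : 0 < D 4 10) => tr_21 h hRR hb w1_4 w4_10 w6_12 w9_12) (h.flip n_ (by decide))))
 (fun n_ => (fun (w7_13 : 0 < D 7 13) => tr_22 h hRR hb w0_3 w6_12 w7_13 w9_11) (h.flip n_ (by decide)))) (h.flip n_ (by decide)))) (h.flip2 n_ 6 (by decide))))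
 (fun n_ => (fun (w2_9 : 0 < D 2 9) => tr_23 h hRR hb w2_9) (h.flip2 n_ 2 (by decide)))

theorem tr_26 {D : ℕ → ℕ → ℝ} (h : Cfg D)
    (hRR : ∀ i, RR D i (i + 2))
    (hb : ∀ i, 0 < D i (i + 1))
    (w1_4 : 0 < D 1 4)
    (w3_5 : 0 < D 3 5)
    (w3_6 : 0 < D 3 6)
    (w4_7 : 0 < D 4 7)
    (w9_11 : 0 < D 9 11) : False :=
 (Classical.em (0 < D 5 8)).elim (fun w5_8 => (Classical.em (0 < D 1 8)).elim (fun w1_8 => tr_6 h hRR hb w1_8 w5_8)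
 (fun n_ => (fun (w8_11 : 0 < D 8 11) => (Classical.em (0 < D 0 7)).elim (fun w0_7 => tr_7 h hRR hb w0_7)
 (fun n_ => (fun (w7_10 : 0 < D 7 10) => (Classical.em (0 < D 3 10)).elim (fun w3_10 => tr_8 h hRR hb w3_10)
 (fun n_ => (fun (w0_3 : 0 < D 0 3) => (Classical.em (0 < D 5 12)).elim (fun w5_12 => tr_9 h hRR hb w5_12)
 (fun n_ => (fun (w2_5 : 0 < D 2 5) => tr_24 h hRR hb w0_3 w1_4 w2_5 w3_5 w3_6 w4_7 w5_8 w7_10 w8_11 w9_11) (h.flip2 n_ 2 (by decide)))) (h.flip2 n_ 0 (by decide)))) (h.flip n_ (by decide)))) (h.flip n_ (by decide))))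
 (fun n_ => (fun (w8_15 : 0 < D 8 15) => tr_25 h hRR hb w8_15) (h.flip n_ (by decide)))

theorem tr_28 {D : ℕ → ℕ → ℝ} (h : Cfg D)
    (hRR : ∀ i, RR D i (i + 2))
    (hb : ∀ i, 0 < D i (i + 1))
    (w3_5 : 0 < D 3 5)
    (w3_6 : 0 < D 3 6) : False :=
 (Classical.em (0 < D 3 11)).elim (fun w3_11 => tr_2 h hRR hb w3_11)
 (fun n_ => (fun (w1_3 : 0 < D 1 3) => (Classical.em (0 < D 7 15)).elim (fun w7_15 => tr_3 h hRR hb w7_15)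
 (fun n_ => (fun (w5_7 : 0 < D 5 7) => (Classical.em (0 < D 1 4)).elim (fun w1_4 => (Classical.em (0 < D 1 9)).elim (fun w1_9 => tr_4 h hRR hb w1_9)
 (fun n_ => (fun (w9_11 : 0 < D 9 11) => (Classical.em (0 < D 7 14)).elim (fun w7_14 => tr_5 h hRR hb w7_14)
 (fun n_ => (fun (w4_7 : 0 < D 4 7) => tr_26 h hRR hb w1_4 w3_5 w3_6 w4_7 w9_11) (h.flip2 n_ 4 (by decide)))) (h.flip n_ (by decide))))
 (fun n_ => (fun (w4_11 : 0 < D 4 11) => tr_27 h hRR hb w4_11) (h.flip n_ (by decide)))) (h.flip2 n_ 5 (by decide)))) (h.flip2 n_ 1 (by decide)))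

theorem tr_main {D : ℕ → ℕ → ℝ} (h : Cfg D)
    (hb : ∀ i, 0 < D i (i + 1))
    (hRR : ∀ i, RR D i (i + 2)) : False :=
 (Classical.em (0 < D 7 9)).elim (fun w7_9 => (Classical.em (0 < D 3 5)).elim (fun w3_5 => (Classical.em (0 < D 2 10)).elim (fun w2_10 => tr_1 h hRR hb w2_10)
 (fun n_ => (fun (w0_2 : 0 < D 0 2) => (Classical.em (0 < D 3 6)).elim (fun w3_6 => tr_28 h hRR hb w3_5 w3_6)
 (fun n_ => (fun (w6_13 : 0 < D 6 13) => tr_29 h hRR hb w0_2 w6_13) (h.flip n_ (by decide)))) (h.flip2 n_ 0 (by decide))))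
 (fun n_ => (fun (w5_13 : 0 < D 5 13) => tr_30 h hRR hb w5_13) (h.flip n_ (by decide))))
 (fun n_ => (fun (w9_17 : 0 < D 9 17) => tr_31 h hRR hb w9_17) (h.flip n_ (by decide)))

end Pool.Agent.H768.PL
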