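import Pool.Agent.H768.PL.THMain
import Pool.Agent.H768.PL.TRMain
import Pool.Agent.H768.PL.TLMain
import Pool.Agent.H768.PL.TMMain

/-!
# The core of the planar lemma: there is no configuration
-/

set_option autoImplicit false
set_option linter.all false

namespace Pool.Agent.H768.PL

/-- rotation of a configuration -/
theorem Cfg.rot {D : ℕ → ℕ → ℝ} (h : Cfg D) (k : ℕ) : Cfg (fun i j => D (i + k) (j + k)) := by
  have rr : ∀ i j, RR (fun i j => D (i + k) (j + k)) i j → RR D (i + k) (j + k) := by
    intro i j hR
    unfold RR at *
    have e : j + k + 1 = j + 1 + k := by ring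
    rw [e]; exact hR
  have ll : ∀ i j, LL (fun i j => D (i + k) (j + k)) i j → LL D (i + k) (j + k) := by
    intro i j hR
    unfold LL at *
    have e : j + k + 1 = j + 1 + k := by ring
    have e' : i + k + 1 = i + 1 + k := by ring
    rw [e, e']; exact hR
  have rr' : ∀ i j, RR D (i + k) (j + k) → RR (fun i j => D (i + k) (j + k)) i j := by
    intro i j hR
    unfold RR at *
    have e : j + k + 1 = j + 1 + k := by ring
    rw [e] at hR; exact hR
  have ll' : ∀ i j, LL D (i + k) (j + k) → LL (fun i j => D (i + k) (j + k)) i j := by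
    intro i j hR
    unfold LL at *
    have e : j + k + 1 = j + 1 + k := by ring
    have e' : i + k + 1 = i + 1 + k := by ring
    rw [e, e'] at hR; exact hR
  constructor
  · intro i j; exact h.anti _ _
  · intro i j
    have e : i + 10 + k = i + k + 10 := by ring
    show D (i + 10 + k) (j + k) = _
    rw [e]; exact h.per _ _
  · intro a b c d; exact h.pl _ _ _ _
  · intro i j h1 h2; exact h.ne _ _ (by omega) (by omega)
  · intro i j a b h1 h2 h3 h4 h5; exact h.sub _ _ _ _ (by omega) (by omega) (by omega) (by omega) h5
  · intro i j h1 h2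
    rcases h.lab (i + k) (j + k) (by omega) (by omega) with h3 | h3
    · exact Or.inl (rr' _ _ h3)
    · exact Or.inr (ll' _ _ h3)
  · intro i j a b e h0 hR h1 h2 h3 h4 h5 h6
    exact h.fF (i + k) (j + k) (a + k) (b + k) (e + k) (by omega) (rr _ _ hR) (by omega) (by omega)
      (by omega) (by omega) (by omega) h6
  · intro i j a e g h0 hR h1 h2 h3 h4 h6
    exact h.fC (i + k) (j + k) (a + k) (e + k) (g + k) (by omega) (rr _ _ hR) (by omega) (by omega)
      (by omega) (by omega) h6
  · intro i j c a b h0 hR h1 h2 h3 h4 h5 h6
    exact h.fG (i + k) (j + k) (c + k) (a + k) (b + k) (by omega) (ll _ _ hR) (by omega) (by omega)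
      (by omega) (by omega) (by omega) h6
  · intro i j g c b h0 hR h1 h2 h3 h4 h6
    exact h.fK (i + k) (j + k) (g + k) (c + k) (b + k) (by omega) (ll _ _ hR) (by omega) (by omega)
      (by omega) (by omega) h6
  · intro i h1 h2
    have e1 : i + 3 + k = i + k + 3 := by ring
    have e2 : i + 2 + k = i + k + 2 := by ring
    have e5 : i + 5 + k = i + k + 5 := by ring
    have e4 : i + 4 + k = i + k + 4 := by ring
    have e6 : i + 1 + k = i + k + 1 := by ring
    have := h.ch (i + k)
    simp only [e1, e2, e5, e4, e6] at h1 h2 ⊢
    exact this h1 h2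

theorem core : S_core := by
  intro D h
  by_cases hb : ∀ i, 0 < D i (i + 1)
  · by_cases hR : ∀ i, RR D i (i + 2)
    · exact tr_main h hb hR
    · by_cases hN : ∀ i, ¬ RR D i (i + 2)
      · exact tl_main h hb (fun i => h.labL i (hN i)) hN
      · push Not at hR hN
        obtain ⟨i0, h0⟩ := hR
        obtain ⟨i1, h1⟩ := hN
        -- a place where the label changes
        obtain ⟨i, hi, hi'⟩ : ∃ i, ¬ RR D i (i + 2) ∧ RR D (i + 1) (i + 1 + 2) := by
          by_contra hno
          push Not at hno
          have hall : ∀ n, ¬ RR D (i0 + n) (i0 + n + 2) := by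
            intro n
            induction n with
            | zero => exact h0
            | succ n ih => exact hno _ ih
          apply hall (i1 + 10 * i0 - i0)
          have e : i0 + (i1 + 10 * i0 - i0) = i1 + 10 * i0 := by omega
          rw [e]
          have := h.rrsh' i0 h1
          have e2 : i1 + 2 + 10 * i0 = i1 + 10 * i0 + 2 := by ring
          rwa [e2] at this
        have hr := h.rot (i + 1)
        have hR0 : RR (fun a b => D (a + (i + 1)) (b + (i + 1))) 0 2 := by
          unfold RR at *
          have e1 : 0 + (i + 1) = i + 1 := by ring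
          have e2 : 2 + 1 + (i + 1) = i + 1 + 2 + 1 := by ring
          have e3 : 2 + (i + 1) = i + 1 + 2 := by ring
          simp only [e1, e2, e3]
          exact hi'
        have hN9 : ¬ RR (fun a b => D (a + (i + 1)) (b + (i + 1))) 9 11 := by
          intro hc
          apply hi
          unfold RR at *
          have e1 : 9 + (i + 1) = i + 10 * 1 := by ring
          have e2 : 11 + 1 + (i + 1) = i + 2 + 1 + 10 * 1 := by ring
          have e3 : 11 + (i + 1) = i + 2 + 10 * 1 := by ring
          simp only [e1, e2, e3] at hc
          rw [h.perm1, h.perm2, h.perm1, h.perm2] at hc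
          exact hc
        refine tm_main hr (fun a => ?_) hR0 (hr.labL 9 hN9) hN9
        have e1 : a + 1 + (i + 1) = a + (i + 1) + 1 := by ring
        show 0 < D (a + (i + 1)) (a + 1 + (i + 1))
        rw [e1]; exact hb _
  · push Not at hb
    obtain ⟨i, hi⟩ := hb
    have h1 := h.flip (not_lt.2 hi) (by omega)
    refine th_main (h.rot i) ?_
    show 0 < D (1 + i) (10 + i)
    have e1 : 1 + i = i + 1 := by ring
    have e2 : 10 + i = i + 10 := by ring
    rw [e1, e2]; exact h1

end Pool.Agent.H768.PL
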