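import Pool.Agent.H768.PL.Cfg

/-!
# Logarithmic consequences of a configuration (for the leaves of the case tree)
-/

set_option autoImplicit false

namespace Pool.Agent.H768.PL

open Real

/-- canonical index of an unordered pair modulo ten -/
def idx (i j : ℕ) : ℕ := if i % 10 < j % 10 then 10 * (i % 10) + j % 10 else 10 * (j % 10) + i % 10

/-- logarithm of the absolute value of an entry -/
noncomputable def lv (D : ℕ → ℕ → ℝ) (k : ℕ) : ℝ := Real.log |D (k / 10) (k % 10)|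

section
variable {D : ℕ → ℕ → ℝ}

theorem Cfg.perm1 (h : Cfg D) (i j s : ℕ) : D (i + 10 * s) j = D i j := by
  induction s with
  | zero => simp
  | succ n ih => rw [← ih, ← h.per (i + 10 * n) j]; congr 1

theorem Cfg.perm2 (h : Cfg D) (i j s : ℕ) : D i (j + 10 * s) = D i j := by
  have h1 := h.anti (j + 10 * s) i
  have h2 := h.anti j i
  rw [h1, h.perm1, ← h2]

theorem Cfg.modl (h : Cfg D) (i j : ℕ) : D (i % 10) j = D i j := by
  have h1 := h.perm1 (i % 10) j (i / 10)
  rw [← h1]; congr 1; omega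

theorem Cfg.modr (h : Cfg D) (i j : ℕ) : D i (j % 10) = D i j := by
  have h1 := h.perm2 i (j % 10) (j / 10)
  rw [← h1]; congr 1; omega

theorem Cfg.lv_idx (h : Cfg D) (i j : ℕ) : lv D (idx i j) = Real.log |D i j| := by
  unfold lv idx
  split_ifs with hc
  · have e1 : (10 * (i % 10) + j % 10) / 10 = i % 10 := by omega
    have e2 : (10 * (i % 10) + j % 10) % 10 = j % 10 := by omega
    rw [e1, e2, h.modl, h.modr]
  · have e1 : (10 * (j % 10) + i % 10) / 10 = j % 10 := by omega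
    have e2 : (10 * (j % 10) + i % 10) % 10 = i % 10 := by omega
    rw [e1, e2, h.modl, h.modr, h.anti i j, abs_neg]

theorem Cfg.lv_pos (h : Cfg D) {i j : ℕ} (hs : 0 < D i j) : Real.exp (lv D (idx i j)) = D i j := by
  rw [h.lv_idx, abs_of_pos hs, Real.exp_log hs]

/-- sub-windows, with shifts -/
theorem Cfg.pos_of (h : Cfg D) {i j : ℕ} (hw : 0 < D i j) (a b s t : ℕ)
    (hk : i + 10 * s ≤ a + 10 * t ∧ a < b ∧ b + 10 * t ≤ j + 10 * s ∧ j < i + 10) :
    0 < D a b := by
  have h1 : 0 < D (i + 10 * s) (j + 10 * s) := by rw [h.perm1, h.perm2]; exact hw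
  have h2 := h.sub (i + 10 * s) (j + 10 * s) (a + 10 * t) (b + 10 * t) hk.1 (by omega) hk.2.2.1
    (by omega) h1
  rwa [h.perm1, h.perm2] at h2

theorem Cfg.flip (h : Cfg D) {i j : ℕ} (hn : ¬ 0 < D i j) (hk : i < j ∧ j < i + 10) :
    0 < D j (i + 10) := by
  have h1 := h.ne i j hk.1 hk.2
  have h2 : D i j < 0 := lt_of_le_of_ne (not_lt.1 hn) h1
  have h3 := h.perm2 j i 1
  rw [mul_one] at h3
  rw [h3, h.anti i j]
  linarith

/-- two opposite windows -/
theorem Cfg.absurdW (h : Cfg D) {i j k l : ℕ} (hw : 0 < D i j) (hw' : 0 < D k l) (a b s t s' t' : ℕ)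
    (hk : i + 10 * s ≤ a + 10 * t ∧ a < b ∧ b + 10 * t ≤ j + 10 * s ∧ j < i + 10)
    (hk' : k + 10 * s' ≤ b + 10 * t' ∧ b < a + 10 ∧ a + 10 + 10 * t' ≤ l + 10 * s' ∧ l < k + 10) :
    False := by
  have h1 := h.pos_of hw a b s t hk
  have h2 := h.pos_of hw' b (a + 10) s' t' hk'
  have h3 := h.perm2 b a 1
  rw [mul_one] at h3
  rw [h3, h.anti a b] at h2
  linarith

/-- signs -/
def Sg (D : ℕ → ℕ → ℝ) (s : Bool) (a b : ℕ) : Prop := if s then 0 < D a b else D a b < 0

theorem Cfg.sgp (h : Cfg D) {i j : ℕ} (hw : 0 < D i j) (a b s t : ℕ)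
    (hk : i + 10 * s ≤ a + 10 * t ∧ a < b ∧ b + 10 * t ≤ j + 10 * s ∧ j < i + 10) :
    Sg D true a b := by
  simpa [Sg] using h.pos_of hw a b s t hk

theorem Cfg.sgn (h : Cfg D) {i j : ℕ} (hw : 0 < D i j) (a b s t : ℕ)
    (hk : i + 10 * s ≤ b + 10 * t ∧ b < a + 10 ∧ a + 10 + 10 * t ≤ j + 10 * s ∧ j < i + 10) :
    Sg D false a b := by
  have h2 := h.pos_of hw b (a + 10) s t ⟨hk.1, hk.2.1, hk.2.2.1, hk.2.2.2⟩
  have h3 := h.perm2 b a 1
  rw [mul_one] at h3
  rw [h3, h.anti a b] at h2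
  simp only [Sg]
  have : D a b < 0 := by linarith
  simpa using this

theorem Sg.ne {s : Bool} {a b : ℕ} (hs : Sg D s a b) : D a b ≠ 0 := by
  cases s <;> simp only [Sg] at hs
  · exact (by simpa using hs : D a b < 0).ne
  · exact (by simpa using hs : 0 < D a b).ne'

theorem Cfg.exp_lv (h : Cfg D) {s : Bool} {a b : ℕ} (hs : Sg D s a b) :
    Real.exp (lv D (idx a b)) = |D a b| := by
  rw [h.lv_idx, Real.exp_log (abs_pos.2 hs.ne)]

theorem Sg.mul4 {s1 s2 s3 s4 : Bool} {a1 b1 a2 b2 a3 b3 a4 b4 : ℕ} (h1 : Sg D s1 a1 b1)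
    (h2 : Sg D s2 a2 b2) (h3 : Sg D s3 a3 b3) (h4 : Sg D s4 a4 b4)
    (hx : xor (xor s1 s2) (xor s3 s4) = false) :
    0 < (D a1 b1 * D a2 b2) * (D a3 b3 * D a4 b4) := by
  cases s1 <;> cases s2 <;> cases s3 <;> cases s4 <;> simp only [Sg, Bool.false_eq_true, if_true,
    if_false, reduceIte] at h1 h2 h3 h4 <;> first
    | (exact absurd hx (by decide))
    | (first
        | exact mul_pos (mul_pos h1 h2) (mul_pos h3 h4)
        | exact mul_pos (mul_pos_of_neg_of_neg h1 h2) (mul_pos_of_neg_of_neg h3 h4)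
        | exact mul_pos (mul_pos_of_neg_of_neg h1 h2) (mul_pos h3 h4)
        | exact mul_pos (mul_pos h1 h2) (mul_pos_of_neg_of_neg h3 h4)
        | exact mul_pos_of_neg_of_neg (mul_neg_of_neg_of_pos h1 h2) (mul_neg_of_neg_of_pos h3 h4)
        | exact mul_pos_of_neg_of_neg (mul_neg_of_neg_of_pos h1 h2) (mul_neg_of_pos_of_neg h3 h4)
        | exact mul_pos_of_neg_of_neg (mul_neg_of_pos_of_neg h1 h2) (mul_neg_of_neg_of_pos h3 h4)
        | exact mul_pos_of_neg_of_neg (mul_neg_of_pos_of_neg h1 h2) (mul_neg_of_pos_of_neg h3 h4))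

theorem abs_add_same {y z : ℝ} (h : 0 < y * z) : |y + z| = |y| + |z| := by
  rcases pos_and_pos_or_neg_and_neg_of_mul_pos h with ⟨h1, h2⟩ | ⟨h1, h2⟩
  · rw [abs_of_pos h1, abs_of_pos h2, abs_of_pos (add_pos h1 h2)]
  · rw [abs_of_neg h1, abs_of_neg h2, abs_of_neg (add_neg h1 h2)]; ring

/-- type X: `|ac||bd| = |ab||cd| + |ad||bc|` -/
theorem Cfg.PX (h : Cfg D) (a b c d : ℕ) {s1 s2 s3 s4 s5 s6 : Bool} (h1 : Sg D s1 a c)
    (h2 : Sg D s2 b d) (h3 : Sg D s3 a b) (h4 : Sg D s4 c d) (h5 : Sg D s5 a d) (h6 : Sg D s6 b c)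
    (hx : xor (xor s3 s4) (xor s5 s6) = false) :
    Real.exp (lv D (idx a c) + lv D (idx b d)) =
      Real.exp (lv D (idx a b) + lv D (idx c d)) + Real.exp (lv D (idx a d) + lv D (idx b c)) := by
  simp only [Real.exp_add, h.exp_lv h1, h.exp_lv h2, h.exp_lv h3, h.exp_lv h4, h.exp_lv h5,
    h.exp_lv h6, ← abs_mul]
  rw [h.pl a b c d]
  exact abs_add_same (Sg.mul4 h3 h4 h5 h6 hx)

/-- type Y: `|ab||cd| = |ac||bd| + |ad||bc|` -/
theorem Cfg.PY (h : Cfg D) (a b c d : ℕ) {s1 s2 s3 s4 s5 s6 : Bool} (h1 : Sg D s1 a c)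
    (h2 : Sg D s2 b d) (h3 : Sg D s3 a b) (h4 : Sg D s4 c d) (h5 : Sg D s5 a d) (h6 : Sg D s6 b c)
    (hx : xor (xor s1 s2) (xor s5 (!s6)) = false) :
    Real.exp (lv D (idx a b) + lv D (idx c d)) =
      Real.exp (lv D (idx a c) + lv D (idx b d)) + Real.exp (lv D (idx a d) + lv D (idx b c)) := by
  simp only [Real.exp_add, h.exp_lv h1, h.exp_lv h2, h.exp_lv h3, h.exp_lv h4, h.exp_lv h5,
    h.exp_lv h6, ← abs_mul]
  have e : D a b * D c d = D a c * D b d + -(D a d * D b c) := by rw [h.pl a b c d]; ring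
  have h6' : Sg (fun i j => D b c * (if i = 0 ∧ j = 0 then -1 else 1)) (!s6) 0 0 := by
    cases s6 <;> simp only [Sg, Bool.false_eq_true, if_false, reduceIte, Bool.not_false,
      Bool.not_true, if_true, and_self] at h6 ⊢ <;> linarith
  have h7 : 0 < (D a c * D b d) * -(D a d * D b c) := by
    have hh : 0 < (D a c * D b d) * (D a d * (D b c * -1)) := by
      cases s1 <;> cases s2 <;> cases s5 <;> cases s6 <;> simp only [Sg, Bool.false_eq_true, if_true,
        if_false, reduceIte] at h1 h2 h5 h6 <;> first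
        | (exact absurd hx (by decide))
        | (have h6n : D b c * -1 < 0 := by linarith
           first
            | exact mul_pos_of_neg_of_neg (mul_neg_of_neg_of_pos h1 h2) (mul_neg_of_pos_of_neg h5 h6n)
            | exact mul_pos_of_neg_of_neg (mul_neg_of_pos_of_neg h1 h2) (mul_neg_of_pos_of_neg h5 h6n)
            | exact mul_pos (mul_pos h1 h2) (mul_pos_of_neg_of_neg h5 h6n)
            | exact mul_pos (mul_pos_of_neg_of_neg h1 h2) (mul_pos_of_neg_of_neg h5 h6n))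
        | (have h6n : 0 < D b c * -1 := by linarith
           first
            | exact mul_pos_of_neg_of_neg (mul_neg_of_neg_of_pos h1 h2) (mul_neg_of_neg_of_pos h5 h6n)
            | exact mul_pos_of_neg_of_neg (mul_neg_of_pos_of_neg h1 h2) (mul_neg_of_neg_of_pos h5 h6n)
            | exact mul_pos (mul_pos h1 h2) (mul_pos h5 h6n)
            | exact mul_pos (mul_pos_of_neg_of_neg h1 h2) (mul_pos h5 h6n))
    have e2 : (D a c * D b d) * (D a d * (D b c * -1)) = (D a c * D b d) * -(D a d * D b c) := by ring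
    rwa [e2] at hh
  rw [e, abs_add_same h7, abs_neg]

/-- type Z: `|ad||bc| = |ac||bd| + |ab||cd|` -/
theorem Cfg.PZ (h : Cfg D) (a b c d : ℕ) {s1 s2 s3 s4 s5 s6 : Bool} (h1 : Sg D s1 a c)
    (h2 : Sg D s2 b d) (h3 : Sg D s3 a b) (h4 : Sg D s4 c d) (h5 : Sg D s5 a d) (h6 : Sg D s6 b c)
    (hx : xor (xor s1 s2) (xor s3 (!s4)) = false) :
    Real.exp (lv D (idx a d) + lv D (idx b c)) =
      Real.exp (lv D (idx a c) + lv D (idx b d)) + Real.exp (lv D (idx a b) + lv D (idx c d)) := by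
  simp only [Real.exp_add, h.exp_lv h1, h.exp_lv h2, h.exp_lv h3, h.exp_lv h4, h.exp_lv h5,
    h.exp_lv h6, ← abs_mul]
  have e : D a d * D b c = D a c * D b d + -(D a b * D c d) := by rw [h.pl a b c d]; ring
  have h7 : 0 < (D a c * D b d) * -(D a b * D c d) := by
    have hh : 0 < (D a c * D b d) * (D a b * (D c d * -1)) := by
      cases s1 <;> cases s2 <;> cases s3 <;> cases s4 <;> simp only [Sg, Bool.false_eq_true, if_true,
        if_false, reduceIte] at h1 h2 h3 h4 <;> first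
        | (exact absurd hx (by decide))
        | (have h6n : D c d * -1 < 0 := by linarith
           first
            | exact mul_pos_of_neg_of_neg (mul_neg_of_neg_of_pos h1 h2) (mul_neg_of_pos_of_neg h3 h6n)
            | exact mul_pos_of_neg_of_neg (mul_neg_of_pos_of_neg h1 h2) (mul_neg_of_pos_of_neg h3 h6n)
            | exact mul_pos (mul_pos h1 h2) (mul_pos_of_neg_of_neg h3 h6n)
            | exact mul_pos (mul_pos_of_neg_of_neg h1 h2) (mul_pos_of_neg_of_neg h3 h6n))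
        | (have h6n : 0 < D c d * -1 := by linarith
           first
            | exact mul_pos_of_neg_of_neg (mul_neg_of_neg_of_pos h1 h2) (mul_neg_of_neg_of_pos h3 h6n)
            | exact mul_pos_of_neg_of_neg (mul_neg_of_pos_of_neg h1 h2) (mul_neg_of_neg_of_pos h3 h6n)
            | exact mul_pos (mul_pos h1 h2) (mul_pos h3 h6n)
            | exact mul_pos (mul_pos_of_neg_of_neg h1 h2) (mul_pos h3 h6n))
    have e2 : (D a c * D b d) * (D a b * (D c d * -1)) = (D a c * D b d) * -(D a b * D c d) := by ring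
    rwa [e2] at hh
  rw [e, abs_add_same h7, abs_neg]

end

theorem eM {A B C : ℝ} (e : Real.exp A = Real.exp B + Real.exp C) : B < A := by
  rw [← Real.exp_lt_exp, e]; linarith [Real.exp_pos C]

theorem eN {A B C : ℝ} (e : Real.exp A = Real.exp B + Real.exp C) : C < A := by
  rw [← Real.exp_lt_exp, e]; linarith [Real.exp_pos B]

theorem eH {A B C : ℝ} (e : Real.exp A = Real.exp B + Real.exp C) :
    13862 / 10000 + B + C ≤ 2 * A := by
  have h1 : Real.exp (B + C) * 4 ≤ Real.exp (2 * A) := by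
    rw [two_mul, Real.exp_add, Real.exp_add, e]
    nlinarith [sq_nonneg (Real.exp B - Real.exp C)]
  have h2 : Real.exp (13862 / 10000) ≤ 4 := by
    have h3 : (13862 / 10000 : ℝ) ≤ Real.log 4 := by
      have : (4 : ℝ) = 2 ^ 2 := by norm_num
      rw [this, Real.log_pow]
      have := Real.log_two_gt_d9
      push_cast
      linarith
    calc Real.exp (13862 / 10000) ≤ Real.exp (Real.log 4) := Real.exp_le_exp.2 h3
      _ = 4 := Real.exp_log (by norm_num)
  have h4 : Real.exp (13862 / 10000 + (B + C)) ≤ Real.exp (2 * A) := by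
    rw [Real.exp_add]
    have := Real.exp_pos (B + C)
    nlinarith
  have := Real.exp_le_exp.1 h4
  linarith

/-- upper bound from `N ≤ ρ M` -/
theorem eU {A B C c ρ : ℝ} (e : Real.exp A = Real.exp B + Real.exp C)
    (hI : Real.exp C ≤ ρ * Real.exp B) (hc : 1 + ρ ≤ Real.exp c) : A ≤ B + c := by
  rw [← Real.exp_le_exp, Real.exp_add, e]
  have := Real.exp_pos B
  nlinarith

end Pool.Agent.H768.PL
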