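import Pool.Agent.H768.PL.Lem

/-!
# More lemmas for the leaves
-/

set_option autoImplicit false
set_option linter.all false

namespace Pool.Agent.H768.PL

open Real

section
variable {D : ℕ → ℕ → ℝ}

theorem Cfg.lv_exp (h : Cfg D) {i j : ℕ} (hs : D i j ≠ 0) : Real.exp (lv D (idx i j)) = |D i j| := by
  rw [h.lv_idx, Real.exp_log (abs_pos.2 hs)]

theorem Cfg.rrsh' (h : Cfg D) {i j : ℕ} (s : ℕ) (hR : RR D i j) : RR D (i + 10 * s) (j + 10 * s) := by
  unfold RR at *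
  have e1 : j + 10 * s + 1 = j + 1 + 10 * s := by ring
  rw [e1, h.perm1, h.perm2, h.perm1, h.perm2]
  exact hR

theorem Cfg.llsh' (h : Cfg D) {i j : ℕ} (s : ℕ) (hL : LL D i j) : LL D (i + 10 * s) (j + 10 * s) := by
  unfold LL at *
  have e1 : j + 10 * s + 1 = j + 1 + 10 * s := by ring
  have e2 : i + 10 * s + 1 = i + 1 + 10 * s := by ring
  rw [e1, e2, h.perm1, h.perm2, h.perm1, h.perm2]
  exact hL

/-- from a label at a shifted index down to the canonical one -/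
theorem Cfg.rrsh (h : Cfg D) (k s : ℕ) (hR : RR D (k + 10 * s) (k + 10 * s + 2)) :
    RR D k (k + 2) := by
  unfold RR at *
  have e1 : k + 10 * s + 2 + 1 = k + 2 + 1 + 10 * s := by ring
  have e2 : k + 10 * s + 2 = k + 2 + 10 * s := by ring
  rw [e1, e2, h.perm1, h.perm2, h.perm1, h.perm2] at hR
  exact hR

theorem Cfg.llsh (h : Cfg D) (k s : ℕ) (hL : LL D k (k + 2)) :
    LL D (k + 10 * s) (k + 10 * s + 2) := by
  have := h.llsh' s hL
  have e2 : k + 10 * s + 2 = k + 2 + 10 * s := by ring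
  rw [e2]; exact this

theorem Cfg.labL (h : Cfg D) (i : ℕ) (hn : ¬ RR D i (i + 2)) : LL D i (i + 2) :=
  (h.lab i (i + 2) le_rfl (by omega)).resolve_left hn

theorem Cfg.sgb (h : Cfg D) (hb : ∀ i, 0 < D i (i + 1)) (a : ℕ) : Sg D true a (a + 1) := by
  simpa [Sg] using hb a

theorem Cfg.sgbn (h : Cfg D) (hb : ∀ i, 0 < D i (i + 1)) : Sg D false 0 9 := by
  have h1 := hb 9
  have h2 := h.perm2 9 0 1
  simp only [mul_one, zero_add] at h2
  have h3 : D 9 (9 + 1) = D 9 0 := h2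
  have h4 := h.anti 0 9
  simp only [Sg]
  have : D 0 9 < 0 := by rw [h3] at h1; rw [h4] at h1; linarith
  simpa using this

theorem Cfg.absurdB (h : Cfg D) (hb : ∀ i, 0 < D i (i + 1)) {k l : ℕ} (hw' : 0 < D k l)
    (a s' t' : ℕ)
    (hk' : k + 10 * s' ≤ (a + 1) + 10 * t' ∧ (a + 1) < a + 10 ∧ a + 10 + 10 * t' ≤ l + 10 * s' ∧
      l < k + 10) : False :=
  h.absurdW (hb a) hw' a (a + 1) 0 0 s' t' (by omega) hk'

theorem Cfg.lF (h : Cfg D) (i d s a b e : ℕ) (hR : RR D i (i + d))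
    (hk : (2 ≤ d ∧ a ≤ i + 10 * s ∧ a < b) ∧ b ≤ i + d + 10 * s ∧ i + d + 10 * s + 1 ≤ e ∧ e < a + 10)
    (hs : 0 < D a e) : lv D (idx a e) < lv D (idx b e) := by
  have h1 := h.fF (i + 10 * s) (i + d + 10 * s) a b e (by omega) (h.rrsh' s hR) hk.1.2.1 hk.1.2.2
    hk.2.1 hk.2.2.1 hk.2.2.2 hs
  rw [← Real.exp_lt_exp, h.lv_pos hs, h.lv_pos (hs.trans h1)]
  exact h1

theorem Cfg.lG (h : Cfg D) (i d s c a b : ℕ) (hL : LL D i (i + d))
    (hk : (2 ≤ d ∧ c ≤ i + 10 * s ∧ i + 10 * s + 1 ≤ a) ∧ a < b ∧ i + d + 10 * s + 1 ≤ b ∧ b < c + 10)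
    (hs : 0 < D c b) : lv D (idx c b) < lv D (idx c a) := by
  have h1 := h.fG (i + 10 * s) (i + d + 10 * s) c a b (by omega) (h.llsh' s hL) hk.1.2.1 hk.1.2.2
    hk.2.1 hk.2.2.1 hk.2.2.2 hs
  rw [← Real.exp_lt_exp, h.lv_pos hs, h.lv_pos (hs.trans h1)]
  exact h1

theorem exp_C : (31 / 10 : ℝ) ≤ Real.exp (11317 / 10000) := by
  have h1 : Real.log (31 / 10) ≤ 11317 / 10000 := by
    have h2 : (49 : ℝ) * Real.log (31 / 10) ≤ 80 * Real.log 2 := by
      have e1 : (49 : ℝ) * Real.log (31 / 10) = Real.log ((31 / 10) ^ 49) := by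
        rw [Real.log_pow]; norm_num
      have e2 : (80 : ℝ) * Real.log 2 = Real.log (2 ^ 80) := by
        rw [Real.log_pow]; norm_num
      rw [e1, e2]
      apply Real.log_le_log (by positivity)
      norm_num
    have := Real.log_two_lt_d9
    linarith
  calc (31 / 10 : ℝ) = Real.exp (Real.log (31 / 10)) := (Real.exp_log (by norm_num)).symm
    _ ≤ _ := Real.exp_le_exp.2 h1

theorem Cfg.lC (h : Cfg D) (i d s a e g : ℕ) (hR : RR D i (i + d))
    (hk : (2 ≤ d ∧ a ≤ i + 10 * s) ∧ i + d + 10 * s + 1 ≤ e ∧ e < g ∧ g < a + 10)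
    (hs : 0 < D a g) : lv D (idx e g) < lv D (idx a e) + 11317 / 10000 := by
  have h1 := h.fC (i + 10 * s) (i + d + 10 * s) a e g (by omega) (h.rrsh' s hR) hk.1.2
    hk.2.1 hk.2.2.1 hk.2.2.2 hs
  have p1 : 0 < D a e := h.sub a g a e le_rfl (by omega) (by omega) (by omega) hs
  have p2 : 0 < D e g := h.sub a g e g (by omega) (by omega) (by omega) (by omega) hs
  rw [← Real.exp_lt_exp, Real.exp_add, h.lv_pos p2, h.lv_pos p1]
  have := exp_C
  nlinarith

theorem Cfg.lK (h : Cfg D) (i d s g c b : ℕ) (hL : LL D i (i + d))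
    (hk : (2 ≤ d ∧ g < c ∧ c ≤ i + 10 * s) ∧ i + d + 10 * s + 1 ≤ b ∧ b < g + 10)
    (hs : 0 < D g b) : lv D (idx g c) < lv D (idx c b) + 11317 / 10000 := by
  have h1 := h.fK (i + 10 * s) (i + d + 10 * s) g c b (by omega) (h.llsh' s hL) hk.1.2.1 hk.1.2.2
    hk.2.1 hk.2.2 hs
  have p1 : 0 < D g c := h.sub g b g c le_rfl (by omega) (by omega) (by omega) hs
  have p2 : 0 < D c b := h.sub g b c b (by omega) (by omega) (by omega) (by omega) hs
  rw [← Real.exp_lt_exp, Real.exp_add, h.lv_pos p2, h.lv_pos p1]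
  have := exp_C
  nlinarith

theorem Cfg.lN (h : Cfg D) (i : ℕ) (hn : ¬ RR D i (i + 2)) :
    lv D (idx (i + 2) (i + 3)) ≤ lv D (idx i (i + 3)) := by
  unfold RR at hn
  push Not at hn
  obtain ⟨h1, h2⟩ := hn
  have e : i + 2 + 1 = i + 3 := by ring
  rw [e] at h1 h2
  have p : 0 < D (i + 2) (i + 3) := h.sub i (i + 3) _ _ (by omega) (by omega) (by omega) (by omega) h1
  rw [← Real.exp_le_exp, h.lv_pos p, h.lv_pos h1]
  exact h2

theorem exp_101 : (101 / 100 : ℝ) ≤ Real.exp (1 / 100) := by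
  have := Real.add_one_le_exp (1 / 100 : ℝ)
  linarith

theorem Cfg.lH4 (h : Cfg D) (i : ℕ)
    (h4 : D (i + 1) (i + 2) * D (i + 3) (i + 4) < 101 / 100 * (D i (i + 1) * D (i + 4) (i + 5)))
    (p1 : 0 < D i (i + 1)) (p2 : 0 < D (i + 1) (i + 2)) (p3 : 0 < D (i + 3) (i + 4))
    (p4 : 0 < D (i + 4) (i + 5)) :
    lv D (idx (i + 1) (i + 2)) + lv D (idx (i + 3) (i + 4)) <
      lv D (idx i (i + 1)) + lv D (idx (i + 4) (i + 5)) + 1 / 100 := by
  rw [← Real.exp_lt_exp, Real.exp_add, Real.exp_add, Real.exp_add, h.lv_pos p1, h.lv_pos p2,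
    h.lv_pos p3, h.lv_pos p4]
  have := exp_101
  have := mul_pos p1 p4
  nlinarith

/-! ### the third alternative of CH3 -/

/-- data of the third alternative -/
theorem Cfg.h3e (h : Cfg D) (i : ℕ)
    (h3 : D i (i + 3) + D (i + 2) (i + 5) < 101 / 100 * D (i + 2) (i + 3) + D i (i + 5))
    (hR : RR D i (i + 2)) (hL : LL D (i + 2) (i + 4)) (p1 : 0 < D i (i + 3))
    (p2 : 0 < D (i + 2) (i + 5)) :
    0 < D (i + 2) (i + 3) ∧ 0 < D i (i + 2) ∧ 0 < D (i + 3) (i + 5) ∧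
    D i (i + 3) < D (i + 2) (i + 3) ∧ D (i + 2) (i + 5) < D (i + 2) (i + 3) ∧
    D i (i + 2) * D (i + 3) (i + 5) < D i (i + 3) * D (i + 2) (i + 5) -
      D (i + 2) (i + 3) * (D i (i + 3) + D (i + 2) (i + 5) - 101 / 100 * D (i + 2) (i + 3)) := by
  have pE : 0 < D (i + 2) (i + 3) := h.sub i (i + 3) _ _ (by omega) (by omega) (by omega) (by omega) p1
  have pG : 0 < D i (i + 2) := h.sub i (i + 3) _ _ (by omega) (by omega) (by omega) (by omega) p1
  have pH : 0 < D (i + 3) (i + 5) :=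
    h.sub (i + 2) (i + 5) _ _ (by omega) (by omega) (by omega) (by omega) p2
  have hX : D i (i + 3) < D (i + 2) (i + 3) := hR p1
  have hY : D (i + 2) (i + 5) < D (i + 2) (i + 3) := hL p2
  refine ⟨pE, pG, pH, hX, hY, ?_⟩
  have hp := h.pl i (i + 2) (i + 3) (i + 5)
  nlinarith [mul_pos pE (sub_pos.2 h3)]

theorem Cfg.lg0 (h : Cfg D) (i : ℕ)
    (h3 : D i (i + 3) + D (i + 2) (i + 5) < 101 / 100 * D (i + 2) (i + 3) + D i (i + 5))
    (hR : RR D i (i + 2)) (hL : LL D (i + 2) (i + 4)) (p1 : 0 < D i (i + 3))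
    (p2 : 0 < D (i + 2) (i + 5)) :
    lv D (idx i (i + 2)) + lv D (idx (i + 3) (i + 5)) < 2 * lv D (idx (i + 2) (i + 3)) + 1 / 100 := by
  obtain ⟨pE, pG, pH, hX, hY, hm⟩ := h.h3e i h3 hR hL p1 p2
  rw [← Real.exp_lt_exp, two_mul, Real.exp_add, Real.exp_add, Real.exp_add, h.lv_pos pE,
    h.lv_pos pG, h.lv_pos pH]
  have := exp_101
  have hE2 := mul_pos pE pE
  nlinarith [mul_pos (sub_pos.2 hX) p2, mul_pos p1 pE, mul_pos pE p2]

theorem log_ub {x c : ℝ} (hx : 0 < x) (h : Real.log x ≤ c) : x ≤ Real.exp c := by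
  calc x = Real.exp (Real.log x) := (Real.exp_log hx).symm
    _ ≤ _ := Real.exp_le_exp.2 h

theorem exp_g1 : (255025 / 1000000 : ℝ) ≤ Real.exp (-(1366 / 1000)) := by
  rw [← Real.log_le_iff_le_exp (by norm_num)]
  have h2 : Real.log (255025 / 1000000) = -(2 * Real.log 2) + Real.log (10201 / 10000) := by
    have e : (255025 / 1000000 : ℝ) = (10201 / 10000) / 2 ^ 2 := by norm_num
    rw [e, Real.log_div (by norm_num) (by norm_num), Real.log_pow]
    push_cast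
    ring
  rw [h2]
  have h3 := Real.log_le_sub_one_of_pos (show (0 : ℝ) < 10201 / 10000 by norm_num)
  have h4 := Real.log_two_gt_d9
  have h5 : Real.log (10201 / 10000) ≤ 10201 / 10000 - 1 := h3
  linarith

theorem Cfg.lgy (h : Cfg D) (i : ℕ)
    (h3 : D i (i + 3) + D (i + 2) (i + 5) < 101 / 100 * D (i + 2) (i + 3) + D i (i + 5))
    (hR : RR D i (i + 2)) (hL : LL D (i + 2) (i + 4)) (p1 : 0 < D i (i + 3))
    (p2 : 0 < D (i + 2) (i + 5)) :
    lv D (idx i (i + 2)) + lv D (idx (i + 3) (i + 5)) + lv D (idx (i + 2) (i + 5)) <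
      3 * lv D (idx (i + 2) (i + 3)) - 1366 / 1000 := by
  obtain ⟨pE, pG, pH, hX, hY, hm⟩ := h.h3e i h3 hR hL p1 p2
  have e3 : 3 * lv D (idx (i + 2) (i + 3)) - 1366 / 1000 = lv D (idx (i + 2) (i + 3)) +
    lv D (idx (i + 2) (i + 3)) + lv D (idx (i + 2) (i + 3)) + -(1366 / 1000) := by ring
  rw [← Real.exp_lt_exp, e3]
  simp only [Real.exp_add]
  rw [h.lv_pos pE, h.lv_pos pG, h.lv_pos pH, h.lv_pos p2]
  have hc := exp_g1
  set E := D (i + 2) (i + 3)
  set X := D i (i + 3)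
  set Y := D (i + 2) (i + 5)
  set GH := D i (i + 2) * D (i + 3) (i + 5)
  have hGH : GH < E * (101 / 100 * E - Y) := by
    nlinarith [mul_pos (sub_pos.2 hY) p1]
  have h5 : GH * Y ≤ E * (101 / 100 * E - Y) * Y := by
    have := mul_le_mul_of_nonneg_right hGH.le p2.le
    linarith
  have h6 : (101 / 100 * E - Y) * Y ≤ 255025 / 1000000 * (E * E) := by
    nlinarith [sq_nonneg (101 / 200 * E - Y)]
  have h7 : GH * Y < E * (101 / 100 * E - Y) * Y := mul_lt_mul_of_pos_right hGH p2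
  have h8 : E * ((101 / 100 * E - Y) * Y) ≤ E * (255025 / 1000000 * (E * E)) :=
    mul_le_mul_of_nonneg_left h6 pE.le
  have h9 : E * E * E * (255025 / 1000000) ≤ E * E * E * Real.exp (-(1366 / 1000)) :=
    mul_le_mul_of_nonneg_left hc (by positivity)
  nlinarith

theorem Cfg.lgx (h : Cfg D) (i : ℕ)
    (h3 : D i (i + 3) + D (i + 2) (i + 5) < 101 / 100 * D (i + 2) (i + 3) + D i (i + 5))
    (hR : RR D i (i + 2)) (hL : LL D (i + 2) (i + 4)) (p1 : 0 < D i (i + 3))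
    (p2 : 0 < D (i + 2) (i + 5)) :
    lv D (idx i (i + 2)) + lv D (idx (i + 3) (i + 5)) + lv D (idx i (i + 3)) <
      3 * lv D (idx (i + 2) (i + 3)) - 1366 / 1000 := by
  obtain ⟨pE, pG, pH, hX, hY, hm⟩ := h.h3e i h3 hR hL p1 p2
  have e3 : 3 * lv D (idx (i + 2) (i + 3)) - 1366 / 1000 = lv D (idx (i + 2) (i + 3)) +
    lv D (idx (i + 2) (i + 3)) + lv D (idx (i + 2) (i + 3)) + -(1366 / 1000) := by ring
  rw [← Real.exp_lt_exp, e3]
  simp only [Real.exp_add]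
  rw [h.lv_pos pE, h.lv_pos pG, h.lv_pos pH, h.lv_pos p1]
  have hc := exp_g1
  set E := D (i + 2) (i + 3)
  set X := D i (i + 3)
  set Y := D (i + 2) (i + 5)
  set GH := D i (i + 2) * D (i + 3) (i + 5)
  have hGH : GH < E * (101 / 100 * E - X) := by
    nlinarith [mul_pos (sub_pos.2 hX) p2]
  have h6 : (101 / 100 * E - X) * X ≤ 255025 / 1000000 * (E * E) := by
    nlinarith [sq_nonneg (101 / 200 * E - X)]
  have h7 : GH * X < E * (101 / 100 * E - X) * X := mul_lt_mul_of_pos_right hGH p1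
  have h8 : E * ((101 / 100 * E - X) * X) ≤ E * (255025 / 1000000 * (E * E)) :=
    mul_le_mul_of_nonneg_left h6 pE.le
  have h9 : E * E * E * (255025 / 1000000) ≤ E * E * E * Real.exp (-(1366 / 1000)) :=
    mul_le_mul_of_nonneg_left hc (by positivity)
  nlinarith

/-- `x y ((1.01 - x)(1.01 - y) + 0.01 x y ...)` -/
theorem two_var {x y : ℝ} (hx : 0 < x) (hx1 : x < 1) (hy : 0 < y) (hy1 : y < 1) :
    x * y * (x * y - (x + y) + 101 / 100) ≤ 67 / 1000 := by
  have h1 : 0 < x * y := mul_pos hx hy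
  have h2 : 4 * (x * y) ≤ (x + y) ^ 2 := by nlinarith [sq_nonneg (x - y)]
  set s := x + y
  set p := x * y
  have hs : 0 < s := by positivity
  -- p (p - s + 1.01) ≤ p (p - 2 sqrt p + 1.01)
  obtain ⟨q, hq0, hq⟩ : ∃ q : ℝ, 0 < q ∧ q * q = p := ⟨Real.sqrt p, Real.sqrt_pos.2 h1,
    Real.mul_self_sqrt h1.le⟩
  have hsq : 2 * q ≤ s := by
    nlinarith
  have hq1 : q < 1 := by
    by_contra hc
    push Not at hc
    have : p < 1 := by
      calc x * y < 1 * 1 := mul_lt_mul'' hx1 hy1 hx.le hy.le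
        _ = 1 := one_mul 1
    nlinarith
  have h3 : p * (p - s + 101 / 100) ≤ q * q * (q * q - 2 * q + 101 / 100) := by
    rw [← hq]
    have : 0 < q * q := by positivity
    nlinarith
  have h4 : q * q * (q * q - 2 * q + 101 / 100) ≤ 67 / 1000 := by
    have e : q * q * (q * q - 2 * q + 101 / 100) = (q * (1 - q)) ^ 2 + 1 / 100 * (q * q) := by ring
    rw [e]
    have h5 : q * (1 - q) ≤ 1 / 4 := by nlinarith [sq_nonneg (q - 1 / 2)]
    have h6 : 0 ≤ q * (1 - q) := mul_nonneg hq0.le (by linarith)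
    have h7 : (q * (1 - q)) ^ 2 ≤ 1 / 4 * (q * (1 - q)) := by nlinarith
    nlinarith [sq_nonneg (q - 1 / 2), sq_nonneg (q - 13 / 25)]
  linarith

theorem exp_g2 : (67 / 1000 : ℝ) < Real.exp (-(269 / 100)) := by
  rw [← Real.log_lt_iff_lt_exp (by norm_num)]
  have h2 : Real.log (67 / 1000) = -(4 * Real.log 2) + Real.log (1072 / 1000) := by
    have e : (67 / 1000 : ℝ) = (1072 / 1000) / 2 ^ 4 := by norm_num
    rw [e, Real.log_div (by norm_num) (by norm_num), Real.log_pow]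
    push_cast
    ring
  rw [h2]
  have h3 : Real.log (1072 / 1000) ≤ 1072 / 1000 - 1 :=
    Real.log_le_sub_one_of_pos (show (0 : ℝ) < 1072 / 1000 by norm_num)
  have h4 := Real.log_two_gt_d9
  linarith

theorem Cfg.lgz (h : Cfg D) (i : ℕ)
    (h3 : D i (i + 3) + D (i + 2) (i + 5) < 101 / 100 * D (i + 2) (i + 3) + D i (i + 5))
    (hR : RR D i (i + 2)) (hL : LL D (i + 2) (i + 4)) (p1 : 0 < D i (i + 3))
    (p2 : 0 < D (i + 2) (i + 5)) :
    lv D (idx i (i + 2)) + lv D (idx (i + 3) (i + 5)) + lv D (idx i (i + 3)) +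
      lv D (idx (i + 2) (i + 5)) < 4 * lv D (idx (i + 2) (i + 3)) - 269 / 100 := by
  obtain ⟨pE, pG, pH, hX, hY, hm⟩ := h.h3e i h3 hR hL p1 p2
  have e3 : 4 * lv D (idx (i + 2) (i + 3)) - 269 / 100 = lv D (idx (i + 2) (i + 3)) +
    lv D (idx (i + 2) (i + 3)) + lv D (idx (i + 2) (i + 3)) + lv D (idx (i + 2) (i + 3)) +
    -(269 / 100) := by ring
  rw [← Real.exp_lt_exp, e3]
  simp only [Real.exp_add]
  rw [h.lv_pos pE, h.lv_pos pG, h.lv_pos pH, h.lv_pos p1, h.lv_pos p2]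
  have hc := exp_g2
  set E := D (i + 2) (i + 3)
  set X := D i (i + 3)
  set Y := D (i + 2) (i + 5)
  set GH := D i (i + 2) * D (i + 3) (i + 5)
  have hx1 : X / E < 1 := (div_lt_one pE).2 hX
  have hy1 : Y / E < 1 := (div_lt_one pE).2 hY
  have h5 := two_var (div_pos p1 pE) hx1 (div_pos p2 pE) hy1
  have h6 : X * Y * (X * Y - E * (X + Y - 101 / 100 * E)) =
      E * E * E * E * (X / E * (Y / E) * (X / E * (Y / E) - (X / E + Y / E) + 101 / 100)) := by
    field_simp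
    ring
  have h7 : GH * (X * Y) < (X * Y - E * (X + Y - 101 / 100 * E)) * (X * Y) :=
    mul_lt_mul_of_pos_right hm (mul_pos p1 p2)
  have hE4 : 0 < E * E * E * E := by positivity
  have h8 : E * E * E * E * (X / E * (Y / E) * (X / E * (Y / E) - (X / E + Y / E) + 101 / 100)) ≤
      E * E * E * E * (67 / 1000) := mul_le_mul_of_nonneg_left h5 hE4.le
  have h9 : E * E * E * E * (67 / 1000) < E * E * E * E * Real.exp (-(269 / 100)) :=
    mul_lt_mul_of_pos_left hc hE4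
  have e1 : GH * X * Y = GH * (X * Y) := by ring
  rw [e1]
  calc GH * (X * Y) < (X * Y - E * (X + Y - 101 / 100 * E)) * (X * Y) := h7
    _ = X * Y * (X * Y - E * (X + Y - 101 / 100 * E)) := by ring
    _ = _ := h6
    _ ≤ _ := h8
    _ < _ := h9

/-! ### third alternative, `D i (i+5) < 0` -/

theorem Cfg.h3n (h : Cfg D) (i : ℕ)
    (h3 : D i (i + 3) + D (i + 2) (i + 5) < 101 / 100 * D (i + 2) (i + 3) + D i (i + 5))
    (p1 : 0 < D i (i + 3)) (p2 : 0 < D (i + 2) (i + 5)) (p3 : 0 < D (i + 5) (i + 10)) :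
    0 < D (i + 2) (i + 3) ∧ 0 < -D i (i + 5) ∧
    Real.exp (lv D (idx i (i + 5))) = -D i (i + 5) ∧
    D i (i + 3) + D (i + 2) (i + 5) + -D i (i + 5) <
      Real.exp (lv D (idx (i + 2) (i + 3)) + 1 / 100) := by
  have pE : 0 < D (i + 2) (i + 3) := h.sub i (i + 3) _ _ (by omega) (by omega) (by omega) (by omega) p1
  have e1 := h.perm2 (i + 5) i 1
  rw [mul_one] at e1
  rw [e1, h.anti i (i + 5)] at p3
  refine ⟨pE, p3, ?_, ?_⟩
  · rw [h.lv_idx, Real.exp_log (abs_pos.2 (by intro h0; rw [h0] at p3; simp at p3)),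
      abs_of_neg (by linarith)]
  · rw [Real.exp_add, h.lv_pos pE]
    have := exp_101
    nlinarith

theorem Cfg.ls0 (h : Cfg D) (i : ℕ)
    (h3 : D i (i + 3) + D (i + 2) (i + 5) < 101 / 100 * D (i + 2) (i + 3) + D i (i + 5))
    (p1 : 0 < D i (i + 3)) (p2 : 0 < D (i + 2) (i + 5)) (p3 : 0 < D (i + 5) (i + 10)) :
    lv D (idx i (i + 3)) < lv D (idx (i + 2) (i + 3)) + 1 / 100 := by
  obtain ⟨pE, pF, eF, hm⟩ := h.h3n i h3 p1 p2 p3
  rw [← Real.exp_lt_exp, h.lv_pos p1]; linarith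

theorem Cfg.ls1 (h : Cfg D) (i : ℕ)
    (h3 : D i (i + 3) + D (i + 2) (i + 5) < 101 / 100 * D (i + 2) (i + 3) + D i (i + 5))
    (p1 : 0 < D i (i + 3)) (p2 : 0 < D (i + 2) (i + 5)) (p3 : 0 < D (i + 5) (i + 10)) :
    lv D (idx (i + 2) (i + 5)) < lv D (idx (i + 2) (i + 3)) + 1 / 100 := by
  obtain ⟨pE, pF, eF, hm⟩ := h.h3n i h3 p1 p2 p3
  rw [← Real.exp_lt_exp, h.lv_pos p2]; linarith

theorem Cfg.ls2 (h : Cfg D) (i : ℕ)
    (h3 : D i (i + 3) + D (i + 2) (i + 5) < 101 / 100 * D (i + 2) (i + 3) + D i (i + 5))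
    (p1 : 0 < D i (i + 3)) (p2 : 0 < D (i + 2) (i + 5)) (p3 : 0 < D (i + 5) (i + 10)) :
    lv D (idx i (i + 5)) < lv D (idx (i + 2) (i + 3)) + 1 / 100 := by
  obtain ⟨pE, pF, eF, hm⟩ := h.h3n i h3 p1 p2 p3
  rw [← Real.exp_lt_exp, eF]; linarith

theorem exp_4 : Real.exp (13862 / 10000) ≤ 4 := by
  have h3 : (13862 / 10000 : ℝ) ≤ Real.log 4 := by
    have : (4 : ℝ) = 2 ^ 2 := by norm_num
    rw [this, Real.log_pow]
    have := Real.log_two_gt_d9
    push_cast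
    linarith
  calc Real.exp (13862 / 10000) ≤ Real.exp (Real.log 4) := Real.exp_le_exp.2 h3
    _ = 4 := Real.exp_log (by norm_num)

theorem exp_27 : Real.exp (32955 / 10000) ≤ 27 := by
  have h3 : (32955 / 10000 : ℝ) ≤ Real.log 27 := by
    have e : (27 : ℝ) = 3 ^ 3 := by norm_num
    rw [e, Real.log_pow]
    have h2 : (84 : ℝ) * Real.log 2 ≤ 53 * Real.log 3 := by
      have e1 : (53 : ℝ) * Real.log 3 = Real.log (3 ^ 53) := by
        rw [Real.log_pow]; norm_num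
      have e2 : (84 : ℝ) * Real.log 2 = Real.log (2 ^ 84) := by
        rw [Real.log_pow]; norm_num
      rw [e1, e2]
      apply Real.log_le_log (by positivity)
      norm_num
    have := Real.log_two_gt_d9
    push_cast
    linarith
  calc Real.exp (32955 / 10000) ≤ Real.exp (Real.log 27) := Real.exp_le_exp.2 h3
    _ = 27 := Real.exp_log (by norm_num)

theorem amgm2 {x y A : ℝ} (hx : 0 < x) (hy : 0 < y) (h : x + y < Real.exp A) :
    13862 / 10000 + Real.log x + Real.log y < 2 * A := by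
  rw [← Real.exp_lt_exp, Real.exp_add, Real.exp_add, Real.exp_log hx, Real.exp_log hy, two_mul,
    Real.exp_add]
  have h1 := exp_4
  have h2 : 4 * (x * y) ≤ (x + y) * (x + y) := by nlinarith [sq_nonneg (x - y)]
  have h3 : (x + y) * (x + y) < Real.exp A * Real.exp A :=
    mul_lt_mul'' h h (by positivity) (by positivity)
  have h4 : Real.exp (13862 / 10000) * (x * y) ≤ 4 * (x * y) :=
    mul_le_mul_of_nonneg_right h1 (by positivity)
  nlinarith

theorem amgm3 {x y z A : ℝ} (hx : 0 < x) (hy : 0 < y) (hz : 0 < z) (h : x + y + z < Real.exp A) :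
    32955 / 10000 + Real.log x + Real.log y + Real.log z < 3 * A := by
  have e3 : 3 * A = A + A + A := by ring
  rw [← Real.exp_lt_exp, Real.exp_add, Real.exp_add, Real.exp_add, Real.exp_log hx, Real.exp_log hy,
    Real.exp_log hz, e3, Real.exp_add, Real.exp_add]
  have h1 := exp_27
  have h2 : 27 * (x * y * z) ≤ (x + y + z) * (x + y + z) * (x + y + z) := by
    nlinarith [mul_nonneg hx.le (sq_nonneg (y - z)), mul_nonneg hy.le (sq_nonneg (x - z)),
      mul_nonneg hz.le (sq_nonneg (x - y)), mul_nonneg (by positivity : 0 ≤ x + y + z)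
      (add_nonneg (add_nonneg (sq_nonneg (x - y)) (sq_nonneg (y - z))) (sq_nonneg (x - z)))]
  have h3 : (x + y + z) * (x + y + z) < Real.exp A * Real.exp A :=
    mul_lt_mul'' h h (by positivity) (by positivity)
  have h3' : (x + y + z) * (x + y + z) * (x + y + z) < Real.exp A * Real.exp A * Real.exp A :=
    mul_lt_mul'' h3 h (by positivity) (by positivity)
  have h4 : Real.exp (32955 / 10000) * (x * y * z) ≤ 27 * (x * y * z) :=
    mul_le_mul_of_nonneg_right h1 (by positivity)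
  nlinarith

theorem Cfg.lvl (h : Cfg D) {i j : ℕ} (hs : 0 < D i j) : Real.log (D i j) = lv D (idx i j) := by
  rw [h.lv_idx, abs_of_pos hs]

theorem Cfg.lvln (h : Cfg D) {i j : ℕ} (hs : 0 < -D i j) : Real.log (-D i j) = lv D (idx i j) := by
  rw [h.lv_idx, abs_of_neg (by linarith)]

theorem Cfg.ld0 (h : Cfg D) (i : ℕ)
    (h3 : D i (i + 3) + D (i + 2) (i + 5) < 101 / 100 * D (i + 2) (i + 3) + D i (i + 5))
    (p1 : 0 < D i (i + 3)) (p2 : 0 < D (i + 2) (i + 5)) (p3 : 0 < D (i + 5) (i + 10)) :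
    13862 / 10000 + lv D (idx (i + 2) (i + 5)) + lv D (idx i (i + 5)) <
      2 * lv D (idx (i + 2) (i + 3)) + 2 / 100 := by
  obtain ⟨pE, pF, eF, hm⟩ := h.h3n i h3 p1 p2 p3
  have := amgm2 p2 pF (A := lv D (idx (i + 2) (i + 3)) + 1 / 100) (by linarith)
  rw [h.lvl p2, h.lvln pF] at this
  linarith

theorem Cfg.ld1 (h : Cfg D) (i : ℕ)
    (h3 : D i (i + 3) + D (i + 2) (i + 5) < 101 / 100 * D (i + 2) (i + 3) + D i (i + 5))
    (p1 : 0 < D i (i + 3)) (p2 : 0 < D (i + 2) (i + 5)) (p3 : 0 < D (i + 5) (i + 10)) :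
    13862 / 10000 + lv D (idx i (i + 5)) + lv D (idx i (i + 3)) <
      2 * lv D (idx (i + 2) (i + 3)) + 2 / 100 := by
  obtain ⟨pE, pF, eF, hm⟩ := h.h3n i h3 p1 p2 p3
  have := amgm2 pF p1 (A := lv D (idx (i + 2) (i + 3)) + 1 / 100) (by linarith)
  rw [h.lvl p1, h.lvln pF] at this
  linarith

theorem Cfg.ld2 (h : Cfg D) (i : ℕ)
    (h3 : D i (i + 3) + D (i + 2) (i + 5) < 101 / 100 * D (i + 2) (i + 3) + D i (i + 5))
    (p1 : 0 < D i (i + 3)) (p2 : 0 < D (i + 2) (i + 5)) (p3 : 0 < D (i + 5) (i + 10)) :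
    13862 / 10000 + lv D (idx i (i + 3)) + lv D (idx (i + 2) (i + 5)) <
      2 * lv D (idx (i + 2) (i + 3)) + 2 / 100 := by
  obtain ⟨pE, pF, eF, hm⟩ := h.h3n i h3 p1 p2 p3
  have := amgm2 p1 p2 (A := lv D (idx (i + 2) (i + 3)) + 1 / 100) (by linarith)
  rw [h.lvl p1, h.lvl p2] at this
  linarith

theorem Cfg.lt0 (h : Cfg D) (i : ℕ)
    (h3 : D i (i + 3) + D (i + 2) (i + 5) < 101 / 100 * D (i + 2) (i + 3) + D i (i + 5))
    (p1 : 0 < D i (i + 3)) (p2 : 0 < D (i + 2) (i + 5)) (p3 : 0 < D (i + 5) (i + 10)) :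
    32955 / 10000 + lv D (idx i (i + 3)) + lv D (idx (i + 2) (i + 5)) + lv D (idx i (i + 5)) <
      3 * lv D (idx (i + 2) (i + 3)) + 3 / 100 := by
  obtain ⟨pE, pF, eF, hm⟩ := h.h3n i h3 p1 p2 p3
  have := amgm3 p1 p2 pF (A := lv D (idx (i + 2) (i + 3)) + 1 / 100) (by linarith)
  rw [h.lvl p1, h.lvl p2, h.lvln pF] at this
  linarith

end

/-! ### comparison of the two Plücker terms -/

/-- `log (1 + 2^k) ≤ c` -/
def CK (k : ℤ) (c : ℝ) : Prop := 1 + (2 : ℝ) ^ k ≤ Real.exp c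

theorem eUg {A B C : ℝ} {k : ℤ} {c : ℝ} (e : Real.exp A = Real.exp B + Real.exp C)
    (hI : C + k * Real.log 2 ≤ B) (hc : CK (-k) c) : A ≤ B + c := by
  refine eU (ρ := (2 : ℝ) ^ (-k)) e ?_ hc
  have h1 : Real.exp C * (2 : ℝ) ^ k ≤ Real.exp B := by
    have h2 : Real.exp (C + k * Real.log 2) ≤ Real.exp B := Real.exp_le_exp.2 hI
    rw [Real.exp_add, mul_comm (k : ℝ), ← Real.rpow_def_of_pos (by norm_num),
      Real.rpow_intCast] at h2
    exact h2
  have h3 : (0 : ℝ) < 2 ^ k := by positivity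
  rw [zpow_neg, inv_mul_eq_div, le_div_iff₀ h3]
  exact h1

theorem eUl {A B C : ℝ} {k : ℤ} {c : ℝ} (e : Real.exp A = Real.exp B + Real.exp C)
    (hI : B ≤ C + k * Real.log 2) (hc : CK k c) : A ≤ C + c := by
  rw [add_comm] at e
  refine eU (ρ := (2 : ℝ) ^ k) e ?_ hc
  have h2 : Real.exp B ≤ Real.exp (C + k * Real.log 2) := Real.exp_le_exp.2 hI
  rw [Real.exp_add, mul_comm (k : ℝ), ← Real.rpow_def_of_pos (by norm_num),
    Real.rpow_intCast] at h2
  rw [mul_comm]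
  exact h2

theorem hl2a : (6931471 / 10000000 : ℝ) < Real.log 2 := by
  have := Real.log_two_gt_d9; linarith
theorem hl2b : Real.log 2 < (6931473 / 10000000 : ℝ) := by
  have := Real.log_two_lt_d9; linarith

end Pool.Agent.H768.PL
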