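import Pool.Agent.H768.PL.Lem2

/-!
# Numerical constants for the comparison of Plücker terms
-/

set_option autoImplicit false
set_option linter.all false

namespace Pool.Agent.H768.PL

open Real

theorem Cfg.flip2 {D : ℕ → ℕ → ℝ} (h : Cfg D) {i j : ℕ} (hn : ¬ 0 < D i j) (j' : ℕ)
    (hk : i < j ∧ j < i + 10 ∧ j = j' + 10) : 0 < D j' i := by
  have h1 := h.flip hn ⟨hk.1, hk.2.1⟩
  rw [hk.2.2] at h1
  have h2 := h.perm1 j' (i + 10) 1
  have h3 := h.perm2 j' i 1
  rw [mul_one] at h2 h3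
  rw [h2, h3] at h1
  exact h1

theorem exp_lb {c : ℝ} (hc : 0 ≤ c) (q : ℝ) (n : ℕ)
    (h : q ≤ ∑ i ∈ Finset.range n, c ^ i / (Nat.factorial i : ℝ)) : q ≤ Real.exp c :=
  h.trans (Real.sum_le_exp_of_nonneg hc n)

theorem ckm6 : CK (-6) (15507 / 1000000) := by
  unfold CK
  have e : 1 + (2 : ℝ) ^ (-6 : ℤ) = 65 / 64 := by norm_num
  rw [e]
  refine exp_lb (by norm_num) _ 9 ?_
  norm_num [Finset.sum_range_succ, Nat.factorial]

theorem ckm5 : CK (-5) (30774 / 1000000) := by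
  unfold CK
  have e : 1 + (2 : ℝ) ^ (-5 : ℤ) = 33 / 32 := by norm_num
  rw [e]
  refine exp_lb (by norm_num) _ 9 ?_
  norm_num [Finset.sum_range_succ, Nat.factorial]

theorem ckm4 : CK (-4) (60627 / 1000000) := by
  unfold CK
  have e : 1 + (2 : ℝ) ^ (-4 : ℤ) = 17 / 16 := by norm_num
  rw [e]
  refine exp_lb (by norm_num) _ 9 ?_
  norm_num [Finset.sum_range_succ, Nat.factorial]

theorem ckm3 : CK (-3) (117786 / 1000000) := by
  unfold CK
  have e : 1 + (2 : ℝ) ^ (-3 : ℤ) = 9 / 8 := by norm_num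
  rw [e]
  refine exp_lb (by norm_num) _ 9 ?_
  norm_num [Finset.sum_range_succ, Nat.factorial]

theorem ckm2 : CK (-2) (223146 / 1000000) := by
  unfold CK
  have e : 1 + (2 : ℝ) ^ (-2 : ℤ) = 5 / 4 := by norm_num
  rw [e]
  refine exp_lb (by norm_num) _ 9 ?_
  norm_num [Finset.sum_range_succ, Nat.factorial]

theorem ckm1 : CK (-1) (405468 / 1000000) := by
  unfold CK
  have e : 1 + (2 : ℝ) ^ (-1 : ℤ) = 3 / 2 := by norm_num
  rw [e]
  refine exp_lb (by norm_num) _ 9 ?_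
  norm_num [Finset.sum_range_succ, Nat.factorial]

theorem ckp0 : CK (0) (693150 / 1000000) := by
  unfold CK
  have e : 1 + (2 : ℝ) ^ (0 : ℤ) = 2 / 1 := by norm_num
  rw [e]
  refine exp_lb (by norm_num) _ 14 ?_
  norm_num [Finset.sum_range_succ, Nat.factorial]

theorem ckp1 : CK (1) (1098615 / 1000000) := by
  unfold CK
  have e : 1 + (2 : ℝ) ^ (1 : ℤ) = 3 / 1 := by norm_num
  rw [e]
  refine exp_lb (by norm_num) _ 14 ?_
  norm_num [Finset.sum_range_succ, Nat.factorial]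

theorem ckp2 : CK (2) (1609440 / 1000000) := by
  unfold CK
  have e : 1 + (2 : ℝ) ^ (2 : ℤ) = 5 / 1 := by norm_num
  rw [e]
  refine exp_lb (by norm_num) _ 20 ?_
  norm_num [Finset.sum_range_succ, Nat.factorial]

theorem ckp3 : CK (3) (2197227 / 1000000) := by
  unfold CK
  have e : 1 + (2 : ℝ) ^ (3 : ℤ) = 9 / 1 := by norm_num
  rw [e]
  refine exp_lb (by norm_num) _ 20 ?_
  norm_num [Finset.sum_range_succ, Nat.factorial]

theorem ckp4 : CK (4) (2833216 / 1000000) := by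
  unfold CK
  have e : 1 + (2 : ℝ) ^ (4 : ℤ) = 17 / 1 := by norm_num
  rw [e]
  refine exp_lb (by norm_num) _ 26 ?_
  norm_num [Finset.sum_range_succ, Nat.factorial]

theorem ckp5 : CK (5) (3496510 / 1000000) := by
  unfold CK
  have e : 1 + (2 : ℝ) ^ (5 : ℤ) = 33 / 1 := by norm_num
  rw [e]
  refine exp_lb (by norm_num) _ 26 ?_
  norm_num [Finset.sum_range_succ, Nat.factorial]

theorem ckp6 : CK (6) (4174390 / 1000000) := by
  unfold CK
  have e : 1 + (2 : ℝ) ^ (6 : ℤ) = 65 / 1 := by norm_num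
  rw [e]
  refine exp_lb (by norm_num) _ 26 ?_
  norm_num [Finset.sum_range_succ, Nat.factorial]

theorem ugm6 {A B C : ℝ} (e : Real.exp A = Real.exp B + Real.exp C)
    (hI : C + (-6) * Real.log 2 ≤ B) : A ≤ B + 4174390 / 1000000 :=
  eUg (k := -6) e (by push_cast; exact hI) (by simpa using ckp6)

theorem ulm6 {A B C : ℝ} (e : Real.exp A = Real.exp B + Real.exp C)
    (hI : B ≤ C + (-6) * Real.log 2) : A ≤ C + 15507 / 1000000 :=
  eUl (k := -6) e (by push_cast; exact hI) ckm6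

theorem ugm5 {A B C : ℝ} (e : Real.exp A = Real.exp B + Real.exp C)
    (hI : C + (-5) * Real.log 2 ≤ B) : A ≤ B + 3496510 / 1000000 :=
  eUg (k := -5) e (by push_cast; exact hI) (by simpa using ckp5)

theorem ulm5 {A B C : ℝ} (e : Real.exp A = Real.exp B + Real.exp C)
    (hI : B ≤ C + (-5) * Real.log 2) : A ≤ C + 30774 / 1000000 :=
  eUl (k := -5) e (by push_cast; exact hI) ckm5

theorem ugm4 {A B C : ℝ} (e : Real.exp A = Real.exp B + Real.exp C)
    (hI : C + (-4) * Real.log 2 ≤ B) : A ≤ B + 2833216 / 1000000 :=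
  eUg (k := -4) e (by push_cast; exact hI) (by simpa using ckp4)

theorem ulm4 {A B C : ℝ} (e : Real.exp A = Real.exp B + Real.exp C)
    (hI : B ≤ C + (-4) * Real.log 2) : A ≤ C + 60627 / 1000000 :=
  eUl (k := -4) e (by push_cast; exact hI) ckm4

theorem ugm3 {A B C : ℝ} (e : Real.exp A = Real.exp B + Real.exp C)
    (hI : C + (-3) * Real.log 2 ≤ B) : A ≤ B + 2197227 / 1000000 :=
  eUg (k := -3) e (by push_cast; exact hI) (by simpa using ckp3)

theorem ulm3 {A B C : ℝ} (e : Real.exp A = Real.exp B + Real.exp C)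
    (hI : B ≤ C + (-3) * Real.log 2) : A ≤ C + 117786 / 1000000 :=
  eUl (k := -3) e (by push_cast; exact hI) ckm3

theorem ugm2 {A B C : ℝ} (e : Real.exp A = Real.exp B + Real.exp C)
    (hI : C + (-2) * Real.log 2 ≤ B) : A ≤ B + 1609440 / 1000000 :=
  eUg (k := -2) e (by push_cast; exact hI) (by simpa using ckp2)

theorem ulm2 {A B C : ℝ} (e : Real.exp A = Real.exp B + Real.exp C)
    (hI : B ≤ C + (-2) * Real.log 2) : A ≤ C + 223146 / 1000000 :=
  eUl (k := -2) e (by push_cast; exact hI) ckm2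

theorem ugm1 {A B C : ℝ} (e : Real.exp A = Real.exp B + Real.exp C)
    (hI : C + (-1) * Real.log 2 ≤ B) : A ≤ B + 1098615 / 1000000 :=
  eUg (k := -1) e (by push_cast; exact hI) (by simpa using ckp1)

theorem ulm1 {A B C : ℝ} (e : Real.exp A = Real.exp B + Real.exp C)
    (hI : B ≤ C + (-1) * Real.log 2) : A ≤ C + 405468 / 1000000 :=
  eUl (k := -1) e (by push_cast; exact hI) ckm1

theorem ugp0 {A B C : ℝ} (e : Real.exp A = Real.exp B + Real.exp C)
    (hI : C + (0) * Real.log 2 ≤ B) : A ≤ B + 693150 / 1000000 :=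
  eUg (k := 0) e (by push_cast; exact hI) (by simpa using ckp0)

theorem ulp0 {A B C : ℝ} (e : Real.exp A = Real.exp B + Real.exp C)
    (hI : B ≤ C + (0) * Real.log 2) : A ≤ C + 693150 / 1000000 :=
  eUl (k := 0) e (by push_cast; exact hI) ckp0

theorem ugp1 {A B C : ℝ} (e : Real.exp A = Real.exp B + Real.exp C)
    (hI : C + (1) * Real.log 2 ≤ B) : A ≤ B + 405468 / 1000000 :=
  eUg (k := 1) e (by push_cast; exact hI) (by simpa using ckm1)

theorem ulp1 {A B C : ℝ} (e : Real.exp A = Real.exp B + Real.exp C)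
    (hI : B ≤ C + (1) * Real.log 2) : A ≤ C + 1098615 / 1000000 :=
  eUl (k := 1) e (by push_cast; exact hI) ckp1

theorem ugp2 {A B C : ℝ} (e : Real.exp A = Real.exp B + Real.exp C)
    (hI : C + (2) * Real.log 2 ≤ B) : A ≤ B + 223146 / 1000000 :=
  eUg (k := 2) e (by push_cast; exact hI) (by simpa using ckm2)

theorem ulp2 {A B C : ℝ} (e : Real.exp A = Real.exp B + Real.exp C)
    (hI : B ≤ C + (2) * Real.log 2) : A ≤ C + 1609440 / 1000000 :=
  eUl (k := 2) e (by push_cast; exact hI) ckp2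

theorem ugp3 {A B C : ℝ} (e : Real.exp A = Real.exp B + Real.exp C)
    (hI : C + (3) * Real.log 2 ≤ B) : A ≤ B + 117786 / 1000000 :=
  eUg (k := 3) e (by push_cast; exact hI) (by simpa using ckm3)

theorem ulp3 {A B C : ℝ} (e : Real.exp A = Real.exp B + Real.exp C)
    (hI : B ≤ C + (3) * Real.log 2) : A ≤ C + 2197227 / 1000000 :=
  eUl (k := 3) e (by push_cast; exact hI) ckp3

theorem ugp4 {A B C : ℝ} (e : Real.exp A = Real.exp B + Real.exp C)
    (hI : C + (4) * Real.log 2 ≤ B) : A ≤ B + 60627 / 1000000 :=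
  eUg (k := 4) e (by push_cast; exact hI) (by simpa using ckm4)

theorem ulp4 {A B C : ℝ} (e : Real.exp A = Real.exp B + Real.exp C)
    (hI : B ≤ C + (4) * Real.log 2) : A ≤ C + 2833216 / 1000000 :=
  eUl (k := 4) e (by push_cast; exact hI) ckp4

theorem ugp5 {A B C : ℝ} (e : Real.exp A = Real.exp B + Real.exp C)
    (hI : C + (5) * Real.log 2 ≤ B) : A ≤ B + 30774 / 1000000 :=
  eUg (k := 5) e (by push_cast; exact hI) (by simpa using ckm5)

theorem ulp5 {A B C : ℝ} (e : Real.exp A = Real.exp B + Real.exp C)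
    (hI : B ≤ C + (5) * Real.log 2) : A ≤ C + 3496510 / 1000000 :=
  eUl (k := 5) e (by push_cast; exact hI) ckp5

theorem ugp6 {A B C : ℝ} (e : Real.exp A = Real.exp B + Real.exp C)
    (hI : C + (6) * Real.log 2 ≤ B) : A ≤ B + 15507 / 1000000 :=
  eUg (k := 6) e (by push_cast; exact hI) (by simpa using ckm6)

theorem ulp6 {A B C : ℝ} (e : Real.exp A = Real.exp B + Real.exp C)
    (hI : B ≤ C + (6) * Real.log 2) : A ≤ C + 4174390 / 1000000 :=
  eUl (k := 6) e (by push_cast; exact hI) ckp6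

end Pool.Agent.H768.PL
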