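import Pool.Agent.H768.PL.Lem3

set_option autoImplicit false
set_option linter.all false

namespace Pool.Agent.H768.PL

open Real

theorem th_1 {D : ℕ → ℕ → ℝ} (h : Cfg D)
    (r1_2 : RR D 1 3)
    (r2_2 : RR D 2 4)
    (r4_2 : RR D 4 6)
    (r7_2 : RR D 7 9)
    (w1_10 : 0 < D 1 10) : False := by
  have f1 : lv D 15 < lv D 25 :=
    h.lF 2 2 0 1 2 5 r2_2 (by decide) (h.pos_of w1_10 1 5 0 0 (by decide))
  have e1 : Real.exp (lv D 5 + lv D 18) = Real.exp (lv D 1 + lv D 58) + Real.exp (lv D 8 + lv D 15) :=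
    h.PX 0 1 5 8 (h.sgn w1_10 0 5 0 0 (by decide)) (h.sgp w1_10 1 8 0 0 (by decide)) (h.sgn w1_10 0 1 0 0 (by decide)) (h.sgp w1_10 5 8 0 0 (by decide)) (h.sgn w1_10 0 8 0 0 (by decide)) (h.sgp w1_10 1 5 0 0 (by decide)) rfl
  have f2 := eN e1
  have e2 : Real.exp (lv D 8 + lv D 49) = Real.exp (lv D 4 + lv D 89) + Real.exp (lv D 9 + lv D 48) :=
    h.PX 0 4 8 9 (h.sgn w1_10 0 8 0 0 (by decide)) (h.sgp w1_10 4 9 0 0 (by decide)) (h.sgn w1_10 0 4 0 0 (by decide)) (h.sgp w1_10 8 9 0 0 (by decide)) (h.sgn w1_10 0 9 0 0 (by decide)) (h.sgp w1_10 4 8 0 0 (by decide)) rfl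
  have f3 := eN e2
  have f4 : lv D 6 < lv D 9 :=
    h.lF 7 2 0 6 9 10 r7_2 (by decide) (h.pos_of w1_10 6 10 0 0 (by decide))
  have f5 : lv D 48 < lv D 58 :=
    h.lF 4 2 0 4 5 8 r4_2 (by decide) (h.pos_of w1_10 4 8 0 0 (by decide))
  have f6 : lv D 5 < lv D 6 :=
    h.lF 7 2 0 5 6 10 r7_2 (by decide) (h.pos_of w1_10 5 10 0 0 (by decide))
  have f7 : lv D 49 < lv D 14 + 11317 / 10000 :=
    h.lC 1 2 0 1 4 9 r1_2 (by decide) (h.pos_of w1_10 1 9 0 0 (by decide))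
  have f8 : lv D 25 < lv D 45 :=
    h.lF 2 2 0 2 4 5 r2_2 (by decide) (h.pos_of w1_10 2 5 0 0 (by decide))
  have e3 : Real.exp (lv D 15 + lv D 48) = Real.exp (lv D 14 + lv D 58) + Real.exp (lv D 18 + lv D 45) :=
    h.PX 1 4 5 8 (h.sgp w1_10 1 5 0 0 (by decide)) (h.sgp w1_10 4 8 0 0 (by decide)) (h.sgp w1_10 1 4 0 0 (by decide)) (h.sgp w1_10 5 8 0 0 (by decide)) (h.sgp w1_10 1 8 0 0 (by decide)) (h.sgp w1_10 4 5 0 0 (by decide)) rfl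
  have f9 := eH e3
  linarith [f1, f2, f3, f4, f5, f6, f7, f8, f9, hl2a, hl2b]

theorem th_2 {D : ℕ → ℕ → ℝ} (h : Cfg D)
    (r1_2 : RR D 1 3)
    (r2_2 : RR D 2 4)
    (r4_2 : RR D 4 6)
    (r5_2 : RR D 5 7)
    (w1_10 : 0 < D 1 10) : False := by
  have f1 : lv D 47 < lv D 57 :=
    h.lF 4 2 0 4 5 7 r4_2 (by decide) (h.pos_of w1_10 4 7 0 0 (by decide))
  have e1 : Real.exp (lv D 5 + lv D 47) = Real.exp (lv D 4 + lv D 57) + Real.exp (lv D 7 + lv D 45) :=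
    h.PX 0 4 5 7 (h.sgn w1_10 0 5 0 0 (by decide)) (h.sgp w1_10 4 7 0 0 (by decide)) (h.sgn w1_10 0 4 0 0 (by decide)) (h.sgp w1_10 5 7 0 0 (by decide)) (h.sgn w1_10 0 7 0 0 (by decide)) (h.sgp w1_10 4 5 0 0 (by decide)) rfl
  have f2 := eH e1
  have f3 : lv D 5 < lv D 7 :=
    h.lF 5 2 0 5 7 10 r5_2 (by decide) (h.pos_of w1_10 5 10 0 0 (by decide))
  have f4 : lv D 15 < lv D 45 :=
    h.lF 2 2 0 1 4 5 r2_2 (by decide) (h.pos_of w1_10 1 5 0 0 (by decide))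
  have e2 : Real.exp (lv D 4 + lv D 15) = Real.exp (lv D 1 + lv D 45) + Real.exp (lv D 5 + lv D 14) :=
    h.PX 0 1 4 5 (h.sgn w1_10 0 4 0 0 (by decide)) (h.sgp w1_10 1 5 0 0 (by decide)) (h.sgn w1_10 0 1 0 0 (by decide)) (h.sgp w1_10 4 5 0 0 (by decide)) (h.sgn w1_10 0 5 0 0 (by decide)) (h.sgp w1_10 1 4 0 0 (by decide)) rfl
  have f5 := eN e2
  have f6 : lv D 47 < lv D 14 + 11317 / 10000 :=
    h.lC 1 2 0 1 4 7 r1_2 (by decide) (h.pos_of w1_10 1 7 0 0 (by decide))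
  linarith [f1, f2, f3, f4, f5, f6, hl2a, hl2b]

theorem th_3 {D : ℕ → ℕ → ℝ} (h : Cfg D)
    (l5_2 : LL D 5 7)
    (r6_2 : RR D 6 8)
    (w1_10 : 0 < D 1 10) : False := by
  have e1 : Real.exp (lv D 7 + lv D 28) = Real.exp (lv D 2 + lv D 78) + Real.exp (lv D 8 + lv D 27) :=
    h.PX 0 2 7 8 (h.sgn w1_10 0 7 0 0 (by decide)) (h.sgp w1_10 2 8 0 0 (by decide)) (h.sgn w1_10 0 2 0 0 (by decide)) (h.sgp w1_10 7 8 0 0 (by decide)) (h.sgn w1_10 0 8 0 0 (by decide)) (h.sgp w1_10 2 7 0 0 (by decide)) rfl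
  have f1 := eN e1
  have e2 : Real.exp (lv D 6 + lv D 27) = Real.exp (lv D 2 + lv D 67) + Real.exp (lv D 7 + lv D 26) :=
    h.PX 0 2 6 7 (h.sgn w1_10 0 6 0 0 (by decide)) (h.sgp w1_10 2 7 0 0 (by decide)) (h.sgn w1_10 0 2 0 0 (by decide)) (h.sgp w1_10 6 7 0 0 (by decide)) (h.sgn w1_10 0 7 0 0 (by decide)) (h.sgp w1_10 2 6 0 0 (by decide)) rfl
  have f2 := eN e2
  have f3 : lv D 6 < lv D 8 :=
    h.lF 6 2 0 6 8 10 r6_2 (by decide) (h.pos_of w1_10 6 10 0 0 (by decide))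
  have f4 : lv D 28 < lv D 26 :=
    h.lG 5 2 0 2 6 8 l5_2 (by decide) (h.pos_of w1_10 2 8 0 0 (by decide))
  linarith [f1, f2, f3, f4, hl2a, hl2b]

theorem th_4 {D : ℕ → ℕ → ℝ} (h : Cfg D)
    (l4_2 : LL D 4 6)
    (l5_2 : LL D 5 7)
    (l6_2 : LL D 6 8)
    (l7_2 : LL D 7 9)
    (r1_2 : RR D 1 3)
    (r2_2 : RR D 2 4)
    (r3_2 : RR D 3 5)
    (r4_2 : RR D 4 6)
    (w1_10 : 0 < D 1 10) : False := by
  have f1 : lv D 14 < lv D 34 :=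
    h.lF 1 2 0 1 3 4 r1_2 (by decide) (h.pos_of w1_10 1 4 0 0 (by decide))
  have f2 : lv D 57 < lv D 7 + 11317 / 10000 :=
    h.lK 7 2 0 5 7 10 l7_2 (by decide) (h.pos_of w1_10 5 10 0 0 (by decide))
  have f3 : lv D 47 < lv D 45 :=
    h.lG 4 2 0 4 5 7 l4_2 (by decide) (h.pos_of w1_10 4 7 0 0 (by decide))
  have f4 : lv D 7 < lv D 79 :=
    h.lG 7 2 0 7 9 10 l7_2 (by decide) (h.pos_of w1_10 7 10 0 0 (by decide))
  have e1 : Real.exp (lv D 46 + lv D 57) = Real.exp (lv D 45 + lv D 67) + Real.exp (lv D 47 + lv D 56) :=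
    h.PX 4 5 6 7 (h.sgp w1_10 4 6 0 0 (by decide)) (h.sgp w1_10 5 7 0 0 (by decide)) (h.sgp w1_10 4 5 0 0 (by decide)) (h.sgp w1_10 6 7 0 0 (by decide)) (h.sgp w1_10 4 7 0 0 (by decide)) (h.sgp w1_10 5 6 0 0 (by decide)) rfl
  have f5 := eH e1
  have e2 : Real.exp (lv D 25 + lv D 37) = Real.exp (lv D 23 + lv D 57) + Real.exp (lv D 27 + lv D 35) :=
    h.PX 2 3 5 7 (h.sgp w1_10 2 5 0 0 (by decide)) (h.sgp w1_10 3 7 0 0 (by decide)) (h.sgp w1_10 2 3 0 0 (by decide)) (h.sgp w1_10 5 7 0 0 (by decide)) (h.sgp w1_10 2 7 0 0 (by decide)) (h.sgp w1_10 3 5 0 0 (by decide)) rfl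
  have f6 := eN e2
  have f7 : lv D 47 < lv D 67 :=
    h.lF 4 2 0 4 6 7 r4_2 (by decide) (h.pos_of w1_10 4 7 0 0 (by decide))
  have e3 : Real.exp (lv D 36 + lv D 59) = Real.exp (lv D 35 + lv D 69) + Real.exp (lv D 39 + lv D 56) :=
    h.PX 3 5 6 9 (h.sgp w1_10 3 6 0 0 (by decide)) (h.sgp w1_10 5 9 0 0 (by decide)) (h.sgp w1_10 3 5 0 0 (by decide)) (h.sgp w1_10 6 9 0 0 (by decide)) (h.sgp w1_10 3 9 0 0 (by decide)) (h.sgp w1_10 5 6 0 0 (by decide)) rfl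
  have f8 := eM e3
  have e4 : Real.exp (lv D 35 + lv D 47) = Real.exp (lv D 34 + lv D 57) + Real.exp (lv D 37 + lv D 45) :=
    h.PX 3 4 5 7 (h.sgp w1_10 3 5 0 0 (by decide)) (h.sgp w1_10 4 7 0 0 (by decide)) (h.sgp w1_10 3 4 0 0 (by decide)) (h.sgp w1_10 5 7 0 0 (by decide)) (h.sgp w1_10 3 7 0 0 (by decide)) (h.sgp w1_10 4 5 0 0 (by decide)) rfl
  have f9 := eH e4
  have f10 : lv D 59 < lv D 56 :=
    h.lG 5 2 0 5 6 9 l5_2 (by decide) (h.pos_of w1_10 5 9 0 0 (by decide))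
  have e5 : Real.exp (lv D 17 + lv D 49) = Real.exp (lv D 14 + lv D 79) + Real.exp (lv D 19 + lv D 47) :=
    h.PX 1 4 7 9 (h.sgp w1_10 1 7 0 0 (by decide)) (h.sgp w1_10 4 9 0 0 (by decide)) (h.sgp w1_10 1 4 0 0 (by decide)) (h.sgp w1_10 7 9 0 0 (by decide)) (h.sgp w1_10 1 9 0 0 (by decide)) (h.sgp w1_10 4 7 0 0 (by decide)) rfl
  have f11 := eM e5
  have f12 : lv D 46 < lv D 14 + 11317 / 10000 :=
    h.lC 1 2 0 1 4 6 r1_2 (by decide) (h.pos_of w1_10 1 6 0 0 (by decide))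
  have e6 : Real.exp (lv D 47 + lv D 69) = Real.exp (lv D 46 + lv D 79) + Real.exp (lv D 49 + lv D 67) :=
    h.PX 4 6 7 9 (h.sgp w1_10 4 7 0 0 (by decide)) (h.sgp w1_10 6 9 0 0 (by decide)) (h.sgp w1_10 4 6 0 0 (by decide)) (h.sgp w1_10 7 9 0 0 (by decide)) (h.sgp w1_10 4 9 0 0 (by decide)) (h.sgp w1_10 6 7 0 0 (by decide)) rfl
  have f13 := eH e6
  have f14 : lv D 36 < lv D 56 :=
    h.lF 3 2 0 3 5 6 r3_2 (by decide) (h.pos_of w1_10 3 6 0 0 (by decide))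
  have e7 : Real.exp (lv D 15 + lv D 27) = Real.exp (lv D 12 + lv D 57) + Real.exp (lv D 17 + lv D 25) :=
    h.PX 1 2 5 7 (h.sgp w1_10 1 5 0 0 (by decide)) (h.sgp w1_10 2 7 0 0 (by decide)) (h.sgp w1_10 1 2 0 0 (by decide)) (h.sgp w1_10 5 7 0 0 (by decide)) (h.sgp w1_10 1 7 0 0 (by decide)) (h.sgp w1_10 2 5 0 0 (by decide)) rfl
  have f15 := eN e7
  have f16 : lv D 69 < lv D 67 :=
    h.lG 6 2 0 6 7 9 l6_2 (by decide) (h.pos_of w1_10 6 9 0 0 (by decide))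
  have e8 : Real.exp (lv D 15 + lv D 47) = Real.exp (lv D 14 + lv D 57) + Real.exp (lv D 17 + lv D 45) :=
    h.PX 1 4 5 7 (h.sgp w1_10 1 5 0 0 (by decide)) (h.sgp w1_10 4 7 0 0 (by decide)) (h.sgp w1_10 1 4 0 0 (by decide)) (h.sgp w1_10 5 7 0 0 (by decide)) (h.sgp w1_10 1 7 0 0 (by decide)) (h.sgp w1_10 4 5 0 0 (by decide)) rfl
  have f17 := eN e8
  have f18 : lv D 15 < lv D 45 :=
    h.lF 2 2 0 1 4 5 r2_2 (by decide) (h.pos_of w1_10 1 5 0 0 (by decide))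
  linarith [f1, f2, f3, f4, f5, f6, f7, f8, f9, f10, f11, f12, f13, f14, f15, f16, f17, f18, hl2a, hl2b]

theorem th_5 {D : ℕ → ℕ → ℝ} (h : Cfg D)
    (l3_2 : LL D 3 5)
    (r4_2 : RR D 4 6)
    (w1_10 : 0 < D 1 10) : False := by
  have e1 : Real.exp (lv D 4 + lv D 26) = Real.exp (lv D 2 + lv D 46) + Real.exp (lv D 6 + lv D 24) :=
    h.PX 0 2 4 6 (h.sgn w1_10 0 4 0 0 (by decide)) (h.sgp w1_10 2 6 0 0 (by decide)) (h.sgn w1_10 0 2 0 0 (by decide)) (h.sgp w1_10 4 6 0 0 (by decide)) (h.sgn w1_10 0 6 0 0 (by decide)) (h.sgp w1_10 2 4 0 0 (by decide)) rfl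
  have f1 := eN e1
  have f2 : lv D 26 < lv D 24 :=
    h.lG 3 2 0 2 4 6 l3_2 (by decide) (h.pos_of w1_10 2 6 0 0 (by decide))
  have f3 : lv D 4 < lv D 6 :=
    h.lF 4 2 0 4 6 10 r4_2 (by decide) (h.pos_of w1_10 4 10 0 0 (by decide))
  linarith [f1, f2, f3, hl2a, hl2b]

theorem th_6 {D : ℕ → ℕ → ℝ} (h : Cfg D)
    (h3_4 : D 4 7 + D 6 9 < 101 / 100 * D 6 7 + D 4 9)
    (l5_2 : LL D 5 7)
    (l6_2 : LL D 6 8)
    (l7_2 : LL D 7 9)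
    (r1_2 : RR D 1 3)
    (r2_2 : RR D 2 4)
    (r4_2 : RR D 4 6)
    (w1_10 : 0 < D 1 10) : False := by
  have e1 : Real.exp (lv D 57 + lv D 69) = Real.exp (lv D 56 + lv D 79) + Real.exp (lv D 59 + lv D 67) :=
    h.PX 5 6 7 9 (h.sgp w1_10 5 7 0 0 (by decide)) (h.sgp w1_10 6 9 0 0 (by decide)) (h.sgp w1_10 5 6 0 0 (by decide)) (h.sgp w1_10 7 9 0 0 (by decide)) (h.sgp w1_10 5 9 0 0 (by decide)) (h.sgp w1_10 6 7 0 0 (by decide)) rfl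
  have f1 := eN e1
  have f2 : lv D 67 < lv D 7 + 11317 / 10000 :=
    h.lK 7 2 0 6 7 10 l7_2 (by decide) (h.pos_of w1_10 6 10 0 0 (by decide))
  have e2 : Real.exp (lv D 15 + lv D 47) = Real.exp (lv D 14 + lv D 57) + Real.exp (lv D 17 + lv D 45) :=
    h.PX 1 4 5 7 (h.sgp w1_10 1 5 0 0 (by decide)) (h.sgp w1_10 4 7 0 0 (by decide)) (h.sgp w1_10 1 4 0 0 (by decide)) (h.sgp w1_10 5 7 0 0 (by decide)) (h.sgp w1_10 1 7 0 0 (by decide)) (h.sgp w1_10 4 5 0 0 (by decide)) rfl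
  have f3 := eH e2
  have f4 : lv D 5 < lv D 59 :=
    h.lG 6 2 0 5 9 10 l6_2 (by decide) (h.pos_of w1_10 5 10 0 0 (by decide))
  have e3 : Real.exp (lv D 5 + lv D 17) = Real.exp (lv D 1 + lv D 57) + Real.exp (lv D 7 + lv D 15) :=
    h.PX 0 1 5 7 (h.sgn w1_10 0 5 0 0 (by decide)) (h.sgp w1_10 1 7 0 0 (by decide)) (h.sgn w1_10 0 1 0 0 (by decide)) (h.sgp w1_10 5 7 0 0 (by decide)) (h.sgn w1_10 0 7 0 0 (by decide)) (h.sgp w1_10 1 5 0 0 (by decide)) rfl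
  have f5 := eN e3
  have f6 : lv D 46 + lv D 79 + lv D 47 + lv D 69 < 4 * lv D 67 - 269 / 100 :=
    h.lgz 4 h3_4 r4_2 (h.llsh 6 0 l6_2) (h.pos_of w1_10 4 7 0 0 (by decide)) (h.pos_of w1_10 6 9 0 0 (by decide))
  have e4 : Real.exp (lv D 6 + lv D 59) = Real.exp (lv D 5 + lv D 69) + Real.exp (lv D 9 + lv D 56) :=
    h.PX 0 5 6 9 (h.sgn w1_10 0 6 0 0 (by decide)) (h.sgp w1_10 5 9 0 0 (by decide)) (h.sgn w1_10 0 5 0 0 (by decide)) (h.sgp w1_10 6 9 0 0 (by decide)) (h.sgn w1_10 0 9 0 0 (by decide)) (h.sgp w1_10 5 6 0 0 (by decide)) rfl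
  have f7 := eM e4
  have f8 : lv D 25 < lv D 45 :=
    h.lF 2 2 0 2 4 5 r2_2 (by decide) (h.pos_of w1_10 2 5 0 0 (by decide))
  have f9 : lv D 47 < lv D 14 + 11317 / 10000 :=
    h.lC 1 2 0 1 4 7 r1_2 (by decide) (h.pos_of w1_10 1 7 0 0 (by decide))
  have e5 : Real.exp (lv D 5 + lv D 46) = Real.exp (lv D 4 + lv D 56) + Real.exp (lv D 6 + lv D 45) :=
    h.PX 0 4 5 6 (h.sgn w1_10 0 5 0 0 (by decide)) (h.sgp w1_10 4 6 0 0 (by decide)) (h.sgn w1_10 0 4 0 0 (by decide)) (h.sgp w1_10 5 6 0 0 (by decide)) (h.sgn w1_10 0 6 0 0 (by decide)) (h.sgp w1_10 4 5 0 0 (by decide)) rfl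
  have f10 := eH e5
  have f11 : lv D 15 < lv D 25 :=
    h.lF 2 2 0 1 2 5 r2_2 (by decide) (h.pos_of w1_10 1 5 0 0 (by decide))
  have f12 : lv D 7 < lv D 79 :=
    h.lG 7 2 0 7 9 10 l7_2 (by decide) (h.pos_of w1_10 7 10 0 0 (by decide))
  have f13 : lv D 59 < lv D 56 :=
    h.lG 5 2 0 5 6 9 l5_2 (by decide) (h.pos_of w1_10 5 9 0 0 (by decide))
  have e6 : Real.exp (lv D 4 + lv D 17) = Real.exp (lv D 1 + lv D 47) + Real.exp (lv D 7 + lv D 14) :=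
    h.PX 0 1 4 7 (h.sgn w1_10 0 4 0 0 (by decide)) (h.sgp w1_10 1 7 0 0 (by decide)) (h.sgn w1_10 0 1 0 0 (by decide)) (h.sgp w1_10 4 7 0 0 (by decide)) (h.sgn w1_10 0 7 0 0 (by decide)) (h.sgp w1_10 1 4 0 0 (by decide)) rfl
  have f14 := eN e6
  linarith [f1, f2, f3, f4, f5, f6, f7, f8, f9, f10, f11, f12, f13, f14, hl2a, hl2b]

theorem th_7 {D : ℕ → ℕ → ℝ} (h : Cfg D)
    (h4_4 : D 5 6 * D 7 8 < 101 / 100 * (D 4 5 * D 8 9))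
    (l5_2 : LL D 5 7)
    (l6_2 : LL D 6 8)
    (l7_2 : LL D 7 9)
    (r1_2 : RR D 1 3)
    (r2_2 : RR D 2 4)
    (r4_2 : RR D 4 6)
    (w1_10 : 0 < D 1 10) : False := by
  have f1 : lv D 46 < lv D 6 + 11317 / 10000 :=
    h.lK 6 2 0 4 6 10 l6_2 (by decide) (h.pos_of w1_10 4 10 0 0 (by decide))
  have f2 : lv D 45 < lv D 14 + 11317 / 10000 :=
    h.lC 1 2 0 1 4 5 r1_2 (by decide) (h.pos_of w1_10 1 5 0 0 (by decide))
  have f3 : lv D 7 < lv D 78 :=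
    h.lG 7 2 0 7 8 10 l7_2 (by decide) (h.pos_of w1_10 7 10 0 0 (by decide))
  have e1 : Real.exp (lv D 48 + lv D 79) = Real.exp (lv D 47 + lv D 89) + Real.exp (lv D 49 + lv D 78) :=
    h.PX 4 7 8 9 (h.sgp w1_10 4 8 0 0 (by decide)) (h.sgp w1_10 7 9 0 0 (by decide)) (h.sgp w1_10 4 7 0 0 (by decide)) (h.sgp w1_10 8 9 0 0 (by decide)) (h.sgp w1_10 4 9 0 0 (by decide)) (h.sgp w1_10 7 8 0 0 (by decide)) rfl
  have f4 := eM e1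
  have e2 : Real.exp (lv D 7 + lv D 69) = Real.exp (lv D 6 + lv D 79) + Real.exp (lv D 9 + lv D 67) :=
    h.PX 0 6 7 9 (h.sgn w1_10 0 7 0 0 (by decide)) (h.sgp w1_10 6 9 0 0 (by decide)) (h.sgn w1_10 0 6 0 0 (by decide)) (h.sgp w1_10 7 9 0 0 (by decide)) (h.sgn w1_10 0 9 0 0 (by decide)) (h.sgp w1_10 6 7 0 0 (by decide)) rfl
  have f5 := eM e2
  have f6 : lv D 67 < lv D 7 + 11317 / 10000 :=
    h.lK 7 2 0 6 7 10 l7_2 (by decide) (h.pos_of w1_10 6 10 0 0 (by decide))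
  have f7 : lv D 25 < lv D 45 :=
    h.lF 2 2 0 2 4 5 r2_2 (by decide) (h.pos_of w1_10 2 5 0 0 (by decide))
  have e3 : Real.exp (lv D 46 + lv D 58) = Real.exp (lv D 45 + lv D 68) + Real.exp (lv D 48 + lv D 56) :=
    h.PX 4 5 6 8 (h.sgp w1_10 4 6 0 0 (by decide)) (h.sgp w1_10 5 8 0 0 (by decide)) (h.sgp w1_10 4 5 0 0 (by decide)) (h.sgp w1_10 6 8 0 0 (by decide)) (h.sgp w1_10 4 8 0 0 (by decide)) (h.sgp w1_10 5 6 0 0 (by decide)) rfl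
  have f8 := eH e3
  have f9 : lv D 58 < lv D 56 :=
    h.lG 5 2 0 5 6 8 l5_2 (by decide) (h.pos_of w1_10 5 8 0 0 (by decide))
  have e4 : Real.exp (lv D 47 + lv D 68) = Real.exp (lv D 46 + lv D 78) + Real.exp (lv D 48 + lv D 67) :=
    h.PX 4 6 7 8 (h.sgp w1_10 4 7 0 0 (by decide)) (h.sgp w1_10 6 8 0 0 (by decide)) (h.sgp w1_10 4 6 0 0 (by decide)) (h.sgp w1_10 7 8 0 0 (by decide)) (h.sgp w1_10 4 8 0 0 (by decide)) (h.sgp w1_10 6 7 0 0 (by decide)) rfl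
  have f10 := eH e4
  have f11 : lv D 15 < lv D 25 :=
    h.lF 1 2 0 1 2 5 r1_2 (by decide) (h.pos_of w1_10 1 5 0 0 (by decide))
  have f12 : lv D 56 + lv D 78 < lv D 45 + lv D 89 + 1 / 100 :=
    h.lH4 4 h4_4 (h.pos_of w1_10 4 5 0 0 (by decide)) (h.pos_of w1_10 5 6 0 0 (by decide)) (h.pos_of w1_10 7 8 0 0 (by decide)) (h.pos_of w1_10 8 9 0 0 (by decide))
  have e5 : Real.exp (lv D 17 + lv D 58) = Real.exp (lv D 15 + lv D 78) + Real.exp (lv D 18 + lv D 57) :=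
    h.PX 1 5 7 8 (h.sgp w1_10 1 7 0 0 (by decide)) (h.sgp w1_10 5 8 0 0 (by decide)) (h.sgp w1_10 1 5 0 0 (by decide)) (h.sgp w1_10 7 8 0 0 (by decide)) (h.sgp w1_10 1 8 0 0 (by decide)) (h.sgp w1_10 5 7 0 0 (by decide)) rfl
  have f13 := eH e5
  have e6 : Real.exp (lv D 18 + lv D 79) = Real.exp (lv D 17 + lv D 89) + Real.exp (lv D 19 + lv D 78) :=
    h.PX 1 7 8 9 (h.sgp w1_10 1 8 0 0 (by decide)) (h.sgp w1_10 7 9 0 0 (by decide)) (h.sgp w1_10 1 7 0 0 (by decide)) (h.sgp w1_10 8 9 0 0 (by decide)) (h.sgp w1_10 1 9 0 0 (by decide)) (h.sgp w1_10 7 8 0 0 (by decide)) rfl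
  have f14 := eM e6
  have f15 : lv D 69 < lv D 67 :=
    h.lG 6 2 0 6 7 9 l6_2 (by decide) (h.pos_of w1_10 6 9 0 0 (by decide))
  have f16 : lv D 47 < lv D 57 :=
    h.lF 4 2 0 4 5 7 r4_2 (by decide) (h.pos_of w1_10 4 7 0 0 (by decide))
  have e7 : Real.exp (lv D 15 + lv D 48) = Real.exp (lv D 14 + lv D 58) + Real.exp (lv D 18 + lv D 45) :=
    h.PX 1 4 5 8 (h.sgp w1_10 1 5 0 0 (by decide)) (h.sgp w1_10 4 8 0 0 (by decide)) (h.sgp w1_10 1 4 0 0 (by decide)) (h.sgp w1_10 5 8 0 0 (by decide)) (h.sgp w1_10 1 8 0 0 (by decide)) (h.sgp w1_10 4 5 0 0 (by decide)) rfl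
  have f17 := eH e7
  linarith [f1, f2, f3, f4, f5, f6, f7, f8, f9, f10, f11, f12, f13, f14, f15, f16, f17, hl2a, hl2b]

theorem th_9 {D : ℕ → ℕ → ℝ} (h : Cfg D)
    (l1_2 : LL D 1 3)
    (r4_2 : RR D 4 6)
    (w1_10 : 0 < D 1 10) : False := by
  have f1 : lv D 27 < lv D 67 :=
    h.lF 4 2 0 2 6 7 r4_2 (by decide) (h.pos_of w1_10 2 7 0 0 (by decide))
  have e1 : Real.exp (lv D 16 + lv D 27) = Real.exp (lv D 12 + lv D 67) + Real.exp (lv D 17 + lv D 26) :=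
    h.PX 1 2 6 7 (h.sgp w1_10 1 6 0 0 (by decide)) (h.sgp w1_10 2 7 0 0 (by decide)) (h.sgp w1_10 1 2 0 0 (by decide)) (h.sgp w1_10 6 7 0 0 (by decide)) (h.sgp w1_10 1 7 0 0 (by decide)) (h.sgp w1_10 2 6 0 0 (by decide)) rfl
  have f2 := eM e1
  have f3 : lv D 16 < lv D 12 :=
    h.lG 1 2 0 1 2 6 l1_2 (by decide) (h.pos_of w1_10 1 6 0 0 (by decide))
  linarith [f1, f2, f3, hl2a, hl2b]

theorem th_10 {D : ℕ → ℕ → ℝ} (h : Cfg D)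
    (l2_2 : LL D 2 4)
    (r4_2 : RR D 4 6)
    (w1_10 : 0 < D 1 10) : False := by
  have f1 : lv D 49 < lv D 69 :=
    h.lF 4 2 0 4 6 9 r4_2 (by decide) (h.pos_of w1_10 4 9 0 0 (by decide))
  have e1 : Real.exp (lv D 16 + lv D 39) = Real.exp (lv D 13 + lv D 69) + Real.exp (lv D 19 + lv D 36) :=
    h.PX 1 3 6 9 (h.sgp w1_10 1 6 0 0 (by decide)) (h.sgp w1_10 3 9 0 0 (by decide)) (h.sgp w1_10 1 3 0 0 (by decide)) (h.sgp w1_10 6 9 0 0 (by decide)) (h.sgp w1_10 1 9 0 0 (by decide)) (h.sgp w1_10 3 6 0 0 (by decide)) rfl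
  have f2 := eM e1
  have f3 : lv D 16 < lv D 13 :=
    h.lG 2 2 0 1 3 6 l2_2 (by decide) (h.pos_of w1_10 1 6 0 0 (by decide))
  have f4 : lv D 39 < lv D 49 :=
    h.lF 4 2 0 3 4 9 r4_2 (by decide) (h.pos_of w1_10 3 9 0 0 (by decide))
  linarith [f1, f2, f3, f4, hl2a, hl2b]

theorem th_11 {D : ℕ → ℕ → ℝ} (h : Cfg D)
    (l4_2 : LL D 4 6)
    (r6_2 : RR D 6 8)
    (w1_10 : 0 < D 1 10) : False := by
  have f1 : lv D 69 < lv D 79 :=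
    h.lF 6 2 0 6 7 9 r6_2 (by decide) (h.pos_of w1_10 6 9 0 0 (by decide))
  have f2 : lv D 37 < lv D 36 :=
    h.lG 4 2 0 3 6 7 l4_2 (by decide) (h.pos_of w1_10 3 7 0 0 (by decide))
  have e1 : Real.exp (lv D 37 + lv D 69) = Real.exp (lv D 36 + lv D 79) + Real.exp (lv D 39 + lv D 67) :=
    h.PX 3 6 7 9 (h.sgp w1_10 3 7 0 0 (by decide)) (h.sgp w1_10 6 9 0 0 (by decide)) (h.sgp w1_10 3 6 0 0 (by decide)) (h.sgp w1_10 7 9 0 0 (by decide)) (h.sgp w1_10 3 9 0 0 (by decide)) (h.sgp w1_10 6 7 0 0 (by decide)) rfl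
  have f3 := eM e1
  linarith [f1, f2, f3, hl2a, hl2b]

theorem th_12 {D : ℕ → ℕ → ℝ} (h : Cfg D)
    (l4_2 : LL D 4 6)
    (r7_2 : RR D 7 9)
    (w1_10 : 0 < D 1 10) : False := by
  have f1 : lv D 49 < lv D 46 :=
    h.lG 4 2 0 4 6 9 l4_2 (by decide) (h.pos_of w1_10 4 9 0 0 (by decide))
  have f2 : lv D 6 < lv D 9 :=
    h.lF 7 2 0 6 9 10 r7_2 (by decide) (h.pos_of w1_10 6 10 0 0 (by decide))
  have e1 : Real.exp (lv D 16 + lv D 49) = Real.exp (lv D 14 + lv D 69) + Real.exp (lv D 19 + lv D 46) :=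
    h.PX 1 4 6 9 (h.sgp w1_10 1 6 0 0 (by decide)) (h.sgp w1_10 4 9 0 0 (by decide)) (h.sgp w1_10 1 4 0 0 (by decide)) (h.sgp w1_10 6 9 0 0 (by decide)) (h.sgp w1_10 1 9 0 0 (by decide)) (h.sgp w1_10 4 6 0 0 (by decide)) rfl
  have f3 := eN e1
  have e2 : Real.exp (lv D 6 + lv D 19) = Real.exp (lv D 1 + lv D 69) + Real.exp (lv D 9 + lv D 16) :=
    h.PX 0 1 6 9 (h.sgn w1_10 0 6 0 0 (by decide)) (h.sgp w1_10 1 9 0 0 (by decide)) (h.sgn w1_10 0 1 0 0 (by decide)) (h.sgp w1_10 6 9 0 0 (by decide)) (h.sgn w1_10 0 9 0 0 (by decide)) (h.sgp w1_10 1 6 0 0 (by decide)) rfl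
  have f4 := eN e2
  linarith [f1, f2, f3, f4, hl2a, hl2b]

theorem th_13 {D : ℕ → ℕ → ℝ} (h : Cfg D)
    (l2_2 : LL D 2 4)
    (r3_2 : RR D 3 5)
    (w1_10 : 0 < D 1 10) : False := by
  have e1 : Real.exp (lv D 25 + lv D 39) = Real.exp (lv D 23 + lv D 59) + Real.exp (lv D 29 + lv D 35) :=
    h.PX 2 3 5 9 (h.sgp w1_10 2 5 0 0 (by decide)) (h.sgp w1_10 3 9 0 0 (by decide)) (h.sgp w1_10 2 3 0 0 (by decide)) (h.sgp w1_10 5 9 0 0 (by decide)) (h.sgp w1_10 2 9 0 0 (by decide)) (h.sgp w1_10 3 5 0 0 (by decide)) rfl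
  have f1 := eM e1
  have f2 : lv D 39 < lv D 59 :=
    h.lF 3 2 0 3 5 9 r3_2 (by decide) (h.pos_of w1_10 3 9 0 0 (by decide))
  have f3 : lv D 25 < lv D 23 :=
    h.lG 2 2 0 2 3 5 l2_2 (by decide) (h.pos_of w1_10 2 5 0 0 (by decide))
  linarith [f1, f2, f3, hl2a, hl2b]

theorem th_14 {D : ℕ → ℕ → ℝ} (h : Cfg D)
    (h3_2 : D 2 5 + D 4 7 < 101 / 100 * D 4 5 + D 2 7)
    (l4_2 : LL D 4 6)
    (l6_2 : LL D 6 8)
    (l7_2 : LL D 7 9)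
    (r1_2 : RR D 1 3)
    (r2_2 : RR D 2 4)
    (r3_2 : RR D 3 5)
    (w1_10 : 0 < D 1 10) : False := by
  have f1 : lv D 47 < lv D 7 + 11317 / 10000 :=
    h.lK 7 2 0 4 7 10 l7_2 (by decide) (h.pos_of w1_10 4 10 0 0 (by decide))
  have e1 : Real.exp (lv D 26 + lv D 57) = Real.exp (lv D 25 + lv D 67) + Real.exp (lv D 27 + lv D 56) :=
    h.PX 2 5 6 7 (h.sgp w1_10 2 6 0 0 (by decide)) (h.sgp w1_10 5 7 0 0 (by decide)) (h.sgp w1_10 2 5 0 0 (by decide)) (h.sgp w1_10 6 7 0 0 (by decide)) (h.sgp w1_10 2 7 0 0 (by decide)) (h.sgp w1_10 5 6 0 0 (by decide)) rfl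
  have f2 := eM e1
  have f3 : lv D 14 < lv D 24 :=
    h.lF 1 2 0 1 2 4 r1_2 (by decide) (h.pos_of w1_10 1 4 0 0 (by decide))
  have f4 : lv D 69 < lv D 67 :=
    h.lG 6 2 0 6 7 9 l6_2 (by decide) (h.pos_of w1_10 6 9 0 0 (by decide))
  have e2 : Real.exp (lv D 14 + lv D 26) = Real.exp (lv D 12 + lv D 46) + Real.exp (lv D 16 + lv D 24) :=
    h.PX 1 2 4 6 (h.sgp w1_10 1 4 0 0 (by decide)) (h.sgp w1_10 2 6 0 0 (by decide)) (h.sgp w1_10 1 2 0 0 (by decide)) (h.sgp w1_10 4 6 0 0 (by decide)) (h.sgp w1_10 1 6 0 0 (by decide)) (h.sgp w1_10 2 4 0 0 (by decide)) rfl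
  have f5 := eN e2
  have f6 : lv D 24 + lv D 57 + lv D 25 + lv D 47 < 4 * lv D 45 - 269 / 100 :=
    h.lgz 2 h3_2 r2_2 (h.llsh 4 0 l4_2) (h.pos_of w1_10 2 5 0 0 (by decide)) (h.pos_of w1_10 4 7 0 0 (by decide))
  have e3 : Real.exp (lv D 6 + lv D 49) = Real.exp (lv D 4 + lv D 69) + Real.exp (lv D 9 + lv D 46) :=
    h.PX 0 4 6 9 (h.sgn w1_10 0 6 0 0 (by decide)) (h.sgp w1_10 4 9 0 0 (by decide)) (h.sgn w1_10 0 4 0 0 (by decide)) (h.sgp w1_10 6 9 0 0 (by decide)) (h.sgn w1_10 0 9 0 0 (by decide)) (h.sgp w1_10 4 6 0 0 (by decide)) rfl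
  have f7 := eM e3
  have f8 : lv D 45 < lv D 14 + 11317 / 10000 :=
    h.lC 1 2 0 1 4 5 r1_2 (by decide) (h.pos_of w1_10 1 5 0 0 (by decide))
  have e4 : Real.exp (lv D 25 + lv D 46) = Real.exp (lv D 24 + lv D 56) + Real.exp (lv D 26 + lv D 45) :=
    h.PX 2 4 5 6 (h.sgp w1_10 2 5 0 0 (by decide)) (h.sgp w1_10 4 6 0 0 (by decide)) (h.sgp w1_10 2 4 0 0 (by decide)) (h.sgp w1_10 5 6 0 0 (by decide)) (h.sgp w1_10 2 6 0 0 (by decide)) (h.sgp w1_10 4 5 0 0 (by decide)) rfl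
  have f9 := eN e4
  have f10 : lv D 45 < lv D 59 + 11317 / 10000 :=
    h.lK 6 2 0 4 5 9 l6_2 (by decide) (h.pos_of w1_10 4 9 0 0 (by decide))
  have f11 : lv D 16 < lv D 56 :=
    h.lF 3 2 0 1 5 6 r3_2 (by decide) (h.pos_of w1_10 1 6 0 0 (by decide))
  have e5 : Real.exp (lv D 57 + lv D 69) = Real.exp (lv D 56 + lv D 79) + Real.exp (lv D 59 + lv D 67) :=
    h.PX 5 6 7 9 (h.sgp w1_10 5 7 0 0 (by decide)) (h.sgp w1_10 6 9 0 0 (by decide)) (h.sgp w1_10 5 6 0 0 (by decide)) (h.sgp w1_10 7 9 0 0 (by decide)) (h.sgp w1_10 5 9 0 0 (by decide)) (h.sgp w1_10 6 7 0 0 (by decide)) rfl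
  have f12 := eH e5
  have f13 : lv D 7 < lv D 79 :=
    h.lG 7 2 0 7 9 10 l7_2 (by decide) (h.pos_of w1_10 7 10 0 0 (by decide))
  have e6 : Real.exp (lv D 4 + lv D 16) = Real.exp (lv D 1 + lv D 46) + Real.exp (lv D 6 + lv D 14) :=
    h.PX 0 1 4 6 (h.sgn w1_10 0 4 0 0 (by decide)) (h.sgp w1_10 1 6 0 0 (by decide)) (h.sgn w1_10 0 1 0 0 (by decide)) (h.sgp w1_10 4 6 0 0 (by decide)) (h.sgn w1_10 0 6 0 0 (by decide)) (h.sgp w1_10 1 4 0 0 (by decide)) rfl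
  have f14 := eN e6
  have e7 : Real.exp (lv D 47 + lv D 69) = Real.exp (lv D 46 + lv D 79) + Real.exp (lv D 49 + lv D 67) :=
    h.PX 4 6 7 9 (h.sgp w1_10 4 7 0 0 (by decide)) (h.sgp w1_10 6 9 0 0 (by decide)) (h.sgp w1_10 4 6 0 0 (by decide)) (h.sgp w1_10 7 9 0 0 (by decide)) (h.sgp w1_10 4 9 0 0 (by decide)) (h.sgp w1_10 6 7 0 0 (by decide)) rfl
  have f15 := eH e7
  linarith [f1, f2, f3, f4, f5, f6, f7, f8, f9, f10, f11, f12, f13, f14, f15, hl2a, hl2b]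

theorem th_15 {D : ℕ → ℕ → ℝ} (h : Cfg D)
    (h4_2 : D 3 4 * D 5 6 < 101 / 100 * (D 2 3 * D 6 7))
    (l4_2 : LL D 4 6)
    (l6_2 : LL D 6 8)
    (l7_2 : LL D 7 9)
    (r1_2 : RR D 1 3)
    (r2_2 : RR D 2 4)
    (r3_2 : RR D 3 5)
    (w1_10 : 0 < D 1 10) : False := by
  have f1 : lv D 57 < lv D 7 + 11317 / 10000 :=
    h.lK 7 2 0 5 7 10 l7_2 (by decide) (h.pos_of w1_10 5 10 0 0 (by decide))
  have f2 : lv D 16 < lv D 26 :=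
    h.lF 1 2 0 1 2 6 r1_2 (by decide) (h.pos_of w1_10 1 6 0 0 (by decide))
  have f3 : lv D 17 < lv D 27 :=
    h.lF 2 2 0 1 2 7 r2_2 (by decide) (h.pos_of w1_10 1 7 0 0 (by decide))
  have f4 : lv D 6 < lv D 67 :=
    h.lG 6 2 0 6 7 10 l6_2 (by decide) (h.pos_of w1_10 6 10 0 0 (by decide))
  have f5 : lv D 47 < lv D 45 :=
    h.lG 4 2 0 4 5 7 l4_2 (by decide) (h.pos_of w1_10 4 7 0 0 (by decide))
  have f6 : lv D 45 < lv D 14 + 11317 / 10000 :=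
    h.lC 1 2 0 1 4 5 r1_2 (by decide) (h.pos_of w1_10 1 5 0 0 (by decide))
  have e1 : Real.exp (lv D 4 + lv D 15) = Real.exp (lv D 1 + lv D 45) + Real.exp (lv D 5 + lv D 14) :=
    h.PX 0 1 4 5 (h.sgn w1_10 0 4 0 0 (by decide)) (h.sgp w1_10 1 5 0 0 (by decide)) (h.sgn w1_10 0 1 0 0 (by decide)) (h.sgp w1_10 4 5 0 0 (by decide)) (h.sgn w1_10 0 5 0 0 (by decide)) (h.sgp w1_10 1 4 0 0 (by decide)) rfl
  have f7 := eN e1
  have e2 : Real.exp (lv D 14 + lv D 25) = Real.exp (lv D 12 + lv D 45) + Real.exp (lv D 15 + lv D 24) :=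
    h.PX 1 2 4 5 (h.sgp w1_10 1 4 0 0 (by decide)) (h.sgp w1_10 2 5 0 0 (by decide)) (h.sgp w1_10 1 2 0 0 (by decide)) (h.sgp w1_10 4 5 0 0 (by decide)) (h.sgp w1_10 1 5 0 0 (by decide)) (h.sgp w1_10 2 4 0 0 (by decide)) rfl
  have f8 := eN e2
  have e3 : Real.exp (lv D 4 + lv D 17) = Real.exp (lv D 1 + lv D 47) + Real.exp (lv D 7 + lv D 14) :=
    h.PX 0 1 4 7 (h.sgn w1_10 0 4 0 0 (by decide)) (h.sgp w1_10 1 7 0 0 (by decide)) (h.sgn w1_10 0 1 0 0 (by decide)) (h.sgp w1_10 4 7 0 0 (by decide)) (h.sgn w1_10 0 7 0 0 (by decide)) (h.sgp w1_10 1 4 0 0 (by decide)) rfl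
  have f9 := eN e3
  have f10 : lv D 26 < lv D 56 :=
    h.lF 3 2 0 2 5 6 r3_2 (by decide) (h.pos_of w1_10 2 6 0 0 (by decide))
  have f11 : lv D 34 + lv D 56 < lv D 23 + lv D 67 + 1 / 100 :=
    h.lH4 2 h4_2 (h.pos_of w1_10 2 3 0 0 (by decide)) (h.pos_of w1_10 3 4 0 0 (by decide)) (h.pos_of w1_10 5 6 0 0 (by decide)) (h.pos_of w1_10 6 7 0 0 (by decide))
  have e4 : Real.exp (lv D 46 + lv D 57) = Real.exp (lv D 45 + lv D 67) + Real.exp (lv D 47 + lv D 56) :=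
    h.PX 4 5 6 7 (h.sgp w1_10 4 6 0 0 (by decide)) (h.sgp w1_10 5 7 0 0 (by decide)) (h.sgp w1_10 4 5 0 0 (by decide)) (h.sgp w1_10 6 7 0 0 (by decide)) (h.sgp w1_10 4 7 0 0 (by decide)) (h.sgp w1_10 5 6 0 0 (by decide)) rfl
  have f12 := eH e4
  have e5 : Real.exp (lv D 16 + lv D 59) = Real.exp (lv D 15 + lv D 69) + Real.exp (lv D 19 + lv D 56) :=
    h.PX 1 5 6 9 (h.sgp w1_10 1 6 0 0 (by decide)) (h.sgp w1_10 5 9 0 0 (by decide)) (h.sgp w1_10 1 5 0 0 (by decide)) (h.sgp w1_10 6 9 0 0 (by decide)) (h.sgp w1_10 1 9 0 0 (by decide)) (h.sgp w1_10 5 6 0 0 (by decide)) rfl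
  have f13 := eM e5
  have e6 : Real.exp (lv D 57 + lv D 69) = Real.exp (lv D 56 + lv D 79) + Real.exp (lv D 59 + lv D 67) :=
    h.PX 5 6 7 9 (h.sgp w1_10 5 7 0 0 (by decide)) (h.sgp w1_10 6 9 0 0 (by decide)) (h.sgp w1_10 5 6 0 0 (by decide)) (h.sgp w1_10 7 9 0 0 (by decide)) (h.sgp w1_10 5 9 0 0 (by decide)) (h.sgp w1_10 6 7 0 0 (by decide)) rfl
  have f14 := eN e6
  have e7 : Real.exp (lv D 25 + lv D 47) = Real.exp (lv D 24 + lv D 57) + Real.exp (lv D 27 + lv D 45) :=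
    h.PX 2 4 5 7 (h.sgp w1_10 2 5 0 0 (by decide)) (h.sgp w1_10 4 7 0 0 (by decide)) (h.sgp w1_10 2 4 0 0 (by decide)) (h.sgp w1_10 5 7 0 0 (by decide)) (h.sgp w1_10 2 7 0 0 (by decide)) (h.sgp w1_10 4 5 0 0 (by decide)) rfl
  have f15 := eH e7
  have f16 : lv D 47 < lv D 7 + 11317 / 10000 :=
    h.lK 7 2 0 4 7 10 l7_2 (by decide) (h.pos_of w1_10 4 10 0 0 (by decide))
  have e8 : Real.exp (lv D 5 + lv D 26) = Real.exp (lv D 2 + lv D 56) + Real.exp (lv D 6 + lv D 25) :=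
    h.PX 0 2 5 6 (h.sgn w1_10 0 5 0 0 (by decide)) (h.sgp w1_10 2 6 0 0 (by decide)) (h.sgn w1_10 0 2 0 0 (by decide)) (h.sgp w1_10 5 6 0 0 (by decide)) (h.sgn w1_10 0 6 0 0 (by decide)) (h.sgp w1_10 2 5 0 0 (by decide)) rfl
  have f17 := eN e8
  have e9 : Real.exp (lv D 6 + lv D 47) = Real.exp (lv D 4 + lv D 67) + Real.exp (lv D 7 + lv D 46) :=
    h.PX 0 4 6 7 (h.sgn w1_10 0 6 0 0 (by decide)) (h.sgp w1_10 4 7 0 0 (by decide)) (h.sgn w1_10 0 4 0 0 (by decide)) (h.sgp w1_10 6 7 0 0 (by decide)) (h.sgn w1_10 0 7 0 0 (by decide)) (h.sgp w1_10 4 6 0 0 (by decide)) rfl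
  have f18 := eH e9
  have f19 : lv D 14 < lv D 34 :=
    h.lF 1 2 0 1 3 4 r1_2 (by decide) (h.pos_of w1_10 1 4 0 0 (by decide))
  have e10 : Real.exp (lv D 24 + lv D 36) = Real.exp (lv D 23 + lv D 46) + Real.exp (lv D 26 + lv D 34) :=
    h.PX 2 3 4 6 (h.sgp w1_10 2 4 0 0 (by decide)) (h.sgp w1_10 3 6 0 0 (by decide)) (h.sgp w1_10 2 3 0 0 (by decide)) (h.sgp w1_10 4 6 0 0 (by decide)) (h.sgp w1_10 2 6 0 0 (by decide)) (h.sgp w1_10 3 4 0 0 (by decide)) rfl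
  have f20 := eH e10
  have f21 : lv D 36 < lv D 46 :=
    h.lF 3 2 0 3 4 6 r3_2 (by decide) (h.pos_of w1_10 3 6 0 0 (by decide))
  linarith [f1, f2, f3, f4, f5, f6, f7, f8, f9, f10, f11, f12, f13, f14, f15, f16, f17, f18, f19, f20, f21, hl2a, hl2b]

theorem th_16 {D : ℕ → ℕ → ℝ} (h : Cfg D)
    (l2_2 : LL D 2 4)
    (r3_2 : RR D 3 5)
    (w1_10 : 0 < D 1 10) : False := by
  have f1 : lv D 25 < lv D 23 :=
    h.lG 2 2 0 2 3 5 l2_2 (by decide) (h.pos_of w1_10 2 5 0 0 (by decide))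
  have e1 : Real.exp (lv D 25 + lv D 38) = Real.exp (lv D 23 + lv D 58) + Real.exp (lv D 28 + lv D 35) :=
    h.PX 2 3 5 8 (h.sgp w1_10 2 5 0 0 (by decide)) (h.sgp w1_10 3 8 0 0 (by decide)) (h.sgp w1_10 2 3 0 0 (by decide)) (h.sgp w1_10 5 8 0 0 (by decide)) (h.sgp w1_10 2 8 0 0 (by decide)) (h.sgp w1_10 3 5 0 0 (by decide)) rfl
  have f2 := eM e1
  have f3 : lv D 38 < lv D 58 :=
    h.lF 3 2 0 3 5 8 r3_2 (by decide) (h.pos_of w1_10 3 8 0 0 (by decide))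
  linarith [f1, f2, f3, hl2a, hl2b]

theorem th_17 {D : ℕ → ℕ → ℝ} (h : Cfg D)
    (l1_2 : LL D 1 3)
    (r3_2 : RR D 3 5)
    (w1_10 : 0 < D 1 10) : False := by
  have f1 : lv D 29 < lv D 59 :=
    h.lF 3 2 0 2 5 9 r3_2 (by decide) (h.pos_of w1_10 2 9 0 0 (by decide))
  have e1 : Real.exp (lv D 3 + lv D 29) = Real.exp (lv D 2 + lv D 39) + Real.exp (lv D 9 + lv D 23) :=
    h.PX 0 2 3 9 (h.sgn w1_10 0 3 0 0 (by decide)) (h.sgp w1_10 2 9 0 0 (by decide)) (h.sgn w1_10 0 2 0 0 (by decide)) (h.sgp w1_10 3 9 0 0 (by decide)) (h.sgn w1_10 0 9 0 0 (by decide)) (h.sgp w1_10 2 3 0 0 (by decide)) rfl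
  have f2 := eM e1
  have e2 : Real.exp (lv D 2 + lv D 15) = Real.exp (lv D 1 + lv D 25) + Real.exp (lv D 5 + lv D 12) :=
    h.PX 0 1 2 5 (h.sgn w1_10 0 2 0 0 (by decide)) (h.sgp w1_10 1 5 0 0 (by decide)) (h.sgn w1_10 0 1 0 0 (by decide)) (h.sgp w1_10 2 5 0 0 (by decide)) (h.sgn w1_10 0 5 0 0 (by decide)) (h.sgp w1_10 1 2 0 0 (by decide)) rfl
  have f3 := eN e2
  have f4 : lv D 15 < lv D 12 :=
    h.lG 1 2 0 1 2 5 l1_2 (by decide) (h.pos_of w1_10 1 5 0 0 (by decide))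
  have e3 : Real.exp (lv D 5 + lv D 39) = Real.exp (lv D 3 + lv D 59) + Real.exp (lv D 9 + lv D 35) :=
    h.PX 0 3 5 9 (h.sgn w1_10 0 5 0 0 (by decide)) (h.sgp w1_10 3 9 0 0 (by decide)) (h.sgn w1_10 0 3 0 0 (by decide)) (h.sgp w1_10 5 9 0 0 (by decide)) (h.sgn w1_10 0 9 0 0 (by decide)) (h.sgp w1_10 3 5 0 0 (by decide)) rfl
  have f5 := eM e3
  linarith [f1, f2, f3, f4, f5, hl2a, hl2b]

theorem th_18 {D : ℕ → ℕ → ℝ} (h : Cfg D)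
    (l3_2 : LL D 3 5)
    (l4_2 : LL D 4 6)
    (l6_2 : LL D 6 8)
    (l7_2 : LL D 7 9)
    (w1_10 : 0 < D 1 10) : False := by
  have e1 : Real.exp (lv D 4 + lv D 16) = Real.exp (lv D 1 + lv D 46) + Real.exp (lv D 6 + lv D 14) :=
    h.PX 0 1 4 6 (h.sgn w1_10 0 4 0 0 (by decide)) (h.sgp w1_10 1 6 0 0 (by decide)) (h.sgn w1_10 0 1 0 0 (by decide)) (h.sgp w1_10 4 6 0 0 (by decide)) (h.sgn w1_10 0 6 0 0 (by decide)) (h.sgp w1_10 1 4 0 0 (by decide)) rfl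
  have f1 := eN e1
  have e2 : Real.exp (lv D 14 + lv D 36) = Real.exp (lv D 13 + lv D 46) + Real.exp (lv D 16 + lv D 34) :=
    h.PX 1 3 4 6 (h.sgp w1_10 1 4 0 0 (by decide)) (h.sgp w1_10 3 6 0 0 (by decide)) (h.sgp w1_10 1 3 0 0 (by decide)) (h.sgp w1_10 4 6 0 0 (by decide)) (h.sgp w1_10 1 6 0 0 (by decide)) (h.sgp w1_10 3 4 0 0 (by decide)) rfl
  have f2 := eN e2
  have f3 : lv D 6 < lv D 67 :=
    h.lG 6 2 0 6 7 10 l6_2 (by decide) (h.pos_of w1_10 6 10 0 0 (by decide))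
  have f4 : lv D 36 < lv D 34 :=
    h.lG 3 2 0 3 4 6 l3_2 (by decide) (h.pos_of w1_10 3 6 0 0 (by decide))
  have e3 : Real.exp (lv D 6 + lv D 47) = Real.exp (lv D 4 + lv D 67) + Real.exp (lv D 7 + lv D 46) :=
    h.PX 0 4 6 7 (h.sgn w1_10 0 6 0 0 (by decide)) (h.sgp w1_10 4 7 0 0 (by decide)) (h.sgn w1_10 0 4 0 0 (by decide)) (h.sgp w1_10 6 7 0 0 (by decide)) (h.sgn w1_10 0 7 0 0 (by decide)) (h.sgp w1_10 4 6 0 0 (by decide)) rfl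
  have f5 := eH e3
  have f6 : lv D 47 < lv D 46 :=
    h.lG 4 2 0 4 6 7 l4_2 (by decide) (h.pos_of w1_10 4 7 0 0 (by decide))
  have f7 : lv D 47 < lv D 7 + 11317 / 10000 :=
    h.lK 7 2 0 4 7 10 l7_2 (by decide) (h.pos_of w1_10 4 10 0 0 (by decide))
  linarith [f1, f2, f3, f4, f5, f6, f7, hl2a, hl2b]

end Pool.Agent.H768.PL
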