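import Pool.Agent.H768.PL.TH1

set_option autoImplicit false
set_option linter.all false

namespace Pool.Agent.H768.PL

theorem th_8 {D : ℕ → ℕ → ℝ} (h : Cfg D)
    (l7_2 : LL D 7 9)
    (r1_2 : RR D 1 3)
    (r2_2 : RR D 2 4)
    (r4_2 : RR D 4 6)
    (w1_10 : 0 < D 1 10) : False :=
 (Classical.em (RR D 5 7)).elim (fun r5_2 => th_2 h r1_2 r2_2 r4_2 r5_2 w1_10)
 (fun nr5 => (fun (l5_2 : LL D 5 7) => (Classical.em (RR D 6 8)).elim (fun r6_2 => th_3 h l5_2 r6_2 w1_10)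
 (fun nr6 => (fun (l6_2 : LL D 6 8) => (h.ch 4 (h.pos_of w1_10 4 7 0 0 (by decide)) (h.pos_of w1_10 6 9 0 0 (by decide))).elim (fun q_ => (fun (l4_2 : LL D 4 6) => (Classical.em (RR D 3 5)).elim (fun r3_2 => th_4 h l4_2 l5_2 l6_2 l7_2 r1_2 r2_2 r3_2 r4_2 w1_10)
 (fun nr3 => (fun (l3_2 : LL D 3 5) => th_5 h l3_2 r4_2 w1_10) (h.labL 3 nr3))) (fun _ => q_))
 (fun o1 => o1.elim (fun q_ => nr6 (h.rrsh 6 0 (fun _ => q_)))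
 (fun o2 => o2.elim (fun h3_4 => th_6 h h3_4 l5_2 l6_2 l7_2 r1_2 r2_2 r4_2 w1_10)
 (fun h4_4 => th_7 h h4_4 l5_2 l6_2 l7_2 r1_2 r2_2 r4_2 w1_10)))) (h.labL 6 nr6))) (h.labL 5 nr5))

theorem th_19 {D : ℕ → ℕ → ℝ} (h : Cfg D)
    (l4_2 : LL D 4 6)
    (l6_2 : LL D 6 8)
    (l7_2 : LL D 7 9)
    (nr4 : ¬ RR D 4 6)
    (w1_10 : 0 < D 1 10) : False :=
 (Classical.em (RR D 3 5)).elim (fun r3_2 => (Classical.em (RR D 1 3)).elim (fun r1_2 => (Classical.em (RR D 2 4)).elim (fun r2_2 => (h.ch 2 (h.pos_of w1_10 2 5 0 0 (by decide)) (h.pos_of w1_10 4 7 0 0 (by decide))).elim (fun q_ => (fun (l2_2 : LL D 2 4) => th_13 h l2_2 r3_2 w1_10) (fun _ => q_))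
 (fun o1 => o1.elim (fun q_ => nr4 (h.rrsh 4 0 (fun _ => q_)))
 (fun o2 => o2.elim (fun h3_2 => th_14 h h3_2 l4_2 l6_2 l7_2 r1_2 r2_2 r3_2 w1_10)
 (fun h4_2 => th_15 h h4_2 l4_2 l6_2 l7_2 r1_2 r2_2 r3_2 w1_10))))
 (fun nr2 => (fun (l2_2 : LL D 2 4) => th_16 h l2_2 r3_2 w1_10) (h.labL 2 nr2)))
 (fun nr1 => (fun (l1_2 : LL D 1 3) => th_17 h l1_2 r3_2 w1_10) (h.labL 1 nr1)))
 (fun nr3 => (fun (l3_2 : LL D 3 5) => th_18 h l3_2 l4_2 l6_2 l7_2 w1_10) (h.labL 3 nr3))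

theorem th_20 {D : ℕ → ℕ → ℝ} (h : Cfg D)
    (w1_10 : 0 < D 1 10) : False :=
 (Classical.em (RR D 4 6)).elim (fun r4_2 => (Classical.em (RR D 2 4)).elim (fun r2_2 => (Classical.em (RR D 1 3)).elim (fun r1_2 => (Classical.em (RR D 7 9)).elim (fun r7_2 => th_1 h r1_2 r2_2 r4_2 r7_2 w1_10)
 (fun nr7 => (fun (l7_2 : LL D 7 9) => th_8 h l7_2 r1_2 r2_2 r4_2 w1_10) (h.labL 7 nr7)))
 (fun nr1 => (fun (l1_2 : LL D 1 3) => th_9 h l1_2 r4_2 w1_10) (h.labL 1 nr1)))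
 (fun nr2 => (fun (l2_2 : LL D 2 4) => th_10 h l2_2 r4_2 w1_10) (h.labL 2 nr2)))
 (fun nr4 => (fun (l4_2 : LL D 4 6) => (Classical.em (RR D 6 8)).elim (fun r6_2 => th_11 h l4_2 r6_2 w1_10)
 (fun nr6 => (fun (l6_2 : LL D 6 8) => (Classical.em (RR D 7 9)).elim (fun r7_2 => th_12 h l4_2 r7_2 w1_10)
 (fun nr7 => (fun (l7_2 : LL D 7 9) => th_19 h l4_2 l6_2 l7_2 nr4 w1_10) (h.labL 7 nr7))) (h.labL 6 nr6))) (h.labL 4 nr4))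

theorem th_main {D : ℕ → ℕ → ℝ} (h : Cfg D)
    (w1_10 : 0 < D 1 10) : False :=
 th_20 h w1_10

end Pool.Agent.H768.PL
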