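import Pool.Agent.H768.PL.Lem3

set_option autoImplicit false
set_option linter.all false

namespace Pool.Agent.H768.PL

open Real

theorem tl_1 {D : ℕ → ℕ → ℝ} (h : Cfg D)
    (hLL : ∀ i, LL D i (i + 2))
    (hb : ∀ i, 0 < D i (i + 1))
    (w0_8 : 0 < D 0 8) : False := by
  have e1 : Real.exp (lv D 14 + lv D 25) = Real.exp (lv D 12 + lv D 45) + Real.exp (lv D 15 + lv D 24) :=
    h.PX 1 2 4 5 (h.sgp w0_8 1 4 0 0 (by decide)) (h.sgp w0_8 2 5 0 0 (by decide)) (h.sgb hb 1) (h.sgb hb 4) (h.sgp w0_8 1 5 0 0 (by decide)) (h.sgp w0_8 2 4 0 0 (by decide)) rfl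
  have f1 := eH e1
  have f2 : lv D 14 < lv D 12 :=
    h.lG 1 2 0 1 2 4 (hLL 1) (by decide) (h.pos_of w0_8 1 4 0 0 (by decide))
  have e2 : Real.exp (lv D 15 + lv D 48) = Real.exp (lv D 14 + lv D 58) + Real.exp (lv D 18 + lv D 45) :=
    h.PX 1 4 5 8 (h.sgp w0_8 1 5 0 0 (by decide)) (h.sgp w0_8 4 8 0 0 (by decide)) (h.sgp w0_8 1 4 0 0 (by decide)) (h.sgp w0_8 5 8 0 0 (by decide)) (h.sgp w0_8 1 8 0 0 (by decide)) (h.sgb hb 4) rfl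
  have f3 := eM e2
  have f4 : lv D 25 < lv D 24 :=
    h.lG 2 2 0 2 4 5 (hLL 2) (by decide) (h.pos_of w0_8 2 5 0 0 (by decide))
  have f5 : lv D 25 < lv D 58 + 11317 / 10000 :=
    h.lK 5 2 0 2 5 8 (hLL 5) (by decide) (h.pos_of w0_8 2 8 0 0 (by decide))
  have f6 : lv D 48 < lv D 45 :=
    h.lG 4 2 0 4 5 8 (hLL 4) (by decide) (h.pos_of w0_8 4 8 0 0 (by decide))
  linarith [f1, f2, f3, f4, f5, f6, hl2a, hl2b]

theorem tl_2 {D : ℕ → ℕ → ℝ} (h : Cfg D)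
    (hLL : ∀ i, LL D i (i + 2))
    (hb : ∀ i, 0 < D i (i + 1))
    (w2_9 : 0 < D 2 9) : False := by
  have e1 : Real.exp (lv D 36 + lv D 58) = Real.exp (lv D 35 + lv D 68) + Real.exp (lv D 38 + lv D 56) :=
    h.PX 3 5 6 8 (h.sgp w2_9 3 6 0 0 (by decide)) (h.sgp w2_9 5 8 0 0 (by decide)) (h.sgp w2_9 3 5 0 0 (by decide)) (h.sgp w2_9 6 8 0 0 (by decide)) (h.sgp w2_9 3 8 0 0 (by decide)) (h.sgb hb 5) rfl
  have f1 := eH e1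
  have f2 : lv D 36 < lv D 35 :=
    h.lG 3 2 0 3 5 6 (hLL 3) (by decide) (h.pos_of w2_9 3 6 0 0 (by decide))
  have f3 : lv D 69 < lv D 68 :=
    h.lG 6 2 0 6 8 9 (hLL 6) (by decide) (h.pos_of w2_9 6 9 0 0 (by decide))
  have e2 : Real.exp (lv D 25 + lv D 38) = Real.exp (lv D 23 + lv D 58) + Real.exp (lv D 28 + lv D 35) :=
    h.PX 2 3 5 8 (h.sgp w2_9 2 5 0 0 (by decide)) (h.sgp w2_9 3 8 0 0 (by decide)) (h.sgb hb 2) (h.sgp w2_9 5 8 0 0 (by decide)) (h.sgp w2_9 2 8 0 0 (by decide)) (h.sgp w2_9 3 5 0 0 (by decide)) rfl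
  have f4 := eM e2
  have f5 : lv D 36 < lv D 69 + 11317 / 10000 :=
    h.lK 6 2 0 3 6 9 (hLL 6) (by decide) (h.pos_of w2_9 3 9 0 0 (by decide))
  have f6 : lv D 25 < lv D 23 :=
    h.lG 2 2 0 2 3 5 (hLL 2) (by decide) (h.pos_of w2_9 2 5 0 0 (by decide))
  have f7 : lv D 58 < lv D 56 :=
    h.lG 5 2 0 5 6 8 (hLL 5) (by decide) (h.pos_of w2_9 5 8 0 0 (by decide))
  linarith [f1, f2, f3, f4, f5, f6, f7, hl2a, hl2b]

theorem tl_3 {D : ℕ → ℕ → ℝ} (h : Cfg D)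
    (hLL : ∀ i, LL D i (i + 2))
    (hb : ∀ i, 0 < D i (i + 1))
    (w1_8 : 0 < D 1 8) : False := by
  have f1 : lv D 25 < lv D 58 + 11317 / 10000 :=
    h.lK 5 2 0 2 5 8 (hLL 5) (by decide) (h.pos_of w1_8 2 8 0 0 (by decide))
  have f2 : lv D 25 < lv D 24 :=
    h.lG 2 2 0 2 4 5 (hLL 2) (by decide) (h.pos_of w1_8 2 5 0 0 (by decide))
  have e1 : Real.exp (lv D 14 + lv D 28) = Real.exp (lv D 12 + lv D 48) + Real.exp (lv D 18 + lv D 24) :=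
    h.PX 1 2 4 8 (h.sgp w1_8 1 4 0 0 (by decide)) (h.sgp w1_8 2 8 0 0 (by decide)) (h.sgb hb 1) (h.sgp w1_8 4 8 0 0 (by decide)) (h.sgp w1_8 1 8 0 0 (by decide)) (h.sgp w1_8 2 4 0 0 (by decide)) rfl
  have f3 := eM e1
  have f4 : lv D 14 < lv D 12 :=
    h.lG 1 2 0 1 2 4 (hLL 1) (by decide) (h.pos_of w1_8 1 4 0 0 (by decide))
  have e2 : Real.exp (lv D 25 + lv D 48) = Real.exp (lv D 24 + lv D 58) + Real.exp (lv D 28 + lv D 45) :=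
    h.PX 2 4 5 8 (h.sgp w1_8 2 5 0 0 (by decide)) (h.sgp w1_8 4 8 0 0 (by decide)) (h.sgp w1_8 2 4 0 0 (by decide)) (h.sgp w1_8 5 8 0 0 (by decide)) (h.sgp w1_8 2 8 0 0 (by decide)) (h.sgb hb 4) rfl
  have f5 := eH e2
  have f6 : lv D 48 < lv D 45 :=
    h.lG 4 2 0 4 5 8 (hLL 4) (by decide) (h.pos_of w1_8 4 8 0 0 (by decide))
  linarith [f1, f2, f3, f4, f5, f6, hl2a, hl2b]

theorem tl_4 {D : ℕ → ℕ → ℝ} (h : Cfg D)
    (hLL : ∀ i, LL D i (i + 2))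
    (hb : ∀ i, 0 < D i (i + 1))
    (w9_17 : 0 < D 9 17) : False := by
  have e1 : Real.exp (lv D 16 + lv D 29) = Real.exp (lv D 12 + lv D 69) + Real.exp (lv D 19 + lv D 26) :=
    h.PX 1 2 6 9 (h.sgp w9_17 1 6 0 1 (by decide)) (h.sgn w9_17 2 9 0 0 (by decide)) (h.sgb hb 1) (h.sgn w9_17 6 9 0 0 (by decide)) (h.sgn w9_17 1 9 0 0 (by decide)) (h.sgp w9_17 2 6 0 1 (by decide)) rfl
  have f1 := eN e1
  have f2 : lv D 15 < lv D 12 :=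
    h.lG 1 2 0 1 2 5 (hLL 1) (by decide) (h.pos_of w9_17 1 5 0 1 (by decide))
  have f3 : lv D 13 < lv D 37 + 11317 / 10000 :=
    h.lK 3 2 0 1 3 7 (hLL 3) (by decide) (h.pos_of w9_17 1 7 0 1 (by decide))
  have f4 : lv D 3 < lv D 36 + 11317 / 10000 :=
    h.lK 3 2 0 0 3 6 (hLL 3) (by decide) (h.pos_of w9_17 0 6 0 1 (by decide))
  have f5 : lv D 36 < lv D 35 :=
    h.lG 3 2 0 3 5 6 (hLL 3) (by decide) (h.pos_of w9_17 3 6 0 1 (by decide))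
  have f6 : lv D 16 < lv D 15 :=
    h.lG 1 2 0 1 5 6 (hLL 1) (by decide) (h.pos_of w9_17 1 6 0 1 (by decide))
  have e2 : Real.exp (lv D 13 + lv D 25) = Real.exp (lv D 12 + lv D 35) + Real.exp (lv D 15 + lv D 23) :=
    h.PX 1 2 3 5 (h.sgp w9_17 1 3 0 1 (by decide)) (h.sgp w9_17 2 5 0 1 (by decide)) (h.sgb hb 1) (h.sgp w9_17 3 5 0 1 (by decide)) (h.sgp w9_17 1 5 0 1 (by decide)) (h.sgb hb 2) rfl
  have f7 := eH e2
  have e3 : Real.exp (lv D 26 + lv D 39) = Real.exp (lv D 23 + lv D 69) + Real.exp (lv D 29 + lv D 36) :=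
    h.PX 2 3 6 9 (h.sgp w9_17 2 6 0 1 (by decide)) (h.sgn w9_17 3 9 0 0 (by decide)) (h.sgb hb 2) (h.sgn w9_17 6 9 0 0 (by decide)) (h.sgn w9_17 2 9 0 0 (by decide)) (h.sgp w9_17 3 6 0 1 (by decide)) rfl
  have f8 := eN e3
  have f9 : lv D 37 < lv D 36 :=
    h.lG 4 2 0 3 6 7 (hLL 4) (by decide) (h.pos_of w9_17 3 7 0 1 (by decide))
  have e4 : Real.exp (lv D 3 + lv D 19) = Real.exp (lv D 1 + lv D 39) + Real.exp (lv D 9 + lv D 13) :=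
    h.PX 0 1 3 9 (h.sgp w9_17 0 3 0 1 (by decide)) (h.sgn w9_17 1 9 0 0 (by decide)) (h.sgb hb 0) (h.sgn w9_17 3 9 0 0 (by decide)) (h.sgbn hb) (h.sgp w9_17 1 3 0 1 (by decide)) rfl
  have f10 := eH e4
  have e5 : Real.exp (lv D 15 + lv D 26) = Real.exp (lv D 12 + lv D 56) + Real.exp (lv D 16 + lv D 25) :=
    h.PX 1 2 5 6 (h.sgp w9_17 1 5 0 1 (by decide)) (h.sgp w9_17 2 6 0 1 (by decide)) (h.sgb hb 1) (h.sgb hb 5) (h.sgp w9_17 1 6 0 1 (by decide)) (h.sgp w9_17 2 5 0 1 (by decide)) rfl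
  have f11 := eN e5
  have f12 : lv D 25 < lv D 23 :=
    h.lG 2 2 0 2 3 5 (hLL 2) (by decide) (h.pos_of w9_17 2 5 0 1 (by decide))
  have f13 : lv D 3 < lv D 1 :=
    h.lG 0 2 0 0 1 3 (hLL 0) (by decide) (h.pos_of w9_17 0 3 0 1 (by decide))
  have f14 : lv D 29 < lv D 9 :=
    h.lG 9 2 0 9 10 12 (hLL 9) (by decide) (h.pos_of w9_17 9 12 0 0 (by decide))
  linarith [f1, f2, f3, f4, f5, f6, f7, f8, f9, f10, f11, f12, f13, f14, hl2a, hl2b]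

theorem tl_5 {D : ℕ → ℕ → ℝ} (h : Cfg D)
    (hLL : ∀ i, LL D i (i + 2))
    (hNR : ∀ i, ¬ RR D i (i + 2))
    (w0_3 : 0 < D 0 3)
    (w2_8 : 0 < D 2 8)
    (w6_9 : 0 < D 6 9)
    (w8_11 : 0 < D 8 11) : False := by
  have f1 : lv D 45 ≤ lv D 25 :=
    h.lN 2 (hNR 2)
  have f2 : lv D 1 ≤ lv D 18 :=
    h.lN 8 (hNR 8)
  have f3 : lv D 89 ≤ lv D 69 :=
    h.lN 6 (hNR 6)
  have f4 : lv D 67 ≤ lv D 47 :=
    h.lN 4 (hNR 4)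
  have f5 : lv D 25 < lv D 23 :=
    h.lG 2 2 0 2 3 5 (hLL 2) (by decide) (h.pos_of w2_8 2 5 0 0 (by decide))
  have f6 : lv D 69 < lv D 67 :=
    h.lG 6 2 0 6 7 9 (hLL 6) (by decide) w6_9
  have f7 : lv D 3 < lv D 1 :=
    h.lG 0 2 0 0 1 3 (hLL 0) (by decide) w0_3
  have f8 : lv D 18 < lv D 89 :=
    h.lG 8 2 0 8 9 11 (hLL 8) (by decide) w8_11
  have f9 : lv D 47 < lv D 45 :=
    h.lG 4 2 0 4 5 7 (hLL 4) (by decide) (h.pos_of w2_8 4 7 0 0 (by decide))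
  have f10 : lv D 23 ≤ lv D 3 :=
    h.lN 0 (hNR 0)
  linarith [f1, f2, f3, f4, f5, f6, f7, f8, f9, f10, hl2a, hl2b]

theorem tl_6 {D : ℕ → ℕ → ℝ} (h : Cfg D)
    (hLL : ∀ i, LL D i (i + 2))
    (hNR : ∀ i, ¬ RR D i (i + 2))
    (w0_3 : 0 < D 0 3)
    (w2_7 : 0 < D 2 7)
    (w6_9 : 0 < D 6 9)
    (w8_11 : 0 < D 8 11) : False := by
  have f1 : lv D 3 < lv D 1 :=
    h.lG 0 2 0 0 1 3 (hLL 0) (by decide) w0_3
  have f2 : lv D 25 < lv D 23 :=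
    h.lG 2 2 0 2 3 5 (hLL 2) (by decide) (h.pos_of w2_7 2 5 0 0 (by decide))
  have f3 : lv D 69 < lv D 67 :=
    h.lG 6 2 0 6 7 9 (hLL 6) (by decide) w6_9
  have f4 : lv D 23 ≤ lv D 3 :=
    h.lN 0 (hNR 0)
  have f5 : lv D 89 ≤ lv D 69 :=
    h.lN 6 (hNR 6)
  have f6 : lv D 47 < lv D 45 :=
    h.lG 4 2 0 4 5 7 (hLL 4) (by decide) (h.pos_of w2_7 4 7 0 0 (by decide))
  have f7 : lv D 1 ≤ lv D 18 :=
    h.lN 8 (hNR 8)
  have f8 : lv D 67 ≤ lv D 47 :=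
    h.lN 4 (hNR 4)
  have f9 : lv D 45 ≤ lv D 25 :=
    h.lN 2 (hNR 2)
  have f10 : lv D 18 < lv D 89 :=
    h.lG 8 2 0 8 9 11 (hLL 8) (by decide) w8_11
  linarith [f1, f2, f3, f4, f5, f6, f7, f8, f9, f10, hl2a, hl2b]

theorem tl_7 {D : ℕ → ℕ → ℝ} (h : Cfg D)
    (hLL : ∀ i, LL D i (i + 2))
    (hNR : ∀ i, ¬ RR D i (i + 2))
    (w1_4 : 0 < D 1 4)
    (w3_6 : 0 < D 3 6)
    (w5_8 : 0 < D 5 8)
    (w7_12 : 0 < D 7 12)
    (w9_12 : 0 < D 9 12) : False := by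
  have f1 : lv D 14 < lv D 12 :=
    h.lG 1 2 0 1 2 4 (hLL 1) (by decide) w1_4
  have f2 : lv D 36 < lv D 34 :=
    h.lG 3 2 0 3 4 6 (hLL 3) (by decide) w3_6
  have f3 : lv D 9 ≤ lv D 7 :=
    h.lN 7 (hNR 7)
  have f4 : lv D 56 ≤ lv D 36 :=
    h.lN 3 (hNR 3)
  have f5 : lv D 34 ≤ lv D 14 :=
    h.lN 1 (hNR 1)
  have f6 : lv D 58 < lv D 56 :=
    h.lG 5 2 0 5 6 8 (hLL 5) (by decide) w5_8
  have f7 : lv D 78 ≤ lv D 58 :=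
    h.lN 5 (hNR 5)
  have f8 : lv D 12 ≤ lv D 29 :=
    h.lN 9 (hNR 9)
  have f9 : lv D 29 < lv D 9 :=
    h.lG 9 2 0 9 10 12 (hLL 9) (by decide) w9_12
  have f10 : lv D 7 < lv D 78 :=
    h.lG 7 2 0 7 8 10 (hLL 7) (by decide) (h.pos_of w7_12 7 10 0 0 (by decide))
  linarith [f1, f2, f3, f4, f5, f6, f7, f8, f9, f10, hl2a, hl2b]

theorem tl_8 {D : ℕ → ℕ → ℝ} (h : Cfg D)
    (hLL : ∀ i, LL D i (i + 2))
    (hb : ∀ i, 0 < D i (i + 1))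
    (w6_13 : 0 < D 6 13)
    (w6_9 : 0 < D 6 9) : False := by
  have f1 : lv D 69 < lv D 67 :=
    h.lG 6 2 0 6 7 9 (hLL 6) (by decide) w6_9
  have e1 : Real.exp (lv D 38 + lv D 69) = Real.exp (lv D 36 + lv D 89) + Real.exp (lv D 39 + lv D 68) :=
    h.PX 3 6 8 9 (h.sgn w6_13 3 8 0 0 (by decide)) (h.sgp w6_9 6 9 0 0 (by decide)) (h.sgn w6_13 3 6 0 0 (by decide)) (h.sgb hb 8) (h.sgn w6_13 3 9 0 0 (by decide)) (h.sgp w6_9 6 8 0 0 (by decide)) rfl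
  have f2 := eN e1
  have f3 : lv D 69 < lv D 68 :=
    h.lG 6 2 0 6 8 9 (hLL 6) (by decide) w6_9
  have e2 : Real.exp (lv D 6 + lv D 38) = Real.exp (lv D 3 + lv D 68) + Real.exp (lv D 8 + lv D 36) :=
    h.PX 0 3 6 8 (h.sgn w6_13 0 6 0 0 (by decide)) (h.sgn w6_13 3 8 0 0 (by decide)) (h.sgp w6_13 0 3 0 1 (by decide)) (h.sgp w6_9 6 8 0 0 (by decide)) (h.sgn w6_13 0 8 0 0 (by decide)) (h.sgn w6_13 3 6 0 0 (by decide)) rfl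
  have f4 := eM e2
  have e3 : Real.exp (lv D 8 + lv D 79) = Real.exp (lv D 7 + lv D 89) + Real.exp (lv D 9 + lv D 78) :=
    h.PX 0 7 8 9 (h.sgn w6_13 0 8 0 0 (by decide)) (h.sgp w6_9 7 9 0 0 (by decide)) (h.sgn w6_13 0 7 0 0 (by decide)) (h.sgb hb 8) (h.sgbn hb) (h.sgb hb 7) rfl
  have f5 := eH e3
  have f6 : lv D 79 < lv D 39 + 11317 / 10000 :=
    h.lK 9 2 0 7 9 13 (hLL 9) (by decide) (h.pos_of w6_13 7 13 0 0 (by decide))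
  have f7 : lv D 38 < lv D 89 :=
    h.lG 8 2 0 8 9 13 (hLL 8) (by decide) (h.pos_of w6_13 8 13 0 0 (by decide))
  have e4 : Real.exp (lv D 8 + lv D 39) = Real.exp (lv D 3 + lv D 89) + Real.exp (lv D 9 + lv D 38) :=
    h.PX 0 3 8 9 (h.sgn w6_13 0 8 0 0 (by decide)) (h.sgn w6_13 3 9 0 0 (by decide)) (h.sgp w6_13 0 3 0 1 (by decide)) (h.sgb hb 8) (h.sgbn hb) (h.sgn w6_13 3 8 0 0 (by decide)) rfl
  have f8 := eH e4
  have f9 : lv D 8 < lv D 3 + 11317 / 10000 :=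
    h.lK 0 2 1 8 10 13 (hLL 0) (by decide) (h.pos_of w6_13 8 13 0 0 (by decide))
  have e5 : Real.exp (lv D 7 + lv D 68) = Real.exp (lv D 6 + lv D 78) + Real.exp (lv D 8 + lv D 67) :=
    h.PX 0 6 7 8 (h.sgn w6_13 0 7 0 0 (by decide)) (h.sgp w6_9 6 8 0 0 (by decide)) (h.sgn w6_13 0 6 0 0 (by decide)) (h.sgb hb 7) (h.sgn w6_13 0 8 0 0 (by decide)) (h.sgb hb 6) rfl
  have f10 := eH e5
  have f11 : lv D 7 < lv D 78 :=
    h.lG 7 2 0 7 8 10 (hLL 7) (by decide) (h.pos_of w6_13 7 10 0 0 (by decide))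
  have f12 : lv D 39 < lv D 9 :=
    h.lG 9 2 0 9 10 13 (hLL 9) (by decide) (h.pos_of w6_13 9 13 0 0 (by decide))
  linarith [f1, f2, f3, f4, f5, f6, f7, f8, f9, f10, f11, f12, hl2a, hl2b]

theorem tl_9 {D : ℕ → ℕ → ℝ} (h : Cfg D)
    (hLL : ∀ i, LL D i (i + 2))
    (hb : ∀ i, 0 < D i (i + 1))
    (w0_3 : 0 < D 0 3)
    (w9_12 : 0 < D 9 12)
    (w9_13 : 0 < D 9 13)
    (w9_16 : 0 < D 9 16) : False := by
  have f1 : lv D 29 < lv D 9 :=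
    h.lG 9 2 0 9 10 12 (hLL 9) (by decide) w9_12
  have f2 : lv D 3 < lv D 2 :=
    h.lG 0 2 0 0 2 3 (hLL 0) (by decide) w0_3
  have e1 : Real.exp (lv D 3 + lv D 29) = Real.exp (lv D 2 + lv D 39) + Real.exp (lv D 9 + lv D 23) :=
    h.PX 0 2 3 9 (h.sgp w0_3 0 3 0 0 (by decide)) (h.sgn w9_12 2 9 0 0 (by decide)) (h.sgp w0_3 0 2 0 0 (by decide)) (h.sgn w9_13 3 9 0 0 (by decide)) (h.sgbn hb) (h.sgb hb 2) rfl
  have f3 := eH e1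
  have e2 : Real.exp (lv D 26 + lv D 39) = Real.exp (lv D 23 + lv D 69) + Real.exp (lv D 29 + lv D 36) :=
    h.PX 2 3 6 9 (h.sgp w9_16 2 6 0 1 (by decide)) (h.sgn w9_13 3 9 0 0 (by decide)) (h.sgb hb 2) (h.sgn w9_16 6 9 0 0 (by decide)) (h.sgn w9_12 2 9 0 0 (by decide)) (h.sgp w9_16 3 6 0 1 (by decide)) rfl
  have f4 := eN e2
  have f5 : lv D 3 < lv D 36 + 11317 / 10000 :=
    h.lK 3 2 0 0 3 6 (hLL 3) (by decide) (h.pos_of w9_16 0 6 0 1 (by decide))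
  have f6 : lv D 25 < lv D 23 :=
    h.lG 2 2 0 2 3 5 (hLL 2) (by decide) (h.pos_of w9_16 2 5 0 1 (by decide))
  have f7 : lv D 26 < lv D 25 :=
    h.lG 2 2 0 2 5 6 (hLL 2) (by decide) (h.pos_of w9_16 2 6 0 1 (by decide))
  linarith [f1, f2, f3, f4, f5, f6, f7, hl2a, hl2b]

theorem tl_10 {D : ℕ → ℕ → ℝ} (h : Cfg D)
    (hLL : ∀ i, LL D i (i + 2))
    (hb : ∀ i, 0 < D i (i + 1))
    (w8_15 : 0 < D 8 15) : False := by
  have f1 : lv D 29 < lv D 25 + 11317 / 10000 :=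
    h.lK 2 2 1 9 12 15 (hLL 2) (by decide) (h.pos_of w8_15 9 15 0 0 (by decide))
  have f2 : lv D 25 < lv D 24 :=
    h.lG 2 2 0 2 4 5 (hLL 2) (by decide) (h.pos_of w8_15 2 5 0 1 (by decide))
  have f3 : lv D 29 < lv D 19 :=
    h.lG 9 2 0 9 11 12 (hLL 9) (by decide) (h.pos_of w8_15 9 12 0 0 (by decide))
  have e1 : Real.exp (lv D 28 + lv D 49) = Real.exp (lv D 24 + lv D 89) + Real.exp (lv D 29 + lv D 48) :=
    h.PX 2 4 8 9 (h.sgn w8_15 2 8 0 0 (by decide)) (h.sgn w8_15 4 9 0 0 (by decide)) (h.sgp w8_15 2 4 0 1 (by decide)) (h.sgb hb 8) (h.sgn w8_15 2 9 0 0 (by decide)) (h.sgn w8_15 4 8 0 0 (by decide)) rfl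
  have f4 := eM e1
  have e2 : Real.exp (lv D 14 + lv D 29) = Real.exp (lv D 12 + lv D 49) + Real.exp (lv D 19 + lv D 24) :=
    h.PX 1 2 4 9 (h.sgp w8_15 1 4 0 1 (by decide)) (h.sgn w8_15 2 9 0 0 (by decide)) (h.sgb hb 1) (h.sgn w8_15 4 9 0 0 (by decide)) (h.sgn w8_15 1 9 0 0 (by decide)) (h.sgp w8_15 2 4 0 1 (by decide)) rfl
  have f5 := eH e2
  have f6 : lv D 18 < lv D 89 :=
    h.lG 8 2 0 8 9 11 (hLL 8) (by decide) (h.pos_of w8_15 8 11 0 0 (by decide))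
  have f7 : lv D 14 < lv D 12 :=
    h.lG 1 2 0 1 2 4 (hLL 1) (by decide) (h.pos_of w8_15 1 4 0 1 (by decide))
  have e3 : Real.exp (lv D 18 + lv D 29) = Real.exp (lv D 12 + lv D 89) + Real.exp (lv D 19 + lv D 28) :=
    h.PX 1 2 8 9 (h.sgn w8_15 1 8 0 0 (by decide)) (h.sgn w8_15 2 9 0 0 (by decide)) (h.sgb hb 1) (h.sgb hb 8) (h.sgn w8_15 1 9 0 0 (by decide)) (h.sgn w8_15 2 8 0 0 (by decide)) rfl
  have f8 := eH e3
  linarith [f1, f2, f3, f4, f5, f6, f7, f8, hl2a, hl2b]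

theorem tl_12 {D : ℕ → ℕ → ℝ} (h : Cfg D)
    (hLL : ∀ i, LL D i (i + 2))
    (hNR : ∀ i, ¬ RR D i (i + 2))
    (hb : ∀ i, 0 < D i (i + 1))
    (w0_3 : 0 < D 0 3)
    (w1_4 : 0 < D 1 4)
    (w3_9 : 0 < D 3 9)
    (w8_11 : 0 < D 8 11)
    (w9_12 : 0 < D 9 12) : False := by
  have e1 : Real.exp (lv D 48 + lv D 59) = Real.exp (lv D 45 + lv D 89) + Real.exp (lv D 49 + lv D 58) :=
    h.PX 4 5 8 9 (h.sgp w3_9 4 8 0 0 (by decide)) (h.sgp w3_9 5 9 0 0 (by decide)) (h.sgb hb 4) (h.sgb hb 8) (h.sgp w3_9 4 9 0 0 (by decide)) (h.sgp w3_9 5 8 0 0 (by decide)) rfl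
  have f1 := eH e1
  have f2 : lv D 48 < lv D 45 :=
    h.lG 4 2 0 4 5 8 (hLL 4) (by decide) (h.pos_of w3_9 4 8 0 0 (by decide))
  have f3 : lv D 36 < lv D 34 :=
    h.lG 3 2 0 3 4 6 (hLL 3) (by decide) (h.pos_of w3_9 3 6 0 0 (by decide))
  have f4 : lv D 14 < lv D 12 :=
    h.lG 1 2 0 1 2 4 (hLL 1) (by decide) w1_4
  have f5 : lv D 34 ≤ lv D 14 :=
    h.lN 1 (hNR 1)
  have f6 : lv D 1 ≤ lv D 18 :=
    h.lN 8 (hNR 8)
  have f7 : lv D 45 < lv D 59 + 11317 / 10000 :=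
    h.lK 5 2 0 4 5 9 (hLL 5) (by decide) (h.pos_of w3_9 4 9 0 0 (by decide))
  have f8 : lv D 59 < lv D 58 :=
    h.lG 6 2 0 5 8 9 (hLL 6) (by decide) (h.pos_of w3_9 5 9 0 0 (by decide))
  have f9 : lv D 3 < lv D 1 :=
    h.lG 0 2 0 0 1 3 (hLL 0) (by decide) w0_3
  have f10 : lv D 56 ≤ lv D 36 :=
    h.lN 3 (hNR 3)
  have e2 : Real.exp (lv D 19 + lv D 23) = Real.exp (lv D 13 + lv D 29) + Real.exp (lv D 12 + lv D 39) :=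
    h.PZ 1 2 3 9 (h.sgp w0_3 1 3 0 0 (by decide)) (h.sgn w9_12 2 9 0 0 (by decide)) (h.sgb hb 1) (h.sgp w3_9 3 9 0 0 (by decide)) (h.sgn w9_12 1 9 0 0 (by decide)) (h.sgb hb 2) rfl
  have f11 := eM e2
  have f12 : lv D 23 ≤ lv D 3 :=
    h.lN 0 (hNR 0)
  have f13 : lv D 12 ≤ lv D 29 :=
    h.lN 9 (hNR 9)
  have f14 : lv D 58 < lv D 56 :=
    h.lG 5 2 0 5 6 8 (hLL 5) (by decide) (h.pos_of w3_9 5 8 0 0 (by decide))
  have e3 : Real.exp (lv D 13 + lv D 49) = Real.exp (lv D 14 + lv D 39) + Real.exp (lv D 19 + lv D 34) :=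
    h.PY 1 3 4 9 (h.sgp w1_4 1 4 0 0 (by decide)) (h.sgp w3_9 3 9 0 0 (by decide)) (h.sgp w0_3 1 3 0 0 (by decide)) (h.sgp w3_9 4 9 0 0 (by decide)) (h.sgn w9_12 1 9 0 0 (by decide)) (h.sgb hb 3) rfl
  have f15 := eN e3
  have f16 : lv D 18 < lv D 89 :=
    h.lG 8 2 0 8 9 11 (hLL 8) (by decide) w8_11
  linarith [f1, f2, f3, f4, f5, f6, f7, f8, f9, f10, f11, f12, f13, f14, f15, f16, hl2a, hl2b]

theorem tl_13 {D : ℕ → ℕ → ℝ} (h : Cfg D)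
    (hLL : ∀ i, LL D i (i + 2))
    (hb : ∀ i, 0 < D i (i + 1))
    (w4_11 : 0 < D 4 11) : False := by
  have e1 : Real.exp (lv D 47 + lv D 58) = Real.exp (lv D 45 + lv D 78) + Real.exp (lv D 48 + lv D 57) :=
    h.PX 4 5 7 8 (h.sgp w4_11 4 7 0 0 (by decide)) (h.sgp w4_11 5 8 0 0 (by decide)) (h.sgb hb 4) (h.sgb hb 7) (h.sgp w4_11 4 8 0 0 (by decide)) (h.sgp w4_11 5 7 0 0 (by decide)) rfl
  have f1 := eH e1
  have e2 : Real.exp (lv D 17 + lv D 48) = Real.exp (lv D 14 + lv D 78) + Real.exp (lv D 18 + lv D 47) :=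
    h.PX 1 4 7 8 (h.sgn w4_11 1 7 0 0 (by decide)) (h.sgp w4_11 4 8 0 0 (by decide)) (h.sgn w4_11 1 4 0 0 (by decide)) (h.sgb hb 7) (h.sgn w4_11 1 8 0 0 (by decide)) (h.sgp w4_11 4 7 0 0 (by decide)) rfl
  have f2 := eN e2
  have f3 : lv D 47 < lv D 45 :=
    h.lG 4 2 0 4 5 7 (hLL 4) (by decide) (h.pos_of w4_11 4 7 0 0 (by decide))
  have f4 : lv D 17 < lv D 7 :=
    h.lG 8 2 0 7 10 11 (hLL 8) (by decide) (h.pos_of w4_11 7 11 0 0 (by decide))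
  have f5 : lv D 58 < lv D 18 + 11317 / 10000 :=
    h.lK 8 2 0 5 8 11 (hLL 8) (by decide) (h.pos_of w4_11 5 11 0 0 (by decide))
  have f6 : lv D 58 < lv D 57 :=
    h.lG 5 2 0 5 7 8 (hLL 5) (by decide) (h.pos_of w4_11 5 8 0 0 (by decide))
  have f7 : lv D 7 < lv D 78 :=
    h.lG 7 2 0 7 8 10 (hLL 7) (by decide) (h.pos_of w4_11 7 10 0 0 (by decide))
  linarith [f1, f2, f3, f4, f5, f6, f7, hl2a, hl2b]

theorem tl_14 {D : ℕ → ℕ → ℝ} (h : Cfg D)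
    (hLL : ∀ i, LL D i (i + 2))
    (hb : ∀ i, 0 < D i (i + 1))
    (w7_15 : 0 < D 7 15) : False := by
  have e1 : Real.exp (lv D 15 + lv D 28) = Real.exp (lv D 12 + lv D 58) + Real.exp (lv D 18 + lv D 25) :=
    h.PX 1 2 5 8 (h.sgp w7_15 1 5 0 1 (by decide)) (h.sgn w7_15 2 8 0 0 (by decide)) (h.sgb hb 1) (h.sgn w7_15 5 8 0 0 (by decide)) (h.sgn w7_15 1 8 0 0 (by decide)) (h.sgp w7_15 2 5 0 1 (by decide)) rfl
  have f1 := eH e1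
  have f2 : lv D 28 < lv D 18 :=
    h.lG 8 2 0 8 11 12 (hLL 8) (by decide) (h.pos_of w7_15 8 12 0 0 (by decide))
  have f3 : lv D 17 < lv D 78 :=
    h.lG 7 2 0 7 8 11 (hLL 7) (by decide) (h.pos_of w7_15 7 11 0 0 (by decide))
  have f4 : lv D 28 < lv D 25 + 11317 / 10000 :=
    h.lK 2 2 1 8 12 15 (hLL 2) (by decide) (h.pos_of w7_15 8 15 0 0 (by decide))
  have e2 : Real.exp (lv D 17 + lv D 58) = Real.exp (lv D 15 + lv D 78) + Real.exp (lv D 18 + lv D 57) :=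
    h.PX 1 5 7 8 (h.sgn w7_15 1 7 0 0 (by decide)) (h.sgn w7_15 5 8 0 0 (by decide)) (h.sgp w7_15 1 5 0 1 (by decide)) (h.sgb hb 7) (h.sgn w7_15 1 8 0 0 (by decide)) (h.sgn w7_15 5 7 0 0 (by decide)) rfl
  have f5 := eM e2
  have f6 : lv D 15 < lv D 12 :=
    h.lG 1 2 0 1 2 5 (hLL 1) (by decide) (h.pos_of w7_15 1 5 0 1 (by decide))
  linarith [f1, f2, f3, f4, f5, f6, hl2a, hl2b]

theorem tl_16 {D : ℕ → ℕ → ℝ} (h : Cfg D)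
    (hLL : ∀ i, LL D i (i + 2))
    (hb : ∀ i, 0 < D i (i + 1))
    (w5_13 : 0 < D 5 13) : False := by
  have f1 : lv D 38 < lv D 89 :=
    h.lG 8 2 0 8 9 13 (hLL 8) (by decide) (h.pos_of w5_13 8 13 0 0 (by decide))
  have e1 : Real.exp (lv D 7 + lv D 39) = Real.exp (lv D 3 + lv D 79) + Real.exp (lv D 9 + lv D 37) :=
    h.PX 0 3 7 9 (h.sgn w5_13 0 7 0 0 (by decide)) (h.sgn w5_13 3 9 0 0 (by decide)) (h.sgp w5_13 0 3 0 1 (by decide)) (h.sgp w5_13 7 9 0 0 (by decide)) (h.sgbn hb) (h.sgn w5_13 3 7 0 0 (by decide)) rfl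
  have f2 := eH e1
  have e2 : Real.exp (lv D 58 + lv D 69) = Real.exp (lv D 56 + lv D 89) + Real.exp (lv D 59 + lv D 68) :=
    h.PX 5 6 8 9 (h.sgp w5_13 5 8 0 0 (by decide)) (h.sgp w5_13 6 9 0 0 (by decide)) (h.sgb hb 5) (h.sgb hb 8) (h.sgp w5_13 5 9 0 0 (by decide)) (h.sgp w5_13 6 8 0 0 (by decide)) rfl
  have f3 := eN e2
  have f4 : lv D 69 < lv D 68 :=
    h.lG 6 2 0 6 8 9 (hLL 6) (by decide) (h.pos_of w5_13 6 9 0 0 (by decide))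
  have f5 : lv D 7 < lv D 3 + 11317 / 10000 :=
    h.lK 0 2 1 7 10 13 (hLL 0) (by decide) (h.pos_of w5_13 7 13 0 0 (by decide))
  have e3 : Real.exp (lv D 37 + lv D 59) = Real.exp (lv D 35 + lv D 79) + Real.exp (lv D 39 + lv D 57) :=
    h.PX 3 5 7 9 (h.sgn w5_13 3 7 0 0 (by decide)) (h.sgp w5_13 5 9 0 0 (by decide)) (h.sgn w5_13 3 5 0 0 (by decide)) (h.sgp w5_13 7 9 0 0 (by decide)) (h.sgn w5_13 3 9 0 0 (by decide)) (h.sgp w5_13 5 7 0 0 (by decide)) rfl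
  have f6 := eN e3
  have f7 : lv D 29 < lv D 9 :=
    h.lG 9 2 0 9 10 12 (hLL 9) (by decide) (h.pos_of w5_13 9 12 0 0 (by decide))
  have f8 : lv D 78 < lv D 38 + 11317 / 10000 :=
    h.lK 0 2 1 7 8 13 (hLL 0) (by decide) (h.pos_of w5_13 7 13 0 0 (by decide))
  have f9 : lv D 39 < lv D 29 :=
    h.lG 9 2 0 9 12 13 (hLL 9) (by decide) (h.pos_of w5_13 9 13 0 0 (by decide))
  have f10 : lv D 7 < lv D 78 :=
    h.lG 7 2 0 7 8 10 (hLL 7) (by decide) (h.pos_of w5_13 7 10 0 0 (by decide))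
  have f11 : lv D 58 < lv D 57 :=
    h.lG 5 2 0 5 7 8 (hLL 5) (by decide) (h.pos_of w5_13 5 8 0 0 (by decide))
  have e4 : Real.exp (lv D 58 + lv D 79) = Real.exp (lv D 57 + lv D 89) + Real.exp (lv D 59 + lv D 78) :=
    h.PX 5 7 8 9 (h.sgp w5_13 5 8 0 0 (by decide)) (h.sgp w5_13 7 9 0 0 (by decide)) (h.sgp w5_13 5 7 0 0 (by decide)) (h.sgb hb 8) (h.sgp w5_13 5 9 0 0 (by decide)) (h.sgb hb 7) rfl
  have f12 := eH e4
  linarith [f1, f2, f3, f4, f5, f6, f7, f8, f9, f10, f11, f12, hl2a, hl2b]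

theorem tl_17 {D : ℕ → ℕ → ℝ} (h : Cfg D)
    (hLL : ∀ i, LL D i (i + 2))
    (hb : ∀ i, 0 < D i (i + 1))
    (w6_14 : 0 < D 6 14) : False := by
  have f1 : lv D 69 < lv D 67 :=
    h.lG 6 2 0 6 7 9 (hLL 6) (by decide) (h.pos_of w6_14 6 9 0 0 (by decide))
  have f2 : lv D 17 < lv D 14 + 11317 / 10000 :=
    h.lK 1 2 1 7 11 14 (hLL 1) (by decide) (h.pos_of w6_14 7 14 0 0 (by decide))
  have e1 : Real.exp (lv D 17 + lv D 69) = Real.exp (lv D 16 + lv D 79) + Real.exp (lv D 19 + lv D 67) :=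
    h.PX 1 6 7 9 (h.sgn w6_14 1 7 0 0 (by decide)) (h.sgp w6_14 6 9 0 0 (by decide)) (h.sgn w6_14 1 6 0 0 (by decide)) (h.sgp w6_14 7 9 0 0 (by decide)) (h.sgn w6_14 1 9 0 0 (by decide)) (h.sgb hb 6) rfl
  have f3 := eH e1
  have f4 : lv D 17 < lv D 79 :=
    h.lG 8 2 0 7 9 11 (hLL 8) (by decide) (h.pos_of w6_14 7 11 0 0 (by decide))
  have f5 : lv D 49 < lv D 19 :=
    h.lG 0 2 1 9 11 14 (hLL 0) (by decide) (h.pos_of w6_14 9 14 0 0 (by decide))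
  have e2 : Real.exp (lv D 16 + lv D 49) = Real.exp (lv D 14 + lv D 69) + Real.exp (lv D 19 + lv D 46) :=
    h.PX 1 4 6 9 (h.sgn w6_14 1 6 0 0 (by decide)) (h.sgn w6_14 4 9 0 0 (by decide)) (h.sgp w6_14 1 4 0 1 (by decide)) (h.sgp w6_14 6 9 0 0 (by decide)) (h.sgn w6_14 1 9 0 0 (by decide)) (h.sgn w6_14 4 6 0 0 (by decide)) rfl
  have f6 := eM e2
  linarith [f1, f2, f3, f4, f5, f6, hl2a, hl2b]

theorem tl_18 {D : ℕ → ℕ → ℝ} (h : Cfg D)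
    (hLL : ∀ i, LL D i (i + 2))
    (hb : ∀ i, 0 < D i (i + 1))
    (w3_10 : 0 < D 3 10) : False := by
  have f1 : lv D 36 < lv D 34 :=
    h.lG 3 2 0 3 4 6 (hLL 3) (by decide) (h.pos_of w3_10 3 6 0 0 (by decide))
  have e1 : Real.exp (lv D 36 + lv D 47) = Real.exp (lv D 34 + lv D 67) + Real.exp (lv D 37 + lv D 46) :=
    h.PX 3 4 6 7 (h.sgp w3_10 3 6 0 0 (by decide)) (h.sgp w3_10 4 7 0 0 (by decide)) (h.sgb hb 3) (h.sgb hb 6) (h.sgp w3_10 3 7 0 0 (by decide)) (h.sgp w3_10 4 6 0 0 (by decide)) rfl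
  have f2 := eH e1
  have f3 : lv D 6 < lv D 67 :=
    h.lG 6 2 0 6 7 10 (hLL 6) (by decide) (h.pos_of w3_10 6 10 0 0 (by decide))
  have e2 : Real.exp (lv D 6 + lv D 37) = Real.exp (lv D 3 + lv D 67) + Real.exp (lv D 7 + lv D 36) :=
    h.PX 0 3 6 7 (h.sgn w3_10 0 6 0 0 (by decide)) (h.sgp w3_10 3 7 0 0 (by decide)) (h.sgn w3_10 0 3 0 0 (by decide)) (h.sgb hb 6) (h.sgn w3_10 0 7 0 0 (by decide)) (h.sgp w3_10 3 6 0 0 (by decide)) rfl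
  have f4 := eN e2
  have f5 : lv D 47 < lv D 46 :=
    h.lG 4 2 0 4 6 7 (hLL 4) (by decide) (h.pos_of w3_10 4 7 0 0 (by decide))
  have f6 : lv D 47 < lv D 7 + 11317 / 10000 :=
    h.lK 7 2 0 4 7 10 (hLL 7) (by decide) (h.pos_of w3_10 4 10 0 0 (by decide))
  linarith [f1, f2, f3, f4, f5, f6, hl2a, hl2b]

theorem tl_19 {D : ℕ → ℕ → ℝ} (h : Cfg D)
    (hLL : ∀ i, LL D i (i + 2))
    (hb : ∀ i, 0 < D i (i + 1))
    (w3_11 : 0 < D 3 11) : False := by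
  have f1 : lv D 36 < lv D 35 :=
    h.lG 3 2 0 3 5 6 (hLL 3) (by decide) (h.pos_of w3_11 3 6 0 0 (by decide))
  have f2 : lv D 58 < lv D 18 + 11317 / 10000 :=
    h.lK 8 2 0 5 8 11 (hLL 8) (by decide) (h.pos_of w3_11 5 11 0 0 (by decide))
  have f3 : lv D 6 < lv D 68 :=
    h.lG 6 2 0 6 8 10 (hLL 6) (by decide) (h.pos_of w3_11 6 10 0 0 (by decide))
  have e1 : Real.exp (lv D 16 + lv D 58) = Real.exp (lv D 15 + lv D 68) + Real.exp (lv D 18 + lv D 56) :=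
    h.PX 1 5 6 8 (h.sgn w3_11 1 6 0 0 (by decide)) (h.sgp w3_11 5 8 0 0 (by decide)) (h.sgn w3_11 1 5 0 0 (by decide)) (h.sgp w3_11 6 8 0 0 (by decide)) (h.sgn w3_11 1 8 0 0 (by decide)) (h.sgb hb 5) rfl
  have f4 := eH e1
  have f5 : lv D 16 < lv D 6 :=
    h.lG 8 2 0 6 10 11 (hLL 8) (by decide) (h.pos_of w3_11 6 11 0 0 (by decide))
  have e2 : Real.exp (lv D 36 + lv D 58) = Real.exp (lv D 35 + lv D 68) + Real.exp (lv D 38 + lv D 56) :=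
    h.PX 3 5 6 8 (h.sgp w3_11 3 6 0 0 (by decide)) (h.sgp w3_11 5 8 0 0 (by decide)) (h.sgp w3_11 3 5 0 0 (by decide)) (h.sgp w3_11 6 8 0 0 (by decide)) (h.sgp w3_11 3 8 0 0 (by decide)) (h.sgb hb 5) rfl
  have f6 := eH e2
  have f7 : lv D 58 < lv D 56 :=
    h.lG 5 2 0 5 6 8 (hLL 5) (by decide) (h.pos_of w3_11 5 8 0 0 (by decide))
  have e3 : Real.exp (lv D 15 + lv D 38) = Real.exp (lv D 13 + lv D 58) + Real.exp (lv D 18 + lv D 35) :=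
    h.PX 1 3 5 8 (h.sgn w3_11 1 5 0 0 (by decide)) (h.sgp w3_11 3 8 0 0 (by decide)) (h.sgn w3_11 1 3 0 0 (by decide)) (h.sgp w3_11 5 8 0 0 (by decide)) (h.sgn w3_11 1 8 0 0 (by decide)) (h.sgp w3_11 3 5 0 0 (by decide)) rfl
  have f8 := eN e3
  linarith [f1, f2, f3, f4, f5, f6, f7, f8, hl2a, hl2b]

theorem tl_21 {D : ℕ → ℕ → ℝ} (h : Cfg D)
    (hLL : ∀ i, LL D i (i + 2))
    (hb : ∀ i, 0 < D i (i + 1))
    (w2_10 : 0 < D 2 10) : False := by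
  have f1 : lv D 36 < lv D 34 :=
    h.lG 3 2 0 3 4 6 (hLL 3) (by decide) (h.pos_of w2_10 3 6 0 0 (by decide))
  have f2 : lv D 6 < lv D 69 :=
    h.lG 6 2 0 6 9 10 (hLL 6) (by decide) (h.pos_of w2_10 6 10 0 0 (by decide))
  have e1 : Real.exp (lv D 4 + lv D 36) = Real.exp (lv D 3 + lv D 46) + Real.exp (lv D 6 + lv D 34) :=
    h.PX 0 3 4 6 (h.sgn w2_10 0 4 0 0 (by decide)) (h.sgp w2_10 3 6 0 0 (by decide)) (h.sgn w2_10 0 3 0 0 (by decide)) (h.sgp w2_10 4 6 0 0 (by decide)) (h.sgn w2_10 0 6 0 0 (by decide)) (h.sgb hb 3) rfl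
  have f3 := eN e1
  have f4 : lv D 69 < lv D 67 :=
    h.lG 6 2 0 6 7 9 (hLL 6) (by decide) (h.pos_of w2_10 6 9 0 0 (by decide))
  have f5 : lv D 47 < lv D 46 :=
    h.lG 4 2 0 4 6 7 (hLL 4) (by decide) (h.pos_of w2_10 4 7 0 0 (by decide))
  have f6 : lv D 47 < lv D 7 + 11317 / 10000 :=
    h.lK 7 2 0 4 7 10 (hLL 7) (by decide) (h.pos_of w2_10 4 10 0 0 (by decide))
  have e2 : Real.exp (lv D 6 + lv D 47) = Real.exp (lv D 4 + lv D 67) + Real.exp (lv D 7 + lv D 46) :=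
    h.PX 0 4 6 7 (h.sgn w2_10 0 6 0 0 (by decide)) (h.sgp w2_10 4 7 0 0 (by decide)) (h.sgn w2_10 0 4 0 0 (by decide)) (h.sgb hb 6) (h.sgn w2_10 0 7 0 0 (by decide)) (h.sgp w2_10 4 6 0 0 (by decide)) rfl
  have f7 := eH e2
  linarith [f1, f2, f3, f4, f5, f6, f7, hl2a, hl2b]

theorem tl_22 {D : ℕ → ℕ → ℝ} (h : Cfg D)
    (hLL : ∀ i, LL D i (i + 2))
    (hb : ∀ i, 0 < D i (i + 1))
    (w4_12 : 0 < D 4 12) : False := by
  have f1 : lv D 69 < lv D 67 :=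
    h.lG 6 2 0 6 7 9 (hLL 6) (by decide) (h.pos_of w4_12 6 9 0 0 (by decide))
  have f2 : lv D 28 < lv D 89 :=
    h.lG 8 2 0 8 9 12 (hLL 8) (by decide) (h.pos_of w4_12 8 12 0 0 (by decide))
  have e1 : Real.exp (lv D 26 + lv D 58) = Real.exp (lv D 25 + lv D 68) + Real.exp (lv D 28 + lv D 56) :=
    h.PX 2 5 6 8 (h.sgn w4_12 2 6 0 0 (by decide)) (h.sgp w4_12 5 8 0 0 (by decide)) (h.sgn w4_12 2 5 0 0 (by decide)) (h.sgp w4_12 6 8 0 0 (by decide)) (h.sgn w4_12 2 8 0 0 (by decide)) (h.sgb hb 5) rfl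
  have f3 := eH e1
  have f4 : lv D 27 < lv D 7 :=
    h.lG 9 2 0 7 10 12 (hLL 9) (by decide) (h.pos_of w4_12 7 12 0 0 (by decide))
  have f5 : lv D 47 < lv D 46 :=
    h.lG 4 2 0 4 6 7 (hLL 4) (by decide) (h.pos_of w4_12 4 7 0 0 (by decide))
  have e2 : Real.exp (lv D 25 + lv D 46) = Real.exp (lv D 24 + lv D 56) + Real.exp (lv D 26 + lv D 45) :=
    h.PX 2 4 5 6 (h.sgn w4_12 2 5 0 0 (by decide)) (h.sgp w4_12 4 6 0 0 (by decide)) (h.sgn w4_12 2 4 0 0 (by decide)) (h.sgb hb 5) (h.sgn w4_12 2 6 0 0 (by decide)) (h.sgb hb 4) rfl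
  have f6 := eN e2
  have f7 : lv D 89 < lv D 29 + 11317 / 10000 :=
    h.lK 9 2 0 8 9 12 (hLL 9) (by decide) (h.pos_of w4_12 8 12 0 0 (by decide))
  have f8 : lv D 58 < lv D 56 :=
    h.lG 5 2 0 5 6 8 (hLL 5) (by decide) (h.pos_of w4_12 5 8 0 0 (by decide))
  have e3 : Real.exp (lv D 28 + lv D 69) = Real.exp (lv D 26 + lv D 89) + Real.exp (lv D 29 + lv D 68) :=
    h.PX 2 6 8 9 (h.sgn w4_12 2 8 0 0 (by decide)) (h.sgp w4_12 6 9 0 0 (by decide)) (h.sgn w4_12 2 6 0 0 (by decide)) (h.sgb hb 8) (h.sgn w4_12 2 9 0 0 (by decide)) (h.sgp w4_12 6 8 0 0 (by decide)) rfl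
  have f9 := eH e3
  have f10 : lv D 48 < lv D 45 :=
    h.lG 4 2 0 4 5 8 (hLL 4) (by decide) (h.pos_of w4_12 4 8 0 0 (by decide))
  have e4 : Real.exp (lv D 26 + lv D 47) = Real.exp (lv D 24 + lv D 67) + Real.exp (lv D 27 + lv D 46) :=
    h.PX 2 4 6 7 (h.sgn w4_12 2 6 0 0 (by decide)) (h.sgp w4_12 4 7 0 0 (by decide)) (h.sgn w4_12 2 4 0 0 (by decide)) (h.sgb hb 6) (h.sgn w4_12 2 7 0 0 (by decide)) (h.sgp w4_12 4 6 0 0 (by decide)) rfl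
  have f11 := eN e4
  have e5 : Real.exp (lv D 27 + lv D 68) = Real.exp (lv D 26 + lv D 78) + Real.exp (lv D 28 + lv D 67) :=
    h.PX 2 6 7 8 (h.sgn w4_12 2 7 0 0 (by decide)) (h.sgp w4_12 6 8 0 0 (by decide)) (h.sgn w4_12 2 6 0 0 (by decide)) (h.sgb hb 7) (h.sgn w4_12 2 8 0 0 (by decide)) (h.sgb hb 6) rfl
  have f12 := eH e5
  have f13 : lv D 28 < lv D 8 :=
    h.lG 9 2 0 8 10 12 (hLL 9) (by decide) (h.pos_of w4_12 8 12 0 0 (by decide))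
  have e6 : Real.exp (lv D 7 + lv D 48) = Real.exp (lv D 4 + lv D 78) + Real.exp (lv D 8 + lv D 47) :=
    h.PX 0 4 7 8 (h.sgn w4_12 0 7 0 0 (by decide)) (h.sgp w4_12 4 8 0 0 (by decide)) (h.sgn w4_12 0 4 0 0 (by decide)) (h.sgb hb 7) (h.sgn w4_12 0 8 0 0 (by decide)) (h.sgp w4_12 4 7 0 0 (by decide)) rfl
  have f14 := eN e6
  have f15 : lv D 56 < lv D 26 + 11317 / 10000 :=
    h.lK 8 2 0 5 6 12 (hLL 8) (by decide) (h.pos_of w4_12 5 12 0 0 (by decide))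
  have f16 : lv D 7 < lv D 78 :=
    h.lG 7 2 0 7 8 10 (hLL 7) (by decide) (h.pos_of w4_12 7 10 0 0 (by decide))
  have f17 : lv D 68 < lv D 28 + 11317 / 10000 :=
    h.lK 9 2 0 6 8 12 (hLL 9) (by decide) (h.pos_of w4_12 6 12 0 0 (by decide))
  linarith [f1, f2, f3, f4, f5, f6, f7, f8, f9, f10, f11, f12, f13, f14, f15, f16, f17, hl2a, hl2b]

end Pool.Agent.H768.PL
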