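import Pool.Agent.H768.PL.Lem3

set_option autoImplicit false
set_option linter.all false

namespace Pool.Agent.H768.PL

open Real

theorem tr_1 {D : ℕ → ℕ → ℝ} (h : Cfg D)
    (hRR : ∀ i, RR D i (i + 2))
    (hb : ∀ i, 0 < D i (i + 1))
    (w2_10 : 0 < D 2 10) : False := by
  have f1 : lv D 69 < lv D 79 :=
    h.lF 6 2 0 6 7 9 (hRR 6) (by decide) (h.pos_of w2_10 6 9 0 0 (by decide))
  have f2 : lv D 27 < lv D 47 :=
    h.lF 3 2 0 2 4 7 (hRR 3) (by decide) (h.pos_of w2_10 2 7 0 0 (by decide))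
  have f3 : lv D 47 < lv D 67 :=
    h.lF 4 2 0 4 6 7 (hRR 4) (by decide) (h.pos_of w2_10 4 7 0 0 (by decide))
  have e1 : Real.exp (lv D 7 + lv D 29) = Real.exp (lv D 2 + lv D 79) + Real.exp (lv D 9 + lv D 27) :=
    h.PX 0 2 7 9 (h.sgn w2_10 0 7 0 0 (by decide)) (h.sgp w2_10 2 9 0 0 (by decide)) (h.sgn w2_10 0 2 0 0 (by decide)) (h.sgp w2_10 7 9 0 0 (by decide)) (h.sgbn hb) (h.sgp w2_10 2 7 0 0 (by decide)) rfl
  have f4 := eN e1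
  have e2 : Real.exp (lv D 27 + lv D 69) = Real.exp (lv D 26 + lv D 79) + Real.exp (lv D 29 + lv D 67) :=
    h.PX 2 6 7 9 (h.sgp w2_10 2 7 0 0 (by decide)) (h.sgp w2_10 6 9 0 0 (by decide)) (h.sgp w2_10 2 6 0 0 (by decide)) (h.sgp w2_10 7 9 0 0 (by decide)) (h.sgp w2_10 2 9 0 0 (by decide)) (h.sgb hb 6) rfl
  have f5 := eH e2
  have f6 : lv D 7 < lv D 9 :=
    h.lF 7 2 0 7 9 10 (hRR 7) (by decide) (h.pos_of w2_10 7 10 0 0 (by decide))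
  have f7 : lv D 69 < lv D 26 + 11317 / 10000 :=
    h.lC 3 2 0 2 6 9 (hRR 3) (by decide) (h.pos_of w2_10 2 9 0 0 (by decide))
  linarith [f1, f2, f3, f4, f5, f6, f7, hl2a, hl2b]

theorem tr_2 {D : ℕ → ℕ → ℝ} (h : Cfg D)
    (hRR : ∀ i, RR D i (i + 2))
    (hb : ∀ i, 0 < D i (i + 1))
    (w3_11 : 0 < D 3 11) : False := by
  have f1 : lv D 38 < lv D 58 :=
    h.lF 4 2 0 3 5 8 (hRR 4) (by decide) (h.pos_of w3_11 3 8 0 0 (by decide))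
  have f2 : lv D 18 < lv D 19 :=
    h.lF 8 2 0 8 9 11 (hRR 8) (by decide) (h.pos_of w3_11 8 11 0 0 (by decide))
  have e1 : Real.exp (lv D 38 + lv D 69) = Real.exp (lv D 36 + lv D 89) + Real.exp (lv D 39 + lv D 68) :=
    h.PX 3 6 8 9 (h.sgp w3_11 3 8 0 0 (by decide)) (h.sgp w3_11 6 9 0 0 (by decide)) (h.sgp w3_11 3 6 0 0 (by decide)) (h.sgb hb 8) (h.sgp w3_11 3 9 0 0 (by decide)) (h.sgp w3_11 6 8 0 0 (by decide)) rfl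
  have f3 := eH e1
  have e2 : Real.exp (lv D 18 + lv D 39) = Real.exp (lv D 13 + lv D 89) + Real.exp (lv D 19 + lv D 38) :=
    h.PX 1 3 8 9 (h.sgn w3_11 1 8 0 0 (by decide)) (h.sgp w3_11 3 9 0 0 (by decide)) (h.sgn w3_11 1 3 0 0 (by decide)) (h.sgb hb 8) (h.sgn w3_11 1 9 0 0 (by decide)) (h.sgp w3_11 3 8 0 0 (by decide)) rfl
  have f4 := eN e2
  have f5 : lv D 69 < lv D 36 + 11317 / 10000 :=
    h.lC 3 2 0 3 6 9 (hRR 3) (by decide) (h.pos_of w3_11 3 9 0 0 (by decide))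
  have f6 : lv D 58 < lv D 68 :=
    h.lF 5 2 0 5 6 8 (hRR 5) (by decide) (h.pos_of w3_11 5 8 0 0 (by decide))
  have f7 : lv D 69 < lv D 89 :=
    h.lF 6 2 0 6 8 9 (hRR 6) (by decide) (h.pos_of w3_11 6 9 0 0 (by decide))
  linarith [f1, f2, f3, f4, f5, f6, f7, hl2a, hl2b]

theorem tr_3 {D : ℕ → ℕ → ℝ} (h : Cfg D)
    (hRR : ∀ i, RR D i (i + 2))
    (hb : ∀ i, 0 < D i (i + 1))
    (w7_15 : 0 < D 7 15) : False := by
  have e1 : Real.exp (lv D 5 + lv D 17) = Real.exp (lv D 1 + lv D 57) + Real.exp (lv D 7 + lv D 15) :=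
    h.PX 0 1 5 7 (h.sgp w7_15 0 5 0 1 (by decide)) (h.sgn w7_15 1 7 0 0 (by decide)) (h.sgb hb 0) (h.sgn w7_15 5 7 0 0 (by decide)) (h.sgn w7_15 0 7 0 0 (by decide)) (h.sgp w7_15 1 5 0 1 (by decide)) rfl
  have f1 := eN e1
  have f2 : lv D 3 < lv D 7 + 11317 / 10000 :=
    h.lC 7 2 0 7 10 13 (hRR 7) (by decide) (h.pos_of w7_15 7 13 0 0 (by decide))
  have e2 : Real.exp (lv D 15 + lv D 27) = Real.exp (lv D 12 + lv D 57) + Real.exp (lv D 17 + lv D 25) :=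
    h.PX 1 2 5 7 (h.sgp w7_15 1 5 0 1 (by decide)) (h.sgn w7_15 2 7 0 0 (by decide)) (h.sgb hb 1) (h.sgn w7_15 5 7 0 0 (by decide)) (h.sgn w7_15 1 7 0 0 (by decide)) (h.sgp w7_15 2 5 0 1 (by decide)) rfl
  have f3 := eN e2
  have e3 : Real.exp (lv D 3 + lv D 25) = Real.exp (lv D 2 + lv D 35) + Real.exp (lv D 5 + lv D 23) :=
    h.PX 0 2 3 5 (h.sgp w7_15 0 3 0 1 (by decide)) (h.sgp w7_15 2 5 0 1 (by decide)) (h.sgp w7_15 0 2 0 1 (by decide)) (h.sgp w7_15 3 5 0 1 (by decide)) (h.sgp w7_15 0 5 0 1 (by decide)) (h.sgb hb 2) rfl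
  have f4 := eH e3
  have f5 : lv D 3 < lv D 23 :=
    h.lF 0 2 0 0 2 3 (hRR 0) (by decide) (h.pos_of w7_15 0 3 0 1 (by decide))
  have f6 : lv D 25 < lv D 35 :=
    h.lF 2 2 0 2 3 5 (hRR 2) (by decide) (h.pos_of w7_15 2 5 0 1 (by decide))
  have f7 : lv D 28 < lv D 2 :=
    h.lF 8 2 0 8 10 12 (hRR 8) (by decide) (h.pos_of w7_15 8 12 0 0 (by decide))
  have f8 : lv D 27 < lv D 28 :=
    h.lF 8 2 0 7 8 12 (hRR 8) (by decide) (h.pos_of w7_15 7 12 0 0 (by decide))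
  linarith [f1, f2, f3, f4, f5, f6, f7, f8, hl2a, hl2b]

theorem tr_4 {D : ℕ → ℕ → ℝ} (h : Cfg D)
    (hRR : ∀ i, RR D i (i + 2))
    (hb : ∀ i, 0 < D i (i + 1))
    (w1_9 : 0 < D 1 9) : False := by
  have f1 : lv D 48 < lv D 14 + 11317 / 10000 :=
    h.lC 1 2 0 1 4 8 (hRR 1) (by decide) (h.pos_of w1_9 1 8 0 0 (by decide))
  have f2 : lv D 59 < lv D 89 :=
    h.lF 6 2 0 5 8 9 (hRR 6) (by decide) (h.pos_of w1_9 5 9 0 0 (by decide))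
  have f3 : lv D 15 < lv D 45 :=
    h.lF 2 2 0 1 4 5 (hRR 2) (by decide) (h.pos_of w1_9 1 5 0 0 (by decide))
  have e1 : Real.exp (lv D 18 + lv D 59) = Real.exp (lv D 15 + lv D 89) + Real.exp (lv D 19 + lv D 58) :=
    h.PX 1 5 8 9 (h.sgp w1_9 1 8 0 0 (by decide)) (h.sgp w1_9 5 9 0 0 (by decide)) (h.sgp w1_9 1 5 0 0 (by decide)) (h.sgb hb 8) (h.sgp w1_9 1 9 0 0 (by decide)) (h.sgp w1_9 5 8 0 0 (by decide)) rfl
  have f4 := eM e1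
  have f5 : lv D 48 < lv D 58 :=
    h.lF 5 2 0 4 5 8 (hRR 5) (by decide) (h.pos_of w1_9 4 8 0 0 (by decide))
  have e2 : Real.exp (lv D 15 + lv D 48) = Real.exp (lv D 14 + lv D 58) + Real.exp (lv D 18 + lv D 45) :=
    h.PX 1 4 5 8 (h.sgp w1_9 1 5 0 0 (by decide)) (h.sgp w1_9 4 8 0 0 (by decide)) (h.sgp w1_9 1 4 0 0 (by decide)) (h.sgp w1_9 5 8 0 0 (by decide)) (h.sgp w1_9 1 8 0 0 (by decide)) (h.sgb hb 4) rfl
  have f6 := eH e2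
  linarith [f1, f2, f3, f4, f5, f6, hl2a, hl2b]

theorem tr_5 {D : ℕ → ℕ → ℝ} (h : Cfg D)
    (hRR : ∀ i, RR D i (i + 2))
    (hb : ∀ i, 0 < D i (i + 1))
    (w7_14 : 0 < D 7 14) : False := by
  have f1 : lv D 3 < lv D 13 :=
    h.lF 0 2 0 0 1 3 (hRR 0) (by decide) (h.pos_of w7_14 0 3 0 1 (by decide))
  have f2 : lv D 14 < lv D 34 :=
    h.lF 1 2 0 1 3 4 (hRR 1) (by decide) (h.pos_of w7_14 1 4 0 1 (by decide))
  have e1 : Real.exp (lv D 4 + lv D 18) = Real.exp (lv D 1 + lv D 48) + Real.exp (lv D 8 + lv D 14) :=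
    h.PX 0 1 4 8 (h.sgp w7_14 0 4 0 1 (by decide)) (h.sgn w7_14 1 8 0 0 (by decide)) (h.sgb hb 0) (h.sgn w7_14 4 8 0 0 (by decide)) (h.sgn w7_14 0 8 0 0 (by decide)) (h.sgp w7_14 1 4 0 1 (by decide)) rfl
  have f3 := eN e1
  have f4 : lv D 7 < lv D 8 :=
    h.lF 7 2 0 7 8 10 (hRR 7) (by decide) (h.pos_of w7_14 7 10 0 0 (by decide))
  have f5 : lv D 3 < lv D 7 + 11317 / 10000 :=
    h.lC 7 2 0 7 10 13 (hRR 7) (by decide) (h.pos_of w7_14 7 13 0 0 (by decide))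
  have e2 : Real.exp (lv D 3 + lv D 14) = Real.exp (lv D 1 + lv D 34) + Real.exp (lv D 4 + lv D 13) :=
    h.PX 0 1 3 4 (h.sgp w7_14 0 3 0 1 (by decide)) (h.sgp w7_14 1 4 0 1 (by decide)) (h.sgb hb 0) (h.sgb hb 3) (h.sgp w7_14 0 4 0 1 (by decide)) (h.sgp w7_14 1 3 0 1 (by decide)) rfl
  have f6 := eH e2
  have f7 : lv D 18 < lv D 1 :=
    h.lF 8 2 0 8 10 11 (hRR 8) (by decide) (h.pos_of w7_14 8 11 0 0 (by decide))
  linarith [f1, f2, f3, f4, f5, f6, f7, hl2a, hl2b]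

theorem tr_6 {D : ℕ → ℕ → ℝ} (h : Cfg D)
    (hRR : ∀ i, RR D i (i + 2))
    (hb : ∀ i, 0 < D i (i + 1))
    (w1_8 : 0 < D 1 8)
    (w5_8 : 0 < D 5 8) : False := by
  have f1 : lv D 58 < lv D 78 :=
    h.lF 5 2 0 5 7 8 (hRR 5) (by decide) w5_8
  have e1 : Real.exp (lv D 15 + lv D 48) = Real.exp (lv D 14 + lv D 58) + Real.exp (lv D 18 + lv D 45) :=
    h.PX 1 4 5 8 (h.sgp w1_8 1 5 0 0 (by decide)) (h.sgp w1_8 4 8 0 0 (by decide)) (h.sgp w1_8 1 4 0 0 (by decide)) (h.sgp w5_8 5 8 0 0 (by decide)) (h.sgp w1_8 1 8 0 0 (by decide)) (h.sgb hb 4) rfl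
  have f2 := eM e1
  have f3 : lv D 15 < lv D 45 :=
    h.lF 2 2 0 1 4 5 (hRR 2) (by decide) (h.pos_of w1_8 1 5 0 0 (by decide))
  have f4 : lv D 47 < lv D 57 :=
    h.lF 4 2 0 4 5 7 (hRR 4) (by decide) (h.pos_of w1_8 4 7 0 0 (by decide))
  have e2 : Real.exp (lv D 47 + lv D 58) = Real.exp (lv D 45 + lv D 78) + Real.exp (lv D 48 + lv D 57) :=
    h.PX 4 5 7 8 (h.sgp w1_8 4 7 0 0 (by decide)) (h.sgp w5_8 5 8 0 0 (by decide)) (h.sgb hb 4) (h.sgb hb 7) (h.sgp w1_8 4 8 0 0 (by decide)) (h.sgp w5_8 5 7 0 0 (by decide)) rfl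
  have f5 := eH e2
  have f6 : lv D 47 < lv D 14 + 11317 / 10000 :=
    h.lC 1 2 0 1 4 7 (hRR 1) (by decide) (h.pos_of w1_8 1 7 0 0 (by decide))
  linarith [f1, f2, f3, f4, f5, f6, hl2a, hl2b]

theorem tr_7 {D : ℕ → ℕ → ℝ} (h : Cfg D)
    (hRR : ∀ i, RR D i (i + 2))
    (hb : ∀ i, 0 < D i (i + 1))
    (w0_7 : 0 < D 0 7) : False := by
  have f1 : lv D 36 < lv D 3 + 11317 / 10000 :=
    h.lC 0 2 0 0 3 6 (hRR 0) (by decide) (h.pos_of w0_7 0 6 0 0 (by decide))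
  have f2 : lv D 14 < lv D 34 :=
    h.lF 1 2 0 1 3 4 (hRR 1) (by decide) (h.pos_of w0_7 1 4 0 0 (by decide))
  have f3 : lv D 4 < lv D 14 :=
    h.lF 1 2 0 0 1 4 (hRR 1) (by decide) (h.pos_of w0_7 0 4 0 0 (by decide))
  have e1 : Real.exp (lv D 36 + lv D 47) = Real.exp (lv D 34 + lv D 67) + Real.exp (lv D 37 + lv D 46) :=
    h.PX 3 4 6 7 (h.sgp w0_7 3 6 0 0 (by decide)) (h.sgp w0_7 4 7 0 0 (by decide)) (h.sgb hb 3) (h.sgb hb 6) (h.sgp w0_7 3 7 0 0 (by decide)) (h.sgp w0_7 4 6 0 0 (by decide)) rfl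
  have f4 := eH e1
  have f5 : lv D 47 < lv D 67 :=
    h.lF 4 2 0 4 6 7 (hRR 4) (by decide) (h.pos_of w0_7 4 7 0 0 (by decide))
  have e2 : Real.exp (lv D 4 + lv D 37) = Real.exp (lv D 3 + lv D 47) + Real.exp (lv D 7 + lv D 34) :=
    h.PX 0 3 4 7 (h.sgp w0_7 0 4 0 0 (by decide)) (h.sgp w0_7 3 7 0 0 (by decide)) (h.sgp w0_7 0 3 0 0 (by decide)) (h.sgp w0_7 4 7 0 0 (by decide)) (h.sgp w0_7 0 7 0 0 (by decide)) (h.sgb hb 3) rfl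
  have f6 := eM e2
  have f7 : lv D 36 < lv D 46 :=
    h.lF 3 2 0 3 4 6 (hRR 3) (by decide) (h.pos_of w0_7 3 6 0 0 (by decide))
  linarith [f1, f2, f3, f4, f5, f6, f7, hl2a, hl2b]

theorem tr_8 {D : ℕ → ℕ → ℝ} (h : Cfg D)
    (hRR : ∀ i, RR D i (i + 2))
    (hb : ∀ i, 0 < D i (i + 1))
    (w3_10 : 0 < D 3 10) : False := by
  have f1 : lv D 69 < lv D 36 + 11317 / 10000 :=
    h.lC 3 2 0 3 6 9 (hRR 3) (by decide) (h.pos_of w3_10 3 9 0 0 (by decide))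
  have e1 : Real.exp (lv D 37 + lv D 69) = Real.exp (lv D 36 + lv D 79) + Real.exp (lv D 39 + lv D 67) :=
    h.PX 3 6 7 9 (h.sgp w3_10 3 7 0 0 (by decide)) (h.sgp w3_10 6 9 0 0 (by decide)) (h.sgp w3_10 3 6 0 0 (by decide)) (h.sgp w3_10 7 9 0 0 (by decide)) (h.sgp w3_10 3 9 0 0 (by decide)) (h.sgb hb 6) rfl
  have f2 := eH e1
  have f3 : lv D 69 < lv D 79 :=
    h.lF 6 2 0 6 7 9 (hRR 6) (by decide) (h.pos_of w3_10 6 9 0 0 (by decide))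
  have e2 : Real.exp (lv D 8 + lv D 39) = Real.exp (lv D 3 + lv D 89) + Real.exp (lv D 9 + lv D 38) :=
    h.PX 0 3 8 9 (h.sgn w3_10 0 8 0 0 (by decide)) (h.sgp w3_10 3 9 0 0 (by decide)) (h.sgn w3_10 0 3 0 0 (by decide)) (h.sgb hb 8) (h.sgbn hb) (h.sgp w3_10 3 8 0 0 (by decide)) rfl
  have f4 := eN e2
  have e3 : Real.exp (lv D 7 + lv D 38) = Real.exp (lv D 3 + lv D 78) + Real.exp (lv D 8 + lv D 37) :=
    h.PX 0 3 7 8 (h.sgn w3_10 0 7 0 0 (by decide)) (h.sgp w3_10 3 8 0 0 (by decide)) (h.sgn w3_10 0 3 0 0 (by decide)) (h.sgb hb 7) (h.sgn w3_10 0 8 0 0 (by decide)) (h.sgp w3_10 3 7 0 0 (by decide)) rfl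
  have f5 := eN e3
  have f6 : lv D 7 < lv D 9 :=
    h.lF 7 2 0 7 9 10 (hRR 7) (by decide) (h.pos_of w3_10 7 10 0 0 (by decide))
  have f7 : lv D 37 < lv D 67 :=
    h.lF 4 2 0 3 6 7 (hRR 4) (by decide) (h.pos_of w3_10 3 7 0 0 (by decide))
  linarith [f1, f2, f3, f4, f5, f6, f7, hl2a, hl2b]

theorem tr_9 {D : ℕ → ℕ → ℝ} (h : Cfg D)
    (hRR : ∀ i, RR D i (i + 2))
    (hb : ∀ i, 0 < D i (i + 1))
    (w5_12 : 0 < D 5 12) : False := by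
  have f1 : lv D 18 < lv D 58 + 11317 / 10000 :=
    h.lC 5 2 0 5 8 11 (hRR 5) (by decide) (h.pos_of w5_12 5 11 0 0 (by decide))
  have f2 : lv D 18 < lv D 19 :=
    h.lF 8 2 0 8 9 11 (hRR 8) (by decide) (h.pos_of w5_12 8 11 0 0 (by decide))
  have e1 : Real.exp (lv D 28 + lv D 69) = Real.exp (lv D 26 + lv D 89) + Real.exp (lv D 29 + lv D 68) :=
    h.PX 2 6 8 9 (h.sgn w5_12 2 8 0 0 (by decide)) (h.sgp w5_12 6 9 0 0 (by decide)) (h.sgn w5_12 2 6 0 0 (by decide)) (h.sgb hb 8) (h.sgn w5_12 2 9 0 0 (by decide)) (h.sgp w5_12 6 8 0 0 (by decide)) rfl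
  have f3 := eN e1
  have f4 : lv D 29 < lv D 12 :=
    h.lF 9 2 0 9 11 12 (hRR 9) (by decide) (h.pos_of w5_12 9 12 0 0 (by decide))
  have f5 : lv D 58 < lv D 68 :=
    h.lF 5 2 0 5 6 8 (hRR 5) (by decide) (h.pos_of w5_12 5 8 0 0 (by decide))
  have f6 : lv D 69 < lv D 89 :=
    h.lF 6 2 0 6 8 9 (hRR 6) (by decide) (h.pos_of w5_12 6 9 0 0 (by decide))
  have e2 : Real.exp (lv D 18 + lv D 29) = Real.exp (lv D 12 + lv D 89) + Real.exp (lv D 19 + lv D 28) :=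
    h.PX 1 2 8 9 (h.sgn w5_12 1 8 0 0 (by decide)) (h.sgn w5_12 2 9 0 0 (by decide)) (h.sgb hb 1) (h.sgb hb 8) (h.sgn w5_12 1 9 0 0 (by decide)) (h.sgn w5_12 2 8 0 0 (by decide)) rfl
  have f7 := eH e2
  linarith [f1, f2, f3, f4, f5, f6, f7, hl2a, hl2b]

theorem tr_10 {D : ℕ → ℕ → ℝ} (h : Cfg D)
    (hRR : ∀ i, RR D i (i + 2))
    (hb : ∀ i, 0 < D i (i + 1))
    (w9_16 : 0 < D 9 16) : False := by
  have f1 : lv D 25 < lv D 29 + 11317 / 10000 :=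
    h.lC 9 2 0 9 12 15 (hRR 9) (by decide) (h.pos_of w9_16 9 15 0 0 (by decide))
  have e1 : Real.exp (lv D 26 + lv D 39) = Real.exp (lv D 23 + lv D 69) + Real.exp (lv D 29 + lv D 36) :=
    h.PX 2 3 6 9 (h.sgp w9_16 2 6 0 1 (by decide)) (h.sgn w9_16 3 9 0 0 (by decide)) (h.sgb hb 2) (h.sgn w9_16 6 9 0 0 (by decide)) (h.sgn w9_16 2 9 0 0 (by decide)) (h.sgp w9_16 3 6 0 1 (by decide)) rfl
  have f2 := eN e1
  have f3 : lv D 36 < lv D 56 :=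
    h.lF 3 2 0 3 5 6 (hRR 3) (by decide) (h.pos_of w9_16 3 6 0 1 (by decide))
  have e2 : Real.exp (lv D 25 + lv D 36) = Real.exp (lv D 23 + lv D 56) + Real.exp (lv D 26 + lv D 35) :=
    h.PX 2 3 5 6 (h.sgp w9_16 2 5 0 1 (by decide)) (h.sgp w9_16 3 6 0 1 (by decide)) (h.sgb hb 2) (h.sgb hb 5) (h.sgp w9_16 2 6 0 1 (by decide)) (h.sgp w9_16 3 5 0 1 (by decide)) rfl
  have f4 := eH e2
  have f5 : lv D 39 < lv D 23 :=
    h.lF 0 2 1 9 12 13 (hRR 0) (by decide) (h.pos_of w9_16 9 13 0 0 (by decide))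
  have f6 : lv D 25 < lv D 35 :=
    h.lF 2 2 0 2 3 5 (hRR 2) (by decide) (h.pos_of w9_16 2 5 0 1 (by decide))
  linarith [f1, f2, f3, f4, f5, f6, hl2a, hl2b]

theorem tr_11 {D : ℕ → ℕ → ℝ} (h : Cfg D)
    (hRR : ∀ i, RR D i (i + 2))
    (hb : ∀ i, 0 < D i (i + 1))
    (w2_8 : 0 < D 2 8)
    (w3_9 : 0 < D 3 9)
    (w5_8 : 0 < D 5 8)
    (w6_9 : 0 < D 6 9) : False := by
  have f1 : lv D 58 < lv D 68 :=
    h.lF 5 2 0 5 6 8 (hRR 5) (by decide) w5_8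
  have f2 : lv D 58 < lv D 25 + 11317 / 10000 :=
    h.lC 2 2 0 2 5 8 (hRR 2) (by decide) w2_8
  have f3 : lv D 69 < lv D 89 :=
    h.lF 6 2 0 6 8 9 (hRR 6) (by decide) w6_9
  have e1 : Real.exp (lv D 58 + lv D 69) = Real.exp (lv D 56 + lv D 89) + Real.exp (lv D 59 + lv D 68) :=
    h.PX 5 6 8 9 (h.sgp w5_8 5 8 0 0 (by decide)) (h.sgp w6_9 6 9 0 0 (by decide)) (h.sgb hb 5) (h.sgb hb 8) (h.sgp w3_9 5 9 0 0 (by decide)) (h.sgp w5_8 6 8 0 0 (by decide)) rfl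
  have f4 := eH e1
  have e2 : Real.exp (lv D 36 + lv D 58) = Real.exp (lv D 35 + lv D 68) + Real.exp (lv D 38 + lv D 56) :=
    h.PX 3 5 6 8 (h.sgp w3_9 3 6 0 0 (by decide)) (h.sgp w5_8 5 8 0 0 (by decide)) (h.sgp w3_9 3 5 0 0 (by decide)) (h.sgp w5_8 6 8 0 0 (by decide)) (h.sgp w3_9 3 8 0 0 (by decide)) (h.sgb hb 5) rfl
  have f5 := eH e2
  have f6 : lv D 25 < lv D 35 :=
    h.lF 2 2 0 2 3 5 (hRR 2) (by decide) (h.pos_of w2_8 2 5 0 0 (by decide))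
  have e3 : Real.exp (lv D 38 + lv D 59) = Real.exp (lv D 35 + lv D 89) + Real.exp (lv D 39 + lv D 58) :=
    h.PX 3 5 8 9 (h.sgp w3_9 3 8 0 0 (by decide)) (h.sgp w3_9 5 9 0 0 (by decide)) (h.sgp w3_9 3 5 0 0 (by decide)) (h.sgb hb 8) (h.sgp w3_9 3 9 0 0 (by decide)) (h.sgp w5_8 5 8 0 0 (by decide)) rfl
  have f7 := eM e3
  have f8 : lv D 36 < lv D 56 :=
    h.lF 3 2 0 3 5 6 (hRR 3) (by decide) (h.pos_of w3_9 3 6 0 0 (by decide))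
  linarith [f1, f2, f3, f4, f5, f6, f7, f8, hl2a, hl2b]

theorem tr_12 {D : ℕ → ℕ → ℝ} (h : Cfg D)
    (hRR : ∀ i, RR D i (i + 2))
    (hb : ∀ i, 0 < D i (i + 1))
    (w1_5 : 0 < D 1 5)
    (w3_9 : 0 < D 3 9)
    (w8_11 : 0 < D 8 11)
    (w8_12 : 0 < D 8 12)
    (w9_11 : 0 < D 9 11) : False := by
  have e1 : Real.exp (lv D 14 + lv D 59) = Real.exp (lv D 15 + lv D 49) + Real.exp (lv D 19 + lv D 45) :=
    h.PY 1 4 5 9 (h.sgp w1_5 1 5 0 0 (by decide)) (h.sgp w3_9 4 9 0 0 (by decide)) (h.sgp w1_5 1 4 0 0 (by decide)) (h.sgp w3_9 5 9 0 0 (by decide)) (h.sgn w9_11 1 9 0 0 (by decide)) (h.sgb hb 4) rfl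
  have f1 := eN e1
  have f2 : lv D 18 < lv D 19 :=
    h.lF 8 2 0 8 9 11 (hRR 8) (by decide) w8_11
  have e2 : Real.exp (lv D 18 + lv D 25) = Real.exp (lv D 15 + lv D 28) + Real.exp (lv D 12 + lv D 58) :=
    h.PZ 1 2 5 8 (h.sgp w1_5 1 5 0 0 (by decide)) (h.sgn w8_12 2 8 0 0 (by decide)) (h.sgb hb 1) (h.sgp w3_9 5 8 0 0 (by decide)) (h.sgn w8_11 1 8 0 0 (by decide)) (h.sgp w1_5 2 5 0 0 (by decide)) rfl
  have f3 := eN e2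
  have f4 : lv D 69 < lv D 89 :=
    h.lF 6 2 0 6 8 9 (hRR 6) (by decide) (h.pos_of w3_9 6 9 0 0 (by decide))
  have e3 : Real.exp (lv D 58 + lv D 69) = Real.exp (lv D 56 + lv D 89) + Real.exp (lv D 59 + lv D 68) :=
    h.PX 5 6 8 9 (h.sgp w3_9 5 8 0 0 (by decide)) (h.sgp w3_9 6 9 0 0 (by decide)) (h.sgb hb 5) (h.sgb hb 8) (h.sgp w3_9 5 9 0 0 (by decide)) (h.sgp w3_9 6 8 0 0 (by decide)) rfl
  have f5 := eN e3
  have e4 : Real.exp (lv D 29 + lv D 48) = Real.exp (lv D 28 + lv D 49) + Real.exp (lv D 24 + lv D 89) :=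
    h.PZ 2 4 8 9 (h.sgn w8_12 2 8 0 0 (by decide)) (h.sgp w3_9 4 9 0 0 (by decide)) (h.sgp w1_5 2 4 0 0 (by decide)) (h.sgb hb 8) (h.sgn w8_12 2 9 0 0 (by decide)) (h.sgp w3_9 4 8 0 0 (by decide)) rfl
  have f6 := eN e4
  have f7 : lv D 29 < lv D 12 :=
    h.lF 9 2 0 9 11 12 (hRR 9) (by decide) (h.pos_of w8_12 9 12 0 0 (by decide))
  have f8 : lv D 25 < lv D 45 :=
    h.lF 2 2 0 2 4 5 (hRR 2) (by decide) (h.pos_of w1_5 2 5 0 0 (by decide))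
  have f9 : lv D 48 < lv D 68 :=
    h.lF 4 2 0 4 6 8 (hRR 4) (by decide) (h.pos_of w3_9 4 8 0 0 (by decide))
  have f10 : lv D 14 < lv D 24 :=
    h.lF 1 2 0 1 2 4 (hRR 1) (by decide) (h.pos_of w1_5 1 4 0 0 (by decide))
  linarith [f1, f2, f3, f4, f5, f6, f7, f8, f9, f10, hl2a, hl2b]

theorem tr_13 {D : ℕ → ℕ → ℝ} (h : Cfg D)
    (hRR : ∀ i, RR D i (i + 2))
    (hb : ∀ i, 0 < D i (i + 1))
    (w2_5 : 0 < D 2 5)
    (w2_6 : 0 < D 2 6)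
    (w3_6 : 0 < D 3 6)
    (w3_9 : 0 < D 3 9)
    (w5_11 : 0 < D 5 11) : False := by
  have e1 : Real.exp (lv D 17 + lv D 58) = Real.exp (lv D 15 + lv D 78) + Real.exp (lv D 18 + lv D 57) :=
    h.PX 1 5 7 8 (h.sgn w5_11 1 7 0 0 (by decide)) (h.sgp w5_11 5 8 0 0 (by decide)) (h.sgn w5_11 1 5 0 0 (by decide)) (h.sgb hb 7) (h.sgn w5_11 1 8 0 0 (by decide)) (h.sgp w5_11 5 7 0 0 (by decide)) rfl
  have f1 := eN e1
  have f2 : lv D 17 < lv D 19 :=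
    h.lF 8 2 0 7 9 11 (hRR 8) (by decide) (h.pos_of w5_11 7 11 0 0 (by decide))
  have f3 : lv D 36 < lv D 56 :=
    h.lF 3 2 0 3 5 6 (hRR 3) (by decide) w3_6
  have f4 : lv D 58 < lv D 78 :=
    h.lF 5 2 0 5 7 8 (hRR 5) (by decide) (h.pos_of w5_11 5 8 0 0 (by decide))
  have e2 : Real.exp (lv D 17 + lv D 69) = Real.exp (lv D 16 + lv D 79) + Real.exp (lv D 19 + lv D 67) :=
    h.PX 1 6 7 9 (h.sgn w5_11 1 7 0 0 (by decide)) (h.sgp w5_11 6 9 0 0 (by decide)) (h.sgn w5_11 1 6 0 0 (by decide)) (h.sgp w5_11 7 9 0 0 (by decide)) (h.sgn w5_11 1 9 0 0 (by decide)) (h.sgb hb 6) rfl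
  have f5 := eH e2
  have e3 : Real.exp (lv D 18 + lv D 79) = Real.exp (lv D 17 + lv D 89) + Real.exp (lv D 19 + lv D 78) :=
    h.PX 1 7 8 9 (h.sgn w5_11 1 8 0 0 (by decide)) (h.sgp w5_11 7 9 0 0 (by decide)) (h.sgn w5_11 1 7 0 0 (by decide)) (h.sgb hb 8) (h.sgn w5_11 1 9 0 0 (by decide)) (h.sgb hb 7) rfl
  have f6 := eH e3
  have f7 : lv D 25 < lv D 35 :=
    h.lF 2 2 0 2 3 5 (hRR 2) (by decide) w2_5
  have f8 : lv D 69 < lv D 89 :=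
    h.lF 6 2 0 6 8 9 (hRR 6) (by decide) (h.pos_of w5_11 6 9 0 0 (by decide))
  have f9 : lv D 79 < lv D 37 + 11317 / 10000 :=
    h.lC 3 2 0 3 7 9 (hRR 3) (by decide) w3_9
  have f10 : lv D 37 < lv D 67 :=
    h.lF 4 2 0 3 6 7 (hRR 4) (by decide) (h.pos_of w3_9 3 7 0 0 (by decide))
  have e4 : Real.exp (lv D 17 + lv D 68) = Real.exp (lv D 16 + lv D 78) + Real.exp (lv D 18 + lv D 67) :=
    h.PX 1 6 7 8 (h.sgn w5_11 1 7 0 0 (by decide)) (h.sgp w3_9 6 8 0 0 (by decide)) (h.sgn w5_11 1 6 0 0 (by decide)) (h.sgb hb 7) (h.sgn w5_11 1 8 0 0 (by decide)) (h.sgb hb 6) rfl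
  have f11 := eH e4
  have f12 : lv D 56 < lv D 25 + 11317 / 10000 :=
    h.lC 2 2 0 2 5 6 (hRR 2) (by decide) w2_6
  have f13 : lv D 68 < lv D 36 + 11317 / 10000 :=
    h.lC 3 2 0 3 6 8 (hRR 3) (by decide) (h.pos_of w3_9 3 8 0 0 (by decide))
  have e5 : Real.exp (lv D 16 + lv D 58) = Real.exp (lv D 15 + lv D 68) + Real.exp (lv D 18 + lv D 56) :=
    h.PX 1 5 6 8 (h.sgn w5_11 1 6 0 0 (by decide)) (h.sgp w3_9 5 8 0 0 (by decide)) (h.sgn w5_11 1 5 0 0 (by decide)) (h.sgp w3_9 6 8 0 0 (by decide)) (h.sgn w5_11 1 8 0 0 (by decide)) (h.sgb hb 5) rfl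
  have f14 := eN e5
  have e6 : Real.exp (lv D 36 + lv D 57) = Real.exp (lv D 35 + lv D 67) + Real.exp (lv D 37 + lv D 56) :=
    h.PX 3 5 6 7 (h.sgp w3_6 3 6 0 0 (by decide)) (h.sgp w3_9 5 7 0 0 (by decide)) (h.sgp w3_6 3 5 0 0 (by decide)) (h.sgb hb 6) (h.sgp w3_9 3 7 0 0 (by decide)) (h.sgb hb 5) rfl
  have f15 := eH e6
  linarith [f1, f2, f3, f4, f5, f6, f7, f8, f9, f10, f11, f12, f13, f14, f15, hl2a, hl2b]

theorem tr_14 {D : ℕ → ℕ → ℝ} (h : Cfg D)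
    (hRR : ∀ i, RR D i (i + 2))
    (hb : ∀ i, 0 < D i (i + 1))
    (w0_3 : 0 < D 0 3)
    (w0_5 : 0 < D 0 5)
    (w1_7 : 0 < D 1 7) : False := by
  have f1 : lv D 46 < lv D 14 + 11317 / 10000 :=
    h.lC 1 2 0 1 4 6 (hRR 1) (by decide) (h.pos_of w1_7 1 6 0 0 (by decide))
  have f2 : lv D 3 < lv D 13 :=
    h.lF 0 2 0 0 1 3 (hRR 0) (by decide) w0_3
  have e1 : Real.exp (lv D 36 + lv D 47) = Real.exp (lv D 34 + lv D 67) + Real.exp (lv D 37 + lv D 46) :=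
    h.PX 3 4 6 7 (h.sgp w1_7 3 6 0 0 (by decide)) (h.sgp w1_7 4 7 0 0 (by decide)) (h.sgb hb 3) (h.sgb hb 6) (h.sgp w1_7 3 7 0 0 (by decide)) (h.sgp w1_7 4 6 0 0 (by decide)) rfl
  have f3 := eH e1
  have f4 : lv D 15 < lv D 45 :=
    h.lF 2 2 0 1 4 5 (hRR 2) (by decide) (h.pos_of w1_7 1 5 0 0 (by decide))
  have e2 : Real.exp (lv D 14 + lv D 35) = Real.exp (lv D 13 + lv D 45) + Real.exp (lv D 15 + lv D 34) :=
    h.PX 1 3 4 5 (h.sgp w1_7 1 4 0 0 (by decide)) (h.sgp w1_7 3 5 0 0 (by decide)) (h.sgp w0_3 1 3 0 0 (by decide)) (h.sgb hb 4) (h.sgp w1_7 1 5 0 0 (by decide)) (h.sgb hb 3) rfl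
  have f5 := eH e2
  have e3 : Real.exp (lv D 15 + lv D 36) = Real.exp (lv D 13 + lv D 56) + Real.exp (lv D 16 + lv D 35) :=
    h.PX 1 3 5 6 (h.sgp w1_7 1 5 0 0 (by decide)) (h.sgp w1_7 3 6 0 0 (by decide)) (h.sgp w0_3 1 3 0 0 (by decide)) (h.sgb hb 5) (h.sgp w1_7 1 6 0 0 (by decide)) (h.sgp w1_7 3 5 0 0 (by decide)) rfl
  have f6 := eH e3
  have f7 : lv D 47 < lv D 67 :=
    h.lF 4 2 0 4 6 7 (hRR 4) (by decide) (h.pos_of w1_7 4 7 0 0 (by decide))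
  have f8 : lv D 36 < lv D 56 :=
    h.lF 3 2 0 3 5 6 (hRR 3) (by decide) (h.pos_of w1_7 3 6 0 0 (by decide))
  have e4 : Real.exp (lv D 16 + lv D 47) = Real.exp (lv D 14 + lv D 67) + Real.exp (lv D 17 + lv D 46) :=
    h.PX 1 4 6 7 (h.sgp w1_7 1 6 0 0 (by decide)) (h.sgp w1_7 4 7 0 0 (by decide)) (h.sgp w1_7 1 4 0 0 (by decide)) (h.sgb hb 6) (h.sgp w1_7 1 7 0 0 (by decide)) (h.sgp w1_7 4 6 0 0 (by decide)) rfl
  have f9 := eM e4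
  have e5 : Real.exp (lv D 14 + lv D 37) = Real.exp (lv D 13 + lv D 47) + Real.exp (lv D 17 + lv D 34) :=
    h.PX 1 3 4 7 (h.sgp w1_7 1 4 0 0 (by decide)) (h.sgp w1_7 3 7 0 0 (by decide)) (h.sgp w0_3 1 3 0 0 (by decide)) (h.sgp w1_7 4 7 0 0 (by decide)) (h.sgp w1_7 1 7 0 0 (by decide)) (h.sgb hb 3) rfl
  have f10 := eM e5
  have f11 : lv D 35 < lv D 3 + 11317 / 10000 :=
    h.lC 0 2 0 0 3 5 (hRR 0) (by decide) w0_5
  have e6 : Real.exp (lv D 35 + lv D 46) = Real.exp (lv D 34 + lv D 56) + Real.exp (lv D 36 + lv D 45) :=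
    h.PX 3 4 5 6 (h.sgp w0_5 3 5 0 0 (by decide)) (h.sgp w1_7 4 6 0 0 (by decide)) (h.sgb hb 3) (h.sgb hb 5) (h.sgp w1_7 3 6 0 0 (by decide)) (h.sgb hb 4) rfl
  have f12 := eH e6
  have f13 : lv D 14 < lv D 34 :=
    h.lF 1 2 0 1 3 4 (hRR 1) (by decide) (h.pos_of w0_5 1 4 0 0 (by decide))
  linarith [f1, f2, f3, f4, f5, f6, f7, f8, f9, f10, f11, f12, f13, hl2a, hl2b]

theorem tr_15 {D : ℕ → ℕ → ℝ} (h : Cfg D)
    (hRR : ∀ i, RR D i (i + 2))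
    (hb : ∀ i, 0 < D i (i + 1))
    (w0_4 : 0 < D 0 4)
    (w0_5 : 0 < D 0 5)
    (w4_7 : 0 < D 4 7)
    (w4_8 : 0 < D 4 8)
    (w7_10 : 0 < D 7 10)
    (w7_11 : 0 < D 7 11)
    (w8_11 : 0 < D 8 11) : False := by
  have f1 : lv D 18 < lv D 1 :=
    h.lF 8 2 0 8 10 11 (hRR 8) (by decide) w8_11
  have f2 : lv D 47 < lv D 57 :=
    h.lF 4 2 0 4 5 7 (hRR 4) (by decide) w4_7
  have f3 : lv D 4 < lv D 14 :=
    h.lF 1 2 0 0 1 4 (hRR 1) (by decide) w0_4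
  have f4 : lv D 15 < lv D 45 :=
    h.lF 2 2 0 1 4 5 (hRR 2) (by decide) (h.pos_of w0_5 1 5 0 0 (by decide))
  have f5 : lv D 7 < lv D 8 :=
    h.lF 7 2 0 7 8 10 (hRR 7) (by decide) w7_10
  have e1 : Real.exp (lv D 18 + lv D 47) = Real.exp (lv D 17 + lv D 48) + Real.exp (lv D 14 + lv D 78) :=
    h.PZ 1 4 7 8 (h.sgn w7_11 1 7 0 0 (by decide)) (h.sgp w4_8 4 8 0 0 (by decide)) (h.sgp w0_4 1 4 0 0 (by decide)) (h.sgb hb 7) (h.sgn w8_11 1 8 0 0 (by decide)) (h.sgp w4_7 4 7 0 0 (by decide)) rfl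
  have f6 := eN e1
  have e2 : Real.exp (lv D 4 + lv D 58) = Real.exp (lv D 5 + lv D 48) + Real.exp (lv D 8 + lv D 45) :=
    h.PY 0 4 5 8 (h.sgp w0_5 0 5 0 0 (by decide)) (h.sgp w4_8 4 8 0 0 (by decide)) (h.sgp w0_4 0 4 0 0 (by decide)) (h.sgp w4_8 5 8 0 0 (by decide)) (h.sgn w8_11 0 8 0 0 (by decide)) (h.sgb hb 4) rfl
  have f7 := eN e2
  have f8 : lv D 58 < lv D 78 :=
    h.lF 5 2 0 5 7 8 (hRR 5) (by decide) (h.pos_of w4_8 5 8 0 0 (by decide))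
  have e3 : Real.exp (lv D 7 + lv D 15) = Real.exp (lv D 5 + lv D 17) + Real.exp (lv D 1 + lv D 57) :=
    h.PZ 0 1 5 7 (h.sgp w0_5 0 5 0 0 (by decide)) (h.sgn w7_11 1 7 0 0 (by decide)) (h.sgb hb 0) (h.sgp w4_7 5 7 0 0 (by decide)) (h.sgn w7_10 0 7 0 0 (by decide)) (h.sgp w0_5 1 5 0 0 (by decide)) rfl
  have f9 := eN e3
  linarith [f1, f2, f3, f4, f5, f6, f7, f8, f9, hl2a, hl2b]

theorem tr_16 {D : ℕ → ℕ → ℝ} (h : Cfg D)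
    (hRR : ∀ i, RR D i (i + 2))
    (hb : ∀ i, 0 < D i (i + 1))
    (w0_5 : 0 < D 0 5)
    (w3_5 : 0 < D 3 5)
    (w8_14 : 0 < D 8 14) : False := by
  have f1 : lv D 13 < lv D 18 + 11317 / 10000 :=
    h.lC 8 2 0 8 11 13 (hRR 8) (by decide) (h.pos_of w8_14 8 13 0 0 (by decide))
  have f2 : lv D 24 < lv D 29 + 11317 / 10000 :=
    h.lC 9 2 0 9 12 14 (hRR 9) (by decide) (h.pos_of w8_14 9 14 0 0 (by decide))
  have f3 : lv D 3 < lv D 23 :=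
    h.lF 0 2 0 0 2 3 (hRR 0) (by decide) (h.pos_of w8_14 0 3 0 1 (by decide))
  have e1 : Real.exp (lv D 14 + lv D 35) = Real.exp (lv D 13 + lv D 45) + Real.exp (lv D 15 + lv D 34) :=
    h.PX 1 3 4 5 (h.sgp w8_14 1 4 0 1 (by decide)) (h.sgp w3_5 3 5 0 0 (by decide)) (h.sgp w8_14 1 3 0 1 (by decide)) (h.sgb hb 4) (h.sgp w0_5 1 5 0 0 (by decide)) (h.sgb hb 3) rfl
  have f4 := eH e1
  have e2 : Real.exp (lv D 3 + lv D 15) = Real.exp (lv D 1 + lv D 35) + Real.exp (lv D 5 + lv D 13) :=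
    h.PX 0 1 3 5 (h.sgp w0_5 0 3 0 0 (by decide)) (h.sgp w0_5 1 5 0 0 (by decide)) (h.sgb hb 0) (h.sgp w3_5 3 5 0 0 (by decide)) (h.sgp w0_5 0 5 0 0 (by decide)) (h.sgp w0_5 1 3 0 0 (by decide)) rfl
  have f5 := eM e2
  have e3 : Real.exp (lv D 14 + lv D 25) = Real.exp (lv D 12 + lv D 45) + Real.exp (lv D 15 + lv D 24) :=
    h.PX 1 2 4 5 (h.sgp w0_5 1 4 0 0 (by decide)) (h.sgp w0_5 2 5 0 0 (by decide)) (h.sgb hb 1) (h.sgb hb 4) (h.sgp w0_5 1 5 0 0 (by decide)) (h.sgp w0_5 2 4 0 0 (by decide)) rfl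
  have f6 := eH e3
  have f7 : lv D 18 < lv D 1 :=
    h.lF 8 2 0 8 10 11 (hRR 8) (by decide) (h.pos_of w8_14 8 11 0 0 (by decide))
  have e4 : Real.exp (lv D 24 + lv D 35) = Real.exp (lv D 23 + lv D 45) + Real.exp (lv D 25 + lv D 34) :=
    h.PX 2 3 4 5 (h.sgp w0_5 2 4 0 0 (by decide)) (h.sgp w3_5 3 5 0 0 (by decide)) (h.sgb hb 2) (h.sgb hb 4) (h.sgp w0_5 2 5 0 0 (by decide)) (h.sgb hb 3) rfl
  have f8 := eH e4
  have e5 : Real.exp (lv D 13 + lv D 25) = Real.exp (lv D 12 + lv D 35) + Real.exp (lv D 15 + lv D 23) :=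
    h.PX 1 2 3 5 (h.sgp w0_5 1 3 0 0 (by decide)) (h.sgp w0_5 2 5 0 0 (by decide)) (h.sgb hb 1) (h.sgp w3_5 3 5 0 0 (by decide)) (h.sgp w0_5 1 5 0 0 (by decide)) (h.sgb hb 2) rfl
  have f9 := eH e5
  have f10 : lv D 14 < lv D 34 :=
    h.lF 1 2 0 1 3 4 (hRR 1) (by decide) (h.pos_of w0_5 1 4 0 0 (by decide))
  have f11 : lv D 29 < lv D 12 :=
    h.lF 9 2 0 9 11 12 (hRR 9) (by decide) (h.pos_of w8_14 9 12 0 0 (by decide))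
  have e6 : Real.exp (lv D 13 + lv D 24) = Real.exp (lv D 12 + lv D 34) + Real.exp (lv D 14 + lv D 23) :=
    h.PX 1 2 3 4 (h.sgp w0_5 1 3 0 0 (by decide)) (h.sgp w0_5 2 4 0 0 (by decide)) (h.sgb hb 1) (h.sgb hb 3) (h.sgp w0_5 1 4 0 0 (by decide)) (h.sgb hb 2) rfl
  have f12 := eH e6
  have f13 : lv D 25 < lv D 45 :=
    h.lF 2 2 0 2 4 5 (hRR 2) (by decide) (h.pos_of w0_5 2 5 0 0 (by decide))
  linarith [f1, f2, f3, f4, f5, f6, f7, f8, f9, f10, f11, f12, f13, hl2a, hl2b]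

theorem tr_17 {D : ℕ → ℕ → ℝ} (h : Cfg D)
    (hRR : ∀ i, RR D i (i + 2))
    (hb : ∀ i, 0 < D i (i + 1))
    (w2_5 : 0 < D 2 5)
    (w2_6 : 0 < D 2 6)
    (w3_5 : 0 < D 3 5)
    (w5_10 : 0 < D 5 10)
    (w9_12 : 0 < D 9 12)
    (w9_13 : 0 < D 9 13) : False := by
  have f1 : lv D 29 < lv D 2 :=
    h.lF 9 2 0 9 10 12 (hRR 9) (by decide) w9_12
  have f2 : lv D 6 < lv D 9 :=
    h.lF 7 2 0 6 9 10 (hRR 7) (by decide) (h.pos_of w5_10 6 10 0 0 (by decide))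
  have e1 : Real.exp (lv D 3 + lv D 59) = Real.exp (lv D 5 + lv D 39) + Real.exp (lv D 9 + lv D 35) :=
    h.PY 0 3 5 9 (h.sgn w5_10 0 5 0 0 (by decide)) (h.sgn w9_13 3 9 0 0 (by decide)) (h.sgp w9_13 0 3 0 1 (by decide)) (h.sgp w5_10 5 9 0 0 (by decide)) (h.sgbn hb) (h.sgp w3_5 3 5 0 0 (by decide)) rfl
  have f3 := eN e1
  have f4 : lv D 25 < lv D 35 :=
    h.lF 2 2 0 2 3 5 (hRR 2) (by decide) w2_5
  have f5 : lv D 3 < lv D 23 :=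
    h.lF 0 2 0 0 2 3 (hRR 0) (by decide) (h.pos_of w9_13 0 3 0 1 (by decide))
  have e2 : Real.exp (lv D 29 + lv D 36) = Real.exp (lv D 26 + lv D 39) + Real.exp (lv D 23 + lv D 69) :=
    h.PZ 2 3 6 9 (h.sgp w2_6 2 6 0 0 (by decide)) (h.sgn w9_13 3 9 0 0 (by decide)) (h.sgb hb 2) (h.sgp w5_10 6 9 0 0 (by decide)) (h.sgn w9_12 2 9 0 0 (by decide)) (h.sgp w2_6 3 6 0 0 (by decide)) rfl
  have f6 := eN e2
  have e3 : Real.exp (lv D 6 + lv D 25) = Real.exp (lv D 5 + lv D 26) + Real.exp (lv D 2 + lv D 56) :=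
    h.PZ 0 2 5 6 (h.sgn w5_10 0 5 0 0 (by decide)) (h.sgp w2_6 2 6 0 0 (by decide)) (h.sgp w9_12 0 2 0 1 (by decide)) (h.sgb hb 5) (h.sgn w5_10 0 6 0 0 (by decide)) (h.sgp w2_5 2 5 0 0 (by decide)) rfl
  have f7 := eN e3
  have f8 : lv D 59 < lv D 69 :=
    h.lF 6 2 0 5 6 9 (hRR 6) (by decide) (h.pos_of w5_10 5 9 0 0 (by decide))
  have f9 : lv D 36 < lv D 56 :=
    h.lF 3 2 0 3 5 6 (hRR 3) (by decide) (h.pos_of w2_6 3 6 0 0 (by decide))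
  linarith [f1, f2, f3, f4, f5, f6, f7, f8, f9, hl2a, hl2b]

theorem tr_18 {D : ℕ → ℕ → ℝ} (h : Cfg D)
    (hRR : ∀ i, RR D i (i + 2))
    (hb : ∀ i, 0 < D i (i + 1))
    (w0_3 : 0 < D 0 3)
    (w2_5 : 0 < D 2 5)
    (w2_6 : 0 < D 2 6)
    (w3_6 : 0 < D 3 6)
    (w4_10 : 0 < D 4 10)
    (w9_13 : 0 < D 9 13) : False := by
  have f1 : lv D 59 < lv D 69 :=
    h.lF 6 2 0 5 6 9 (hRR 6) (by decide) (h.pos_of w4_10 5 9 0 0 (by decide))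
  have f2 : lv D 3 < lv D 23 :=
    h.lF 0 2 0 0 2 3 (hRR 0) (by decide) w0_3
  have f3 : lv D 25 < lv D 35 :=
    h.lF 2 2 0 2 3 5 (hRR 2) (by decide) w2_5
  have f4 : lv D 36 < lv D 56 :=
    h.lF 3 2 0 3 5 6 (hRR 3) (by decide) w3_6
  have e1 : Real.exp (lv D 29 + lv D 36) = Real.exp (lv D 26 + lv D 39) + Real.exp (lv D 23 + lv D 69) :=
    h.PZ 2 3 6 9 (h.sgp w2_6 2 6 0 0 (by decide)) (h.sgn w9_13 3 9 0 0 (by decide)) (h.sgb hb 2) (h.sgp w4_10 6 9 0 0 (by decide)) (h.sgn w9_13 2 9 0 0 (by decide)) (h.sgp w3_6 3 6 0 0 (by decide)) rfl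
  have f5 := eN e1
  have e2 : Real.exp (lv D 3 + lv D 59) = Real.exp (lv D 5 + lv D 39) + Real.exp (lv D 9 + lv D 35) :=
    h.PY 0 3 5 9 (h.sgn w4_10 0 5 0 0 (by decide)) (h.sgn w9_13 3 9 0 0 (by decide)) (h.sgp w0_3 0 3 0 0 (by decide)) (h.sgp w4_10 5 9 0 0 (by decide)) (h.sgbn hb) (h.sgp w3_6 3 5 0 0 (by decide)) rfl
  have f6 := eN e2
  have f7 : lv D 6 < lv D 9 :=
    h.lF 7 2 0 6 9 10 (hRR 7) (by decide) (h.pos_of w4_10 6 10 0 0 (by decide))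
  have f8 : lv D 29 < lv D 2 :=
    h.lF 9 2 0 9 10 12 (hRR 9) (by decide) (h.pos_of w9_13 9 12 0 0 (by decide))
  have e3 : Real.exp (lv D 6 + lv D 25) = Real.exp (lv D 5 + lv D 26) + Real.exp (lv D 2 + lv D 56) :=
    h.PZ 0 2 5 6 (h.sgn w4_10 0 5 0 0 (by decide)) (h.sgp w2_6 2 6 0 0 (by decide)) (h.sgp w0_3 0 2 0 0 (by decide)) (h.sgb hb 5) (h.sgn w4_10 0 6 0 0 (by decide)) (h.sgp w2_5 2 5 0 0 (by decide)) rfl
  have f9 := eN e3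
  linarith [f1, f2, f3, f4, f5, f6, f7, f8, f9, hl2a, hl2b]

theorem tr_20 {D : ℕ → ℕ → ℝ} (h : Cfg D)
    (hRR : ∀ i, RR D i (i + 2))
    (hb : ∀ i, 0 < D i (i + 1))
    (w0_3 : 0 < D 0 3)
    (w0_4 : 0 < D 0 4)
    (w3_6 : 0 < D 3 6)
    (w3_7 : 0 < D 3 7)
    (w4_7 : 0 < D 4 7)
    (w6_12 : 0 < D 6 12) : False := by
  have f1 : lv D 36 < lv D 46 :=
    h.lF 3 2 0 3 4 6 (hRR 3) (by decide) w3_6
  have f2 : lv D 47 < lv D 67 :=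
    h.lF 4 2 0 4 6 7 (hRR 4) (by decide) w4_7
  have f3 : lv D 3 < lv D 13 :=
    h.lF 0 2 0 0 1 3 (hRR 0) (by decide) w0_3
  have e1 : Real.exp (lv D 6 + lv D 14) = Real.exp (lv D 4 + lv D 16) + Real.exp (lv D 1 + lv D 46) :=
    h.PZ 0 1 4 6 (h.sgp w0_4 0 4 0 0 (by decide)) (h.sgn w6_12 1 6 0 0 (by decide)) (h.sgb hb 0) (h.sgp w3_6 4 6 0 0 (by decide)) (h.sgn w6_12 0 6 0 0 (by decide)) (h.sgp w0_4 1 4 0 0 (by decide)) rfl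
  have f4 := eN e1
  have f5 : lv D 17 < lv D 1 :=
    h.lF 8 2 0 7 10 11 (hRR 8) (by decide) (h.pos_of w6_12 7 11 0 0 (by decide))
  have e2 : Real.exp (lv D 3 + lv D 47) = Real.exp (lv D 4 + lv D 37) + Real.exp (lv D 7 + lv D 34) :=
    h.PY 0 3 4 7 (h.sgp w0_4 0 4 0 0 (by decide)) (h.sgp w3_7 3 7 0 0 (by decide)) (h.sgp w0_3 0 3 0 0 (by decide)) (h.sgp w4_7 4 7 0 0 (by decide)) (h.sgn w6_12 0 7 0 0 (by decide)) (h.sgb hb 3) rfl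
  have f6 := eN e2
  have e3 : Real.exp (lv D 17 + lv D 36) = Real.exp (lv D 16 + lv D 37) + Real.exp (lv D 13 + lv D 67) :=
    h.PZ 1 3 6 7 (h.sgn w6_12 1 6 0 0 (by decide)) (h.sgp w3_7 3 7 0 0 (by decide)) (h.sgp w0_3 1 3 0 0 (by decide)) (h.sgb hb 6) (h.sgn w6_12 1 7 0 0 (by decide)) (h.sgp w3_6 3 6 0 0 (by decide)) rfl
  have f7 := eN e3
  have f8 : lv D 14 < lv D 34 :=
    h.lF 1 2 0 1 3 4 (hRR 1) (by decide) (h.pos_of w0_4 1 4 0 0 (by decide))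
  have f9 : lv D 6 < lv D 7 :=
    h.lF 7 2 0 6 7 10 (hRR 7) (by decide) (h.pos_of w6_12 6 10 0 0 (by decide))
  linarith [f1, f2, f3, f4, f5, f6, f7, f8, f9, hl2a, hl2b]

theorem tr_21 {D : ℕ → ℕ → ℝ} (h : Cfg D)
    (hRR : ∀ i, RR D i (i + 2))
    (hb : ∀ i, 0 < D i (i + 1))
    (w1_4 : 0 < D 1 4)
    (w4_10 : 0 < D 4 10)
    (w6_12 : 0 < D 6 12)
    (w9_12 : 0 < D 9 12) : False := by
  have f1 : lv D 9 < lv D 49 + 11317 / 10000 :=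
    h.lC 5 2 0 4 9 10 (hRR 5) (by decide) w4_10
  have f2 : lv D 69 < lv D 89 :=
    h.lF 6 2 0 6 8 9 (hRR 6) (by decide) (h.pos_of w4_10 6 9 0 0 (by decide))
  have f3 : lv D 29 < lv D 2 :=
    h.lF 9 2 0 9 10 12 (hRR 9) (by decide) w9_12
  have f4 : lv D 28 < lv D 29 :=
    h.lF 9 2 0 8 9 12 (hRR 9) (by decide) (h.pos_of w6_12 8 12 0 0 (by decide))
  have f5 : lv D 8 < lv D 58 + 11317 / 10000 :=
    h.lC 5 2 0 5 8 10 (hRR 5) (by decide) (h.pos_of w4_10 5 10 0 0 (by decide))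
  have e1 : Real.exp (lv D 27 + lv D 69) = Real.exp (lv D 26 + lv D 79) + Real.exp (lv D 29 + lv D 67) :=
    h.PX 2 6 7 9 (h.sgn w6_12 2 7 0 0 (by decide)) (h.sgp w6_12 6 9 0 0 (by decide)) (h.sgn w6_12 2 6 0 0 (by decide)) (h.sgp w6_12 7 9 0 0 (by decide)) (h.sgn w9_12 2 9 0 0 (by decide)) (h.sgb hb 6) rfl
  have f6 := eN e1
  have e2 : Real.exp (lv D 7 + lv D 28) = Real.exp (lv D 2 + lv D 78) + Real.exp (lv D 8 + lv D 27) :=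
    h.PX 0 2 7 8 (h.sgn w6_12 0 7 0 0 (by decide)) (h.sgn w6_12 2 8 0 0 (by decide)) (h.sgp w9_12 0 2 0 1 (by decide)) (h.sgb hb 7) (h.sgn w6_12 0 8 0 0 (by decide)) (h.sgn w6_12 2 7 0 0 (by decide)) rfl
  have f7 := eH e2
  have f8 : lv D 7 < lv D 9 :=
    h.lF 7 2 0 7 9 10 (hRR 7) (by decide) (h.pos_of w6_12 7 10 0 0 (by decide))
  have f9 : lv D 79 < lv D 47 + 11317 / 10000 :=
    h.lC 4 2 0 4 7 9 (hRR 4) (by decide) (h.pos_of w4_10 4 9 0 0 (by decide))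
  have f10 : lv D 47 < lv D 67 :=
    h.lF 4 2 0 4 6 7 (hRR 4) (by decide) (h.pos_of w4_10 4 7 0 0 (by decide))
  have e3 : Real.exp (lv D 19 + lv D 24) = Real.exp (lv D 14 + lv D 29) + Real.exp (lv D 12 + lv D 49) :=
    h.PZ 1 2 4 9 (h.sgp w1_4 1 4 0 0 (by decide)) (h.sgn w9_12 2 9 0 0 (by decide)) (h.sgb hb 1) (h.sgp w4_10 4 9 0 0 (by decide)) (h.sgn w9_12 1 9 0 0 (by decide)) (h.sgp w1_4 2 4 0 0 (by decide)) rfl
  have f11 := eN e3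
  have e4 : Real.exp (lv D 68 + lv D 79) = Real.exp (lv D 67 + lv D 89) + Real.exp (lv D 69 + lv D 78) :=
    h.PX 6 7 8 9 (h.sgp w6_12 6 8 0 0 (by decide)) (h.sgp w6_12 7 9 0 0 (by decide)) (h.sgb hb 6) (h.sgb hb 8) (h.sgp w6_12 6 9 0 0 (by decide)) (h.sgb hb 7) rfl
  have f12 := eH e4
  have f13 : lv D 29 < lv D 12 :=
    h.lF 9 2 0 9 11 12 (hRR 9) (by decide) w9_12
  have f14 : lv D 19 < lv D 69 + 11317 / 10000 :=
    h.lC 6 2 0 6 9 11 (hRR 6) (by decide) (h.pos_of w6_12 6 11 0 0 (by decide))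
  have e5 : Real.exp (lv D 2 + lv D 47) = Real.exp (lv D 4 + lv D 27) + Real.exp (lv D 7 + lv D 24) :=
    h.PY 0 2 4 7 (h.sgn w4_10 0 4 0 0 (by decide)) (h.sgn w6_12 2 7 0 0 (by decide)) (h.sgp w9_12 0 2 0 1 (by decide)) (h.sgp w4_10 4 7 0 0 (by decide)) (h.sgn w6_12 0 7 0 0 (by decide)) (h.sgp w1_4 2 4 0 0 (by decide)) rfl
  have f15 := eN e5
  have e6 : Real.exp (lv D 8 + lv D 69) = Real.exp (lv D 6 + lv D 89) + Real.exp (lv D 9 + lv D 68) :=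
    h.PX 0 6 8 9 (h.sgn w6_12 0 8 0 0 (by decide)) (h.sgp w6_12 6 9 0 0 (by decide)) (h.sgn w6_12 0 6 0 0 (by decide)) (h.sgb hb 8) (h.sgbn hb) (h.sgp w6_12 6 8 0 0 (by decide)) rfl
  have f16 := eH e6
  have f17 : lv D 58 < lv D 78 :=
    h.lF 5 2 0 5 7 8 (hRR 5) (by decide) (h.pos_of w4_10 5 8 0 0 (by decide))
  have e7 : Real.exp (lv D 6 + lv D 29) = Real.exp (lv D 2 + lv D 69) + Real.exp (lv D 9 + lv D 26) :=
    h.PX 0 2 6 9 (h.sgn w6_12 0 6 0 0 (by decide)) (h.sgn w9_12 2 9 0 0 (by decide)) (h.sgp w9_12 0 2 0 1 (by decide)) (h.sgp w6_12 6 9 0 0 (by decide)) (h.sgbn hb) (h.sgn w6_12 2 6 0 0 (by decide)) rfl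
  have f18 := eM e7
  linarith [f1, f2, f3, f4, f5, f6, f7, f8, f9, f10, f11, f12, f13, f14, f15, f16, f17, f18, hl2a, hl2b]

theorem tr_22 {D : ℕ → ℕ → ℝ} (h : Cfg D)
    (hRR : ∀ i, RR D i (i + 2))
    (hb : ∀ i, 0 < D i (i + 1))
    (w0_3 : 0 < D 0 3)
    (w6_12 : 0 < D 6 12)
    (w7_13 : 0 < D 7 13)
    (w9_11 : 0 < D 9 11) : False := by
  have e1 : Real.exp (lv D 3 + lv D 19) = Real.exp (lv D 1 + lv D 39) + Real.exp (lv D 9 + lv D 13) :=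
    h.PX 0 1 3 9 (h.sgp w0_3 0 3 0 0 (by decide)) (h.sgn w9_11 1 9 0 0 (by decide)) (h.sgb hb 0) (h.sgn w7_13 3 9 0 0 (by decide)) (h.sgbn hb) (h.sgp w0_3 1 3 0 0 (by decide)) rfl
  have f1 := eH e1
  have f2 : lv D 19 < lv D 69 + 11317 / 10000 :=
    h.lC 6 2 0 6 9 11 (hRR 6) (by decide) (h.pos_of w6_12 6 11 0 0 (by decide))
  have f3 : lv D 29 < lv D 12 :=
    h.lF 9 2 0 9 11 12 (hRR 9) (by decide) (h.pos_of w6_12 9 12 0 0 (by decide))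
  have f4 : lv D 17 < lv D 18 :=
    h.lF 7 2 0 7 8 11 (hRR 7) (by decide) (h.pos_of w6_12 7 11 0 0 (by decide))
  have f5 : lv D 29 < lv D 69 + 11317 / 10000 :=
    h.lC 6 2 0 6 9 12 (hRR 6) (by decide) w6_12
  have e2 : Real.exp (lv D 13 + lv D 27) = Real.exp (lv D 12 + lv D 37) + Real.exp (lv D 17 + lv D 23) :=
    h.PX 1 2 3 7 (h.sgp w0_3 1 3 0 0 (by decide)) (h.sgn w6_12 2 7 0 0 (by decide)) (h.sgb hb 1) (h.sgn w7_13 3 7 0 0 (by decide)) (h.sgn w6_12 1 7 0 0 (by decide)) (h.sgb hb 2) rfl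
  have f6 := eN e2
  have e3 : Real.exp (lv D 17 + lv D 29) = Real.exp (lv D 12 + lv D 79) + Real.exp (lv D 19 + lv D 27) :=
    h.PX 1 2 7 9 (h.sgn w6_12 1 7 0 0 (by decide)) (h.sgn w6_12 2 9 0 0 (by decide)) (h.sgb hb 1) (h.sgp w6_12 7 9 0 0 (by decide)) (h.sgn w9_11 1 9 0 0 (by decide)) (h.sgn w6_12 2 7 0 0 (by decide)) rfl
  have f7 := eH e3
  have f8 : lv D 7 < lv D 9 :=
    h.lF 7 2 0 7 9 10 (hRR 7) (by decide) (h.pos_of w6_12 7 10 0 0 (by decide))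
  have f9 : lv D 69 < lv D 79 :=
    h.lF 6 2 0 6 7 9 (hRR 6) (by decide) (h.pos_of w6_12 6 9 0 0 (by decide))
  have f10 : lv D 3 < lv D 23 :=
    h.lF 0 2 0 0 2 3 (hRR 0) (by decide) w0_3
  have f11 : lv D 18 < lv D 1 :=
    h.lF 8 2 0 8 10 11 (hRR 8) (by decide) (h.pos_of w6_12 8 11 0 0 (by decide))
  have e4 : Real.exp (lv D 7 + lv D 39) = Real.exp (lv D 3 + lv D 79) + Real.exp (lv D 9 + lv D 37) :=
    h.PX 0 3 7 9 (h.sgn w6_12 0 7 0 0 (by decide)) (h.sgn w7_13 3 9 0 0 (by decide)) (h.sgp w0_3 0 3 0 0 (by decide)) (h.sgp w6_12 7 9 0 0 (by decide)) (h.sgbn hb) (h.sgn w7_13 3 7 0 0 (by decide)) rfl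
  have f12 := eM e4
  linarith [f1, f2, f3, f4, f5, f6, f7, f8, f9, f10, f11, f12, hl2a, hl2b]

theorem tr_23 {D : ℕ → ℕ → ℝ} (h : Cfg D)
    (hRR : ∀ i, RR D i (i + 2))
    (hb : ∀ i, 0 < D i (i + 1))
    (w2_9 : 0 < D 2 9) : False := by
  have f1 : lv D 69 < lv D 89 :=
    h.lF 6 2 0 6 8 9 (hRR 6) (by decide) (h.pos_of w2_9 6 9 0 0 (by decide))
  have f2 : lv D 58 < lv D 68 :=
    h.lF 5 2 0 5 6 8 (hRR 5) (by decide) (h.pos_of w2_9 5 8 0 0 (by decide))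
  have e1 : Real.exp (lv D 26 + lv D 59) = Real.exp (lv D 25 + lv D 69) + Real.exp (lv D 29 + lv D 56) :=
    h.PX 2 5 6 9 (h.sgp w2_9 2 6 0 0 (by decide)) (h.sgp w2_9 5 9 0 0 (by decide)) (h.sgp w2_9 2 5 0 0 (by decide)) (h.sgp w2_9 6 9 0 0 (by decide)) (h.sgp w2_9 2 9 0 0 (by decide)) (h.sgb hb 5) rfl
  have f3 := eM e1
  have f4 : lv D 26 < lv D 56 :=
    h.lF 3 2 0 2 5 6 (hRR 3) (by decide) (h.pos_of w2_9 2 6 0 0 (by decide))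
  have e2 : Real.exp (lv D 58 + lv D 69) = Real.exp (lv D 56 + lv D 89) + Real.exp (lv D 59 + lv D 68) :=
    h.PX 5 6 8 9 (h.sgp w2_9 5 8 0 0 (by decide)) (h.sgp w2_9 6 9 0 0 (by decide)) (h.sgb hb 5) (h.sgb hb 8) (h.sgp w2_9 5 9 0 0 (by decide)) (h.sgp w2_9 6 8 0 0 (by decide)) rfl
  have f5 := eH e2
  have f6 : lv D 58 < lv D 25 + 11317 / 10000 :=
    h.lC 2 2 0 2 5 8 (hRR 2) (by decide) (h.pos_of w2_9 2 8 0 0 (by decide))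
  linarith [f1, f2, f3, f4, f5, f6, hl2a, hl2b]

theorem tr_25 {D : ℕ → ℕ → ℝ} (h : Cfg D)
    (hRR : ∀ i, RR D i (i + 2))
    (hb : ∀ i, 0 < D i (i + 1))
    (w8_15 : 0 < D 8 15) : False := by
  have f1 : lv D 25 < lv D 45 :=
    h.lF 2 2 0 2 4 5 (hRR 2) (by decide) (h.pos_of w8_15 2 5 0 1 (by decide))
  have f2 : lv D 14 < lv D 24 :=
    h.lF 1 2 0 1 2 4 (hRR 1) (by decide) (h.pos_of w8_15 1 4 0 1 (by decide))
  have f3 : lv D 14 < lv D 18 + 11317 / 10000 :=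
    h.lC 8 2 0 8 11 14 (hRR 8) (by decide) (h.pos_of w8_15 8 14 0 0 (by decide))
  have e1 : Real.exp (lv D 14 + lv D 25) = Real.exp (lv D 12 + lv D 45) + Real.exp (lv D 15 + lv D 24) :=
    h.PX 1 2 4 5 (h.sgp w8_15 1 4 0 1 (by decide)) (h.sgp w8_15 2 5 0 1 (by decide)) (h.sgb hb 1) (h.sgb hb 4) (h.sgp w8_15 1 5 0 1 (by decide)) (h.sgp w8_15 2 4 0 1 (by decide)) rfl
  have f4 := eH e1
  have e2 : Real.exp (lv D 15 + lv D 28) = Real.exp (lv D 12 + lv D 58) + Real.exp (lv D 18 + lv D 25) :=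
    h.PX 1 2 5 8 (h.sgp w8_15 1 5 0 1 (by decide)) (h.sgn w8_15 2 8 0 0 (by decide)) (h.sgb hb 1) (h.sgn w8_15 5 8 0 0 (by decide)) (h.sgn w8_15 1 8 0 0 (by decide)) (h.sgp w8_15 2 5 0 1 (by decide)) rfl
  have f5 := eN e2
  have f6 : lv D 28 < lv D 12 :=
    h.lF 9 2 0 8 11 12 (hRR 9) (by decide) (h.pos_of w8_15 8 12 0 0 (by decide))
  linarith [f1, f2, f3, f4, f5, f6, hl2a, hl2b]

theorem tr_27 {D : ℕ → ℕ → ℝ} (h : Cfg D)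
    (hRR : ∀ i, RR D i (i + 2))
    (hb : ∀ i, 0 < D i (i + 1))
    (w4_11 : 0 < D 4 11) : False := by
  have f1 : lv D 7 < lv D 47 + 11317 / 10000 :=
    h.lC 4 2 0 4 7 10 (hRR 4) (by decide) (h.pos_of w4_11 4 10 0 0 (by decide))
  have f2 : lv D 18 < lv D 1 :=
    h.lF 8 2 0 8 10 11 (hRR 8) (by decide) (h.pos_of w4_11 8 11 0 0 (by decide))
  have f3 : lv D 7 < lv D 8 :=
    h.lF 7 2 0 7 8 10 (hRR 7) (by decide) (h.pos_of w4_11 7 10 0 0 (by decide))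
  have e1 : Real.exp (lv D 4 + lv D 18) = Real.exp (lv D 1 + lv D 48) + Real.exp (lv D 8 + lv D 14) :=
    h.PX 0 1 4 8 (h.sgn w4_11 0 4 0 0 (by decide)) (h.sgn w4_11 1 8 0 0 (by decide)) (h.sgb hb 0) (h.sgp w4_11 4 8 0 0 (by decide)) (h.sgn w4_11 0 8 0 0 (by decide)) (h.sgn w4_11 1 4 0 0 (by decide)) rfl
  have f4 := eM e1
  have f5 : lv D 48 < lv D 78 :=
    h.lF 5 2 0 4 7 8 (hRR 5) (by decide) (h.pos_of w4_11 4 8 0 0 (by decide))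
  have e2 : Real.exp (lv D 7 + lv D 48) = Real.exp (lv D 4 + lv D 78) + Real.exp (lv D 8 + lv D 47) :=
    h.PX 0 4 7 8 (h.sgn w4_11 0 7 0 0 (by decide)) (h.sgp w4_11 4 8 0 0 (by decide)) (h.sgn w4_11 0 4 0 0 (by decide)) (h.sgb hb 7) (h.sgn w4_11 0 8 0 0 (by decide)) (h.sgp w4_11 4 7 0 0 (by decide)) rfl
  have f6 := eH e2
  linarith [f1, f2, f3, f4, f5, f6, hl2a, hl2b]

theorem tr_29 {D : ℕ → ℕ → ℝ} (h : Cfg D)
    (hRR : ∀ i, RR D i (i + 2))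
    (hb : ∀ i, 0 < D i (i + 1))
    (w0_2 : 0 < D 0 2)
    (w6_13 : 0 < D 6 13) : False := by
  have e1 : Real.exp (lv D 2 + lv D 19) = Real.exp (lv D 1 + lv D 29) + Real.exp (lv D 9 + lv D 12) :=
    h.PX 0 1 2 9 (h.sgp w0_2 0 2 0 0 (by decide)) (h.sgn w6_13 1 9 0 0 (by decide)) (h.sgb hb 0) (h.sgn w6_13 2 9 0 0 (by decide)) (h.sgbn hb) (h.sgb hb 1) rfl
  have f1 := eH e1
  have f2 : lv D 3 < lv D 23 :=
    h.lF 0 2 0 0 2 3 (hRR 0) (by decide) (h.pos_of w6_13 0 3 0 1 (by decide))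
  have e2 : Real.exp (lv D 7 + lv D 19) = Real.exp (lv D 1 + lv D 79) + Real.exp (lv D 9 + lv D 17) :=
    h.PX 0 1 7 9 (h.sgn w6_13 0 7 0 0 (by decide)) (h.sgn w6_13 1 9 0 0 (by decide)) (h.sgb hb 0) (h.sgp w6_13 7 9 0 0 (by decide)) (h.sgbn hb) (h.sgn w6_13 1 7 0 0 (by decide)) rfl
  have f3 := eH e2
  have e3 : Real.exp (lv D 3 + lv D 16) = Real.exp (lv D 1 + lv D 36) + Real.exp (lv D 6 + lv D 13) :=
    h.PX 0 1 3 6 (h.sgp w6_13 0 3 0 1 (by decide)) (h.sgn w6_13 1 6 0 0 (by decide)) (h.sgb hb 0) (h.sgn w6_13 3 6 0 0 (by decide)) (h.sgn w6_13 0 6 0 0 (by decide)) (h.sgp w6_13 1 3 0 1 (by decide)) rfl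
  have f4 := eN e3
  have f5 : lv D 9 < lv D 69 + 11317 / 10000 :=
    h.lC 6 2 0 6 9 10 (hRR 6) (by decide) (h.pos_of w6_13 6 10 0 0 (by decide))
  have e4 : Real.exp (lv D 7 + lv D 69) = Real.exp (lv D 6 + lv D 79) + Real.exp (lv D 9 + lv D 67) :=
    h.PX 0 6 7 9 (h.sgn w6_13 0 7 0 0 (by decide)) (h.sgp w6_13 6 9 0 0 (by decide)) (h.sgn w6_13 0 6 0 0 (by decide)) (h.sgp w6_13 7 9 0 0 (by decide)) (h.sgbn hb) (h.sgb hb 6) rfl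
  have f6 := eM e4
  have f7 : lv D 19 < lv D 69 + 11317 / 10000 :=
    h.lC 6 2 0 6 9 11 (hRR 6) (by decide) (h.pos_of w6_13 6 11 0 0 (by decide))
  have e5 : Real.exp (lv D 16 + lv D 29) = Real.exp (lv D 12 + lv D 69) + Real.exp (lv D 19 + lv D 26) :=
    h.PX 1 2 6 9 (h.sgn w6_13 1 6 0 0 (by decide)) (h.sgn w6_13 2 9 0 0 (by decide)) (h.sgb hb 1) (h.sgp w6_13 6 9 0 0 (by decide)) (h.sgn w6_13 1 9 0 0 (by decide)) (h.sgn w6_13 2 6 0 0 (by decide)) rfl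
  have f8 := eH e5
  have f9 : lv D 69 < lv D 79 :=
    h.lF 6 2 0 6 7 9 (hRR 6) (by decide) (h.pos_of w6_13 6 9 0 0 (by decide))
  have f10 : lv D 29 < lv D 12 :=
    h.lF 9 2 0 9 11 12 (hRR 9) (by decide) (h.pos_of w6_13 9 12 0 0 (by decide))
  have f11 : lv D 7 < lv D 9 :=
    h.lF 7 2 0 7 9 10 (hRR 7) (by decide) (h.pos_of w6_13 7 10 0 0 (by decide))
  have f12 : lv D 2 < lv D 6 + 11317 / 10000 :=
    h.lC 7 2 0 6 10 12 (hRR 7) (by decide) (h.pos_of w6_13 6 12 0 0 (by decide))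
  have f13 : lv D 16 < lv D 1 :=
    h.lF 8 2 0 6 10 11 (hRR 8) (by decide) (h.pos_of w6_13 6 11 0 0 (by decide))
  have e6 : Real.exp (lv D 6 + lv D 17) = Real.exp (lv D 1 + lv D 67) + Real.exp (lv D 7 + lv D 16) :=
    h.PX 0 1 6 7 (h.sgn w6_13 0 6 0 0 (by decide)) (h.sgn w6_13 1 7 0 0 (by decide)) (h.sgb hb 0) (h.sgb hb 6) (h.sgn w6_13 0 7 0 0 (by decide)) (h.sgn w6_13 1 6 0 0 (by decide)) rfl
  have f14 := eN e6
  have e7 : Real.exp (lv D 13 + lv D 26) = Real.exp (lv D 12 + lv D 36) + Real.exp (lv D 16 + lv D 23) :=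
    h.PX 1 2 3 6 (h.sgp w6_13 1 3 0 1 (by decide)) (h.sgn w6_13 2 6 0 0 (by decide)) (h.sgb hb 1) (h.sgn w6_13 3 6 0 0 (by decide)) (h.sgn w6_13 1 6 0 0 (by decide)) (h.sgb hb 2) rfl
  have f15 := eN e7
  linarith [f1, f2, f3, f4, f5, f6, f7, f8, f9, f10, f11, f12, f13, f14, f15, hl2a, hl2b]

theorem tr_30 {D : ℕ → ℕ → ℝ} (h : Cfg D)
    (hRR : ∀ i, RR D i (i + 2))
    (hb : ∀ i, 0 < D i (i + 1))
    (w5_13 : 0 < D 5 13) : False := by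
  have f1 : lv D 6 < lv D 9 :=
    h.lF 7 2 0 6 9 10 (hRR 7) (by decide) (h.pos_of w5_13 6 10 0 0 (by decide))
  have f2 : lv D 29 < lv D 59 + 11317 / 10000 :=
    h.lC 5 2 0 5 9 12 (hRR 5) (by decide) (h.pos_of w5_13 5 12 0 0 (by decide))
  have f3 : lv D 29 < lv D 2 :=
    h.lF 9 2 0 9 10 12 (hRR 9) (by decide) (h.pos_of w5_13 9 12 0 0 (by decide))
  have f4 : lv D 5 < lv D 6 :=
    h.lF 5 2 0 5 6 10 (hRR 5) (by decide) (h.pos_of w5_13 5 10 0 0 (by decide))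
  have e1 : Real.exp (lv D 5 + lv D 29) = Real.exp (lv D 2 + lv D 59) + Real.exp (lv D 9 + lv D 25) :=
    h.PX 0 2 5 9 (h.sgn w5_13 0 5 0 0 (by decide)) (h.sgn w5_13 2 9 0 0 (by decide)) (h.sgp w5_13 0 2 0 1 (by decide)) (h.sgp w5_13 5 9 0 0 (by decide)) (h.sgbn hb) (h.sgn w5_13 2 5 0 0 (by decide)) rfl
  have f5 := eH e1
  have f6 : lv D 3 < lv D 23 :=
    h.lF 0 2 0 0 2 3 (hRR 0) (by decide) (h.pos_of w5_13 0 3 0 1 (by decide))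
  have e2 : Real.exp (lv D 25 + lv D 39) = Real.exp (lv D 23 + lv D 59) + Real.exp (lv D 29 + lv D 35) :=
    h.PX 2 3 5 9 (h.sgn w5_13 2 5 0 0 (by decide)) (h.sgn w5_13 3 9 0 0 (by decide)) (h.sgb hb 2) (h.sgp w5_13 5 9 0 0 (by decide)) (h.sgn w5_13 2 9 0 0 (by decide)) (h.sgn w5_13 3 5 0 0 (by decide)) rfl
  have f7 := eM e2
  have e3 : Real.exp (lv D 3 + lv D 29) = Real.exp (lv D 2 + lv D 39) + Real.exp (lv D 9 + lv D 23) :=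
    h.PX 0 2 3 9 (h.sgp w5_13 0 3 0 1 (by decide)) (h.sgn w5_13 2 9 0 0 (by decide)) (h.sgp w5_13 0 2 0 1 (by decide)) (h.sgn w5_13 3 9 0 0 (by decide)) (h.sgbn hb) (h.sgb hb 2) rfl
  have f8 := eH e3
  linarith [f1, f2, f3, f4, f5, f6, f7, f8, hl2a, hl2b]

theorem tr_31 {D : ℕ → ℕ → ℝ} (h : Cfg D)
    (hRR : ∀ i, RR D i (i + 2))
    (hb : ∀ i, 0 < D i (i + 1))
    (w9_17 : 0 < D 9 17) : False := by
  have f1 : lv D 26 < lv D 29 + 11317 / 10000 :=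
    h.lC 9 2 0 9 12 16 (hRR 9) (by decide) (h.pos_of w9_17 9 16 0 0 (by decide))
  have f2 : lv D 26 < lv D 36 :=
    h.lF 3 2 0 2 3 6 (hRR 3) (by decide) (h.pos_of w9_17 2 6 0 1 (by decide))
  have f3 : lv D 37 < lv D 67 :=
    h.lF 4 2 0 3 6 7 (hRR 4) (by decide) (h.pos_of w9_17 3 7 0 1 (by decide))
  have e1 : Real.exp (lv D 27 + lv D 39) = Real.exp (lv D 23 + lv D 79) + Real.exp (lv D 29 + lv D 37) :=
    h.PX 2 3 7 9 (h.sgp w9_17 2 7 0 1 (by decide)) (h.sgn w9_17 3 9 0 0 (by decide)) (h.sgb hb 2) (h.sgn w9_17 7 9 0 0 (by decide)) (h.sgn w9_17 2 9 0 0 (by decide)) (h.sgp w9_17 3 7 0 1 (by decide)) rfl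
  have f4 := eN e1
  have e2 : Real.exp (lv D 26 + lv D 37) = Real.exp (lv D 23 + lv D 67) + Real.exp (lv D 27 + lv D 36) :=
    h.PX 2 3 6 7 (h.sgp w9_17 2 6 0 1 (by decide)) (h.sgp w9_17 3 7 0 1 (by decide)) (h.sgb hb 2) (h.sgb hb 6) (h.sgp w9_17 2 7 0 1 (by decide)) (h.sgp w9_17 3 6 0 1 (by decide)) rfl
  have f5 := eH e2
  have f6 : lv D 39 < lv D 23 :=
    h.lF 0 2 1 9 12 13 (hRR 0) (by decide) (h.pos_of w9_17 9 13 0 0 (by decide))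
  linarith [f1, f2, f3, f4, f5, f6, hl2a, hl2b]

end Pool.Agent.H768.PL
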